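import Mathlib

/-! # UMB.Lin, chunk M2: the trace of a product of a positive and a negative matrix -/

open scoped BigOperators

namespace UMB.Lin

open scoped MatrixOrder in
theorem m2_sqrt (A : Matrix (Fin 3) (Fin 3) ℝ) (hA : A.PosSemidef) :
    ∃ X : Matrix (Fin 3) (Fin 3) ℝ, X.transpose = X ∧ X * X = A := by
  obtain ⟨X, hX, -, hXX⟩ := CFC.exists_sqrt_of_isSelfAdjoint_of_quasispectrumRestricts hA.isHermitian
    (QuasispectrumRestricts.nnreal_of_nonneg hA.nonneg)
  refine ⟨X, ?_, hXX⟩
  have h := hX.star_eq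
  rw [Matrix.star_eq_conjTranspose] at h
  rw [← Matrix.conjTranspose_eq_transpose_of_trivial]
  exact h

/-- Spectral theorem for the symmetric matrix `A` (or `Matrix.PosSemidef` square root / a sum of
squares): `A = ∑ l_k e_k e_k^T`, `l_k ≥ 0`. -/
theorem trace_nonpos {A M : Fin 3 → Fin 3 → ℝ} (hA : ∀ i j, A i j = A j i)
    (hpos : ∀ ζ : Fin 3 → ℝ, 0 ≤ ∑ i, ∑ j, A i j * ζ i * ζ j)
    (hneg : ∀ ζ : Fin 3 → ℝ, ∑ i, ∑ j, M i j * ζ i * ζ j ≤ 0) :
    ∑ i, ∑ j, A i j * M i j ≤ 0 := by
  have hP : (Matrix.of A).PosSemidef := by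
    refine Matrix.PosSemidef.of_dotProduct_mulVec_nonneg ?_ ?_
    · ext i j
      simp [Matrix.conjTranspose_apply, hA j i]
    · intro x
      have h := hpos x
      have e : star x ⬝ᵥ (Matrix.of A).mulVec x = ∑ i, ∑ j, A i j * x i * x j := by
        simp only [dotProduct, Matrix.mulVec, Matrix.of_apply, Pi.star_apply, star_trivial,
          Finset.mul_sum]
        exact Finset.sum_congr rfl fun i _ => Finset.sum_congr rfl fun j _ => by ring
      rw [e]; exact h
  obtain ⟨X, hXs, hXX⟩ := m2_sqrt _ hP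
  have hs : ∀ i k, X k i = X i k := fun i k => by
    have := congrFun (congrFun hXs i) k
    simpa [Matrix.transpose_apply] using this
  have hAX : ∀ i j, A i j = ∑ k, X i k * X k j := fun i j => by
    have := congrFun (congrFun hXX i) j
    rw [Matrix.mul_apply] at this
    simpa using this.symm
  have key : ∑ i, ∑ j, A i j * M i j = ∑ k, ∑ i, ∑ j, M i j * X i k * X j k := by
    calc ∑ i, ∑ j, A i j * M i j = ∑ i, ∑ j, ∑ k, M i j * X i k * X j k := by
          refine Finset.sum_congr rfl fun i _ => Finset.sum_congr rfl fun j _ => ?_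
          rw [hAX, Finset.sum_mul]
          refine Finset.sum_congr rfl fun k _ => ?_
          rw [hs j k]; ring
      _ = ∑ k, ∑ i, ∑ j, M i j * X i k * X j k := by
          rw [Finset.sum_comm' (t' := Finset.univ) (s' := fun _ => Finset.univ) (by simp)]
          simp only [Fin.sum_univ_three]
          ring
  rw [key]
  exact Finset.sum_nonpos fun k _ => hneg fun i => X i k

end UMB.Lin
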