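import Pool.Agent.Lib.UMB.Lin.M5

/-! # UMB.Lin, chunk M6: two-sided radial barriers, positivity and Hopf at both spheres -/

open scoped ContDiff BigOperators Topology
open Set MeasureTheory Filter Pool.Agent.Lib.PenroseSph

namespace UMB.Lin

/-- lower barrier: `1` on the unit sphere, `0` on the outer sphere -/
noncomputable def wlo (R κ : ℝ) (x : E3) : ℝ :=
  (Real.exp (-κ * ‖x‖ ^ 2) - Real.exp (-κ * R ^ 2)) / (Real.exp (-κ) - Real.exp (-κ * R ^ 2))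

/-- upper barrier -/
noncomputable def whi (R κ : ℝ) (x : E3) : ℝ :=
  (Real.exp (κ * R ^ 2) - Real.exp (κ * ‖x‖ ^ 2)) / (Real.exp (κ * R ^ 2) - Real.exp κ)

theorem m6_d1 {R κ : ℝ} (hR : 1 < R) (hκ : 1 ≤ κ) : 0 < Real.exp (-κ) - Real.exp (-κ * R ^ 2) := by
  have : -κ * R ^ 2 < -κ := by nlinarith [mul_self_nonneg (R - 1)]
  linarith [Real.exp_lt_exp.2 this]

theorem m6_d2 {R κ : ℝ} (hR : 1 < R) (hκ : 1 ≤ κ) : 0 < Real.exp (κ * R ^ 2) - Real.exp κ := by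
  have : κ < κ * R ^ 2 := by nlinarith [mul_self_nonneg (R - 1)]
  linarith [Real.exp_lt_exp.2 this]

theorem m6_wlo_eq (R κ : ℝ) : wlo R κ = fun y : E3 =>
    (1 / (Real.exp (-κ) - Real.exp (-κ * R ^ 2))) * Real.exp (-κ * ‖y‖ ^ 2) +
      (-Real.exp (-κ * R ^ 2) / (Real.exp (-κ) - Real.exp (-κ * R ^ 2))) * 1 := by
  funext y
  rw [wlo]
  ring

theorem m6_whi_eq (R κ : ℝ) : whi R κ = fun y : E3 =>
    (-1 / (Real.exp (κ * R ^ 2) - Real.exp κ)) * Real.exp (κ * ‖y‖ ^ 2) +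
      (Real.exp (κ * R ^ 2) / (Real.exp (κ * R ^ 2) - Real.exp κ)) * 1 := by
  funext y
  rw [whi]
  ring

theorem m6_c2c {R : ℝ} {f : E3 → ℝ} (hf : C2c R f) (s t : ℝ) :
    C2c R (fun y => s * f y + t * 1) :=
  ⟨fun x hx => (contDiffAt_const.mul (hf.c2 x hx)).add contDiffAt_const,
    (continuousOn_const.mul hf.cont).add continuousOn_const⟩

/-- `wlo` is a subsolution (`exp_neg_sub`), `whi` a supersolution (`exp_sub`) of every operator
with `c = 0`; `comparison`. -/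
theorem two_sided {R lam B : ℝ} (hR : 1 < R) (hlam : 0 < lam) (hB : 0 ≤ B)
    {a : Fin 3 → Fin 3 → E3 → ℝ} {b : Fin 3 → E3 → ℝ} (h : CGood R lam B a b (fun _ => 0))
    {v : E3 → ℝ} (hv : C2c R v) (hL : ∀ x ∈ Ann R, Lc a b (fun _ => 0) v x = 0)
    (h1 : ∀ x, ‖x‖ = 1 → v x = 1) (hRv : ∀ x, ‖x‖ = R → v x = 0) :
    ∀ x ∈ cAnn R, wlo R (kp R lam B) x ≤ v x ∧ v x ≤ whi R (kp R lam B) x := by
  obtain ⟨κ, hκ⟩ : ∃ κ, κ = kp R lam B := ⟨_, rfl⟩
  have hκ1 : 1 ≤ κ := by rw [hκ]; exact kp_pos hR hlam hB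
  have hd1 := m6_d1 hR hκ1
  have hd2 := m6_d2 hR hκ1
  rw [← hκ]
  have hclo : C2c R (wlo R κ) := by
    rw [m6_wlo_eq]
    exact m6_c2c (C2c_exp R (-κ)) _ _
  have hchi : C2c R (whi R κ) := by
    rw [m6_whi_eq]
    exact m6_c2c (C2c_exp R κ) _ _
  have hLlo : ∀ x ∈ Ann R, 0 < Lc a b (fun _ => 0) (wlo R κ) x := by
    intro x hx
    rw [m6_wlo_eq, Lc_add_mul ((C2c_exp R (-κ)).c2 x hx) contDiffAt_const, Lc_const]
    have h2 := exp_neg_sub hR hlam hB h hκ.ge hx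
    have : 0 < 1 / (Real.exp (-κ) - Real.exp (-κ * R ^ 2)) := by positivity
    have := mul_pos this h2
    simpa using this
  have hLhi : ∀ x ∈ Ann R, Lc a b (fun _ => 0) (whi R κ) x < 0 := by
    intro x hx
    rw [m6_whi_eq, Lc_add_mul ((C2c_exp R κ).c2 x hx) contDiffAt_const, Lc_const]
    have h2 := exp_sub hR hlam hB h hκ.ge hx
    have : -1 / (Real.exp (κ * R ^ 2) - Real.exp κ) < 0 := div_neg_of_neg_of_pos (by norm_num) hd2
    have := mul_neg_of_neg_of_pos this h2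
    simpa using this
  have hlo1 : ∀ x : E3, ‖x‖ = 1 → wlo R κ x = 1 := by
    intro x hx
    rw [wlo, hx, one_pow, mul_one, div_self hd1.ne']
  have hloR : ∀ x : E3, ‖x‖ = R → wlo R κ x = 0 := by
    intro x hx
    rw [wlo, hx, sub_self, zero_div]
  have hhi1 : ∀ x : E3, ‖x‖ = 1 → whi R κ x = 1 := by
    intro x hx
    rw [whi, hx, one_pow, mul_one, div_self hd2.ne']
  have hhiR : ∀ x : E3, ‖x‖ = R → whi R κ x = 0 := by
    intro x hx
    rw [whi, hx, sub_self, zero_div]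
  intro x hx
  constructor
  · refine comparison hR hlam hB h hclo hv (fun y hy => ?_) (fun y hy => ?_) x hx
    · rw [hL y hy]
      exact (hLlo y hy).le
    · rcases hy with hy | hy
      · rw [hlo1 y hy, h1 y hy]
      · rw [hloR y hy, hRv y hy]
  · refine comparison hR hlam hB h hv hchi (fun y hy => ?_) (fun y hy => ?_) x hx
    · rw [hL y hy]
      exact (hLhi y hy).le
    · rcases hy with hy | hy
      · rw [hhi1 y hy, h1 y hy]
      · rw [hhiR y hy, hRv y hy]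

theorem between {R lam B : ℝ} (hR : 1 < R) (hlam : 0 < lam) (hB : 0 ≤ B)
    {a : Fin 3 → Fin 3 → E3 → ℝ} {b : Fin 3 → E3 → ℝ} (h : CGood R lam B a b (fun _ => 0))
    {v : E3 → ℝ} (hv : C2c R v) (hL : ∀ x ∈ Ann R, Lc a b (fun _ => 0) v x = 0)
    (h1 : ∀ x, ‖x‖ = 1 → v x = 1) (hRv : ∀ x, ‖x‖ = R → v x = 0) :
    ∀ x ∈ Ann R, 0 < v x ∧ v x < 1 := by
  intro x hx
  have hκ1 := kp_pos hR hlam hB
  have hd1 := m6_d1 hR hκ1
  have hd2 := m6_d2 hR hκ1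
  obtain ⟨h2, h3⟩ := two_sided hR hlam hB h hv hL h1 hRv x ⟨hx.1.le, hx.2.le⟩
  constructor
  · refine lt_of_lt_of_le ?_ h2
    rw [wlo]
    refine div_pos ?_ hd1
    have : -kp R lam B * R ^ 2 < -kp R lam B * ‖x‖ ^ 2 := by
      have h4 : ‖x‖ ^ 2 < R ^ 2 := by nlinarith [hx.1, hx.2]
      nlinarith
    linarith [Real.exp_lt_exp.2 this]
  · refine lt_of_le_of_lt h3 ?_
    rw [whi, div_lt_one hd2]
    have : kp R lam B < kp R lam B * ‖x‖ ^ 2 := by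
      have h4 : 1 < ‖x‖ ^ 2 := by nlinarith [hx.1]
      nlinarith
    linarith [Real.exp_lt_exp.2 this]

theorem m6_right {φ : ℝ → ℝ} {φ' δ : ℝ} (h : HasDerivAt φ φ' 1) (h1 : φ 1 = 0) (hδ : 1 < δ)
    (hpos : ∀ t ∈ Ioo 1 δ, 0 ≤ φ t) : 0 ≤ φ' := by
  have h2 := (hasDerivWithinAt_iff_tendsto_slope' (s := Ioi (1:ℝ)) (by simp)).1 h.hasDerivWithinAt
  refine ge_of_tendsto h2 ?_
  filter_upwards [Ioo_mem_nhdsGT hδ] with t ht
  rw [slope_def_field, h1, sub_zero]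
  exact div_nonneg (hpos t ht) (by linarith [ht.1])

theorem m6_left {φ : ℝ → ℝ} {φ' δ : ℝ} (h : HasDerivAt φ φ' 1) (h1 : φ 1 = 0) (hδ : δ < 1)
    (hpos : ∀ t ∈ Ioo δ 1, 0 ≤ φ t) : φ' ≤ 0 := by
  have h2 := (hasDerivWithinAt_iff_tendsto_slope' (s := Iio (1:ℝ)) (by simp)).1 h.hasDerivWithinAt
  refine le_of_tendsto h2 ?_
  filter_upwards [Ioo_mem_nhdsLT hδ] with t ht
  rw [slope_def_field, h1, sub_zero]
  exact div_nonpos_of_nonneg_of_nonpos (hpos t ht) (by linarith [ht.2])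

theorem m6_deriv_v {v : E3 → ℝ} (hv : ContDiff ℝ 2 v) (x : E3) :
    HasDerivAt (fun t : ℝ => v (t • x)) (Z 0 v x) 1 := by
  have h1 : HasFDerivAt v (fderiv ℝ v x) ((1 : ℝ) • x) := by
    rw [one_smul]
    exact (hv.differentiable (by norm_num) x).hasFDerivAt
  have h2 : HasDerivAt (fun t : ℝ => t • x) x 1 := by
    have := (hasDerivAt_id (1 : ℝ)).smul_const x
    simpa using this
  have h3 := h1.comp_hasDerivAt (1 : ℝ) h2
  exact h3

theorem m6_deriv_exp (κ : ℝ) (x : E3) :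
    HasDerivAt (fun t : ℝ => Real.exp (κ * ‖t • x‖ ^ 2)) (2 * κ * ‖x‖ ^ 2 * Real.exp (κ * ‖x‖ ^ 2)) 1 := by
  have h0 : (fun t : ℝ => Real.exp (κ * ‖t • x‖ ^ 2)) = fun t : ℝ => Real.exp (κ * (t ^ 2 * ‖x‖ ^ 2)) := by
    funext t
    rw [norm_smul, mul_pow, Real.norm_eq_abs, sq_abs]
  rw [h0]
  have h1 : HasDerivAt (fun t : ℝ => κ * (t ^ 2 * ‖x‖ ^ 2)) (κ * (2 * ‖x‖ ^ 2)) 1 := by
    have h2 := ((hasDerivAt_pow 2 (1 : ℝ)).mul_const (‖x‖ ^ 2)).const_mul κ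
    simpa using h2
  have h2 := h1.exp
  have h3 : Real.exp (κ * ((1:ℝ) ^ 2 * ‖x‖ ^ 2)) * (κ * (2 * ‖x‖ ^ 2)) =
      2 * κ * ‖x‖ ^ 2 * Real.exp (κ * ‖x‖ ^ 2) := by
    rw [one_pow, one_mul]
    ring
  rw [h3] at h2
  exact h2

/-- Hopf: both barriers agree with `v` on the spheres; compare the difference quotients along the
ray through the point (`Z 0 v x` is the derivative of `t ↦ v (t x)` at `t = 1`). The constants
`c1 > 0`, `K1` depend only on `R, lam, B`. -/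
theorem hopf {R lam B : ℝ} (hR : 1 < R) (hlam : 0 < lam) (hB : 0 ≤ B) :
    ∃ c1 K1 : ℝ, 0 < c1 ∧ ∀ (a : Fin 3 → Fin 3 → E3 → ℝ) (b : Fin 3 → E3 → ℝ),
      CGood R lam B a b (fun _ => 0) → ∀ v : E3 → ℝ, ContDiff ℝ 2 v →
      (∀ x ∈ Ann R, Lc a b (fun _ => 0) v x = 0) →
      (∀ x, ‖x‖ = 1 → v x = 1) → (∀ x, ‖x‖ = R → v x = 0) →
      ∀ x, (‖x‖ = 1 ∨ ‖x‖ = R) → c1 ≤ - Z 0 v x ∧ - Z 0 v x ≤ K1 := by
  obtain ⟨κ, hκ⟩ : ∃ κ, κ = kp R lam B := ⟨_, rfl⟩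
  have hκ1 : 1 ≤ κ := by rw [hκ]; exact kp_pos hR hlam hB
  have hd1 := m6_d1 hR hκ1
  have hd2 := m6_d2 hR hκ1
  obtain ⟨d1, hd1'⟩ : ∃ d, d = Real.exp (-κ) - Real.exp (-κ * R ^ 2) := ⟨_, rfl⟩
  obtain ⟨d2, hd2'⟩ : ∃ d, d = Real.exp (κ * R ^ 2) - Real.exp κ := ⟨_, rfl⟩
  rw [← hd1'] at hd1
  rw [← hd2'] at hd2
  -- derivatives of the barriers
  have hdlo : ∀ x : E3, HasDerivAt (fun t : ℝ => wlo R κ (t • x))
      (-(2 * κ * ‖x‖ ^ 2 * Real.exp (-κ * ‖x‖ ^ 2) / d1)) 1 := by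
    intro x
    have h1 := ((m6_deriv_exp (-κ) x).sub_const (Real.exp (-κ * R ^ 2))).div_const d1
    have h2 : 2 * -κ * ‖x‖ ^ 2 * Real.exp (-κ * ‖x‖ ^ 2) / d1 =
        -(2 * κ * ‖x‖ ^ 2 * Real.exp (-κ * ‖x‖ ^ 2) / d1) := by ring
    rw [h2, hd1'] at h1
    rw [hd1']
    exact h1
  have hdhi : ∀ x : E3, HasDerivAt (fun t : ℝ => whi R κ (t • x))
      (-(2 * κ * ‖x‖ ^ 2 * Real.exp (κ * ‖x‖ ^ 2) / d2)) 1 := by
    intro x
    have h1 := ((m6_deriv_exp κ x).const_sub (Real.exp (κ * R ^ 2))).div_const d2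
    have h2 : -(2 * κ * ‖x‖ ^ 2 * Real.exp (κ * ‖x‖ ^ 2)) / d2 =
        -(2 * κ * ‖x‖ ^ 2 * Real.exp (κ * ‖x‖ ^ 2) / d2) := by ring
    rw [h2, hd2'] at h1
    rw [hd2']
    exact h1
  set A1 := 2 * κ * (1:ℝ) ^ 2 * Real.exp (κ * 1 ^ 2) / d2 with hA1
  set A2 := 2 * κ * R ^ 2 * Real.exp (-κ * R ^ 2) / d1 with hA2
  set B1 := 2 * κ * (1:ℝ) ^ 2 * Real.exp (-κ * 1 ^ 2) / d1 with hB1
  set B2 := 2 * κ * R ^ 2 * Real.exp (κ * R ^ 2) / d2 with hB2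
  refine ⟨min A1 A2, max B1 B2, lt_min (by positivity) (by positivity), ?_⟩
  intro a b hG v hv hL h1 hRv x hx
  have hC : C2c R v := ⟨fun y _ => hv.contDiffAt, hv.continuous.continuousOn⟩
  have htwo := two_sided hR hlam hB hG hC hL h1 hRv
  rw [← hκ] at htwo
  have hdv := m6_deriv_v hv x
  rcases hx with hx | hx
  · -- inner sphere
    have hmem : ∀ t ∈ Ioo (1:ℝ) R, t • x ∈ cAnn R := by
      intro t ht
      have : ‖t • x‖ = t := by
        rw [norm_smul, hx, mul_one, Real.norm_eq_abs, abs_of_pos (by linarith [ht.1])]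
      exact ⟨by rw [this]; exact ht.1.le, by rw [this]; exact ht.2.le⟩
    have hlo1 : wlo R κ x = 1 := by
      rw [wlo, hx, one_pow, mul_one, ← hd1', div_self hd1.ne']
    have hhi1 : whi R κ x = 1 := by
      rw [whi, hx, one_pow, mul_one, ← hd2', div_self hd2.ne']
    have e1 := m6_right (hdv.sub (hdlo x)) (by simp [one_smul, h1 x hx, hlo1]) hR
      (fun t ht => sub_nonneg.2 (htwo _ (hmem t ht)).1)
    have e2 := m6_right ((hdhi x).sub hdv) (by simp [one_smul, h1 x hx, hhi1]) hR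
      (fun t ht => sub_nonneg.2 (htwo _ (hmem t ht)).2)
    rw [hx] at e1 e2
    constructor
    · refine (min_le_left _ _).trans ?_
      linarith
    · refine le_trans ?_ (le_max_left _ _)
      linarith
  · -- outer sphere
    have hR0 : 0 < R := by linarith
    have hinv : R⁻¹ < 1 := inv_lt_one_of_one_lt₀ hR
    have hmem : ∀ t ∈ Ioo R⁻¹ 1, t • x ∈ cAnn R := by
      intro t ht
      have ht0 : 0 < t := lt_trans (by positivity) ht.1
      have : ‖t • x‖ = t * R := by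
        rw [norm_smul, hx, Real.norm_eq_abs, abs_of_pos ht0]
      refine ⟨?_, ?_⟩
      · rw [this]
        have h3 : R⁻¹ * R = 1 := inv_mul_cancel₀ hR0.ne'
        nlinarith [ht.1]
      · rw [this]
        nlinarith [ht.2]
    have hloR : wlo R κ x = 0 := by
      rw [wlo, hx, sub_self, zero_div]
    have hhiR : whi R κ x = 0 := by
      rw [whi, hx, sub_self, zero_div]
    have e1 := m6_left (hdv.sub (hdlo x)) (by simp [one_smul, hRv x hx, hloR]) hinv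
      (fun t ht => sub_nonneg.2 (htwo _ (hmem t ht)).1)
    have e2 := m6_left ((hdhi x).sub hdv) (by simp [one_smul, hRv x hx, hhiR]) hinv
      (fun t ht => sub_nonneg.2 (htwo _ (hmem t ht)).2)
    rw [hx] at e1 e2
    constructor
    · refine (min_le_right _ _).trans ?_
      linarith
    · refine le_trans ?_ (le_max_right _ _)
      linarith

end UMB.Lin
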