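import Pool.Agent.Lib.UMB.Lin.P4

set_option autoImplicit false

/-! # UMB.Lin, chunk P6 (uniform ellipticity) -/

open scoped ContDiff BigOperators Topology
open Set MeasureTheory Filter Pool.Agent.Lib.PenroseSph

namespace UMB.Lin

theorem p6_gG {D : OpData} (hD : D.Ok) (i j : Fin 3) : Continuous (gG D i j) := by
  have h1 := p3_glob hD.a_nonneg hD.a_lt (hD.G_smooth i j)
  have h2 : ContDiff ℝ ∞ (fun x : E3 => (1 - cut D.a x) * (if i = j then (1 : ℝ) else 0)) :=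
    (contDiff_const.sub (p3_cut hD.a_nonneg hD.a_lt).1).mul contDiff_const
  exact (h1.add h2).continuous

theorem p6_sphere : IsCompact {u : Fin 3 → ℝ | ∑ i, u i ^ 2 = 1} := by
  have hcl : IsClosed {u : Fin 3 → ℝ | ∑ i, u i ^ 2 = 1} :=
    isClosed_eq (by fun_prop) continuous_const
  refine (isCompact_closedBall (0 : Fin 3 → ℝ) 1).of_isClosed_subset hcl ?_
  intro u hu
  rw [mem_closedBall_zero_iff, pi_norm_le_iff_of_nonneg zero_le_one]
  intro i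
  rw [Real.norm_eq_abs]
  have h1 : u i ^ 2 ≤ ∑ j, u j ^ 2 :=
    Finset.single_le_sum (f := fun j => u j ^ 2) (fun j _ => sq_nonneg (u j)) (Finset.mem_univ i)
  have h2 : ∑ j, u j ^ 2 = 1 := hu
  rw [h2] at h1
  exact abs_le_one_iff_mul_self_le_one.2 (by nlinarith)

/-- CHUNK P6 (M), first statement: `G` is uniformly positive on the compact annulus (continuity on `cAnn R × unit sphere`, minimum,
homogeneity). -/
theorem p6_low {D : OpData} (hD : D.Ok) : ∃ lam : ℝ, 0 < lam ∧ ∀ x ∈ cAnn D.R, ∀ ζ : Fin 3 → ℝ,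
    lam * ∑ i, ζ i ^ 2 ≤ ∑ i, ∑ j, gG D i j x * ζ i * ζ j := by
  have hK : IsCompact (cAnn D.R ×ˢ {u : Fin 3 → ℝ | ∑ i, u i ^ 2 = 1}) :=
    (isCompact_cAnn D.R).prod p6_sphere
  have hcont : Continuous fun p : E3 × (Fin 3 → ℝ) =>
      ∑ i, ∑ j, gG D i j p.1 * p.2 i * p.2 j := by
    refine continuous_finsetSum _ fun i _ => continuous_finsetSum _ fun j _ => ?_
    exact (((p6_gG hD i j).comp continuous_fst).mul
      ((continuous_apply i).comp continuous_snd)).mul ((continuous_apply j).comp continuous_snd)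
  have hne : (cAnn D.R ×ˢ {u : Fin 3 → ℝ | ∑ i, u i ^ 2 = 1}).Nonempty := by
    have hR := hD.one_lt_R
    obtain ⟨y, hy⟩ := exists_norm_eq E3 (show (0 : ℝ) ≤ 1 by norm_num)
    refine ⟨(y, fun i => if i = 0 then 1 else 0), ⟨hy.ge, ?_⟩, ?_⟩
    · change ‖y‖ ≤ D.R
      rw [hy]
      exact hR.le
    · change ∑ i : Fin 3, (if i = 0 then (1 : ℝ) else 0) ^ 2 = 1
      simp
  obtain ⟨p0, hp0, hmin⟩ := hK.exists_isMinOn hne hcont.continuousOn
  have hpos : 0 < ∑ i, ∑ j, gG D i j p0.1 * p0.2 i * p0.2 j := by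
    have h1 : (1 : ℝ) ≤ ‖p0.1‖ := hp0.1.1
    have h2 : p0.2 ≠ 0 := by
      intro h
      have h3 : ∑ i, p0.2 i ^ 2 = 1 := hp0.2
      rw [h] at h3
      simp at h3
    have h3 := hD.G_pos p0.1 (lt_of_lt_of_le hD.a_lt h1) p0.2 h2
    have h4 := (p4_eq hD (fun _ => 0) h1).1
    simp only [h4]
    exact h3
  refine ⟨_, hpos, ?_⟩
  intro x hx ζ
  by_cases hζ : ∑ i, ζ i ^ 2 = 0
  · have h1 : ∀ i, ζ i = 0 := by
      intro i
      have := (Finset.sum_eq_zero_iff_of_nonneg (fun i _ => sq_nonneg (ζ i))).1 hζ i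
        (Finset.mem_univ i)
      exact pow_eq_zero_iff (two_ne_zero) |>.1 this
    simp [h1]
  · have hn : 0 ≤ ∑ i, ζ i ^ 2 := Finset.sum_nonneg fun i _ => sq_nonneg (ζ i)
    have hp : 0 < ∑ i, ζ i ^ 2 := lt_of_le_of_ne hn (Ne.symm hζ)
    set t := Real.sqrt (∑ i, ζ i ^ 2) with ht
    have ht0 : 0 < t := Real.sqrt_pos.2 hp
    have ht2 : t ^ 2 = ∑ i, ζ i ^ 2 := Real.sq_sqrt hn
    have hmem : (x, fun i => t⁻¹ * ζ i) ∈ cAnn D.R ×ˢ {u : Fin 3 → ℝ | ∑ i, u i ^ 2 = 1} := by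
      refine ⟨hx, ?_⟩
      change ∑ i, (t⁻¹ * ζ i) ^ 2 = 1
      have : ∀ i, (t⁻¹ * ζ i) ^ 2 = (t⁻¹) ^ 2 * ζ i ^ 2 := fun i => by ring
      rw [Finset.sum_congr rfl fun i _ => this i, ← Finset.mul_sum, ← ht2]
      field_simp
    have h1 := hmin hmem
    have h2 : ∑ i, ∑ j, gG D i j x * (t⁻¹ * ζ i) * (t⁻¹ * ζ j)
        = (t⁻¹) ^ 2 * ∑ i, ∑ j, gG D i j x * ζ i * ζ j := by
      rw [Finset.mul_sum]
      refine Finset.sum_congr rfl fun i _ => ?_
      rw [Finset.mul_sum]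
      refine Finset.sum_congr rfl fun j _ => ?_
      ring
    have h3 : ∑ i, ∑ j, gG D i j p0.1 * p0.2 i * p0.2 j
        ≤ ∑ i, ∑ j, gG D i j x * (t⁻¹ * ζ i) * (t⁻¹ * ζ j) := h1
    rw [h2] at h3
    have h4 := mul_le_mul_of_nonneg_right h3 (sq_nonneg t)
    rw [← ht2]
    refine h4.trans (le_of_eq ?_)
    field_simp

theorem p6_disc {a b c : ℝ} (h : ∀ t : ℝ, 0 ≤ a + 2 * t * b + t ^ 2 * c) : b ^ 2 ≤ a * c := by
  have h1 : ∀ t : ℝ, 0 ≤ c * (t * t) + 2 * b * t + a := by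
    intro t
    have := h t
    nlinarith
  have h2 := discrim_le_zero h1
  unfold discrim at h2
  nlinarith

/-- CHUNK P6 (M), second statement: `a(ζ,ζ) = G(ζ,ζ) - (2-p)(n.ζ)^2` and `(n.ζ)^2 = G(q,ζ)^2 / N^2 <= G(q,q) G(ζ,ζ) / N^2 <= G(ζ,ζ)`
(Cauchy-Schwarz for the positive semidefinite form, `N^2 = G(q,q) + eps^2`), so `a(ζ,ζ) >= (p - 1) G(ζ,ζ) >= (p0 - 1) G(ζ,ζ)`. -/
theorem p6_ell {D : OpData} (hD : D.Ok) : ∃ lam : ℝ, 0 < lam ∧ ∀ (v : E3 → ℝ), K01 D.R v → ∀ x ∈ cAnn D.R, ∀ ζ : Fin 3 → ℝ,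
    lam * ∑ i, ζ i ^ 2 ≤ ∑ i, ∑ j, ga D v i j x * ζ i * ζ j := by
  obtain ⟨lam, hlam, hlow⟩ := p6_low hD
  have hp0 := hD.one_lt_p0
  refine ⟨(D.p0 - 1) * lam, mul_pos (by linarith) hlam, ?_⟩
  intro v _ x hx ζ
  obtain ⟨hsym, hpos, hgs⟩ := p4_pos hD
  have hl := hlow x hx ζ
  set q : Fin 3 → ℝ := fun j => FE D.R (pd j D.etad) v x with hq
  set s := isq (D.eps ^ 2) (gs D v x) with hs
  have he : 0 < D.eps ^ 2 := pow_pos hD.eps_pos 2
  have hN : 0 < gs D v x := lt_of_lt_of_le he (hgs v x)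
  have hs2 : s ^ 2 * gs D v x = 1 := by
    rw [hs, (p3_isq he).2 _ (hgs v x), div_pow, Real.sq_sqrt hN.le]
    field_simp
  have hgsq : gs D v x = (∑ i, ∑ j, gG D i j x * q i * q j) + D.eps ^ 2 := rfl
  set Bzz := ∑ i, ∑ j, gG D i j x * ζ i * ζ j with hBzz
  set Bqq := ∑ i, ∑ j, gG D i j x * q i * q j with hBqq
  set Bzq := ∑ i, ∑ j, gG D i j x * ζ i * q j with hBzq
  have hBqz : ∑ i, ∑ j, gG D i j x * q i * ζ j = Bzq := by
    rw [Finset.sum_comm]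
    refine Finset.sum_congr rfl fun i _ => Finset.sum_congr rfl fun j _ => ?_
    rw [hsym j i x]
    ring
  have hcs : Bzq ^ 2 ≤ Bzz * Bqq := by
    refine p6_disc fun t => ?_
    have h1 := hpos x (fun i => ζ i + t * q i)
    have h2 : ∑ i, ∑ j, gG D i j x * (ζ i + t * q i) * (ζ j + t * q j)
        = Bzz + 2 * t * Bzq + t ^ 2 * Bqq := by
      have h3 : ∀ i j, gG D i j x * (ζ i + t * q i) * (ζ j + t * q j)
          = gG D i j x * ζ i * ζ j + t * (gG D i j x * ζ i * q j) + t * (gG D i j x * q i * ζ j)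
            + t ^ 2 * (gG D i j x * q i * q j) := fun i j => by ring
      simp only [h3, Finset.sum_add_distrib, ← Finset.mul_sum]
      rw [hBqz]
      ring
    rw [h2] at h1
    exact h1
  have hn : ∀ i, gn D v i x = (∑ j, gG D i j x * q j) * s := fun i => rfl
  have hnz : ∑ i, gn D v i x * ζ i = s * Bzq := by
    rw [hBzq, Finset.mul_sum]
    refine Finset.sum_congr rfl fun i _ => ?_
    rw [hn i, Finset.sum_mul, Finset.sum_mul, Finset.mul_sum]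
    refine Finset.sum_congr rfl fun j _ => ?_
    ring
  have hexp : ∑ i, ∑ j, ga D v i j x * ζ i * ζ j
      = Bzz + (D.p (FE D.R D.etad v x) - 2) * (s * Bzq) ^ 2 := by
    rw [← hnz, pow_two, Finset.sum_mul_sum, hBzz, Finset.mul_sum, ← Finset.sum_add_distrib]
    refine Finset.sum_congr rfl fun i _ => ?_
    rw [Finset.mul_sum, ← Finset.sum_add_distrib]
    refine Finset.sum_congr rfl fun j _ => ?_
    have : ga D v i j x = gG D i j x
        + (D.p (FE D.R D.etad v x) - 2) * gn D v i x * gn D v j x := rfl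
    rw [this]
    ring
  rw [hexp]
  have hBzz0 : 0 ≤ Bzz := hpos x ζ
  have hn2 : (s * Bzq) ^ 2 ≤ Bzz := by
    have h1 : (s * Bzq) ^ 2 ≤ s ^ 2 * (Bzz * Bqq) := by
      rw [mul_pow]
      exact mul_le_mul_of_nonneg_left hcs (sq_nonneg s)
    have h2 : s ^ 2 * (Bzz * Bqq) ≤ s ^ 2 * (Bzz * gs D v x) := by
      refine mul_le_mul_of_nonneg_left (mul_le_mul_of_nonneg_left ?_ hBzz0) (sq_nonneg s)
      rw [hgsq]
      linarith
    have h3 : s ^ 2 * (Bzz * gs D v x) = Bzz := by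
      calc s ^ 2 * (Bzz * gs D v x) = Bzz * (s ^ 2 * gs D v x) := by ring
        _ = Bzz := by rw [hs2, mul_one]
    linarith
  have hp1 := hD.p_ge (FE D.R D.etad v x)
  have hp2 := hD.p_le (FE D.R D.etad v x)
  have h5 : (D.p (FE D.R D.etad v x) - 2) * Bzz ≤ (D.p (FE D.R D.etad v x) - 2) * (s * Bzq) ^ 2 :=
    mul_le_mul_of_nonpos_left hn2 (by linarith)
  have h6 : (D.p0 - 1) * (lam * ∑ i, ζ i ^ 2) ≤ (D.p0 - 1) * Bzz :=
    mul_le_mul_of_nonneg_left hl (by linarith)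
  have h7 : (D.p0 - 1) * Bzz ≤ (D.p (FE D.R D.etad v x) - 1) * Bzz :=
    mul_le_mul_of_nonneg_right (by linarith) hBzz0
  nlinarith

/-- symmetry of the leading coefficients -/
theorem p6_symm {D : OpData} (hD : D.Ok) (v : E3 → ℝ) (i j : Fin 3) (x : E3) : ga D v i j x = ga D v j i x := by
  unfold ga
  rw [(p4_pos hD).1 i j x]
  ring

end UMB.Lin
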