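import Pool.Agent.Lib.UMB.Lin.P4

set_option autoImplicit false

/-! # UMB.Lin, chunk P7 (continuity of the coefficient map) -/

open scoped ContDiff BigOperators Topology
open Set MeasureTheory Filter Pool.Agent.Lib.PenroseSph

namespace UMB.Lin

theorem p7_gG {D : OpData} (hD : D.Ok) (i j : Fin 3) : Continuous (gG D i j) := by
  have h1 := p3_glob hD.a_nonneg hD.a_lt (hD.G_smooth i j)
  have h2 : ContDiff ℝ ∞ (fun x : E3 => (1 - cut D.a x) * (if i = j then (1 : ℝ) else 0)) :=
    (contDiff_const.sub (p3_cut hD.a_nonneg hD.a_lt).1).mul contDiff_const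
  exact (h1.add h2).continuous

noncomputable def p7_s (D : OpData) (p : E3 × ℝ × (Fin 3 → ℝ)) : ℝ :=
  (∑ i, ∑ j, gG D i j p.1 * p.2.2 i * p.2.2 j) + D.eps ^ 2

noncomputable def p7_n (D : OpData) (p : E3 × ℝ × (Fin 3 → ℝ)) (i : Fin 3) : ℝ :=
  (∑ j, gG D i j p.1 * p.2.2 j) * isq (D.eps ^ 2) (p7_s D p)

noncomputable def p7_a (D : OpData) (p : E3 × ℝ × (Fin 3 → ℝ)) (i j : Fin 3) : ℝ :=
  gG D i j p.1 + (D.p p.2.1 - 2) * p7_n D p i * p7_n D p j

noncomputable def p7_b (D : OpData) (p : E3 × ℝ × (Fin 3 → ℝ)) (i : Fin 3) : ℝ :=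
  - (∑ k, ∑ l, p7_a D p k l * gGam D i k l p.1)
    + (∑ k, ∑ l, p7_a D p k l * gk D k l p.1) * p7_n D p i

theorem p7_contq (i : Fin 3) : Continuous fun p : E3 × ℝ × (Fin 3 → ℝ) => p.2.2 i :=
  (continuous_apply i).comp (continuous_snd.comp continuous_snd)

theorem p7_conts {D : OpData} (hD : D.Ok) : Continuous (p7_s D) := by
  refine Continuous.add ?_ continuous_const
  refine continuous_finsetSum _ fun i _ => continuous_finsetSum _ fun j _ => ?_
  exact (((p7_gG hD i j).comp continuous_fst).mul (p7_contq i)).mul (p7_contq j)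

theorem p7_contn {D : OpData} (hD : D.Ok) (i : Fin 3) : Continuous fun p => p7_n D p i := by
  have he : 0 < D.eps ^ 2 := pow_pos hD.eps_pos 2
  refine Continuous.mul ?_ ((p3_isq he).1.continuous.comp (p7_conts hD))
  refine continuous_finsetSum _ fun j _ => ?_
  exact ((p7_gG hD i j).comp continuous_fst).mul (p7_contq j)

theorem p7_conta {D : OpData} (hD : D.Ok) (i j : Fin 3) : Continuous fun p => p7_a D p i j := by
  refine Continuous.add ((p7_gG hD i j).comp continuous_fst) ?_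
  refine (Continuous.mul ?_ (p7_contn hD i)).mul (p7_contn hD j)
  exact (hD.p_smooth.continuous.comp (continuous_fst.comp continuous_snd)).sub continuous_const

theorem p7_contb {D : OpData} (hD : D.Ok) (i : Fin 3) : Continuous fun p => p7_b D p i := by
  have h1 : ∀ k l, Continuous (gGam D i k l) := fun k l =>
    (p3_glob hD.a_nonneg hD.a_lt (hD.Gam_smooth i k l)).continuous
  have h2 : ∀ k l, Continuous (gk D k l) := fun k l =>
    (p3_glob hD.a_nonneg hD.a_lt (hD.k_smooth k l)).continuous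
  refine Continuous.add (Continuous.neg ?_) (Continuous.mul ?_ (p7_contn hD i))
  · refine continuous_finsetSum _ fun k _ => continuous_finsetSum _ fun l _ => ?_
    exact (p7_conta hD k l).mul ((h1 k l).comp continuous_fst)
  · refine continuous_finsetSum _ fun k _ => continuous_finsetSum _ fun l _ => ?_
    exact (p7_conta hD k l).mul ((h2 k l).comp continuous_fst)

/-- CHUNK P7 (M). Uniform continuity in the sup norm.
PROOF. By sequences and contradiction, or directly: `p1_lip` for the four mollified functions, they are bounded (`p1_bound`); `gG, gk,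
gGam` are bounded on `cAnn R` (continuous, compact); the coefficients are `Φ (x, FE etad v x, FE (pd i etad) v x)` with `Φ` continuous on
`E3 × ℝ × ℝ^3`, hence uniformly continuous on the compact set `cAnn R × [0,1] × [-Q,Q]^3`
(`IsCompact.uniformContinuousOn_of_continuous`). -/
theorem p7_cont {D : OpData} (hD : D.Ok) (e : ℝ) (he : 0 < e) : ∃ d : ℝ, 0 < d ∧ ∀ v v' : E3 → ℝ, K01 D.R v → K01 D.R v' →
    (∀ x ∈ cAnn D.R, |v' x - v x| ≤ d) →
      ∀ x ∈ cAnn D.R, (∀ i j, |ga D v' i j x - ga D v i j x| ≤ e) ∧ ∀ i, |gb D v' i x - gb D v i x| ≤ e := by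
  have hR := hD.one_lt_R
  set I0 : ℝ := ∫ z, |D.etad z| with hI0
  set I1 : Fin 3 → ℝ := fun i => ∫ z, |pd i D.etad z| with hI1
  have hI00 : 0 ≤ I0 := integral_nonneg fun z => abs_nonneg _
  have hI10 : ∀ i, 0 ≤ I1 i := fun i => integral_nonneg fun z => abs_nonneg _
  set Q : ℝ := ∑ i, I1 i with hQ
  have hQ0 : 0 ≤ Q := Finset.sum_nonneg fun i _ => hI10 i
  have hIQ : ∀ i, I1 i ≤ Q := fun i =>
    Finset.single_le_sum (f := I1) (fun i _ => hI10 i) (Finset.mem_univ i)
  set K : Set (E3 × ℝ × (Fin 3 → ℝ)) :=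
    cAnn D.R ×ˢ (Icc (-I0) I0 ×ˢ Metric.closedBall (0 : Fin 3 → ℝ) Q) with hK
  have hKc : IsCompact K :=
    (isCompact_cAnn D.R).prod (isCompact_Icc.prod (isCompact_closedBall _ _))
  have hF : Continuous fun p : E3 × ℝ × (Fin 3 → ℝ) =>
      ((fun i j => p7_a D p i j : Fin 3 → Fin 3 → ℝ), (fun i => p7_b D p i : Fin 3 → ℝ)) := by
    refine Continuous.prodMk ?_ ?_
    · exact continuous_pi fun i => continuous_pi fun j => p7_conta hD i j
    · exact continuous_pi fun i => p7_contb hD i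
  have hU := hKc.uniformContinuousOn_of_continuous hF.continuousOn
  rw [Metric.uniformContinuousOn_iff] at hU
  obtain ⟨δ, hδ, hUδ⟩ := hU e he
  refine ⟨δ / (2 * (I0 + Q + 1)), by positivity, ?_⟩
  intro v v' hv hv' hvv x hx
  set d := δ / (2 * (I0 + Q + 1)) with hd
  have hd0 : 0 ≤ d := by positivity
  have hdlt : d * (I0 + Q + 1) < δ := by
    have : d * (I0 + Q + 1) = δ / 2 := by
      rw [hd]
      field_simp
    linarith
  have l0 := p1_lip hR (p2_kernel hD).1 (p2_kernel hD).2.1 hv hv' hd0 hvv x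
  have l1 := fun i => p1_lip hR (p2_pd hD i).1 (p2_pd hD i).2 hv hv' hd0 hvv x
  have b0 := fun {w : E3 → ℝ} (hw : K01 D.R w) =>
    p1_bound hR (p2_kernel hD).1 (p2_kernel hD).2.1 hw x
  have b1 := fun (i : Fin 3) {w : E3 → ℝ} (hw : K01 D.R w) =>
    p1_bound hR (p2_pd hD i).1 (p2_pd hD i).2 hw x
  have hmem : ∀ {w : E3 → ℝ}, K01 D.R w →
      ((x, FE D.R D.etad w x, fun i => FE D.R (pd i D.etad) w x) : E3 × ℝ × (Fin 3 → ℝ)) ∈ K := by
    intro w hw
    refine ⟨hx, abs_le.1 (b0 hw), ?_⟩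
    rw [mem_closedBall_zero_iff, pi_norm_le_iff_of_nonneg hQ0]
    intro i
    rw [Real.norm_eq_abs]
    exact (b1 i hw).trans (hIQ i)
  have hdist : dist ((x, FE D.R D.etad v' x, fun i => FE D.R (pd i D.etad) v' x) :
      E3 × ℝ × (Fin 3 → ℝ)) (x, FE D.R D.etad v x, fun i => FE D.R (pd i D.etad) v x) < δ := by
    rw [Prod.dist_eq, Prod.dist_eq]
    simp only [dist_self]
    refine max_lt hδ (max_lt ?_ ?_)
    · rw [Real.dist_eq]
      refine lt_of_le_of_lt l0 (lt_of_le_of_lt ?_ hdlt)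
      exact mul_le_mul_of_nonneg_left (by linarith) hd0
    · rw [dist_pi_lt_iff hδ]
      intro i
      rw [Real.dist_eq]
      refine lt_of_le_of_lt (l1 i) (lt_of_le_of_lt ?_ hdlt)
      have := hIQ i
      exact mul_le_mul_of_nonneg_left (by change I1 i ≤ _; linarith) hd0
  have hfin := hUδ _ (hmem hv') _ (hmem hv) hdist
  rw [Prod.dist_eq, max_lt_iff] at hfin
  refine ⟨fun i j => ?_, fun i => ?_⟩
  · have h1 := (dist_le_pi_dist _ _ j).trans ((dist_le_pi_dist _ _ i).trans hfin.1.le)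
    rw [Real.dist_eq] at h1
    exact h1
  · have h1 := (dist_le_pi_dist _ _ i).trans hfin.2.le
    rw [Real.dist_eq] at h1
    exact h1

end UMB.Lin
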