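import Pool.Agent.Lib.UMB.Lin.P5
import Pool.Agent.Lib.UMB.Lin.P6
import Pool.Agent.Lib.UMB.Lin.P7
import Pool.Agent.Lib.UMB.Lin.M6

set_option autoImplicit false

/-! # UMB.Lin, chunk P8 (the coefficient map of `OpData` is admissible) -/

open scoped ContDiff BigOperators Topology
open Set MeasureTheory Filter Pool.Agent.Lib.PenroseSph

namespace UMB.Lin

/-- CHUNK P8 (S/M). Assembly of `CMap`: `B m` := maximum over the finitely many components of the constants of `p5_ub` for the order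
`m + 1` (`a`) and `m` (`b`); `p6_ell`, `p6_symm`, `p7_cont`; invariance: `comparison` with the constants `0` and `1`
(`cgood_of_cbd`, `Lc_const`). -/
theorem p8_cmap {D : OpData} (hD : D.Ok) : ∃ (lam : ℝ) (B : ℕ → ℝ), 0 < lam ∧ (∀ m, 0 ≤ B m) ∧
    CMap D.R lam B (fun _ => 0) (fun _ => 1) (ga D) (gb D) := by
  have hR := hD.one_lt_R
  obtain ⟨lam, hlam, hell⟩ := p6_ell hD
  obtain ⟨hua, hub⟩ := p5_ub hD
  choose Ba hBa0 hBa using fun (m : ℕ) (i j : Fin 3) => (hua i j).bd (m + 1)
  choose Bb hBb0 hBb using fun (m : ℕ) (i : Fin 3) => (hub i).bd m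
  set B : ℕ → ℝ := fun m => (∑ i, ∑ j, Ba m i j) + ∑ i, Bb m i with hBdef
  have hS1 : ∀ m, 0 ≤ ∑ i, ∑ j, Ba m i j := fun m =>
    Finset.sum_nonneg fun i _ => Finset.sum_nonneg fun j _ => hBa0 m i j
  have hS2 : ∀ m, 0 ≤ ∑ i, Bb m i := fun m => Finset.sum_nonneg fun i _ => hBb0 m i
  have hB0 : ∀ m, 0 ≤ B m := fun m => add_nonneg (hS1 m) (hS2 m)
  have hBaB : ∀ m i j, Ba m i j ≤ B m := by
    intro m i j
    have h1 : Ba m i j ≤ ∑ j, Ba m i j :=
      Finset.single_le_sum (f := fun j => Ba m i j) (fun j _ => hBa0 m i j) (Finset.mem_univ j)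
    have h2 : ∑ j, Ba m i j ≤ ∑ i, ∑ j, Ba m i j :=
      Finset.single_le_sum (f := fun i => ∑ j, Ba m i j)
        (fun i _ => Finset.sum_nonneg fun j _ => hBa0 m i j) (Finset.mem_univ i)
    have h3 := hS2 m
    change Ba m i j ≤ (∑ i, ∑ j, Ba m i j) + ∑ i, Bb m i
    linarith
  have hBbB : ∀ m i, Bb m i ≤ B m := by
    intro m i
    have h1 : Bb m i ≤ ∑ i, Bb m i :=
      Finset.single_le_sum (f := fun i => Bb m i) (fun i _ => hBb0 m i) (Finset.mem_univ i)
    have h3 := hS1 m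
    change Bb m i ≤ (∑ i, ∑ j, Ba m i j) + ∑ i, Bb m i
    linarith
  have hcbd : ∀ v, KK D.R (fun _ => 0) (fun _ => 1) v → CBd D.R lam B (ga D v) (gb D v) := by
    intro v hv
    exact
      { smA := fun i j => (hua i j).smooth ⟨v, hv⟩
        smB := fun i => (hub i).smooth ⟨v, hv⟩
        symm := fun i j x => p6_symm hD v i j x
        ell := hell v hv
        nn := hB0
        bdA := fun m i j => Bd_mono le_rfl (hBaB m i j) (hBa m i j ⟨v, hv⟩)
        bdB := fun m i => Bd_mono le_rfl (hBbB m i) (hBb m i ⟨v, hv⟩) }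
  have hconst : ∀ s : ℝ, C2c D.R (fun _ => s) := fun s =>
    ⟨fun x _ => contDiffAt_const, continuousOn_const⟩
  refine ⟨lam, B, hlam, hB0, ?_⟩
  refine ⟨continuousOn_const, continuousOn_const, fun _ _ => zero_le_one, hcbd, ?_, ?_⟩
  · intro v hv e he
    obtain ⟨d, hd, h⟩ := p7_cont hD e he
    exact ⟨d, hd, fun v' hv' hvv x hx => h v v' hv hv' hvv x (Ann_subset D.R hx)⟩
  · intro v hv u hu hL h1 h2 x hx
    have hgood := cgood_of_cbd (hcbd v hv)
    constructor
    · refine comparison hR hlam (hB0 0) hgood (hconst 0) hu ?_ ?_ x hx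
      · intro y hy
        rw [hL y hy, Lc_const]
        simp
      · rintro y (hy | hy)
        · rw [h1 y hy]
          exact zero_le_one
        · rw [h2 y hy]
    · refine comparison hR hlam (hB0 0) hgood hu (hconst 1) ?_ ?_ x hx
      · intro y hy
        rw [hL y hy, Lc_const]
        simp
      · rintro y (hy | hy)
        · rw [h1 y hy]
        · rw [h2 y hy]
          exact zero_le_one

end UMB.Lin
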