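import Pool.Agent.Lib.UMB.Lin.Defs

/-! # UMB.Lin, chunk G1: the annulus -/

open scoped ContDiff BigOperators
open Set MeasureTheory Pool.Agent.Lib.PenroseSph

namespace UMB.Lin

theorem isOpen_Ann (R : ℝ) : IsOpen (Ann R) := by
  exact (isOpen_lt continuous_const continuous_norm).inter (isOpen_lt continuous_norm continuous_const)

theorem isCompact_cAnn (R : ℝ) : IsCompact (cAnn R) := by
  have hcl : IsClosed (cAnn R) :=
    (isClosed_le continuous_const continuous_norm).inter (isClosed_le continuous_norm continuous_const)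
  refine (isCompact_closedBall (0 : E3) R).of_isClosed_subset hcl ?_
  intro x hx
  rw [mem_closedBall_zero_iff]
  exact hx.2

theorem Ann_subset (R : ℝ) : Ann R ⊆ cAnn R := by
  intro x hx
  exact ⟨hx.1.le, hx.2.le⟩

theorem measurableSet_Ann (R : ℝ) : MeasurableSet (Ann R) := by
  exact (isOpen_Ann R).measurableSet

theorem volume_Ann_lt_top (R : ℝ) : volume (Ann R) < ⊤ := by
  exact lt_of_le_of_lt (measure_mono (Ann_subset R)) (isCompact_cAnn R).measure_lt_top

/-- Hint: for `x` in the closed annulus the points `(1 + t) x` resp. `(1 - t) x` are in `Ann R`. -/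
theorem closure_Ann {R : ℝ} (hR : 1 < R) : closure (Ann R) = cAnn R := by
  apply Subset.antisymm
  · exact closure_minimal (Ann_subset R) (isCompact_cAnn R).isClosed
  · intro x hx
    have hx0 : 0 < ‖x‖ := lt_of_lt_of_le one_pos hx.1
    set y : E3 := ((1 + R) / (2 * ‖x‖)) • x with hy
    have hyn : ‖y‖ = (1 + R) / 2 := by
      rw [hy, norm_smul, Real.norm_eq_abs, abs_of_pos (by positivity)]
      field_simp
    -- points x + t (y - x)
    have hpt : ∀ t ∈ Ioc (0 : ℝ) 1, x + t • (y - x) ∈ Ann R := by
      intro t ht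
      have h1 : x + t • (y - x) = (1 - t + t * ((1 + R) / (2 * ‖x‖))) • x := by
        rw [hy]
        module
      have hc : 0 < 1 - t + t * ((1 + R) / (2 * ‖x‖)) := by
        have h2 : 0 < t * ((1 + R) / (2 * ‖x‖)) := mul_pos ht.1 (by positivity)
        have h3 : 0 ≤ 1 - t := by linarith [ht.2]
        linarith
      have h4 : ‖x + t • (y - x)‖ = (1 - t) * ‖x‖ + t * ((1 + R) / 2) := by
        rw [h1, norm_smul, Real.norm_eq_abs, abs_of_pos hc]
        field_simp
      have h5 : 0 ≤ 1 - t := by linarith [ht.2]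
      refine ⟨?_, ?_⟩
      · show 1 < ‖x + t • (y - x)‖
        rw [h4]
        nlinarith [hx.1, ht.1, mul_le_mul_of_nonneg_left hx.1 h5]
      · show ‖x + t • (y - x)‖ < R
        rw [h4]
        nlinarith [hx.2, ht.1, mul_le_mul_of_nonneg_left hx.2 h5]
    have hlim : Filter.Tendsto (fun t : ℝ => x + t • (y - x)) (nhdsWithin 0 (Ioi 0)) (nhds x) := by
      have hc : Continuous (fun t : ℝ => x + t • (y - x)) := by fun_prop
      have h6 := hc.tendsto 0
      simp only [zero_smul, add_zero] at h6
      exact h6.mono_left nhdsWithin_le_nhds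
    refine mem_closure_of_tendsto hlim ?_
    have h7 : Ioc (0 : ℝ) 1 ∈ nhdsWithin (0 : ℝ) (Ioi 0) := Ioc_mem_nhdsGT one_pos
    filter_upwards [h7] with t ht
    exact hpt t ht

theorem integrableOn_Ann {R : ℝ} {f : E3 → ℝ} (hf : Continuous f) :
    IntegrableOn f (Ann R) := by
  exact (hf.continuousOn.integrableOn_compact (isCompact_cAnn R)).mono_set (Ann_subset R)

/-- two continuous functions which agree on the open annulus agree on the closed one -/
theorem eqOn_cAnn {R : ℝ} (hR : 1 < R) {f g : E3 → ℝ} (hf : Continuous f) (hg : Continuous g)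
    (h : ∀ x ∈ Ann R, f x = g x) : ∀ x ∈ cAnn R, f x = g x := by
  intro x hx
  rw [← closure_Ann hR] at hx
  have hcl : IsClosed {y : E3 | f y = g y} := isClosed_eq hf hg
  have hsub : closure (Ann R) ⊆ {y : E3 | f y = g y} := closure_minimal h hcl
  exact hsub hx

end UMB.Lin
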