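import Pool.Agent.Lib.UMB.Lin.B7

/-!
# UMB.Lin, base case: polynomials are dense in the smooth functions, all derivatives up to order `k`
-/

open scoped ContDiff BigOperators
open Set MeasureTheory Pool.Agent.Lib.PenroseSph MvPolynomial

namespace UMB.Lin.Base

/-- density on the box for functions vanishing near the lower faces -/
theorem dense_box {L : ℝ} (hL : 0 ≤ L) (k : ℕ) {F : E3 → ℝ} (hF : ContDiff ℝ ∞ F)
    (hF0 : ∀ y : E3, (∃ i, y i < 1) → F y = 0) {δ : ℝ} (hδ : 0 < δ) :
    ∃ P : P3, ∀ w : List (Fin 3), w.length ≤ k → ∀ y ∈ box L,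
      |Dw w (fun y => F y - ev P y) y| ≤ δ := by
  set s : ℝ := δ / (L + 1) ^ (3 * k) with hs
  have hL1 : 1 ≤ L + 1 := by linarith
  have hs0 : 0 < s := by positivity
  set W : List (Fin 3) := List.replicate k 0 ++ (List.replicate k 1 ++ List.replicate k 2) with hW
  obtain ⟨Q, hQ⟩ := exists_poly_near (isCompact_box L) (Dw_smooth W hF).continuous hs0
  obtain ⟨Q', hQ'⟩ := primitive k Q
  set P : P3 := (X 0 * X 1 * X 2) ^ k * Q' with hP
  have hdvd : ∀ i : Fin 3, (X i : P3) ^ k ∣ P := by
    intro i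
    rw [hP]
    refine Dvd.dvd.mul_right (pow_dvd_pow_of_dvd ?_ k) _
    match i with
    | 0 => exact ⟨X 1 * X 2, by ring⟩
    | 1 => exact ⟨X 0 * X 2, by ring⟩
    | 2 => exact ⟨X 0 * X 1, by ring⟩
  have hPt : pw W P = Q := by
    rw [hW, pw_replicate_append, pw_replicate_append]
    have h3 : List.replicate k (2 : Fin 3) = List.replicate k 2 ++ [] := by simp
    rw [h3, pw_replicate_append]
    exact hQ'
  refine ⟨P, fun w hw y hy => ?_⟩
  have hU : ContDiff ℝ ∞ (fun y => F y - ev P y) := hF.sub (contDiff_ev P)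
  have hFo : IsOpen {y : E3 | ∃ i, y i < 1} := by
    have : {y : E3 | ∃ i, y i < 1} = ⋃ i, {y : E3 | y i < 1} := by
      ext y
      simp
    rw [this]
    exact isOpen_iUnion fun i => isOpen_lt
      (EuclideanSpace.proj (𝕜 := ℝ) i : E3 →L[ℝ] ℝ).continuous continuous_const
  have hlen := length_eq w
  have key := bound_words (L := L) (s := s) hL hs0.le k hU ?_ ?_ (3 * k - w.length) w (by omega) ?_ y hy
  · refine le_trans key ?_
    have h1 : L ^ (3 * k - w.length) ≤ (L + 1) ^ (3 * k) :=
      le_trans (pow_le_pow_left₀ hL (by linarith) _) (pow_le_pow_right₀ hL1 (by omega))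
    calc L ^ (3 * k - w.length) * s ≤ (L + 1) ^ (3 * k) * s :=
          mul_le_mul_of_nonneg_right h1 hs0.le
      _ = δ := by
          rw [hs]
          field_simp
  · intro i v hv z _ hz0
    rw [Dw_sub v hF (contDiff_ev P)]
    have h1 : Dw v F z = 0 := Dw_zero v hFo hF0 z ⟨i, by rw [hz0]; norm_num⟩
    have h2 : Dw v (ev P) z = 0 := Dw_ev_zero i k v hv (hdvd i) z hz0
    simp only [h1, h2, sub_zero]
  · intro z hz
    rw [← hW, Dw_sub W hF (contDiff_ev P), Dw_ev, hPt, abs_sub_comm]
    exact hQ z hz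
  · intro i
    have := List.count_le_length (a := i) (l := w)
    omega

theorem ev_shift (P : P3) (c y : E3) :
    ev (aeval (fun i => (X i + C (c i) : P3)) P) y = ev P (y + c) := by
  induction P using MvPolynomial.induction_on with
  | C a => simp [ev]
  | add p q hp hq => rw [map_add, ev_add, ev_add, hp, hq]
  | mul_X p i hp =>
    rw [map_mul, ev_mul, ev_mul, hp, aeval_X, ev_add, ev_X, ev_C, ev_X]
    rfl

/-- density on the closed annulus -/
theorem dense_ann (R : ℝ) (hR : 1 < R) (k : ℕ) {f : E3 → ℝ} (hf : ContDiff ℝ ∞ f) {δ : ℝ}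
    (hδ : 0 < δ) :
    ∃ p : P3, ∀ w : List (Fin 3), w.length ≤ k → ∀ x ∈ cAnn R,
      |Dw w (fun y => ev p y - f y) x| ≤ δ := by
  let χ : ContDiffBump (0 : E3) := ⟨R + 1, R + 2, by linarith, by linarith⟩
  set c : E3 := (WithLp.equiv 2 (Fin 3 → ℝ)).symm (fun _ => R + 3) with hc
  have hci : ∀ i, c i = R + 3 := fun i => by simp [hc]
  set F : E3 → ℝ := fun y => χ (y - c) * f (y - c) with hF
  have hFs : ContDiff ℝ ∞ F := by
    have h1 : ContDiff ℝ ∞ fun y : E3 => y - c := contDiff_id.sub contDiff_const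
    exact (χ.contDiff.comp h1).mul (hf.comp h1)
  have hcoord : ∀ (x : E3) (i : Fin 3), |x i| ≤ ‖x‖ := by
    intro x i
    have := EuclideanSpace.norm_sq_eq x
    rw [Fin.sum_univ_three] at this
    refine abs_le_of_sq_le_sq ?_ (norm_nonneg x)
    rw [this]
    simp only [Real.norm_eq_abs, sq_abs]
    match i with
    | 0 => nlinarith [sq_nonneg (x 1), sq_nonneg (x 2)]
    | 1 => nlinarith [sq_nonneg (x 0), sq_nonneg (x 2)]
    | 2 => nlinarith [sq_nonneg (x 1), sq_nonneg (x 0)]
  have hF0 : ∀ y : E3, (∃ i, y i < 1) → F y = 0 := by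
    rintro y ⟨i, hi⟩
    have h1 : R + 2 ≤ ‖y - c‖ := by
      have h2 := hcoord (y - c) i
      have h3 : (y - c) i = y i - (R + 3) := by
        rw [PiLp.sub_apply, hci]
      rw [h3] at h2
      have h4 := neg_abs_le (y i - (R + 3))
      linarith
    have h2 : χ (y - c) = 0 := by
      refine χ.zero_of_le_dist ?_
      rw [dist_zero_right]
      exact h1
    simp only [hF, h2, zero_mul]
  obtain ⟨P, hP⟩ := dense_box (L := 2 * (R + 3)) (by linarith) k hFs hF0 hδ
  refine ⟨aeval (fun i => X i + C (c i)) P, fun w hw x hx => ?_⟩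
  have hev : ∀ y : E3, ev (aeval (fun i => X i + C (c i)) P) y = ev P (y + c) := ev_shift P c
  have hball : ∀ y ∈ Metric.ball (0 : E3) (R + 1), ev (aeval (fun i => X i + C (c i)) P) y - f y
      = -(F (y + c) - ev P (y + c)) := by
    intro y hy
    have h1 : χ y = 1 := by
      refine χ.one_of_mem_closedBall ?_
      exact Metric.ball_subset_closedBall hy
    rw [hev]
    simp only [hF, add_sub_cancel_right, h1]
    ring
  have hneg : ∀ (w : List (Fin 3)) (u : E3 → ℝ), Dw w (fun y => -u y) = fun y => -Dw w u y := by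
    intro w u
    induction w with
    | nil => rfl
    | cons i w ih =>
      change pd i (Dw w _) = fun y => -pd i (Dw w u) y
      rw [ih]
      funext z
      unfold pd
      rw [fderiv_fun_neg]
      rfl
  have hx1 : x ∈ Metric.ball (0 : E3) (R + 1) := by
    rw [Metric.mem_ball, dist_zero_right]
    linarith [hx.2]
  have h1 := Dw_congr w Metric.isOpen_ball hball x hx1
  rw [h1, hneg w (fun y => F (y + c) - ev P (y + c)),
    Dw_translate w (fun y => F y - ev P y) c, abs_neg]
  refine hP w hw (x + c) ?_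
  intro i
  have h2 := abs_le.1 (le_trans (hcoord x i) hx.2)
  have h3 : (x + c) i = x i + (R + 3) := by
    rw [PiLp.add_apply, hci]
  rw [h3]
  constructor <;> linarith [h2.1, h2.2]

end UMB.Lin.Base
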