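import Pool.Agent.Lib.UMB.Lin.Defs

/-! # UMB.Lin, chunk G3: commutators and calculus rules of the frame -/

open scoped ContDiff BigOperators
open Set MeasureTheory Pool.Agent.Lib.PenroseSph

namespace UMB.Lin

/-- structure constants: `[X_i, X_j] = - ε_ijk X_k`, the Euler field is central -/
def cc (a b c : Fin 4) : ℝ :=
  if (a, b, c) = ((1 : Fin 4), (2 : Fin 4), (3 : Fin 4)) ∨ (a, b, c) = ((2 : Fin 4), (3 : Fin 4), (1 : Fin 4))
      ∨ (a, b, c) = ((3 : Fin 4), (1 : Fin 4), (2 : Fin 4)) then -1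
  else if (a, b, c) = ((2 : Fin 4), (1 : Fin 4), (3 : Fin 4)) ∨ (a, b, c) = ((3 : Fin 4), (2 : Fin 4), (1 : Fin 4))
      ∨ (a, b, c) = ((1 : Fin 4), (3 : Fin 4), (2 : Fin 4)) then 1
  else 0

theorem g3_rot0 (x : E3) : rotL 0 x = !₂[0, -x 2, x 1] := rfl

theorem g3_rot1 (x : E3) : rotL 1 x = !₂[x 2, 0, -x 0] := rfl

theorem g3_rot2 (x : E3) : rotL 2 x = !₂[-x 1, x 0, 0] := rfl

theorem g3_Zm0 (x : E3) : Zm 0 x = x := rfl

theorem g3_Zm1 (x : E3) : Zm 1 x = !₂[0, -x 2, x 1] := rfl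

theorem g3_Zm2 (x : E3) : Zm 2 x = !₂[x 2, 0, -x 0] := rfl

theorem g3_Zm3 (x : E3) : Zm 3 x = !₂[-x 1, x 0, 0] := rfl

/-- matrix commutators of the linear fields -/
theorem Zm_comm (a b : Fin 4) (x : E3) :
    Zm b (Zm a x) - Zm a (Zm b x) = ∑ c, cc a b c • Zm c x := by
  rw [Fin.sum_univ_four]
  fin_cases a <;> fin_cases b <;>
    simp only [Fin.zero_eta, Fin.mk_one, Fin.reduceFinMk, g3_Zm0, g3_Zm1, g3_Zm2, g3_Zm3, cc] <;>
    ext j <;> fin_cases j <;> simp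

/-- `Z_a Z_b v - Z_b Z_a v = ∑ cc_abc Z_c v`: the left side is
`D²v (Z_a, Z_b) - D²v (Z_b, Z_a) + Dv (Z_b Z_a x - Z_a Z_b x)`, use the symmetry of the second
derivative and `Zm_comm`. -/
theorem Z_comm (a b : Fin 4) {v : E3 → ℝ} (hv : ContDiff ℝ 2 v) (x : E3) :
    Z a (Z b v) x - Z b (Z a v) x = ∑ c, cc a b c * Z c v x := by
  have hd : Differentiable ℝ (fderiv ℝ v) :=
    (hv.fderiv_right (m := 1) (by norm_num)).differentiable (by norm_num)
  have key : ∀ a b : Fin 4, Z a (Z b v) x =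
      fderiv ℝ (fderiv ℝ v) x (Zm a x) (Zm b x) + fderiv ℝ v x (Zm b (Zm a x)) := by
    intro a b
    have h1 : HasFDerivAt (fun y => fderiv ℝ v y (Zm b y))
        ((fderiv ℝ v x).comp (Zm b) + (fderiv ℝ (fderiv ℝ v) x).flip (Zm b x)) x :=
      (hd x).hasFDerivAt.clm_apply (Zm b).hasFDerivAt
    change fderiv ℝ (fun y => fderiv ℝ v y (Zm b y)) x (Zm a x) = _
    rw [h1.fderiv]
    change fderiv ℝ v x (Zm b (Zm a x)) + fderiv ℝ (fderiv ℝ v) x (Zm a x) (Zm b x) = _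
    rw [add_comm]
  have hsymm : fderiv ℝ (fderiv ℝ v) x (Zm a x) (Zm b x) =
      fderiv ℝ (fderiv ℝ v) x (Zm b x) (Zm a x) := by
    have h1 : IsSymmSndFDerivAt ℝ v x := hv.contDiffAt.isSymmSndFDerivAt (by simp)
    exact h1 (Zm a x) (Zm b x)
  rw [key a b, key b a, hsymm]
  have h2 : fderiv ℝ v x (Zm b (Zm a x) - Zm a (Zm b x)) =
      fderiv ℝ v x (∑ c, cc a b c • Zm c x) := by rw [Zm_comm]
  rw [map_sub, map_sum] at h2
  have h3 : ∀ c : Fin 4, fderiv ℝ v x (cc a b c • Zm c x) = cc a b c * Z c v x := by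
    intro c
    rw [map_smul, smul_eq_mul]
    rfl
  simp only [h3] at h2
  rw [← h2]
  ring

theorem cc_zero_left (b c : Fin 4) : cc 0 b c = 0 := by
  fin_cases b <;> fin_cases c <;> simp [cc]

theorem cc_zero_right (a c : Fin 4) : cc a 0 c = 0 := by
  fin_cases a <;> fin_cases c <;> simp [cc]

theorem cc_abs (a b c : Fin 4) : |cc a b c| ≤ 1 := by
  unfold cc
  split_ifs <;> norm_num

end UMB.Lin
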