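import Pool.Agent.Lib.UMB.Lin.Defs

/-! # UMB.Lin, chunk G4: calculus rules -/

open scoped ContDiff BigOperators
open Set MeasureTheory Pool.Agent.Lib.PenroseSph

namespace UMB.Lin

theorem g4_cd (a : Fin 4) {v : E3 → ℝ} {m n : WithTop ℕ∞} (hv : ContDiff ℝ n v)
    (h : m + 1 ≤ n) : ContDiff ℝ m (Z a v) := by
  have h1 : ContDiff ℝ m (fun x => fderiv ℝ v x) := hv.fderiv_right h
  exact h1.clm_apply (Zm a).contDiff

theorem contDiff_Z (a : Fin 4) {v : E3 → ℝ} (hv : ContDiff ℝ ∞ v) : ContDiff ℝ ∞ (Z a v) :=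
  g4_cd a hv (by simp)

theorem contDiff_Z_nat (a : Fin 4) {v : E3 → ℝ} {m : ℕ} (hv : ContDiff ℝ (m + 1 : ℕ) v) :
    ContDiff ℝ (m : ℕ) (Z a v) :=
  g4_cd a hv (by push_cast; exact le_rfl)

theorem contDiff_Zw (w : List (Fin 4)) {v : E3 → ℝ} (hv : ContDiff ℝ ∞ v) :
    ContDiff ℝ ∞ (Zw w v) := by
  induction w with
  | nil => exact hv
  | cons a w ih => exact contDiff_Z a ih

theorem contDiff_pd (i : Fin 3) {v : E3 → ℝ} (hv : ContDiff ℝ ∞ v) : ContDiff ℝ ∞ (pd i v) := by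
  have h1 : ContDiff ℝ ∞ (fun x => fderiv ℝ v x) := hv.fderiv_right (by simp)
  exact h1.clm_apply contDiff_const

theorem Z_add (a : Fin 4) {u v : E3 → ℝ} {x : E3} (hu : DifferentiableAt ℝ u x)
    (hv : DifferentiableAt ℝ v x) : Z a (fun y => u y + v y) x = Z a u x + Z a v x := by
  unfold Z
  rw [fderiv_fun_add hu hv]
  rfl

theorem Z_sub (a : Fin 4) {u v : E3 → ℝ} {x : E3} (hu : DifferentiableAt ℝ u x)
    (hv : DifferentiableAt ℝ v x) : Z a (fun y => u y - v y) x = Z a u x - Z a v x := by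
  unfold Z
  rw [fderiv_fun_sub hu hv]
  rfl

theorem Z_mul (a : Fin 4) {u v : E3 → ℝ} {x : E3} (hu : DifferentiableAt ℝ u x)
    (hv : DifferentiableAt ℝ v x) :
    Z a (fun y => u y * v y) x = u x * Z a v x + v x * Z a u x := by
  unfold Z
  rw [fderiv_fun_mul hu hv]
  rfl

theorem Z_const_mul (a : Fin 4) (c : ℝ) {v : E3 → ℝ} {x : E3} (hv : DifferentiableAt ℝ v x) :
    Z a (fun y => c * v y) x = c * Z a v x := by
  unfold Z
  rw [fderiv_const_mul hv c]
  rfl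

theorem Z_const (a : Fin 4) (c : ℝ) (x : E3) : Z a (fun _ => c) x = 0 := by
  unfold Z
  rw [fderiv_fun_const]
  rfl

theorem Z_sum (a : Fin 4) {ι : Type*} (s : Finset ι) {u : ι → E3 → ℝ} {x : E3}
    (hu : ∀ i ∈ s, DifferentiableAt ℝ (u i) x) :
    Z a (fun y => ∑ i ∈ s, u i y) x = ∑ i ∈ s, Z a (u i) x := by
  unfold Z
  rw [fderiv_fun_sum hu, ContinuousLinearMap.sum_apply]

/-- locality: `Z_a` only depends on the function near the point -/
theorem Z_congr (a : Fin 4) {U : Set E3} (hU : IsOpen U) {u v : E3 → ℝ}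
    (h : ∀ x ∈ U, u x = v x) : ∀ x ∈ U, Z a u x = Z a v x := by
  intro x hx
  have h1 : u =ᶠ[nhds x] v := by
    filter_upwards [hU.mem_nhds hx] with y hy
    exact h y hy
  unfold Z
  rw [h1.fderiv_eq]

theorem Zw_append (w w' : List (Fin 4)) (v : E3 → ℝ) : Zw (w ++ w') v = Zw w (Zw w' v) := by
  induction w with
  | nil => rfl
  | cons a w ih =>
    change Z a (Zw (w ++ w') v) = Z a (Zw w (Zw w' v))
    rw [ih]

theorem Bz_mul {R : ℝ} {u v : E3 → ℝ} (h : Bz R v) : Bz R (fun x => u x * v x) := by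
  intro x hx
  change u x * v x = 0
  rw [h x hx, mul_zero]

end UMB.Lin
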