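import Pool.Agent.Lib.UMB.Lin.N1
import Pool.Agent.Lib.UMB.Lin.G3
import Pool.Agent.Lib.UMB.Lin.G4

/-! # UMB.Lin, chunk N2: elementary properties of the Sobolev norms -/

open scoped ContDiff BigOperators
open Set MeasureTheory Pool.Agent.Lib.PenroseSph

namespace UMB.Lin

theorem n2_succ (R : ℝ) (k : ℕ) (v : E3 → ℝ) :
    H R (k + 1) v = H R k v + ∑ a, H R k (Z a v) := rfl

theorem n2_zero (R : ℝ) (v : E3 → ℝ) : H R 0 v = l2 R v := rfl

theorem n2_diff {v : E3 → ℝ} (hv : ContDiff ℝ ∞ v) (x : E3) : DifferentiableAt ℝ v x :=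
  (hv.differentiable (by simp)).differentiableAt

theorem H_nonneg (R : ℝ) (k : ℕ) (v : E3 → ℝ) : 0 ≤ H R k v := by
  induction k generalizing v with
  | zero => exact l2_nonneg R v
  | succ k ih =>
    rw [n2_succ]
    exact add_nonneg (ih v) (Finset.sum_nonneg fun a _ => ih _)

theorem H_le_succ (R : ℝ) (k : ℕ) (v : E3 → ℝ) : H R k v ≤ H R (k + 1) v := by
  rw [n2_succ]
  have : 0 ≤ ∑ a, H R k (Z a v) := Finset.sum_nonneg fun a _ => H_nonneg R k _
  linarith

theorem H_mono (R : ℝ) {j k : ℕ} (h : j ≤ k) (v : E3 → ℝ) : H R j v ≤ H R k v := by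
  induction k, h using Nat.le_induction with
  | base => exact le_rfl
  | succ k _ ih => exact ih.trans (H_le_succ R k v)

theorem H_Z (R : ℝ) (k : ℕ) (a : Fin 4) (v : E3 → ℝ) : H R k (Z a v) ≤ H R (k + 1) v := by
  rw [n2_succ]
  have h1 : H R k (Z a v) ≤ ∑ a, H R k (Z a v) :=
    Finset.single_le_sum (f := fun a => H R k (Z a v)) (fun i _ => H_nonneg R k _)
      (Finset.mem_univ a)
  have h2 := H_nonneg R k v
  linarith

theorem n2_Zw (R : ℝ) (w : List (Fin 4)) (v : E3 → ℝ) :
    ∀ k : ℕ, H R k (Zw w v) ≤ H R (k + w.length) v := by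
  induction w with
  | nil => intro k; exact le_rfl
  | cons a w ih =>
    intro k
    refine (H_Z R k a (Zw w v)).trans ((ih (k + 1)).trans (le_of_eq ?_))
    congr 1
    simp only [List.length_cons]
    ring

theorem l2_Zw_le (R : ℝ) (k : ℕ) (w : List (Fin 4)) (hw : w.length ≤ k) (v : E3 → ℝ) :
    l2 R (Zw w v) ≤ H R k v := by
  have h := n2_Zw R w v 0
  rw [n2_zero] at h
  exact h.trans (H_mono R (by simpa using hw) v)

theorem H_Zw (R : ℝ) (k : ℕ) (w : List (Fin 4)) (v : E3 → ℝ) :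
    H R k (Zw w v) ≤ H R (k + w.length) v := n2_Zw R w v k

/-- the norm only depends on the function on the open annulus -/
theorem H_congr {R : ℝ} (k : ℕ) {u v : E3 → ℝ} (h : ∀ x ∈ Ann R, u x = v x) :
    H R k u = H R k v := by
  induction k generalizing u v with
  | zero => exact l2_congr h
  | succ k ih =>
    rw [n2_succ, n2_succ, ih h]
    congr 1
    exact Finset.sum_congr rfl fun a _ => ih (Z_congr a (isOpen_Ann R) h)

theorem H_add {R : ℝ} (k : ℕ) {u v : E3 → ℝ} (hu : ContDiff ℝ ∞ u) (hv : ContDiff ℝ ∞ v) :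
    H R k (fun x => u x + v x) ≤ H R k u + H R k v := by
  induction k generalizing u v with
  | zero => exact l2_add hu.continuous hv.continuous
  | succ k ih =>
    rw [n2_succ, n2_succ, n2_succ]
    have h1 := ih hu hv
    have h2 : ∑ a, H R k (Z a (fun x => u x + v x))
        ≤ ∑ a, H R k (Z a u) + ∑ a, H R k (Z a v) := by
      rw [← Finset.sum_add_distrib]
      refine Finset.sum_le_sum fun a _ => ?_
      have h3 : Z a (fun x => u x + v x) = fun x => Z a u x + Z a v x :=
        funext fun x => Z_add a (n2_diff hu x) (n2_diff hv x)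
      rw [h3]
      exact ih (contDiff_Z a hu) (contDiff_Z a hv)
    linarith

theorem H_const_mul {R : ℝ} (k : ℕ) (c : ℝ) {v : E3 → ℝ} (hv : ContDiff ℝ ∞ v) :
    H R k (fun x => c * v x) = |c| * H R k v := by
  induction k generalizing v with
  | zero => exact l2_const_mul R c v
  | succ k ih =>
    rw [n2_succ, n2_succ, ih hv, mul_add, Finset.mul_sum]
    congr 1
    refine Finset.sum_congr rfl fun a _ => ?_
    have h3 : Z a (fun x => c * v x) = fun x => c * Z a v x :=
      funext fun x => Z_const_mul a c (n2_diff hv x)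
    rw [h3]
    exact ih (contDiff_Z a hv)

theorem H_sub {R : ℝ} (k : ℕ) {u v : E3 → ℝ} (hu : ContDiff ℝ ∞ u) (hv : ContDiff ℝ ∞ v) :
    H R k (fun x => u x - v x) ≤ H R k u + H R k v := by
  have h1 : (fun x => u x - v x) = fun x => u x + (fun y => (-1) * v y) x := by
    funext x; ring
  have hv' : ContDiff ℝ ∞ (fun y => (-1) * v y) := contDiff_const.mul hv
  rw [h1]
  refine (H_add k hu hv').trans ?_
  rw [H_const_mul k (-1) hv]
  simp

theorem H_zero_fun (R : ℝ) (k : ℕ) : H R k (fun _ => 0) = 0 := by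
  induction k with
  | zero => rw [n2_zero]; unfold l2; simp
  | succ k ih =>
    rw [n2_succ, ih, zero_add]
    refine Finset.sum_eq_zero fun a _ => ?_
    have h3 : Z a (fun _ => (0 : ℝ)) = fun _ => 0 := funext fun x => Z_const a 0 x
    rw [h3]
    exact ih

theorem H_sum {R : ℝ} (k : ℕ) {ι : Type*} (s : Finset ι) {u : ι → E3 → ℝ}
    (hu : ∀ i ∈ s, ContDiff ℝ ∞ (u i)) :
    H R k (fun x => ∑ i ∈ s, u i x) ≤ ∑ i ∈ s, H R k (u i) := by
  classical
  induction s using Finset.induction_on with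
  | empty => simp [H_zero_fun]
  | insert i s his ih =>
    have h1 : (fun x => ∑ j ∈ insert i s, u j x) = fun x => u i x + (fun y => ∑ j ∈ s, u j y) x :=
      funext fun x => Finset.sum_insert his
    rw [h1, Finset.sum_insert his]
    have h2 : ContDiff ℝ ∞ (fun y => ∑ j ∈ s, u j y) :=
      ContDiff.sum fun j hj => hu j (Finset.mem_insert_of_mem hj)
    refine (H_add k (hu i (Finset.mem_insert_self i s)) h2).trans ?_
    have h3 := ih fun j hj => hu j (Finset.mem_insert_of_mem hj)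
    linarith

/-- Splitting: every word of length `k + 2` contains a rotation (which can be moved to the right,
the Euler field is central) or is the word `Z_0^{k+2}`. With
`H (k+2) v = H (k+1) v + ∑ H (k+1) (X_i v) + H (k+1) (Z_0 v)` and
`H (k+1) (Z_0 v) = H k (Z_0 v) + ∑ H k (X_i Z_0 v) + H k (Z_0 Z_0 v)`, `X_i Z_0 v = Z_0 X_i v`. -/
theorem H_split {R : ℝ} (k : ℕ) {v : E3 → ℝ} (hv : ContDiff ℝ ∞ v) :
    H R (k + 2) v ≤ 2 * H R (k + 1) v + 2 * ∑ i : Fin 3, H R (k + 1) (Z i.succ v)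
      + H R k (Z 0 (Z 0 v)) := by
  have e1 : H R (k + 2) v = H R (k + 1) v + ∑ a, H R (k + 1) (Z a v) := rfl
  have e2 : H R (k + 1) (Z 0 v) = H R k (Z 0 v) + ∑ a, H R k (Z a (Z 0 v)) := rfl
  rw [Fin.sum_univ_succ] at e1 e2
  have h1 : H R k (Z 0 v) ≤ H R (k + 1) v := H_Z R k 0 v
  have h2 : ∑ i : Fin 3, H R k (Z i.succ (Z 0 v)) ≤ ∑ i : Fin 3, H R (k + 1) (Z i.succ v) := by
    refine Finset.sum_le_sum fun i _ => ?_
    have h3 : H R k (Z i.succ (Z 0 v)) = H R k (Z 0 (Z i.succ v)) := by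
      refine H_congr k fun x _ => ?_
      have h := Z_comm i.succ 0 (contDiff_infty.1 hv 2) x
      have h2 : ∑ c, cc i.succ 0 c * Z c v x = 0 :=
        Finset.sum_eq_zero fun c _ => by rw [cc_zero_right]; ring
      linarith
    rw [h3]
    exact H_Z R k 0 _
  linarith

end UMB.Lin
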