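import Pool.Agent.Lib.UMB.Lin.Defs

/-! # UMB.Lin: iterated partial derivatives -/

open scoped ContDiff BigOperators
open Set MeasureTheory Pool.Agent.Lib.PenroseSph

namespace UMB.Lin

/-- iterated partial derivatives -/
noncomputable def Dw : List (Fin 3) → (E3 → ℝ) → E3 → ℝ
  | [], v => v
  | i :: w, v => pd i (Dw w v)

end UMB.Lin
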