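import Pool.Agent.Lib.UMB.Lin.Defs

/-! # UMB.Lin, chunk G2: the frame and the partial derivatives -/

open scoped ContDiff BigOperators
open Set MeasureTheory Pool.Agent.Lib.PenroseSph

namespace UMB.Lin

theorem g2_zm (a : Fin 4) (x : E3) : Zm a x = ![x, !₂[0, -x 2, x 1], !₂[x 2, 0, -x 0], !₂[-x 1, x 0, 0]] a := by
  fin_cases a <;> rfl

theorem g2_norm (x : E3) : ‖x‖ ^ 2 = x 0 ^ 2 + x 1 ^ 2 + x 2 ^ 2 := by
  rw [EuclideanSpace.real_norm_sq_eq, Fin.sum_univ_three]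

/-- `∑_a (Z_a)_i (Z_a)_j = |x|^2 δ_ij`. -/
theorem frame_sum (x : E3) (i j : Fin 3) :
    ∑ a, (Zm a x) i * (Zm a x) j = if i = j then ‖x‖ ^ 2 else 0 := by
  rw [g2_norm]
  simp only [g2_zm, Fin.sum_univ_four]
  fin_cases i <;> fin_cases j <;> simp <;> ring

/-- `Z_a v = ∑_i (Z_a)_i ∂_i v` (expand the vector `Zm a x` in the standard basis). -/
theorem Z_eq_pd (a : Fin 4) (v : E3 → ℝ) (x : E3) : Z a v x = ∑ i, (Zm a x) i * pd i v x := by
  have h1 : Zm a x = ∑ i, (Zm a x) i • (EuclideanSpace.single i (1 : ℝ) : E3) := by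
    ext j
    simp [Finset.sum_apply, Pi.single_apply]
  unfold Z
  conv_lhs => rw [h1]
  rw [map_sum]
  refine Finset.sum_congr rfl fun i _ => ?_
  rw [map_smul, smul_eq_mul]
  rfl

/-- `|x|^2 ∂_i v = ∑_a (Z_a)_i Z_a v` -/
theorem pd_eq_Z (i : Fin 3) (v : E3 → ℝ) (x : E3) :
    ‖x‖ ^ 2 * pd i v x = ∑ a, (Zm a x) i * Z a v x := by
  simp only [Z_eq_pd, Finset.mul_sum]
  rw [Finset.sum_comm]
  have h1 : ∀ j, ∑ a, (Zm a x) i * ((Zm a x) j * pd j v x) = (if i = j then ‖x‖ ^ 2 else 0) * pd j v x := by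
    intro j
    rw [← frame_sum, Finset.sum_mul]
    exact Finset.sum_congr rfl fun a _ => by ring
  simp only [h1, ite_mul, zero_mul, Finset.sum_ite_eq, Finset.mem_univ, if_true]

/-- `∑_a (Z_a v)^2 = |x|^2 |grad v|^2` -/
theorem sum_Z_sq (v : E3 → ℝ) (x : E3) :
    ∑ a, Z a v x ^ 2 = ‖x‖ ^ 2 * ∑ i, pd i v x ^ 2 := by
  have h1 : ∀ a, Z a v x ^ 2 = ∑ i, pd i v x * ((Zm a x) i * Z a v x) := by
    intro a
    rw [pow_two]
    nth_rewrite 1 [Z_eq_pd]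
    rw [Finset.sum_mul]
    exact Finset.sum_congr rfl fun i _ => by ring
  simp only [h1]
  rw [Finset.sum_comm, Finset.mul_sum]
  refine Finset.sum_congr rfl fun i _ => ?_
  rw [← Finset.mul_sum, ← pd_eq_Z]
  ring

/-- the rotation fields satisfy `∑_j x_j X_j v = 0` -/
theorem sum_x_rot (v : E3 → ℝ) (x : E3) : ∑ j : Fin 3, x j * Z j.succ v x = 0 := by
  simp only [Z_eq_pd, g2_zm, Fin.sum_univ_three]
  simp
  ring

/-- the rotation fields are tangent to the spheres -/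
theorem rot_norm (i : Fin 3) (x : E3) : inner ℝ x (Zm i.succ x) = 0 := by
  rw [g2_zm, PiLp.inner_apply, Fin.sum_univ_three]
  fin_cases i <;> simp <;> ring

/-- `|ξ_0 x + η × x|^2 = |x|^2 (ξ_0^2 + |η|^2) - (η . x)^2` -/
theorem frame_norm (ξ : Fin 4 → ℝ) (x : E3) :
    ‖∑ a, ξ a • Zm a x‖ ^ 2 = ‖x‖ ^ 2 * ∑ a, ξ a ^ 2 - (∑ j : Fin 3, ξ j.succ * x j) ^ 2 := by
  rw [g2_norm, g2_norm]
  simp only [g2_zm, Fin.sum_univ_four, Fin.sum_univ_three]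
  simp
  ring

end UMB.Lin
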