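import Pool.Agent.Lib.UMB.Lin.N3
import Pool.Agent.Lib.UMB.Lin.G2
import Pool.Agent.Lib.UMB.Lin.Dw

/-! # UMB.Lin, chunk N5: words in the frame are bounded by words in the partial derivatives -/

open scoped ContDiff BigOperators
open Set MeasureTheory Pool.Agent.Lib.PenroseSph

namespace UMB.Lin

theorem contDiff_Dw (w : List (Fin 3)) {v : E3 → ℝ} (hv : ContDiff ℝ ∞ v) :
    ContDiff ℝ ∞ (Dw w v) := by
  induction w with
  | nil => exact hv
  | cons i w ih => exact contDiff_pd i ih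

theorem n5_append (w : List (Fin 3)) (i : Fin 3) (v : E3 → ℝ) :
    Dw (w ++ [i]) v = Dw w (pd i v) := by
  induction w with
  | nil => rfl
  | cons j w ih =>
    show pd j (Dw (w ++ [i]) v) = pd j (Dw w (pd i v))
    rw [ih]

theorem n5_coeff (a : Fin 4) (i : Fin 3) : ContDiff ℝ ∞ (fun x : E3 => (Zm a x) i) := by
  have h : ContDiff ℝ ∞ (fun y : E3 => y i) := by fun_prop
  exact h.comp (Zm a).contDiff

/-- induction on `k` for all `v`: `Z_a v = ∑ (Z_a)_i ∂_i v`, the coefficients `(Zm a x) i` are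
linear functions, `Bd_mul`, `Bd_succ_iff`; words in `pd` are peeled from the right. -/
theorem Bd_of_Dw (R : ℝ) (k : ℕ) : ∃ C, 0 ≤ C ∧ ∀ (v : E3 → ℝ) (s : ℝ), 0 ≤ s → ContDiff ℝ ∞ v →
    (∀ w : List (Fin 3), w.length ≤ k → ∀ x ∈ cAnn R, |Dw w v x| ≤ s) → Bd R k (C * s) v := by
  induction k with
  | zero =>
    refine ⟨1, zero_le_one, ?_⟩
    intro v s hs hv hw w hwl x hx
    have : w = [] := List.length_eq_zero_iff.mp (Nat.le_zero.mp hwl)
    subst this
    have := hw [] (le_refl _) x hx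
    rw [one_mul]
    exact this
  | succ k ih =>
    obtain ⟨C, hC, ih⟩ := ih
    have hB : ∀ (a : Fin 4) (i : Fin 3), ∃ B, 0 ≤ B ∧ Bd R k B (fun x : E3 => (Zm a x) i) :=
      fun a i => Bd_exists R k (n5_coeff a i)
    choose B hB0 hB using hB
    have hsum0 : ∀ a, 0 ≤ ∑ i, 2 ^ k * B a i * C := fun a =>
      Finset.sum_nonneg fun i _ => by have := hB0 a i; positivity
    refine ⟨1 + ∑ a, ∑ i, 2 ^ k * B a i * C, by
      have := Finset.sum_nonneg (fun a (_ : a ∈ Finset.univ) => hsum0 a)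
      linarith, ?_⟩
    intro v s hs hv hw
    rw [Bd_succ_iff]
    have hT0 := Finset.sum_nonneg (fun a (_ : a ∈ Finset.univ) => hsum0 a)
    constructor
    · intro x hx
      have h1 := hw [] (Nat.zero_le _) x hx
      have h2 : |v x| ≤ s := h1
      nlinarith [mul_nonneg hT0 hs]
    · intro a
      have hpd : ∀ i, Bd R k (C * s) (pd i v) := by
        intro i
        refine ih (pd i v) s hs (contDiff_pd i hv) ?_
        intro w hwl x hx
        rw [← n5_append]
        refine hw _ ?_ x hx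
        simp only [List.length_append, List.length_cons, List.length_nil]
        omega
      have hterm : ∀ i, Bd R k (2 ^ k * B a i * (C * s))
          (fun x => (fun x : E3 => (Zm a x) i) x * pd i v x) := by
        intro i
        exact Bd_mul (hB0 a i) (mul_nonneg hC hs) k (n5_coeff a i) (contDiff_pd i hv) (hB a i) (hpd i)
      have hcd : ∀ i, ContDiff ℝ ∞ (fun x => (fun x : E3 => (Zm a x) i) x * pd i v x) := by
        intro i
        exact (n5_coeff a i).mul (contDiff_pd i hv)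
      have h01 := Bd_add k (hcd 0) (hcd 1) (hterm 0) (hterm 1)
      have h012 := Bd_add k ((hcd 0).add (hcd 1)) (hcd 2) h01 (hterm 2)
      have hZ : Z a v = (fun x => ((fun x => (fun x : E3 => (Zm a x) 0) x * pd 0 v x) x +
          (fun x => (fun x : E3 => (Zm a x) 1) x * pd 1 v x) x) +
          (fun x => (fun x : E3 => (Zm a x) 2) x * pd 2 v x) x) := by
        funext x
        rw [Z_eq_pd, Fin.sum_univ_three]
      rw [hZ]
      refine Bd_mono le_rfl ?_ h012
      have h3 : ∑ i, 2 ^ k * B a i * C ≤ ∑ a, ∑ i, 2 ^ k * B a i * C :=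
        Finset.single_le_sum (f := fun a => ∑ i, 2 ^ k * B a i * C) (fun a _ => hsum0 a)
          (Finset.mem_univ a)
      have h4 : ∑ i, 2 ^ k * B a i * C =
          2 ^ k * B a 0 * C + 2 ^ k * B a 1 * C + 2 ^ k * B a 2 * C := Fin.sum_univ_three _
      nlinarith [mul_le_mul_of_nonneg_right h3 hs]

theorem H_le_of_Bd (R : ℝ) (k : ℕ) : ∃ C, 0 ≤ C ∧ ∀ (v : E3 → ℝ) (s : ℝ), 0 ≤ s →
    ContDiff ℝ ∞ v → Bd R k s v → H R k v ≤ C * s := by
  induction k with
  | zero =>
    refine ⟨Real.sqrt (volume.real (Ann R)), Real.sqrt_nonneg _, ?_⟩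
    intro v s hs hv hb
    have hbd : ∀ x ∈ Ann R, |v x| ≤ s := fun x hx => hb [] (Nat.zero_le _) x (Ann_subset R hx)
    show Real.sqrt (∫ x in Ann R, v x ^ 2) ≤ _
    have hint : ∫ x in Ann R, v x ^ 2 ≤ volume.real (Ann R) * s ^ 2 := by
      have h1 : ∫ x in Ann R, v x ^ 2 ≤ ∫ x in Ann R, s ^ 2 := by
        refine setIntegral_mono_on (integrableOn_Ann (hv.continuous.pow 2))
          (integrableOn_Ann continuous_const) (measurableSet_Ann R) ?_
        intro x hx
        have := hbd x hx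
        rw [← sq_abs]
        exact pow_le_pow_left₀ (abs_nonneg _) this 2
      refine h1.trans (le_of_eq ?_)
      rw [setIntegral_const, smul_eq_mul]
    calc Real.sqrt (∫ x in Ann R, v x ^ 2) ≤ Real.sqrt (volume.real (Ann R) * s ^ 2) :=
          Real.sqrt_le_sqrt hint
      _ = Real.sqrt (volume.real (Ann R)) * s := by
          rw [Real.sqrt_mul (measureReal_nonneg), Real.sqrt_sq hs]
  | succ k ih =>
    obtain ⟨C, hC, ih⟩ := ih
    refine ⟨5 * C, by linarith, ?_⟩
    intro v s hs hv hb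
    have h1 : H R k v ≤ C * s := ih v s hs hv (Bd_mono (Nat.le_succ k) le_rfl hb)
    have h2 : ∀ a, H R k (Z a v) ≤ C * s := fun a => ih _ s hs (contDiff_Z a hv) (Bd_Z hb a)
    show H R k v + ∑ a, H R k (Z a v) ≤ _
    have h3 : ∑ a : Fin 4, H R k (Z a v) ≤ ∑ a : Fin 4, C * s := Finset.sum_le_sum fun a _ => h2 a
    rw [Finset.sum_const, Finset.card_univ, Fintype.card_fin, nsmul_eq_mul] at h3
    push_cast at h3
    linarith

theorem H_le_of_Dw (R : ℝ) (k : ℕ) : ∃ C, 0 ≤ C ∧ ∀ (v : E3 → ℝ) (s : ℝ), 0 ≤ s →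
    ContDiff ℝ ∞ v → (∀ w : List (Fin 3), w.length ≤ k → ∀ x ∈ cAnn R, |Dw w v x| ≤ s) →
    H R k v ≤ C * s := by
  obtain ⟨C1, hC1, h1⟩ := Bd_of_Dw R k
  obtain ⟨C2, hC2, h2⟩ := H_le_of_Bd R k
  refine ⟨C2 * C1, mul_nonneg hC2 hC1, ?_⟩
  intro v s hs hv hw
  have := h2 v (C1 * s) (mul_nonneg hC1 hs) hv (h1 v s hs hv hw)
  rw [mul_assoc]
  exact this

end UMB.Lin
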