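import Pool.Agent.Lib.UMB.Lin.B4
import Pool.Agent.Lib.UMB.Lin.B8
import Pool.Agent.Lib.UMB.Lin.N5
import Pool.Agent.Lib.UMB.Lin.N2

/-!
# UMB.Lin, the base case of the method of continuity: the model operator has dense range
-/

open scoped ContDiff BigOperators
open Set MeasureTheory Pool.Agent.Lib.PenroseSph

namespace UMB.Lin

/-- The model operator `|x|^2 Δ` with zero boundary values has dense range in every Sobolev norm. -/
theorem base {R : ℝ} (hR : 1 < R) (k : ℕ) {f : E3 → ℝ} (hf : ContDiff ℝ ∞ f) {ε : ℝ}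
    (hε : 0 < ε) :
    ∃ v : E3 → ℝ, ContDiff ℝ ∞ v ∧ Bz R v ∧ H R k (fun x => L0.ap v x - f x) < ε := by
  obtain ⟨C, hC, hCle⟩ := H_le_of_Dw R k
  obtain ⟨p, hp⟩ := Base.dense_ann R hR k hf (δ := ε / (C + 1)) (by positivity)
  obtain ⟨v, hv, hvb, hve⟩ := Base.solve_poly hR p
  refine ⟨v, hv, hvb, ?_⟩
  have h1 : H R k (fun x => L0.ap v x - f x) = H R k (fun x => Base.ev p x - f x) := by
    refine H_congr k fun x hx => ?_
    rw [hve x (by nlinarith [hx.1])]
  rw [h1]
  have h2 := hCle (fun x => Base.ev p x - f x) (ε / (C + 1)) (by positivity)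
    ((Base.contDiff_ev p).sub hf) hp
  refine lt_of_le_of_lt h2 ?_
  have h3 : C * (ε / (C + 1)) = ε * (C / (C + 1)) := by ring
  rw [h3]
  have h4 : C / (C + 1) < 1 := by
    rw [div_lt_one (by linarith)]
    linarith
  nlinarith

end UMB.Lin
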