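import Pool.Agent.Lib.UMB.Lin.MDefs
import Pool.Agent.Lib.UMB.Lin.G1

set_option autoImplicit false

/-! # UMB.Lin, chunk F3 (Lipschitz bound on the annulus) -/

open scoped ContDiff BigOperators Topology
open Set MeasureTheory Filter Pool.Agent.Lib.PenroseSph

namespace UMB.Lin

theorem f3_fderiv {R : ℝ} {v : E3 → ℝ} {K : ℝ} (hK : 0 ≤ K)
    (hp : ∀ x ∈ Ann R, ∀ i, |pd i v x| ≤ K) {x : E3} (hx : x ∈ Ann R) :
    ‖fderiv ℝ v x‖ ≤ 3 * K := by
  refine ContinuousLinearMap.opNorm_le_bound _ (by positivity) fun w => ?_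
  have hw : w = ∑ i, w i • EuclideanSpace.single i (1 : ℝ) := by
    ext j
    simp [Finset.sum_apply, Pi.single_apply]
  have h1 : fderiv ℝ v x w = ∑ i, w i * pd i v x := by
    conv_lhs => rw [hw]
    simp only [map_sum, map_smul, smul_eq_mul, pd]
  rw [h1, Real.norm_eq_abs]
  refine (Finset.abs_sum_le_sum_abs _ _).trans ?_
  have h2 : ∀ i ∈ (Finset.univ : Finset (Fin 3)), |w i * pd i v x| ≤ K * ‖w‖ := by
    intro i _
    rw [abs_mul, mul_comm]
    have h3 : ‖w i‖ ≤ ‖w‖ := PiLp.norm_apply_le w i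
    rw [Real.norm_eq_abs] at h3
    exact mul_le_mul (hp x hx i) h3 (abs_nonneg _) hK
  refine (Finset.sum_le_sum h2).trans ?_
  simp only [Finset.sum_const, Finset.card_univ, Fintype.card_fin, nsmul_eq_mul]
  push_cast
  linarith

theorem f3_seg {R : ℝ} {v : E3 → ℝ} {K : ℝ} (hK : 0 ≤ K) (hv : C2c R v)
    (hp : ∀ x ∈ Ann R, ∀ i, |pd i v x| ≤ K) {x y : E3} (hs : segment ℝ x y ⊆ Ann R) :
    |v x - v y| ≤ 3 * K * ‖x - y‖ := by
  have h := Convex.norm_image_sub_le_of_norm_hasFDerivWithin_le (𝕜 := ℝ) (f := v)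
    (f' := fun z => fderiv ℝ v z) (s := segment ℝ x y) (C := 3 * K) (x := y) (y := x)
    (fun z hz => (((hv.c2 z (hs hz)).differentiableAt (by norm_num)).hasFDerivAt).hasFDerivWithinAt)
    (fun z hz => f3_fderiv hK hp (hs hz)) (convex_segment x y)
    (right_mem_segment ℝ x y) (left_mem_segment ℝ x y)
  rwa [Real.norm_eq_abs] at h

theorem f3_half {R : ℝ} {e x z : E3} (he : ‖e‖ = 1) (hx : 1 < inner ℝ e x) (hz : 1 < inner ℝ e z)
    (hxR : ‖x‖ < R) (hzR : ‖z‖ < R) : segment ℝ x z ⊆ Ann R := by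
  have hc : Convex ℝ {w : E3 | 1 < inner ℝ e w} := by
    have : {w : E3 | 1 < inner ℝ e w} = (innerSL ℝ e) ⁻¹' (Ioi 1) := by
      ext w; simp
    rw [this]
    exact (convex_Ioi (1 : ℝ)).linear_preimage (innerSL ℝ e).toLinearMap
  intro w hw
  refine ⟨?_, ?_⟩
  · have h1 : 1 < inner ℝ e w := hc.segment_subset hx hz hw
    have h2 : inner ℝ e w ≤ ‖e‖ * ‖w‖ := real_inner_le_norm e w
    rw [he, one_mul] at h2
    linarith
  · have h1 : w ∈ Metric.ball (0 : E3) R :=
      (convex_ball (0 : E3) R).segment_subset (mem_ball_zero_iff.mpr hxR)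
        (mem_ball_zero_iff.mpr hzR) hw
    exact mem_ball_zero_iff.mp h1

theorem f3_open {R : ℝ} (hR : 1 < R) {v : E3 → ℝ} {K : ℝ} (hK : 0 ≤ K) (hv : C2c R v)
    (hp : ∀ x ∈ Ann R, ∀ i, |pd i v x| ≤ K) {x y : E3} (hx : x ∈ Ann R) (hy : y ∈ Ann R)
    (hd : ‖x - y‖ ≤ min (1 / 4) ((R - 1) / 8)) :
    |v x - v y| ≤ 15 * K * ‖x - y‖ := by
  have hd1 : ‖x - y‖ ≤ 1 / 4 := hd.trans (min_le_left _ _)
  have hd2 : ‖x - y‖ ≤ (R - 1) / 8 := hd.trans (min_le_right _ _)
  have hn0 : 0 ≤ ‖x - y‖ := norm_nonneg _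
  have hx1 : 1 < ‖x‖ := hx.1
  have hy1 : 1 < ‖y‖ := hy.1
  rcases le_or_gt ‖x‖ ((1 + R) / 2) with hcase | hcase
  · -- near the inner sphere: pass through z
    set e : E3 := ‖x‖⁻¹ • x with he
    set e' : E3 := ‖y‖⁻¹ • y with he'
    have hen : ‖e‖ = 1 := by
      rw [he, norm_smul, norm_inv, norm_norm, inv_mul_cancel₀ (by linarith)]
    have hen' : ‖e'‖ = 1 := by
      rw [he', norm_smul, norm_inv, norm_norm, inv_mul_cancel₀ (by linarith)]
    have hex : inner ℝ e x = ‖x‖ := by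
      rw [he, inner_smul_left, real_inner_self_eq_norm_sq]
      simp only [conj_trivial]
      field_simp
    have hey : inner ℝ e' y = ‖y‖ := by
      rw [he', inner_smul_left, real_inner_self_eq_norm_sq]
      simp only [conj_trivial]
      field_simp
    have hee : inner ℝ e e = (1 : ℝ) := by rw [real_inner_self_eq_norm_sq, hen]; norm_num
    have hxe : x = ‖x‖ • e := by
      rw [he, smul_smul, mul_inv_cancel₀ (by linarith), one_smul]
    -- inner e' x
    have h1 : ‖y‖ - ‖x - y‖ ≤ inner ℝ e' x := by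
      have h2 : inner ℝ e' (y - x) ≤ ‖e'‖ * ‖y - x‖ := real_inner_le_norm _ _
      rw [hen', one_mul, inner_sub_right, hey, norm_sub_rev] at h2
      linarith
    have hxn : ‖x‖ ≤ ‖y‖ + ‖x - y‖ := by
      have := norm_sub_norm_le x y
      linarith
    have h3 : 1 / 2 ≤ inner ℝ e' e := by
      have h4 : inner ℝ e' x = ‖x‖ * inner ℝ e' e := by
        conv_lhs => rw [hxe]
        rw [inner_smul_right]
      by_contra hcon
      push Not at hcon
      have h5 : ‖x‖ * inner ℝ e' e ≤ ‖x‖ * (1 / 2) :=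
        mul_le_mul_of_nonneg_left hcon.le (norm_nonneg _)
      rw [← h4] at h5
      linarith
    set z : E3 := x + (2 * ‖x - y‖) • e with hz
    have hez : inner ℝ e z = ‖x‖ + 2 * ‖x - y‖ := by
      rw [hz, inner_add_right, inner_smul_right, hex, hee, mul_one]
    have hez' : 1 < inner ℝ e' z := by
      rw [hz, inner_add_right, inner_smul_right]
      have : 2 * ‖x - y‖ * (1 / 2) ≤ 2 * ‖x - y‖ * inner ℝ e' e :=
        mul_le_mul_of_nonneg_left h3 (by positivity)
      linarith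
    have hzx : ‖x - z‖ = 2 * ‖x - y‖ := by
      rw [hz, sub_add_cancel_left, norm_neg, norm_smul, hen, mul_one, Real.norm_eq_abs,
        abs_of_nonneg (by positivity)]
    have hzy : ‖z - y‖ ≤ 3 * ‖x - y‖ := by
      have h6 : z - y = (z - x) + (x - y) := by abel
      rw [h6]
      refine (norm_add_le _ _).trans ?_
      rw [norm_sub_rev z x, hzx]
      linarith
    have hzR : ‖z‖ < R := by
      have h7 : ‖z‖ ≤ ‖x‖ + ‖z - x‖ := by
        have := norm_add_le x (z - x)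
        rwa [add_sub_cancel] at this
      rw [norm_sub_rev z x, hzx] at h7
      linarith
    have s1 := f3_seg hK hv hp (f3_half hen (by rw [hex]; exact hx1)
      (by rw [hez]; linarith) hx.2 hzR)
    have s2 := f3_seg hK hv hp (f3_half hen' hez' (by rw [hey]; exact hy1) hzR hy.2)
    have h8 : |v x - v y| ≤ |v x - v z| + |v z - v y| := abs_sub_le _ _ _
    rw [hzx] at s1
    have h9 : 3 * K * ‖z - y‖ ≤ 3 * K * (3 * ‖x - y‖) :=
      mul_le_mul_of_nonneg_left hzy (by positivity)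
    nlinarith
  · -- far from the inner sphere
    have hs : segment ℝ x y ⊆ Ann R := by
      intro w hw
      refine ⟨?_, ?_⟩
      · have h1 : w ∈ Metric.closedBall x ‖x - y‖ :=
          (convex_closedBall x ‖x - y‖).segment_subset
            (Metric.mem_closedBall_self (norm_nonneg _))
            (by rw [mem_closedBall_iff_norm, norm_sub_rev]) hw
        rw [mem_closedBall_iff_norm] at h1
        have h2 : ‖x‖ ≤ ‖w‖ + ‖w - x‖ := by
          have := norm_sub_norm_le x w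
          rw [norm_sub_rev x w] at this
          linarith
        linarith
      · have h1 : w ∈ Metric.ball (0 : E3) R :=
          (convex_ball (0 : E3) R).segment_subset (mem_ball_zero_iff.mpr hx.2)
            (mem_ball_zero_iff.mpr hy.2) hw
        exact mem_ball_zero_iff.mp h1
    have s := f3_seg hK hv hp hs
    have : 0 ≤ K * ‖x - y‖ := by positivity
    nlinarith

/-- CHUNK F3 (M). A gradient bound inside gives a Lipschitz bound for close points of the closed annulus.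
PROOF. First `x, y` in `Ann R`, `‖x - y‖ <= 1/2`: `p t = (1-t) x + t y`, `‖p t‖ >= 1/2`,
`γ t = ((1-t) ‖x‖ + t ‖y‖) / ‖p t‖ • p t` has norm `(1-t)‖x‖ + t‖y‖`, so it stays in `Ann R`, and `‖γ' t‖ <= (1 + 8 R) ‖x - y‖`
(any constant depending on `R` is fine); `|v y - v x| <= sup |fderiv v (γ t) (γ' t)| <= 3 K ‖γ'‖`
(`norm_image_sub_le_of_norm_deriv_le_segment` or `Convex.norm_image_sub_le_of_norm_hasDerivWithin_le` for `v ∘ γ` on `[0,1]`).
Then `x, y` in `cAnn R`, `‖x - y‖ <= 1/4`: approximate (`closure_Ann`) and use the continuity of `v` on `cAnn R`. -/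
theorem f3_lip {R : ℝ} (hR : 1 < R) : ∃ C d : ℝ, 0 ≤ C ∧ 0 < d ∧ ∀ (v : E3 → ℝ) (K : ℝ), 0 ≤ K → C2c R v →
    (∀ x ∈ Ann R, ∀ i, |pd i v x| ≤ K) → ∀ x ∈ cAnn R, ∀ y ∈ cAnn R, ‖x - y‖ ≤ d → |v x - v y| ≤ C * K * ‖x - y‖ := by
  have hd0 : 0 < min (1 / 4 : ℝ) ((R - 1) / 8) := lt_min (by norm_num) (by linarith)
  refine ⟨15, min (1 / 4) ((R - 1) / 8) / 2, by norm_num, by positivity, ?_⟩
  intro v K hK hv hp x hx y hy hd
  have hx' := hx
  have hy' := hy
  rw [← closure_Ann hR] at hx' hy'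
  obtain ⟨xn, hxn, hxl⟩ := mem_closure_iff_seq_limit.mp hx'
  obtain ⟨yn, hyn, hyl⟩ := mem_closure_iff_seq_limit.mp hy'
  have hvx : Tendsto (fun n => v (xn n)) atTop (𝓝 (v x)) :=
    (hv.cont x hx).tendsto.comp (tendsto_nhdsWithin_iff.mpr
      ⟨hxl, Eventually.of_forall fun n => Ann_subset R (hxn n)⟩)
  have hvy : Tendsto (fun n => v (yn n)) atTop (𝓝 (v y)) :=
    (hv.cont y hy).tendsto.comp (tendsto_nhdsWithin_iff.mpr
      ⟨hyl, Eventually.of_forall fun n => Ann_subset R (hyn n)⟩)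
  have hl1 : Tendsto (fun n => |v (xn n) - v (yn n)|) atTop (𝓝 |v x - v y|) := (hvx.sub hvy).abs
  have hl2 : Tendsto (fun n => ‖xn n - yn n‖) atTop (𝓝 ‖x - y‖) := (hxl.sub hyl).norm
  have hl3 : Tendsto (fun n => 15 * K * ‖xn n - yn n‖) atTop (𝓝 (15 * K * ‖x - y‖)) :=
    hl2.const_mul _
  have hev : ∀ᶠ n in atTop, ‖xn n - yn n‖ < min (1 / 4) ((R - 1) / 8) :=
    hl2.eventually (gt_mem_nhds (by linarith))
  refine le_of_tendsto_of_tendsto hl1 hl3 ?_
  filter_upwards [hev] with n hn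
  exact f3_open hR hK hv hp (hxn n) (hyn n) hn.le

end UMB.Lin
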