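import Pool.Agent.Lib.UMB.Lin.M5

set_option autoImplicit false

/-! # UMB.Lin, chunk F4 (uniqueness and stability) -/

open scoped ContDiff BigOperators Topology
open Set MeasureTheory Filter Pool.Agent.Lib.PenroseSph

namespace UMB.Lin

/-- CHUNK F4 (S/M), first statement: uniqueness (`comparison` twice). -/
theorem f4_unique {R lam B : ℝ} (hR : 1 < R) (hlam : 0 < lam) (hB : 0 ≤ B) {a : Fin 3 → Fin 3 → E3 → ℝ} {b : Fin 3 → E3 → ℝ}
    (h : CGood R lam B a b (fun _ => 0)) {u v : E3 → ℝ} (hu : C2c R u) (hv : C2c R v)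
    (hLu : ∀ x ∈ Ann R, Lc a b (fun _ => 0) u x = 0) (hLv : ∀ x ∈ Ann R, Lc a b (fun _ => 0) v x = 0)
    (h0 : ∀ x : E3, (‖x‖ = 1 ∨ ‖x‖ = R) → u x = v x) : ∀ x ∈ cAnn R, u x = v x := by
  intro x hx
  refine le_antisymm ?_ ?_
  · exact comparison hR hlam hB h hu hv (fun y hy => by rw [hLu y hy, hLv y hy])
      (fun y hy => (h0 y hy).le) x hx
  · exact comparison hR hlam hB h hv hu (fun y hy => by rw [hLu y hy, hLv y hy])
      (fun y hy => (h0 y hy).ge) x hx

/-- CHUNK F4 (S/M), second statement: stability.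
PROOF. `Lc a' b' 0 (v - v') = Lc a' b' 0 v = ∑ (a' - a) ∂∂v + ∑ (b' - b) ∂v` has absolute value at most `12 K e`; `sup_bound` for
`a', b'` with `s = 0` (`Lc_add_mul` for `v - v'`). -/
theorem f4_stab {R lam B : ℝ} (hR : 1 < R) (hlam : 0 < lam) (hB : 0 ≤ B) : ∃ C : ℝ, 0 ≤ C ∧
    ∀ (a a' : Fin 3 → Fin 3 → E3 → ℝ) (b b' : Fin 3 → E3 → ℝ), CGood R lam B a' b' (fun _ => 0) →
      ∀ (v v' : E3 → ℝ) (K e : ℝ), 0 ≤ K → 0 ≤ e → C2c R v → C2c R v' →
        (∀ x ∈ Ann R, Lc a b (fun _ => 0) v x = 0) → (∀ x ∈ Ann R, Lc a' b' (fun _ => 0) v' x = 0) →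
          (∀ x : E3, (‖x‖ = 1 ∨ ‖x‖ = R) → v x = v' x) →
            (∀ x ∈ Ann R, (∀ i, |pd i v x| ≤ K) ∧ ∀ i j, |pd i (pd j v) x| ≤ K) →
              (∀ x ∈ Ann R, (∀ i j, |a' i j x - a i j x| ≤ e) ∧ ∀ i, |b' i x - b i x| ≤ e) →
                ∀ x ∈ cAnn R, |v x - v' x| ≤ C * K * e := by
  obtain ⟨C, hC, hS⟩ := sup_bound hR hlam hB
  refine ⟨12 * C, by positivity, ?_⟩
  intro a a' b b' hG v v' K e hK he hv hv' hLv hLv' hbd hder hco x hx
  have hD : C2c R (fun y => 1 * v y + (-1) * v' y) := m5_C2c_comb hv hv' 1 (-1)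
  have h1 : ∀ y ∈ Ann R, |Lc a' b' (fun _ => 0) (fun y => 1 * v y + (-1) * v' y) y|
      ≤ 12 * (K * e) := by
    intro y hy
    rw [Lc_add_mul (hv.c2 y hy) (hv'.c2 y hy) 1 (-1), hLv' y hy]
    obtain ⟨hd1, hd2⟩ := hder y hy
    obtain ⟨hc1, hc2⟩ := hco y hy
    have h2 : 1 * Lc a' b' (fun _ => 0) v y + -1 * 0
        = (∑ i, ∑ j, (a' i j y - a i j y) * pd i (pd j v) y) + ∑ i, (b' i y - b i y) * pd i v y := by
      have h3 := hLv y hy
      unfold Lc at h3 ⊢
      simp only [sub_mul, Finset.sum_sub_distrib]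
      linarith
    rw [h2]
    have h4 : |∑ i, ∑ j, (a' i j y - a i j y) * pd i (pd j v) y| ≤ 9 * (K * e) := by
      refine (Finset.abs_sum_le_sum_abs _ _).trans ?_
      have h5 : ∀ i ∈ (Finset.univ : Finset (Fin 3)),
          |∑ j, (a' i j y - a i j y) * pd i (pd j v) y| ≤ 3 * (K * e) := by
        intro i _
        refine (Finset.abs_sum_le_sum_abs _ _).trans ?_
        have h6 : ∀ j ∈ (Finset.univ : Finset (Fin 3)),
            |(a' i j y - a i j y) * pd i (pd j v) y| ≤ K * e := by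
          intro j _
          rw [abs_mul, mul_comm K e]
          exact mul_le_mul (hc1 i j) (hd2 i j) (abs_nonneg _) he
        refine (Finset.sum_le_card_nsmul _ _ _ h6).trans ?_
        simp
      refine (Finset.sum_le_card_nsmul _ _ _ h5).trans ?_
      simp only [Finset.card_univ, Fintype.card_fin, nsmul_eq_mul]
      push_cast
      linarith
    have h7 : |∑ i, (b' i y - b i y) * pd i v y| ≤ 3 * (K * e) := by
      refine (Finset.abs_sum_le_sum_abs _ _).trans ?_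
      have h8 : ∀ i ∈ (Finset.univ : Finset (Fin 3)), |(b' i y - b i y) * pd i v y| ≤ K * e := by
        intro i _
        rw [abs_mul, mul_comm K e]
        exact mul_le_mul (hc2 i) (hd1 i) (abs_nonneg _) he
      refine (Finset.sum_le_card_nsmul _ _ _ h8).trans ?_
      simp
    refine (abs_add_le _ _).trans ?_
    linarith
  have h9 := hS a' b' (fun _ => 0) hG _ hD 0 (12 * (K * e)) le_rfl (by positivity) h1
    (fun y hy => by simp only [hbd y hy]; simp) x hx
  have h10 : 1 * v x + -1 * v' x = v x - v' x := by ring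
  simp only [h10] at h9
  calc |v x - v' x| ≤ 0 + C * (12 * (K * e)) := h9
    _ = 12 * C * K * e := by ring

end UMB.Lin
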