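import Pool.Agent.Lib.UMB.Lin.G1

set_option autoImplicit false

/-! # UMB.Lin, chunk F5a (Arzela-Ascoli on the annulus) -/

open scoped ContDiff BigOperators Topology
open Set MeasureTheory Filter Pool.Agent.Lib.PenroseSph

namespace UMB.Lin

theorem f5a_gen {X : Type*} [PseudoMetricSpace X] [CompactSpace X] (M C d : ℝ) (hd : 0 < d) :
    IsCompact {f : C(X, ℝ) | (∀ x, |f x| ≤ M) ∧
      ∀ x y : X, dist x y ≤ d → |f x - f y| ≤ C * dist x y} := by
  set A : Set (BoundedContinuousFunction X ℝ) := {f | (∀ x, |f x| ≤ M) ∧
      ∀ x y : X, dist x y ≤ d → |f x - f y| ≤ C * dist x y} with hA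
  have hAc : IsCompact A := by
    refine BoundedContinuousFunction.arzela_ascoli₂ (Icc (-M) M) isCompact_Icc A ?_ ?_ ?_
    · have h1 : A = (⋂ x : X, {f : BoundedContinuousFunction X ℝ | |f x| ≤ M}) ∩
          (⋂ x : X, ⋂ y : X, ⋂ (_ : dist x y ≤ d),
            {f : BoundedContinuousFunction X ℝ | |f x - f y| ≤ C * dist x y}) := by
        ext f
        simp [hA]
      rw [h1]
      refine IsClosed.inter ?_ ?_
      · refine isClosed_iInter fun x => ?_
        exact isClosed_le ((continuous_eval_const (F := BoundedContinuousFunction X ℝ) x).abs) continuous_const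
      · refine isClosed_iInter fun x => isClosed_iInter fun y => isClosed_iInter fun _ => ?_
        exact isClosed_le (((continuous_eval_const (F := BoundedContinuousFunction X ℝ) x).sub
          (continuous_eval_const (F := BoundedContinuousFunction X ℝ) y)).abs) continuous_const
    · intro f x hf
      exact abs_le.1 (hf.1 x)
    · intro x₀
      rw [Metric.equicontinuousAt_iff]
      intro ε hε
      refine ⟨min d (ε / (|C| + 1)), lt_min hd (by positivity), ?_⟩
      intro x hx f
      have h1 : dist x x₀ < d := lt_of_lt_of_le hx (min_le_left _ _)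
      have h2 : dist x x₀ < ε / (|C| + 1) := lt_of_lt_of_le hx (min_le_right _ _)
      have h3 := f.2.2 x₀ x (by rw [dist_comm]; exact h1.le)
      rw [Real.dist_eq]
      refine lt_of_le_of_lt h3 ?_
      rw [dist_comm x₀ x]
      have h4 : C * dist x x₀ ≤ (|C| + 1) * dist x x₀ := by
        have : C ≤ |C| + 1 := (le_abs_self C).trans (by linarith)
        exact mul_le_mul_of_nonneg_right this dist_nonneg
      refine lt_of_le_of_lt h4 ?_
      rw [lt_div_iff₀ (by positivity)] at h2
      linarith
  have h := (ContinuousMap.isometryEquivBoundedOfCompact X ℝ).toHomeomorph.isCompact_preimage.2 hAc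
  exact h

/-- CHUNK F5a (S/M). `cAnn R` is compact (`isCompact_cAnn`; on the subtype use `isCompact_iff_compactSpace`). Bounded and uniformly
Lipschitz for close points = equicontinuous; the set is closed. Mathlib: Arzela-Ascoli
(`BoundedContinuousFunction.arzela_ascoli`, transported with `ContinuousMap.isometryEquivBoundedOfCompact` or
`BoundedContinuousFunction.mkOfCompact`, or the version for `ContinuousMap`). -/
theorem f5a_compact (R M C d : ℝ) (hd : 0 < d) :
    haveI : CompactSpace (cAnn R) := isCompact_iff_compactSpace.1 (isCompact_cAnn R)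
    IsCompact {f : C(cAnn R, ℝ) | (∀ x, |f x| ≤ M) ∧
      ∀ x y : cAnn R, ‖(x : E3) - (y : E3)‖ ≤ d → |f x - f y| ≤ C * ‖(x : E3) - (y : E3)‖} := by
  have : CompactSpace (cAnn R) := isCompact_iff_compactSpace.1 (isCompact_cAnn R)
  have h := f5a_gen (X := cAnn R) M C d hd
  have h1 : ∀ x y : cAnn R, dist x y = ‖(x : E3) - (y : E3)‖ := by
    intro x y
    rw [Subtype.dist_eq, dist_eq_norm]
  simp only [h1] at h
  exact h

end UMB.Lin
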