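import Pool.Agent.Lib.UMB.Lin.F1
import Pool.Agent.Lib.UMB.Lin.F3
import Pool.Agent.Lib.UMB.Lin.F4
import Pool.Agent.Lib.UMB.Lin.F5a
import Pool.Agent.Lib.H17S.Schauder

set_option autoImplicit false

/-! # UMB.Lin, chunk F5 (the abstract fixed point theorem) -/

open scoped ContDiff BigOperators Topology
open Set MeasureTheory Filter Pool.Agent.Lib.PenroseSph

namespace UMB.Lin

/-- Clamped extension of a continuous function on the closed annulus to a function on `E3`. -/
noncomputable def clampE (R : ℝ) (lo hi : E3 → ℝ) (f : C(cAnn R, ℝ)) (x : E3) : ℝ :=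
  open Classical in if h : x ∈ cAnn R then max (lo x) (min (hi x) (f ⟨x, h⟩)) else 0

theorem f5_val {R : ℝ} (lo hi : E3 → ℝ) (f : C(cAnn R, ℝ)) (x : cAnn R) :
    clampE R lo hi f x = max (lo x) (min (hi x) (f x)) := by
  unfold clampE
  rw [dif_pos x.2]

/-- CHUNK F5 (S), first statement: the clamped function is in the order interval, and clamping does not increase distances. -/
theorem f5_clamp {R : ℝ} {lo hi : E3 → ℝ} (clo : ContinuousOn lo (cAnn R)) (chi : ContinuousOn hi (cAnn R))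
    (h : ∀ x ∈ cAnn R, lo x ≤ hi x) (f : C(cAnn R, ℝ)) : KK R lo hi (clampE R lo hi f) ∧
      (∀ (g : C(cAnn R, ℝ)) (x : cAnn R), |clampE R lo hi f x - clampE R lo hi g x| ≤ |f x - g x|) ∧
        ∀ x : cAnn R, lo x ≤ f x → f x ≤ hi x → clampE R lo hi f x = f x := by
  refine ⟨⟨?_, ?_⟩, ?_, ?_⟩
  · rw [continuousOn_iff_continuous_domRestrict]
    have h1 : (cAnn R).domRestrict (clampE R lo hi f)
        = fun x : cAnn R => max (lo x) (min (hi x) (f x)) := by
      funext x
      exact f5_val lo hi f x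
    rw [h1]
    have c1 : Continuous fun x : cAnn R => lo x := continuousOn_iff_continuous_domRestrict.1 clo
    have c2 : Continuous fun x : cAnn R => hi x := continuousOn_iff_continuous_domRestrict.1 chi
    exact c1.max (c2.min f.continuous)
  · intro x hx
    have h1 := f5_val lo hi f ⟨x, hx⟩
    change clampE R lo hi f x = max (lo x) (min (hi x) (f ⟨x, hx⟩)) at h1
    rw [h1]
    exact ⟨le_max_left _ _, max_le (h x hx) (min_le_left _ _)⟩
  · intro g x
    rw [f5_val, f5_val]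
    refine (abs_max_sub_max_le_max _ _ _ _).trans ?_
    rw [sub_self, abs_zero, max_eq_right (abs_nonneg _)]
    refine (abs_min_sub_min_le_max _ _ _ _).trans ?_
    rw [sub_self, abs_zero, max_eq_right (abs_nonneg _)]
  · intro x h1 h2
    rw [f5_val, min_eq_right h2, max_eq_right h1]

theorem f5_bdry {R : ℝ} (hR : 1 < R) {a : Fin 3 → Fin 3 → E3 → ℝ} {b : Fin 3 → E3 → ℝ}
    {w : ℕ → E3 → ℝ} {v : E3 → ℝ} (h : DSol R a b w v) :
    (∀ x : E3, ‖x‖ = 1 → v x = 1) ∧ ∀ x : E3, ‖x‖ = R → v x = 0 := by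
  have hlim : ∀ x ∈ cAnn R, Tendsto (fun n => w n x) atTop (𝓝 (v x)) := fun x hx =>
    h.slim.lim.tendsto_at hx
  refine ⟨fun x hx => ?_, fun x hx => ?_⟩
  · have h1 := hlim x ⟨hx.ge, by rw [hx]; exact hR.le⟩
    have h2 : (fun n => w n x) = fun _ => (1 : ℝ) := funext fun n => h.one n x hx
    rw [h2] at h1
    exact (tendsto_nhds_unique h1 tendsto_const_nhds)
  · have h1 := hlim x ⟨by rw [hx]; exact hR.le, hx.le⟩
    have h2 : (fun n => w n x) = fun _ => (0 : ℝ) := funext fun n => h.zero n x hx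
    rw [h2] at h1
    exact (tendsto_nhds_unique h1 tendsto_const_nhds)

theorem f5_pd_congr {R : ℝ} {u v : E3 → ℝ} (h : ∀ x ∈ Ann R, u x = v x) (i : Fin 3) :
    ∀ x ∈ Ann R, pd i u x = pd i v x := by
  intro x hx
  have h1 : u =ᶠ[𝓝 x] v := by
    filter_upwards [(isOpen_Ann R).mem_nhds hx] with y hy
    exact h y hy
  unfold pd
  rw [h1.fderiv_eq]

theorem f5_transfer {R : ℝ} {a : Fin 3 → Fin 3 → E3 → ℝ} {b : Fin 3 → E3 → ℝ}
    {w : ℕ → E3 → ℝ} {u v : E3 → ℝ} (h : DSol R a b w u) (he : ∀ x ∈ cAnn R, v x = u x) :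
    DSol R a b w v where
  slim := ⟨h.slim.smooth, h.slim.cau, h.slim.lim.congr_right fun x hx => (he x hx).symm⟩
  one := h.one
  zero := h.zero
  eq := by
    intro x hx
    have h0 : ∀ y ∈ Ann R, v y = u y := fun y hy => he y (Ann_subset R hy)
    have h1 : ∀ i, ∀ y ∈ Ann R, pd i v y = pd i u y := fun i => f5_pd_congr h0 i
    have h2 : ∀ i j, pd i (pd j v) x = pd i (pd j u) x := fun i j => f5_pd_congr (h1 j) i x hx
    have h3 := h.eq x hx
    unfold Lc at h3 ⊢
    simp only [h2, h1 _ x hx, h0 x hx]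
    exact h3

/-- CHUNK F5 (M/L), second statement: the fixed point.
PROOF. `X = C(cAnn R, ℝ)` with the sup norm. For `f` in `X` let `v = clampE R lo hi f`; `f1_sol` for `a v, b v` (`CMap.cbd`) gives a
solution `u` with `C^2` bounds by `K` (choice); `T f` := restriction of `u` to `cAnn R` (`l3_smooth`: continuous). By `inv`
`lo <= u <= hi`, so `|T f| <= M` (`lo`, `hi` are bounded on the compact `cAnn R`), by `f3_lip` (`l3_C2c`) `T f` is in the compact set of
`f5a_compact`. `T` is continuous at `f`: `CMap.cont` and `f4_stab` (`cgood_of_cbd`) give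
`|T f' - T f| <= C K e` if `|f' - f| <= d` (clamping does not increase distances); use `ContinuousMap.norm_le` or `dist_le`.
`H17S.schauder` gives `f = T f`; put `v = clampE R lo hi f`; the solution `u` of `T` satisfies `u = f` on `cAnn R`, and
`lo <= u <= hi`, so `v = f = u` on `cAnn R`. Finally `DSol R (a v) (b v) w u` implies `DSol R (a v) (b v) w v` since `u = v` on
`cAnn R` (`TendstoUniformlyOn.congr_right`; `pd i` is local on the open set `Ann R`). -/
theorem f5_fix {R lam : ℝ} (hR : 1 < R) (hlam : 0 < lam) (hb : BaseOK R) {B : ℕ → ℝ} (hB : ∀ m, 0 ≤ B m) {lo hi : E3 → ℝ}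
    {a : (E3 → ℝ) → Fin 3 → Fin 3 → E3 → ℝ} {b : (E3 → ℝ) → Fin 3 → E3 → ℝ} (h : CMap R lam B lo hi a b) :
    ∃ (v : E3 → ℝ) (w : ℕ → E3 → ℝ), KK R lo hi v ∧ DSol R (a v) (b v) w v := by
  have hcomp : CompactSpace (cAnn R) := isCompact_iff_compactSpace.1 (isCompact_cAnn R)
  obtain ⟨K, hK, hsol⟩ := f1_sol hR hlam hb B hB
  have hcl := fun f : C(cAnn R, ℝ) => f5_clamp h.clo h.chi h.lohi f
  have hKK : ∀ f : C(cAnn R, ℝ), KK R lo hi (clampE R lo hi f) := fun f => (hcl f).1
  have hsol' : ∀ f : C(cAnn R, ℝ), ∃ (w : ℕ → E3 → ℝ) (v : E3 → ℝ),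
      DSol R (a (clampE R lo hi f)) (b (clampE R lo hi f)) w v ∧
        ∀ x ∈ Ann R, (∀ i, |pd i v x| ≤ K) ∧ ∀ i j, |pd i (pd j v) x| ≤ K := fun f =>
    hsol _ _ (h.cbd _ (hKK f))
  choose W U hD hbd using hsol'
  have hC2 : ∀ f, C2c R (U f) := fun f => l3_C2c hR (hD f).slim
  have hone : ∀ f (x : E3), ‖x‖ = 1 → U f x = 1 := fun f => (f5_bdry hR (hD f)).1
  have hzero : ∀ f (x : E3), ‖x‖ = R → U f x = 0 := fun f => (f5_bdry hR (hD f)).2
  have hinv : ∀ f, ∀ x ∈ cAnn R, lo x ≤ U f x ∧ U f x ≤ hi x := fun f =>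
    h.inv _ (hKK f) _ (hC2 f) (hD f).eq (hone f) (hzero f)
  obtain ⟨M1, hM1⟩ := (isCompact_cAnn R).exists_bound_of_continuousOn h.clo
  obtain ⟨M2, hM2⟩ := (isCompact_cAnn R).exists_bound_of_continuousOn h.chi
  obtain ⟨C3, d, hC3, hd, hlip⟩ := f3_lip hR
  obtain ⟨C4, hC4, hst⟩ := f4_stab hR hlam (hB 0)
  let T : C(cAnn R, ℝ) → C(cAnn R, ℝ) := fun f =>
    ⟨fun x => U f x, continuousOn_iff_continuous_domRestrict.1 (hC2 f).cont⟩
  have hTval : ∀ f (x : cAnn R), T f x = U f x := fun f x => rfl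
  have hTc : Continuous T := by
    rw [Metric.continuous_iff]
    intro f ε hε
    obtain ⟨δ, hδ, hcont⟩ := h.cont _ (hKK f) (ε / (2 * (C4 * K + 1))) (by positivity)
    refine ⟨δ, hδ, ?_⟩
    intro g hg
    have h1 : ∀ x ∈ cAnn R, |U f x - U g x| ≤ C4 * K * (ε / (2 * (C4 * K + 1))) := by
      refine hst (a (clampE R lo hi f)) (a (clampE R lo hi g)) (b (clampE R lo hi f))
        (b (clampE R lo hi g)) (cgood_of_cbd (h.cbd _ (hKK g))) (U f) (U g) K _ hK (by positivity)
        (hC2 f) (hC2 g) (hD f).eq (hD g).eq ?_ (hbd f) ?_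
      · intro x hx
        rcases hx with hx | hx
        · rw [hone f x hx, hone g x hx]
        · rw [hzero f x hx, hzero g x hx]
      · refine hcont _ (hKK g) ?_
        intro x hx
        refine ((hcl g).2.1 f ⟨x, hx⟩).trans ?_
        have h2 := ContinuousMap.dist_apply_le_dist (f := g) (g := f) (⟨x, hx⟩ : cAnn R)
        rw [Real.dist_eq] at h2
        exact h2.trans hg.le
    have h3 : C4 * K * (ε / (2 * (C4 * K + 1))) < ε := by
      have h4 : 0 ≤ C4 * K := mul_nonneg hC4 hK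
      have h5 : C4 * K * (ε / (2 * (C4 * K + 1))) = (C4 * K / (C4 * K + 1)) * (ε / 2) := by
        field_simp
      rw [h5]
      have h6 : C4 * K / (C4 * K + 1) ≤ 1 := by
        rw [div_le_one (by positivity)]
        linarith
      have h7 : (C4 * K / (C4 * K + 1)) * (ε / 2) ≤ 1 * (ε / 2) :=
        mul_le_mul_of_nonneg_right h6 (by positivity)
      linarith
    refine lt_of_le_of_lt ?_ h3
    rw [ContinuousMap.dist_le (by positivity)]
    intro x
    rw [Real.dist_eq, hTval, hTval, abs_sub_comm]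
    exact h1 x x.2
  obtain ⟨f, hf⟩ := H17S.schauder T hTc _ (f5a_compact R (max M1 M2) (C3 * K) d hd) (by
    intro f
    refine ⟨?_, ?_⟩
    · intro x
      rw [hTval, abs_le]
      have h1 := hM1 x x.2
      have h2 := hM2 x x.2
      rw [Real.norm_eq_abs] at h1 h2
      have h3 := hinv f x x.2
      constructor
      · have := (abs_le.1 h1).1
        have h4 := le_max_left M1 M2
        linarith
      · have := (abs_le.1 h2).2
        have h4 := le_max_right M1 M2
        linarith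
    · intro x y hxy
      rw [hTval, hTval]
      exact hlip (U f) K hK (hC2 f) (fun z hz => (hbd f z hz).1) x x.2 y y.2 hxy)
  refine ⟨clampE R lo hi f, W f, hKK f, f5_transfer (hD f) ?_⟩
  intro x hx
  have h1 : f ⟨x, hx⟩ = U f x := by
    have h2 := hTval f ⟨x, hx⟩
    rw [hf] at h2
    exact h2
  have h3 := hinv f x hx
  have h4 := (hcl f).2.2 ⟨x, hx⟩ (by rw [h1]; exact h3.1) (by rw [h1]; exact h3.2)
  change clampE R lo hi f x = f ⟨x, hx⟩ at h4
  rw [h4, h1]

end UMB.Lin
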