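import Pool.Agent.Lib.UMB.Lin.X6

/-! # UMB.Lin, chunk X7: limits of smooth functions on the closed annulus -/

open scoped ContDiff BigOperators Topology
open Set MeasureTheory Filter Pool.Agent.Lib.PenroseSph

namespace UMB.Lin

theorem x7_sub (w : List (Fin 4)) : ∀ {u v : E3 → ℝ}, ContDiff ℝ (w.length : ℕ) u →
    ContDiff ℝ (w.length : ℕ) v →
    Zw w (fun x => u x - v x) = fun x => Zw w u x - Zw w v x := by
  induction w with
  | nil => intro u v _ _; rfl
  | cons a w ih =>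
    intro u v hu hv
    have hu1 : ContDiff ℝ (1 + w.length : ℕ) u := by
      rwa [List.length_cons, Nat.add_comm] at hu
    have hv1 : ContDiff ℝ (1 + w.length : ℕ) v := by
      rwa [List.length_cons, Nat.add_comm] at hv
    have hu2 := ih (hu1.of_le (by exact_mod_cast (by omega : w.length ≤ 1 + w.length)))
      (hv1.of_le (by exact_mod_cast (by omega : w.length ≤ 1 + w.length)))
    funext x
    show Z a (Zw w (fun x => u x - v x)) x = Z a (Zw w u) x - Z a (Zw w v) x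
    rw [hu2]
    exact Z_sub a ((x5_cd w 1 hu1).differentiable (by simp) x)
      ((x5_cd w 1 hv1).differentiable (by simp) x)

theorem x7_congr {R : ℝ} (hR : 1 < R) (w : List (Fin 4)) {u v : E3 → ℝ}
    (hu : ContDiff ℝ (w.length : ℕ) u) (hv : ContDiff ℝ (w.length : ℕ) v)
    (h : ∀ x ∈ Ann R, u x = v x) : ∀ x ∈ cAnn R, Zw w u x = Zw w v x := by
  have h1 : ∀ w : List (Fin 4), ∀ x ∈ Ann R, Zw w u x = Zw w v x := by
    intro w
    induction w with
    | nil => exact h
    | cons a w ih => exact Z_congr a (isOpen_Ann R) ih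
  have hcu : Continuous (Zw w u) := (x5_cd w 0 (by rwa [Nat.zero_add])).continuous
  have hcv : Continuous (Zw w v) := (x5_cd w 0 (by rwa [Nat.zero_add])).continuous
  exact eqOn_cAnn hR hcu hcv (h1 w)

/-- A sequence of smooth functions which is Cauchy in `C^m` of the closed annulus converges there to
a global `C^m` function. Choose a subsequence with `Bd R m 2^{-n} (v_{n+1} - v_n)`, extend `v_0` and
all differences (`extend`), sum up (`contDiff_tsum` with `N = m`); the series converges together with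
its derivatives of order `≤ m` uniformly, on the closed annulus the partial sums are `v_n`; the words
of the limit are the limits of the words of the partial sums (`words_le_of_iter` for the difference;
on the open annulus the words of `u_n` and `v_n` agree, then continuity, `closure_Ann`). -/
theorem extend_limit {R : ℝ} (hR : 1 < R) (m : ℕ) {v : ℕ → E3 → ℝ}
    (hv : ∀ n, ContDiff ℝ ∞ (v n))
    (hc : ∀ ε : ℝ, 0 < ε → ∃ N, ∀ n ≥ N, ∀ p ≥ N, Bd R m ε (fun x => v n x - v p x)) :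
    ∃ u : E3 → ℝ, ContDiff ℝ m u ∧ ∀ w : List (Fin 4), w.length ≤ m →
      ∀ ε : ℝ, 0 < ε → ∃ N, ∀ n ≥ N, ∀ x ∈ cAnn R, |Zw w (v n) x - Zw w u x| ≤ ε := by
  obtain ⟨C, hC, hext⟩ := extend hR m
  obtain ⟨C', hC', hwords⟩ := words_le_of_iter R m
  have hpow : ∀ n : ℕ, (0 : ℝ) < (1 / 2) ^ n := fun n => by positivity
  choose N hN using fun n : ℕ => hc ((1 / 2) ^ n) (hpow n)
  set φ : ℕ → ℕ := fun n => ∑ i ∈ Finset.range (n + 1), N i + n with hφ
  have hφN : ∀ n, N n ≤ φ n := fun n => by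
    have : N n ≤ ∑ i ∈ Finset.range (n + 1), N i :=
      Finset.single_le_sum (f := N) (fun _ _ => Nat.zero_le _) (Finset.mem_range.mpr (by omega))
    show N n ≤ ∑ i ∈ Finset.range (n + 1), N i + n
    omega
  have hφs : ∀ n, φ n ≤ φ (n + 1) := fun n => by
    show ∑ i ∈ Finset.range (n + 1), N i + n ≤ ∑ i ∈ Finset.range (n + 1 + 1), N i + (n + 1)
    rw [Finset.sum_range_succ _ (n + 1)]
    omega
  have hφn : ∀ n, n ≤ φ n := fun n => by
    show n ≤ ∑ i ∈ Finset.range (n + 1), N i + n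
    omega
  -- extensions
  obtain ⟨s0, hs0, hBd0⟩ := Bd_exists R m (hv (φ 0))
  obtain ⟨u0, hu0, hu0v, _⟩ := hext (v (φ 0)) (hv _) s0 hs0 hBd0
  have hd : ∀ n : ℕ, ∃ d : E3 → ℝ, ContDiff ℝ m d ∧
      (∀ x ∈ cAnn R, d x = v (φ (n + 1)) x - v (φ n) x) ∧
      ∀ j ≤ m, ∀ x, ‖iteratedFDeriv ℝ j d x‖ ≤ C * (1 / 2) ^ n := fun n =>
    hext (fun x => v (φ (n + 1)) x - v (φ n) x) ((hv _).sub (hv _)) _ (hpow n).le
      (hN n _ ((hφN n).trans (hφs n)) _ (hφN n))
  choose d hd1 hd2 hd3 using hd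
  have hgeo : Summable fun n : ℕ => C * (1 / 2 : ℝ) ^ n :=
    (summable_geometric_of_lt_one (by norm_num) (by norm_num)).mul_left C
  have hsumd : ∀ x, Summable fun n => d n x := by
    intro x
    refine Summable.of_norm_bounded hgeo fun n => ?_
    have h1 := hd3 n 0 (Nat.zero_le m) x
    rwa [norm_iteratedFDeriv_zero] at h1
  have hT : ∀ k : ℕ, ContDiff ℝ m (fun x => ∑' i, d (i + k) x) ∧
      ∀ j ≤ m, ∀ x, ‖iteratedFDeriv ℝ j (fun x => ∑' i, d (i + k) x) x‖ ≤
        2 * C * (1 / 2) ^ k := by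
    intro k
    have hgeo' : Summable fun i : ℕ => C * (1 / 2 : ℝ) ^ (i + k) := by
      have := hgeo.comp_injective (add_left_injective k)
      exact this
    have hf : ∀ i, ContDiff ℝ ((m : ℕ∞) : WithTop ℕ∞) (d (i + k)) := fun i => hd1 (i + k)
    have hsm : ∀ j : ℕ, (j : ℕ∞) ≤ (m : ℕ∞) → Summable (fun i : ℕ => C * (1 / 2 : ℝ) ^ (i + k)) :=
      fun _ _ => hgeo'
    have hb : ∀ (j : ℕ) (i : ℕ) (x : E3), (j : ℕ∞) ≤ (m : ℕ∞) →
        ‖iteratedFDeriv ℝ j (d (i + k)) x‖ ≤ (fun (_ : ℕ) (i : ℕ) => C * (1 / 2 : ℝ) ^ (i + k)) j i :=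
      fun j i x hj => hd3 (i + k) j (by exact_mod_cast hj) x
    refine ⟨contDiff_tsum hf hsm hb, ?_⟩
    intro j hj x
    rw [iteratedFDeriv_tsum hf hsm hb (by exact_mod_cast hj)]
    have h2 : Summable fun i => ‖iteratedFDeriv ℝ j (d (i + k)) x‖ :=
      Summable.of_nonneg_of_le (fun _ => norm_nonneg _) (fun i => hd3 (i + k) j hj x) hgeo'
    calc ‖∑' i, iteratedFDeriv ℝ j (d (i + k)) x‖ ≤ ∑' i, ‖iteratedFDeriv ℝ j (d (i + k)) x‖ :=
          norm_tsum_le_tsum_norm h2
      _ ≤ ∑' i : ℕ, C * (1 / 2 : ℝ) ^ (i + k) := h2.tsum_le_tsum (fun i => hd3 (i + k) j hj x) hgeo'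
      _ = 2 * C * (1 / 2) ^ k := by
          have h3 : ∀ i : ℕ, C * (1 / 2 : ℝ) ^ (i + k) = (C * (1 / 2) ^ k) * (1 / 2) ^ i := fun i => by
            rw [pow_add]; ring
          simp_rw [h3]
          rw [tsum_mul_left, tsum_geometric_two]
          ring
  set u : E3 → ℝ := fun x => u0 x + ∑' i, d i x with hu
  have hucd : ContDiff ℝ m u := by
    have h1 := (hT 0).1
    simp only [add_zero] at h1
    exact hu0.add h1
  refine ⟨u, hucd, ?_⟩
  set P : ℕ → E3 → ℝ := fun k x => u0 x + ∑ i ∈ Finset.range k, d i x with hP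
  have hPcd : ∀ k, ContDiff ℝ m (P k) := fun k =>
    hu0.add (ContDiff.sum fun i _ => hd1 i)
  have hPv : ∀ k, ∀ x ∈ Ann R, P k x = v (φ k) x := by
    intro k x hx
    have hx' := Ann_subset R hx
    show u0 x + ∑ i ∈ Finset.range k, d i x = v (φ k) x
    rw [hu0v x hx', Finset.sum_congr rfl fun i _ => hd2 i x hx',
      Finset.sum_range_sub (fun i => v (φ i) x)]
    ring
  have hdiff : ∀ k, (fun x => u x - P k x) = fun x => ∑' i, d (i + k) x := by
    intro k
    funext x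
    have h1 := (hsumd x).sum_add_tsum_nat_add k
    show u0 x + ∑' i, d i x - (u0 x + ∑ i ∈ Finset.range k, d i x) = ∑' i, d (i + k) x
    rw [← h1]
    ring
  have hkey : ∀ k (w : List (Fin 4)), w.length ≤ m → ∀ x ∈ cAnn R,
      |Zw w (v (φ k)) x - Zw w u x| ≤ C' * (2 * C * (1 / 2) ^ k) := by
    intro k w hw x hx
    have hle : ((w.length : ℕ) : WithTop ℕ∞) ≤ (m : ℕ) := by exact_mod_cast hw
    have h1 := x7_congr hR w ((hPcd k).of_le hle) (((hv (φ k))).of_le (by exact_mod_cast le_top))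
      (hPv k) x hx
    have h2 := x7_sub w (hucd.of_le hle) ((hPcd k).of_le hle)
    rw [hdiff k] at h2
    have h3 := hwords _ (hT k).1 x hx.2 _ (fun j hj => (hT k).2 j hj x) w hw
    rw [h2] at h3
    rw [← h1, abs_sub_comm]
    exact h3
  intro w hw ε hε
  have htend : Tendsto (fun k : ℕ => C' * (2 * C * (1 / 2 : ℝ) ^ k)) atTop (𝓝 0) := by
    have h1 : Tendsto (fun k : ℕ => (1 / 2 : ℝ) ^ k) atTop (𝓝 0) :=
      tendsto_pow_atTop_nhds_zero_of_lt_one (by norm_num) (by norm_num)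
    have h2 := (h1.const_mul (2 * C)).const_mul C'
    simpa using h2
  obtain ⟨K, hK⟩ := (htend.eventually (gt_mem_nhds (half_pos hε))).exists_forall_of_atTop
  obtain ⟨N0, hN0⟩ := hc (ε / 2) (half_pos hε)
  refine ⟨N0, fun n hn x hx => ?_⟩
  set k := max K N0 with hk
  have h1 := hkey k w hw x hx
  have h2 := hK k (le_max_left _ _)
  have h3 := hN0 n hn (φ k) ((le_max_right K N0).trans (hφn k)) w hw x hx
  rw [x7_sub w ((hv n).of_le (by exact_mod_cast le_top))
    ((hv (φ k)).of_le (by exact_mod_cast le_top))] at h3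
  calc |Zw w (v n) x - Zw w u x|
      = |(Zw w (v n) x - Zw w (v (φ k)) x) + (Zw w (v (φ k)) x - Zw w u x)| := by ring_nf
    _ ≤ |Zw w (v n) x - Zw w (v (φ k)) x| + |Zw w (v (φ k)) x - Zw w u x| := abs_add_le _ _
    _ ≤ ε := by linarith

end UMB.Lin
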