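import Pool.Agent.Lib.UMB.Lin.L3
import Pool.Agent.Lib.UMB.Lin.X7

set_option autoImplicit false

/-! # UMB.Lin, chunk P10 (a smooth limit has a global extension of class `C^m`) -/

open scoped ContDiff BigOperators Topology
open Set MeasureTheory Filter Pool.Agent.Lib.PenroseSph

namespace UMB.Lin

theorem p10_pd {k : ℕ} (i : Fin 3) {v : E3 → ℝ} (hv : ContDiff ℝ (k + 1 : ℕ) v) : ContDiff ℝ (k : ℕ) (pd i v) := by
  have h1 : ContDiff ℝ (k : ℕ) (fderiv ℝ v) := hv.fderiv_right (by exact_mod_cast le_rfl)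
  exact h1.clm_apply contDiff_const

theorem p10_Dw (l : List (Fin 3)) : ∀ (k : ℕ) {v : E3 → ℝ}, ContDiff ℝ (k + l.length : ℕ) v → ContDiff ℝ (k : ℕ) (Dw l v) := by
  induction l with
  | nil => intro k v hv; exact hv
  | cons i l ih =>
    intro k v hv
    have h1 : ContDiff ℝ ((k + 1) + l.length : ℕ) v := by
      have h2 : k + (i :: l).length = k + 1 + l.length := by
        simp only [List.length_cons]
        omega
      rwa [h2] at hv
    exact p10_pd i (ih (k + 1) h1)

/-- A smooth limit agrees on the closed annulus with a global function of class `C^m`; the words of length at most `m` in the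
partial derivatives converge uniformly on the closed annulus. -/
theorem p10_ext {R : ℝ} (hR : 1 < R) {w : ℕ → E3 → ℝ} {v : E3 → ℝ} (h : SLim R w v) (m : ℕ) :
    ∃ u : E3 → ℝ, ContDiff ℝ m u ∧ (∀ x ∈ cAnn R, u x = v x) ∧
      ∀ l : List (Fin 3), l.length ≤ m → TendstoUniformlyOn (fun n => Dw l (w n)) (Dw l u) atTop (cAnn R) := by
  obtain ⟨u, hu, huw⟩ := extend_limit hR m h.smooth (fun ε hε => by
    obtain ⟨N, hN⟩ := h.cau m ε hε
    exact ⟨N, fun n hn p hp => hN n p hn hp⟩)
  have huv : ∀ x ∈ cAnn R, u x = v x := by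
    intro x hx
    have h1 : Tendsto (fun n => w n x) atTop (𝓝 (v x)) := h.lim.tendsto_at hx
    have h2 : Tendsto (fun n => w n x) atTop (𝓝 (u x)) := by
      rw [Metric.tendsto_atTop]
      intro ε hε
      obtain ⟨N, hN⟩ := huw [] (Nat.zero_le _) (ε / 2) (by linarith)
      refine ⟨N, fun n hn => ?_⟩
      have h3 := hN n hn x hx
      rw [Real.dist_eq]
      have h4 : |w n x - u x| ≤ ε / 2 := h3
      linarith
    exact tendsto_nhds_unique h2 h1
  refine ⟨u, hu, huv, ?_⟩
  intro l hl
  have hcu : Continuous (Dw l u) := by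
    have h1 : ContDiff ℝ ((m - l.length) + l.length : ℕ) u := by
      rw [Nat.sub_add_cancel hl]; exact hu
    exact (p10_Dw l (m - l.length) h1).continuous
  have hcw : ∀ n, Continuous (Dw l (w n)) := fun n => (contDiff_Dw l (h.smooth n)).continuous
  have h3 := (l3_smooth hR h).2.2 l
  rw [Metric.tendstoUniformlyOn_iff] at h3 ⊢
  intro ε hε
  filter_upwards [h3 (ε / 2) (by linarith)] with n hn
  intro x hx
  rw [← closure_Ann hR] at hx
  have hcl : IsClosed {y : E3 | dist (Dw l u y) (Dw l (w n) y) ≤ ε / 2} :=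
    isClosed_le (hcu.dist (hcw n)) continuous_const
  have hsub : Ann R ⊆ {y : E3 | dist (Dw l u y) (Dw l (w n) y) ≤ ε / 2} := by
    intro y hy
    have h5 := n6_Dw_congr l (isOpen_Ann R) (fun z hz => huv z (Ann_subset R hz)) y hy
    show dist (Dw l u y) (Dw l (w n) y) ≤ ε / 2
    rw [h5]
    exact (hn y hy).le
  have h6 : dist (Dw l u x) (Dw l (w n) x) ≤ ε / 2 := (closure_minimal hsub hcl) hx
  linarith

end UMB.Lin
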