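import Pool.Agent.Lib.UMB.Lin.P8
import Pool.Agent.Lib.UMB.Lin.F5
import Pool.Agent.Lib.UMB.Lin.B
import Pool.Agent.Lib.UMB.Lin.P10
import Pool.Agent.Lib.UMB.W.EDefs

set_option autoImplicit false

/-! # UMB.Lin, chunk P9 (existence theorem of section 2a) -/

open scoped ContDiff BigOperators Topology
open Set MeasureTheory Filter Pool.Agent.Lib.PenroseSph

namespace UMB.Lin

/-- CHUNK P9 (S/M), first statement: the base operator of helper81 (`UMB.Lin.base`, `L0_smooth`; its coefficients are constants). -/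
theorem p9_base {R : ℝ} (hR : 1 < R) : BaseOK R := by
  refine ⟨L0, 1, one_pos, ?_, ?_⟩
  · intro m
    obtain ⟨B0, hB0, hb0⟩ := Bd_exists R m (contDiff_const (c := (0 : ℝ)) : ContDiff ℝ ∞ (fun _ : E3 => (0 : ℝ)))
    obtain ⟨B1, hB1, hb1⟩ := Bd_exists R m (contDiff_const (c := (1 : ℝ)) : ContDiff ℝ ∞ (fun _ : E3 => (1 : ℝ)))
    have h0 : Bd R m (max B0 B1) (fun _ : E3 => (0 : ℝ)) := Bd_mono le_rfl (le_max_left _ _) hb0
    have h1 : Bd R m (max B0 B1) (fun _ : E3 => (1 : ℝ)) := Bd_mono le_rfl (le_max_right _ _) hb1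
    refine ⟨max B0 B1, le_max_of_le_left hB0, { toSmooth := L0_smooth, ell := ?_, bα := ?_, bβ := ?_, bγ := ?_, neg := ?_ }⟩
    · intro x _ ξ
      have h : ∑ a, ∑ b, L0.α a b x * ξ a * ξ b = ∑ a, ξ a ^ 2 := by
        refine Finset.sum_congr rfl fun a _ => ?_
        rw [Finset.sum_eq_single a]
        · simp [L0, sq]
        · intro b _ hba
          simp [L0, Ne.symm hba]
        · intro h
          exact absurd (Finset.mem_univ a) h
      rw [h, one_mul]
    · intro a b
      by_cases hab : a = b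
      · simp only [L0, hab, if_true]; exact h1
      · simp only [L0, hab, if_false]; exact h0
    · intro a
      by_cases ha : a = 0
      · simp only [L0, ha, if_true]; exact h1
      · simp only [L0, ha, if_false]; exact h0
    · exact h0
    · intro x _
      exact le_rfl
  · intro k f hf e he
    exact base hR k hf he

/-- The extension by the boundary values only depends on the values on the closed annulus. -/
theorem p9_extn {R : ℝ} {u v : E3 → ℝ} (h : ∀ x ∈ cAnn R, u x = v x) : ext R u = ext R v := by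
  funext x
  unfold ext
  by_cases h1 : ‖x‖ < 1
  · simp only [h1, if_true]
  · by_cases h2 : ‖x‖ ≤ R
    · simp only [h1, h2, if_true, if_false]
      exact h x ⟨not_lt.1 h1, h2⟩
    · simp only [h1, h2, if_false]

theorem p9_FE {R : ℝ} {u v : E3 → ℝ} (h : ∀ x ∈ cAnn R, u x = v x) (φ : E3 → ℝ) : FE R φ u = FE R φ v := by
  unfold FE
  rw [p9_extn h]

theorem p9_ga {D : OpData} {u v : E3 → ℝ} (h : ∀ x ∈ cAnn D.R, u x = v x) : ga D u = ga D v ∧ gb D u = gb D v := by
  have h1 : gs D u = gs D v := by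
    unfold gs
    simp only [p9_FE h]
  have h2 : gn D u = gn D v := by
    unfold gn
    simp only [p9_FE h, h1]
  have h3 : ga D u = ga D v := by
    unfold ga
    simp only [p9_FE h, h2]
  refine ⟨h3, ?_⟩
  unfold gb
  simp only [h2, h3]

/-- CHUNK P9 (M), second statement: everything about the solution with its approximating sequence. `f5_fix` for `p8_cmap`; the
solution is replaced by an extension of class `C^3` (`p10_ext`; the coefficients only depend on the values on the closed annulus);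
`p4_eq` transfers the equation to `D.aa`, `D.bb` on the annulus; `Sol.approx`: `w n` for large `n` (`l3_smooth` for the words of
length `0, 1, 2`; `|w n| <= 2` on `cAnn` by `SLim.lim` and `0 <= v <= 1`); `CBd` and `DSol` are kept for the barriers
(`two_sided`, Hopf). -/
theorem p9_sol {D : OpData} (hD : D.Ok) : ∃ (v : E3 → ℝ) (w : ℕ → E3 → ℝ) (lam : ℝ) (B : ℕ → ℝ), 0 < lam ∧ (∀ m, 0 ≤ B m) ∧
    UMB.W.Sol D v ∧ CBd D.R lam B (ga D v) (gb D v) ∧ DSol D.R (ga D v) (gb D v) w v ∧ ContDiff ℝ 3 v ∧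
    ∀ l : List (Fin 3), l.length ≤ 3 → TendstoUniformlyOn (fun n => Dw l (w n)) (Dw l v) atTop (cAnn D.R) := by
  have hR := hD.one_lt_R
  obtain ⟨lam, B, hlam, hB, hc⟩ := p8_cmap hD
  obtain ⟨v0, w, hK0, hw0⟩ := f5_fix hR hlam (p9_base hR) hB hc
  obtain ⟨v, hv3, hv0, hvw⟩ := p10_ext hR hw0.slim 3
  have hgab := p9_ga hv0
  have hK : K01 D.R v := ⟨hK0.1.congr hv0, fun x hx => by rw [hv0 x hx]; exact hK0.2 x hx⟩
  have hw : DSol D.R (ga D v) (gb D v) w v := by
    rw [hgab.1, hgab.2]
    exact f5_transfer hw0 hv0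
  have hsm := l3_smooth hR hw.slim
  have hlim := hw.slim.lim
  have hbd : ∀ (x : E3), (‖x‖ = 1 ∨ ‖x‖ = D.R) → x ∈ cAnn D.R := by
    intro x hx
    rcases hx with hx | hx
    · exact ⟨hx.ge, by rw [hx]; exact hR.le⟩
    · exact ⟨by rw [hx]; exact hR.le, hx.le⟩
  refine ⟨v, w, lam, B, hlam, hB, ?_, hc.cbd v hK, hw, hv3, hvw⟩
  refine
    { cont := hsm.1
      smooth := hsm.2.1
      one := ?_
      zero := ?_
      nonneg := fun x hx => (hK.2 x hx).1
      le_one := fun x hx => (hK.2 x hx).2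
      solves := ?_
      approx := ?_
      near := ⟨univ, isOpen_univ, subset_univ _, hv3.contDiffOn⟩ }
  · intro x hx
    have h1 := hlim.tendsto_at (hbd x (Or.inl hx))
    have h2 : (fun n => w n x) = fun _ => (1 : ℝ) := funext fun n => hw.one n x hx
    have h3 : Tendsto (fun _ : ℕ => (1 : ℝ)) atTop (𝓝 (v x)) := by rw [← h2]; exact h1
    exact tendsto_nhds_unique h3 tendsto_const_nhds
  · intro x hx
    have h1 := hlim.tendsto_at (hbd x (Or.inr hx))
    have h2 : (fun n => w n x) = fun _ => (0 : ℝ) := funext fun n => hw.zero n x hx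
    have h3 : Tendsto (fun _ : ℕ => (0 : ℝ)) atTop (𝓝 (v x)) := by rw [← h2]; exact h1
    exact tendsto_nhds_unique h3 tendsto_const_nhds
  · intro x hx
    have h1 := hw.eq x hx
    have h4 := p4_eq hD v (x := x) hx.1.le
    unfold Lc at h1
    simp only [h4.2.1, h4.2.2] at h1
    unfold tr2 D2 D1
    linarith
  · intro ε hε
    have e1 := (Metric.tendstoUniformlyOn_iff.1 hlim) 1 one_pos
    have e2 := (Metric.tendstoUniformlyOn_iff.1 (hsm.2.2 [])) ε hε
    have e3 : ∀ᶠ n in atTop, ∀ i : Fin 3, ∀ x ∈ Ann D.R, dist (Dw [i] v x) (Dw [i] (w n) x) < ε :=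
      eventually_all.2 fun i => (Metric.tendstoUniformlyOn_iff.1 (hsm.2.2 [i])) ε hε
    have e4 : ∀ᶠ n in atTop, ∀ i j : Fin 3, ∀ x ∈ Ann D.R, dist (Dw [i, j] v x) (Dw [i, j] (w n) x) < ε :=
      eventually_all.2 fun i => eventually_all.2 fun j => (Metric.tendstoUniformlyOn_iff.1 (hsm.2.2 [i, j])) ε hε
    obtain ⟨n, h1, h2, h3, h4⟩ := (e1.and (e2.and (e3.and e4))).exists
    refine ⟨w n, ⟨hw.slim.smooth n, hw.one n, hw.zero n, ?_⟩, ?_⟩
    · intro x hx
      have h5 := h1 x hx
      rw [Real.dist_eq] at h5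
      have h6 := hK.2 x hx
      rw [abs_lt] at h5
      rw [abs_le]
      constructor
      · linarith [h5.1, h5.2, h6.1, h6.2]
      · linarith [h5.1, h5.2, h6.1, h6.2]
    · intro x hx
      refine ⟨?_, ?_, ?_⟩
      · have h5 := h2 x hx
        rw [Real.dist_eq, abs_sub_comm] at h5
        exact h5.le
      · intro i
        have h5 := h3 i x hx
        rw [Real.dist_eq, abs_sub_comm] at h5
        exact h5.le
      · intro i j
        have h5 := h4 i j x hx
        rw [Real.dist_eq, abs_sub_comm] at h5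
        exact h5.le

/-- the existence theorem in the form of block W -/
theorem exists_sol (D : OpData) (hD : D.Ok) : ∃ v : E3 → ℝ, UMB.W.Sol D v := by
  obtain ⟨v, w, lam, B, _, _, h, _⟩ := p9_sol hD
  exact ⟨v, h⟩

end UMB.Lin
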