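import Pool.Agent.Lib.UMB.Lin.C1

/-! # UMB.Lin, chunk M1: second order conditions at a local maximum -/

open scoped ContDiff BigOperators Topology
open Set MeasureTheory Filter Pool.Agent.Lib.PenroseSph

namespace UMB.Lin

theorem max_pd {v : E3 → ℝ} {x : E3} (hx : IsLocalMax v x) (i : Fin 3) : pd i v x = 0 := by
  unfold pd
  rw [hx.fderiv_eq_zero]
  rfl

theorem m1_pd2 {v : E3 → ℝ} {x : E3} (hv : ContDiffAt ℝ 2 v x) (i j : Fin 3) :
    pd i (pd j v) x =
      fderiv ℝ (fderiv ℝ v) x (EuclideanSpace.single i 1) (EuclideanSpace.single j 1) := by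
  have hd : DifferentiableAt ℝ (fderiv ℝ v) x :=
    (hv.fderiv_right (m := 1) (by norm_num)).differentiableAt (by norm_num)
  unfold pd
  have h := hd.hasFDerivAt.clm_apply (hasFDerivAt_const (EuclideanSpace.single j (1 : ℝ) : E3) x)
  rw [h.fderiv]
  simp

/-- The function `t ↦ v (x + t ζ)` has a local maximum at `0`, its second derivative there is
`∑ ζ_i ζ_j ∂_i ∂_j v (x) ≤ 0`. -/
theorem max_hess {v : E3 → ℝ} {x : E3} (hv : ContDiffAt ℝ 2 v x) (hx : IsLocalMax v x)
    (ζ : Fin 3 → ℝ) : ∑ i, ∑ j, pd i (pd j v) x * ζ i * ζ j ≤ 0 := by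
  set z : E3 := ∑ i, ζ i • EuclideanSpace.single i 1 with hz
  have hsum : ∑ i, ∑ j, pd i (pd j v) x * ζ i * ζ j = fderiv ℝ (fderiv ℝ v) x z z := by
    rw [hz]
    simp only [map_sum, map_smul, sum_apply, smul_apply,
      smul_eq_mul, Finset.mul_sum]
    rw [Finset.sum_comm]
    refine Finset.sum_congr rfl fun i _ => Finset.sum_congr rfl fun j _ => ?_
    rw [m1_pd2 hv]
    ring
  rw [hsum]
  by_contra hcon
  push Not at hcon
  set φ : ℝ → ℝ := fun t => v (x + t • z) with hφ
  have hline : ∀ t : ℝ, HasDerivAt (fun t : ℝ => x + t • z) z t := by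
    intro t
    have h := ((hasDerivAt_id t).smul_const z).const_add x
    simpa using h
  have hcl : ContinuousAt (fun t : ℝ => x + t • z) 0 := (hline 0).continuousAt
  have hx0 : x + (0 : ℝ) • z = x := by simp
  have hev : ∀ᶠ y in 𝓝 x, ContDiffAt ℝ 2 v y := hv.eventually (by norm_num)
  have hev0 : ∀ᶠ t in 𝓝 (0 : ℝ), ContDiffAt ℝ 2 v (x + t • z) := by
    have := hcl.tendsto
    rw [hx0] at this
    exact this.eventually hev
  have hd1 : ∀ᶠ t in 𝓝 (0 : ℝ), deriv φ t = fderiv ℝ v (x + t • z) z := by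
    filter_upwards [hev0] with t ht
    have h1 : HasFDerivAt v (fderiv ℝ v (x + t • z)) (x + t • z) :=
      (ht.differentiableAt (by norm_num)).hasFDerivAt
    exact (h1.comp_hasDerivAt t (hline t)).deriv
  have hd2 : deriv (deriv φ) 0 = fderiv ℝ (fderiv ℝ v) x z z := by
    rw [Filter.EventuallyEq.deriv_eq hd1]
    have hd : DifferentiableAt ℝ (fderiv ℝ v) (x + (0 : ℝ) • z) := by
      rw [hx0]
      exact (hv.fderiv_right (m := 1) (by norm_num)).differentiableAt (by norm_num)
    have h2 := hd.hasFDerivAt.comp_hasDerivAt (0 : ℝ) (hline 0)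
    have h3 := h2.clm_apply (hasDerivAt_const (0 : ℝ) z)
    rw [hx0] at h3
    have h4 := h3.deriv
    simp only [Function.comp_def, map_zero, add_zero] at h4
    exact h4
  have hmax : IsLocalMax φ 0 := by
    have h1 : IsLocalMax v (x + (0 : ℝ) • z) := by rw [hx0]; exact hx
    exact IsLocalMax.comp_continuous (g := fun t : ℝ => x + t • z) (b := 0) h1 hcl
  have hφd : deriv φ 0 = 0 := hmax.deriv_eq_zero
  have hφc : ContinuousAt φ 0 := by
    have h1 : ContinuousAt v (x + (0 : ℝ) • z) := by rw [hx0]; exact hv.continuousAt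
    exact ContinuousAt.comp (f := fun t : ℝ => x + t • z) (g := v) h1 hcl
  have hmin : IsLocalMin φ 0 := isLocalMin_of_deriv_deriv_pos (by rw [hd2]; exact hcon) hφd hφc
  have hconst : φ =ᶠ[𝓝 0] fun _ => φ 0 := by
    filter_upwards [hmax, hmin] with t h1 h2
    exact le_antisymm h1 h2
  have hder : deriv φ =ᶠ[𝓝 0] fun _ => 0 := by
    have h1 := hconst.eventuallyEq_nhds
    filter_upwards [h1] with t ht
    rw [ht.deriv_eq]
    simp
  have : deriv (deriv φ) 0 = 0 := by
    rw [hder.deriv_eq]; simp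
  rw [hd2] at this
  linarith

/-- second partial derivatives commute -/
theorem pd_comm {v : E3 → ℝ} {x : E3} (hv : ContDiffAt ℝ 2 v x) (i j : Fin 3) :
    pd i (pd j v) x = pd j (pd i v) x := by
  rw [m1_pd2 hv, m1_pd2 hv]
  exact (hv.isSymmSndFDerivAt (by simp)).eq _ _

end UMB.Lin
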