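import Pool.Agent.Lib.UMB.Lin.C1

/-! # UMB.Lin, chunk C2: the cut off function -/

open scoped ContDiff BigOperators
open Set MeasureTheory Pool.Agent.Lib.PenroseSph

namespace UMB.Lin

theorem rho2_eq {x : E3} (h : 1 / 2 ≤ ‖x‖) : rho2 x = 1 / ‖x‖ ^ 2 := by
  unfold rho2
  rw [Real.smoothTransition.one_of_one_le]
  nlinarith

theorem contDiff_rho2 : ContDiff ℝ ∞ rho2 := by
  rw [contDiff_iff_contDiffAt]
  intro x
  by_cases hx : x = 0
  · subst hx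
    have h1 : rho2 =ᶠ[nhds (0 : E3)] fun _ => (0 : ℝ) := by
      filter_upwards [Metric.ball_mem_nhds (0 : E3) (show (0 : ℝ) < 1 / 8 by norm_num)] with y hy
      rw [mem_ball_zero_iff] at hy
      unfold rho2
      rw [Real.smoothTransition.zero_of_nonpos, zero_div]
      nlinarith [norm_nonneg y]
    exact contDiffAt_const.congr_of_eventuallyEq h1
  · have h1 : ContDiffAt ℝ ∞ (fun y : E3 => ‖y‖ ^ 2) x := (contDiff_norm_sq ℝ).contDiffAt
    have h2 : ContDiffAt ℝ ∞ (fun y : E3 => 16 * ‖y‖ ^ 2 / 3 - 1 / 3) x :=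
      ((contDiffAt_const.mul h1).div_const 3).sub contDiffAt_const
    have h3 : ContDiffAt ℝ ∞ (fun y : E3 => Real.smoothTransition (16 * ‖y‖ ^ 2 / 3 - 1 / 3)) x :=
      Real.smoothTransition.contDiffAt.comp x h2
    exact h3.div h1 (pow_ne_zero 2 (norm_ne_zero_iff.2 hx))

theorem contDiff_tau (a : Fin 4) : ContDiff ℝ ∞ (tau a) := by
  have hc : ∀ i : Fin 3, ContDiff ℝ ∞ (fun x : E3 => x i) := fun i =>
    (EuclideanSpace.proj i : E3 →L[ℝ] ℝ).contDiff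
  fin_cases a
  · exact contDiff_const
  · exact hc 0
  · exact hc 1
  · exact hc 2

/-- `∑_a τ_a Z_a v = 0` -/
theorem sum_tau (v : E3 → ℝ) (x : E3) : ∑ a, tau a x * Z a v x = 0 := by
  have h := sum_x_rot v x
  rw [Fin.sum_univ_succ]
  have h0 : tau 0 x = 0 := rfl
  rw [h0, zero_mul, zero_add, ← h]
  refine Finset.sum_congr rfl fun j _ => ?_
  have h1 : tau j.succ x = x j := by
    fin_cases j <;> rfl
  rw [h1]

theorem c2_alg (x : E3) (i : Fin 3) :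
    ∑ a, (inner ℝ x (Zm a x)) * (Zm a x) i = ‖x‖ ^ 2 * x i := by
  rw [Fin.sum_univ_succ]
  have h1 : inner ℝ x (Zm 0 x) = ‖x‖ ^ 2 := by
    have : Zm 0 x = x := rfl
    rw [this, real_inner_self_eq_norm_sq]
  have h2 : (Zm 0 x) i = x i := rfl
  rw [h1, h2]
  have h3 : ∑ a : Fin 3, (inner ℝ x (Zm a.succ x)) * (Zm a.succ x) i = 0 := by
    refine Finset.sum_eq_zero fun a _ => ?_
    rw [rot_norm a x, zero_mul]
  rw [h3, add_zero]

theorem c2_alg2 (x : E3) (i : Fin 3) : ∑ a, (Zm a (Zm a x)) i = - x i := by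
  rw [Fin.sum_univ_four]
  fin_cases i <;>
  · simp [Zm, rotL]
    try ring

/-- `∑_a Z_a (|x|^{-2} (Zm a x)_i) = -3 x_i |x|^{-2}` -/
theorem div_frame {x : E3} (h : 1 / 2 < ‖x‖) (i : Fin 3) :
    ∑ a, Z a (fun y => rho2 y * (Zm a y) i) x = -3 * (x i * rho2 x) := by
  have hx0 : (0 : ℝ) < ‖x‖ := by linarith
  have hn : (‖x‖ ^ 2) ≠ 0 := (pow_pos hx0 2).ne'
  have h1 : HasFDerivAt (fun y : E3 => ‖y‖ ^ 2) (2 • innerSL ℝ x) x :=
    (hasStrictFDerivAt_norm_sq x).hasFDerivAt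
  have h2 : HasFDerivAt (fun y : E3 => (‖y‖ ^ 2)⁻¹)
      ((-(‖x‖ ^ 2) ^ 2)⁻¹ • (2 • innerSL ℝ x)) x := by
    have h3 := (hasDerivAt_inv hn).comp_hasFDerivAt x h1
    have h4 : -((‖x‖ ^ 2) ^ 2)⁻¹ = (-(‖x‖ ^ 2) ^ 2)⁻¹ := by rw [inv_neg]
    rw [h4] at h3
    exact h3
  have h3 : rho2 =ᶠ[nhds x] fun y : E3 => (‖y‖ ^ 2)⁻¹ := by
    filter_upwards [(isOpen_lt continuous_const continuous_norm).mem_nhds
      (show x ∈ {y : E3 | 1 / 2 < ‖y‖} from h)] with y hy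
    rw [rho2_eq (show 1 / 2 < ‖y‖ from hy).le, one_div]
  have h4 : HasFDerivAt rho2 ((-(‖x‖ ^ 2) ^ 2)⁻¹ • (2 • innerSL ℝ x)) x :=
    h2.congr_of_eventuallyEq h3
  have h5 : ∀ a : Fin 4, Z a (fun y => rho2 y * (Zm a y) i) x
      = rho2 x * (Zm a (Zm a x)) i
        + (-(‖x‖ ^ 2) ^ 2)⁻¹ * (2 * ((inner ℝ x (Zm a x)) * (Zm a x) i)) := by
    intro a
    have h6 : HasFDerivAt (fun y : E3 => (Zm a y) i)
        ((EuclideanSpace.proj i : E3 →L[ℝ] ℝ).comp (Zm a)) x :=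
      ((EuclideanSpace.proj i : E3 →L[ℝ] ℝ).comp (Zm a)).hasFDerivAt
    have h7 : HasFDerivAt (fun y => rho2 y * (Zm a y) i) _ x := h4.mul h6
    unfold Z
    rw [h7.fderiv]
    simp
    ring
  rw [Finset.sum_congr rfl fun a _ => h5 a, Finset.sum_add_distrib, ← Finset.mul_sum,
    ← Finset.mul_sum, ← Finset.mul_sum, c2_alg, c2_alg2, rho2_eq h.le]
  field_simp
  ring

end UMB.Lin
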