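import Pool.Agent.Lib.UMB.Lin.G1

/-! # UMB.Lin, chunk G5c: the rotation fields have mean zero -/

open scoped ContDiff BigOperators Topology
open Set MeasureTheory Pool.Agent.Lib.PenroseSph

namespace UMB.Lin

theorem g5c_Zm (i : Fin 3) : Zm i.succ = rotL i := by
  fin_cases i <;> rfl

/-- Rodrigues formula -/
noncomputable def g5c_rot (i : Fin 3) (t : ℝ) : E3 →L[ℝ] E3 :=
  ContinuousLinearMap.id ℝ E3 + Real.sin t • rotL i + (1 - Real.cos t) • (rotL i).comp (rotL i)

theorem g5c_rot_apply (i : Fin 3) (t : ℝ) (x : E3) :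
    g5c_rot i t x = x + Real.sin t • rotL i x + (1 - Real.cos t) • rotL i (rotL i x) := by
  simp [g5c_rot]

theorem g5c_cube (i : Fin 3) (x : E3) : rotL i (rotL i (rotL i x)) = - rotL i x := by
  ext j
  fin_cases i <;> fin_cases j <;> simp [rotL]

theorem g5c_zero (i : Fin 3) (x : E3) : g5c_rot i 0 x = x := by
  simp [g5c_rot_apply]

theorem g5c_norm (i : Fin 3) (t : ℝ) (x : E3) : ‖g5c_rot i t x‖ = ‖x‖ := by
  have h : ‖g5c_rot i t x‖ ^ 2 = ‖x‖ ^ 2 := by
    rw [g5c_rot_apply, EuclideanSpace.norm_sq_eq, EuclideanSpace.norm_sq_eq]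
    have hs := Real.sin_sq_add_cos_sq t
    fin_cases i
    · simp [rotL, Fin.sum_univ_three]
      linear_combination (x 1 ^ 2 + x 2 ^ 2) * hs
    · simp [rotL, Fin.sum_univ_three]
      linear_combination (x 0 ^ 2 + x 2 ^ 2) * hs
    · simp [rotL, Fin.sum_univ_three]
      linear_combination (x 0 ^ 2 + x 1 ^ 2) * hs
  exact (sq_eq_sq₀ (norm_nonneg _) (norm_nonneg _)).1 h

theorem g5c_deriv (i : Fin 3) (t : ℝ) (x : E3) :
    HasDerivAt (fun s => g5c_rot i s x) (rotL i (g5c_rot i t x)) t := by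
  have h1 : HasDerivAt (fun s => x + Real.sin s • rotL i x
      + (1 - Real.cos s) • rotL i (rotL i x))
      (Real.cos t • rotL i x + (- (- Real.sin t)) • rotL i (rotL i x)) t := by
    refine HasDerivAt.add ?_ ?_
    · exact ((Real.hasDerivAt_sin t).smul_const (rotL i x)).const_add x
    · exact ((Real.hasDerivAt_cos t).const_sub 1).smul_const _
  have h2 : rotL i (g5c_rot i t x)
      = Real.cos t • rotL i x + (- (- Real.sin t)) • rotL i (rotL i x) := by
    rw [g5c_rot_apply, map_add, map_add, map_smul, map_smul, g5c_cube]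
    module
  rw [h2]
  have h3 : (fun s => g5c_rot i s x) = fun s => x + Real.sin s • rotL i x
      + (1 - Real.cos s) • rotL i (rotL i x) := by
    ext1 s; exact g5c_rot_apply i s x
  rw [h3]
  exact h1

theorem g5c_const (R : ℝ) (i : Fin 3) (f : E3 → ℝ) (t : ℝ) :
    ∫ x in Ann R, f (g5c_rot i t x) = ∫ x in Ann R, f x := by
  let li : E3 →ₗᵢ[ℝ] E3 := ⟨(g5c_rot i t : E3 →ₗ[ℝ] E3), fun x => g5c_norm i t x⟩
  let e : E3 ≃ₗᵢ[ℝ] E3 := li.toLinearIsometryEquiv rfl
  have he : ∀ x, e x = g5c_rot i t x := fun x => rfl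
  have hp : (e : E3 → E3) ⁻¹' (Ann R) = Ann R := by
    ext x
    simp only [mem_preimage, Ann, mem_setOf_eq, he, g5c_norm]
  have h := (e.measurePreserving).setIntegral_preimage_emb
    e.toHomeomorph.measurableEmbedding f (Ann R)
  rw [hp] at h
  exact h

/-- Let `R_t` be the rotation by the angle `t` about the i-th axis (a linear isometry of `E3`,
explicitly given; it preserves `Ann R` and the volume). Then `∫_Ann f(R_t x) dx` does not depend
on `t`, and `d/dt f(R_t x) = (X_i f)(R_t x)`. So `0 = ∫_Ann (f(R_t x) - f(x)) dx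
= ∫_0^t ∫_Ann (X_i f)(R_s x) dx ds = t ∫_Ann X_i f` (Fubini), or differentiate at `t = 0` under
the integral sign. -/
theorem int_rot (R : ℝ) (i : Fin 3) {f : E3 → ℝ} (hf : ContDiff ℝ 1 f) :
    ∫ x in Ann R, Z i.succ f x = 0 := by
  have hcd : Continuous (fun x => fderiv ℝ f x) := hf.continuous_fderiv (by norm_num)
  have hZ : Continuous (fun x => fderiv ℝ f x (rotL i x)) := hcd.clm_apply (rotL i).continuous
  obtain ⟨C, hC⟩ := (isCompact_cAnn R).exists_bound_of_continuousOn hZ.continuousOn
  have hcont : ∀ t, Continuous (fun x => f (g5c_rot i t x)) := fun t =>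
    hf.continuous.comp (g5c_rot i t).continuous
  have key := hasDerivAt_integral_of_dominated_loc_of_deriv_le (μ := volume.restrict (Ann R))
    (F := fun t x => f (g5c_rot i t x))
    (F' := fun t x => fderiv ℝ f (g5c_rot i t x) (rotL i (g5c_rot i t x)))
    (x₀ := (0 : ℝ)) (s := univ) (bound := fun _ => C) Filter.univ_mem
    (Filter.Eventually.of_forall fun t => (hcont t).aestronglyMeasurable)
    (integrableOn_Ann (hcont 0))
    ((hZ.comp (g5c_rot i 0).continuous).aestronglyMeasurable)
    (by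
      filter_upwards [ae_restrict_mem (measurableSet_Ann R)] with x hx t _
      apply hC
      have := Ann_subset R hx
      simp only [cAnn, mem_setOf_eq] at this ⊢
      rw [g5c_norm]; exact this)
    (integrableOn_Ann continuous_const)
    (by
      refine Filter.Eventually.of_forall fun x t _ => ?_
      have h1 : HasFDerivAt f (fderiv ℝ f (g5c_rot i t x)) (g5c_rot i t x) :=
        ((hf.differentiable (by norm_num)) _).hasFDerivAt
      exact h1.comp_hasDerivAt t (g5c_deriv i t x))
  have h2 := key.2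
  simp only [g5c_const] at h2
  have h3 := h2.unique (hasDerivAt_const (0 : ℝ) (∫ x in Ann R, f x))
  have h4 : ∀ x, Z i.succ f x = fderiv ℝ f (g5c_rot i 0 x) (rotL i (g5c_rot i 0 x)) := by
    intro x
    rw [g5c_zero]
    unfold Z
    rw [g5c_Zm]
  simp only [h4]
  exact h3

end UMB.Lin
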