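import Pool.Agent.Lib.UMB.Lin.G5b
import Pool.Agent.Lib.UMB.Lin.G5c
import Pool.Agent.Lib.UMB.Lin.G4
import Pool.Agent.Lib.UMB.Lin.C2

/-! # UMB.Lin, chunk G5d: divergence theorem on the annulus -/

open scoped ContDiff BigOperators
open Set MeasureTheory Pool.Agent.Lib.PenroseSph

namespace UMB.Lin

theorem g5d_cont_Z (a : Fin 4) {f : E3 → ℝ} (hf : ContDiff ℝ 1 f) : Continuous (Z a f) := by
  have h1 : Continuous (fun x => fderiv ℝ f x) := hf.continuous_fderiv (by norm_num)
  exact h1.clm_apply (Zm a).continuous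

/-- `∫_Ann Z_a f = - 3 ∫ f` for `a = 0` and `= 0` for the rotations, if `f = 0` on the spheres. -/
theorem int_Z_of_Bz {R : ℝ} (hR : 1 < R) (a : Fin 4) {f : E3 → ℝ} (hf : ContDiff ℝ 1 f)
    (h : Bz R f) : ∫ x in Ann R, Z a f x = - (if a = 0 then 3 else 0) * ∫ x in Ann R, f x := by
  refine Fin.cases ?_ (fun i => ?_) a
  · have h1 := int_euler hR hf
    have h2 : bS R f = 0 := by
      unfold bS
      have e1 : ∀ n : Metric.sphere (0 : E3) 1, f (R • (n : E3)) = 0 := by
        intro n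
        apply h
        right
        rw [norm_smul, Real.norm_eq_abs, abs_of_pos (by linarith)]
        have : ‖(n : E3)‖ = 1 := by simpa using n.2
        rw [this, mul_one]
      have e2 : ∀ n : Metric.sphere (0 : E3) 1, f (n : E3) = 0 := by
        intro n
        apply h
        left
        simpa using n.2
      simp [e1, e2]
    rw [h2, integral_add (integrableOn_Ann (g5d_cont_Z 0 hf))
      ((integrableOn_Ann hf.continuous).const_mul 3), integral_const_mul] at h1
    simp only [if_true]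
    linarith
  · rw [int_rot R i hf]
    simp

/-- Divergence theorem: `∫_Ann ∂_i f = R^2 ∫ f(R n) n_i dn - ∫ f(n) n_i dn`.
Proof: let `ρ` be smooth with `ρ = |x|^{-2}` for `|x| ≥ 1/2` (see `rho2` in Rho.lean, or define it
ad hoc); near the closed annulus
`∂_i f = ρ ∑_a (Z_a)_i Z_a f = ∑_a Z_a (ρ (Z_a)_i f) - f ∑_a Z_a (ρ (Z_a)_i)` and
`∑_a Z_a (|x|^{-2} (Z_a)_i) = -3 x_i |x|^{-2}`; so `∫ ∂_i f = ∫ (Z_0 + 3)(ρ x_i f) + rotations
= bS R (ρ x_i f)`. -/
theorem int_pd {R : ℝ} (hR : 1 < R) (i : Fin 3) {f : E3 → ℝ} (hf : ContDiff ℝ 1 f) :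
    ∫ x in Ann R, pd i f x =
      R ^ 2 * (∫ n : Metric.sphere (0 : E3) 1, f (R • (n : E3)) * (n : E3) i ∂sig)
        - ∫ n : Metric.sphere (0 : E3) 1, f (n : E3) * (n : E3) i ∂sig := by
  have hcomp : ∀ a : Fin 4, ContDiff ℝ ∞ (fun x : E3 => (Zm a x) i) := by
    intro a
    have : (fun x : E3 => (Zm a x) i)
        = fun x => (EuclideanSpace.proj (𝕜 := ℝ) i : E3 →L[ℝ] ℝ) (Zm a x) := by
      ext x; simp
    rw [this]
    exact (ContinuousLinearMap.contDiff _).comp (Zm a).contDiff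
  have hw : ∀ a : Fin 4, ContDiff ℝ ∞ (fun x : E3 => rho2 x * (Zm a x) i) :=
    fun a => contDiff_rho2.mul (hcomp a)
  have hg : ∀ a : Fin 4, ContDiff ℝ 1 (fun x : E3 => (rho2 x * (Zm a x) i) * f x) :=
    fun a => ((hw a).of_le (by exact_mod_cast le_top)).mul hf
  -- pointwise identity
  have key : ∀ x ∈ Ann R, pd i f x =
      (Z 0 (fun y => (rho2 y * (Zm 0 y) i) * f y) x + 3 * ((rho2 x * (Zm 0 x) i) * f x))
        + ∑ j : Fin 3, Z j.succ (fun y => (rho2 y * (Zm j.succ y) i) * f y) x := by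
    intro x hx
    have hx1 : 1 < ‖x‖ := hx.1
    have hx2 : 1 / 2 < ‖x‖ := by linarith
    have hne : ‖x‖ ^ 2 ≠ 0 := by positivity
    have hr : rho2 x * ‖x‖ ^ 2 = 1 := by
      rw [rho2_eq hx2.le]; field_simp
    have e1 : pd i f x = rho2 x * ∑ a, (Zm a x) i * Z a f x := by
      rw [← pd_eq_Z, ← mul_assoc, hr, one_mul]
    have e2 : ∀ a, Z a (fun y => (rho2 y * (Zm a y) i) * f y) x =
        (rho2 x * (Zm a x) i) * Z a f x + f x * Z a (fun y => rho2 y * (Zm a y) i) x := by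
      intro a
      exact Z_mul a (((hw a).differentiable (by simp)) x) ((hf.differentiable (by norm_num)) x)
    have e3 := div_frame hx2 i
    have e4 : (Zm 0 x) i = x i := by simp [Zm]
    have e5 : ∑ a, Z a (fun y => (rho2 y * (Zm a y) i) * f y) x
        = pd i f x + f x * (-3 * (x i * rho2 x)) := by
      rw [← e3, e1, Finset.mul_sum, Finset.mul_sum, ← Finset.sum_add_distrib]
      refine Finset.sum_congr rfl fun a _ => ?_
      rw [e2 a]; ring
    rw [Fin.sum_univ_succ] at e5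
    rw [e4]
    rw [e4] at *
    linarith
  rw [setIntegral_congr_fun (measurableSet_Ann R) key]
  have hc0 : Continuous (fun x : E3 => (rho2 x * (Zm 0 x) i) * f x) := (hg 0).continuous
  have i1 : IntegrableOn (fun x => Z 0 (fun y => (rho2 y * (Zm 0 y) i) * f y) x
      + 3 * ((rho2 x * (Zm 0 x) i) * f x)) (Ann R) :=
    integrableOn_Ann ((g5d_cont_Z 0 (hg 0)).add (continuous_const.mul hc0))
  have i2 : ∀ j : Fin 3, IntegrableOn
      (fun x => Z j.succ (fun y => (rho2 y * (Zm j.succ y) i) * f y) x) (Ann R) :=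
    fun j => integrableOn_Ann (g5d_cont_Z j.succ (hg j.succ))
  rw [integral_add i1 (integrable_finset_sum _ fun j _ => i2 j),
    integral_finset_sum _ (fun j _ => i2 j)]
  have z : ∀ j : Fin 3, ∫ x in Ann R, Z j.succ (fun y => (rho2 y * (Zm j.succ y) i) * f y) x = 0 :=
    fun j => int_rot R j (hg j.succ)
  rw [Finset.sum_congr rfl (fun j _ => z j), Finset.sum_const_zero, add_zero]
  rw [int_euler hR (hg 0)]
  unfold bS
  have hn : ∀ n : Metric.sphere (0 : E3) 1, ‖(n : E3)‖ = 1 := by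
    intro n; simpa using n.2
  have c1 : ∀ n : Metric.sphere (0 : E3) 1,
      (rho2 (R • (n : E3)) * (Zm 0 (R • (n : E3))) i) * f (R • (n : E3))
        = R⁻¹ * (f (R • (n : E3)) * (n : E3) i) := by
    intro n
    have h1 : ‖R • (n : E3)‖ = R := by
      rw [norm_smul, hn, Real.norm_eq_abs, abs_of_pos (by linarith), mul_one]
    have h2 : rho2 (R • (n : E3)) = 1 / R ^ 2 := by
      rw [rho2_eq (by rw [h1]; linarith), h1]
    have h3 : (Zm 0 (R • (n : E3))) i = R * (n : E3) i := by simp [Zm]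
    rw [h2, h3]
    have hR0 : R ≠ 0 := by linarith
    field_simp
  have c2 : ∀ n : Metric.sphere (0 : E3) 1,
      (rho2 (n : E3) * (Zm 0 (n : E3)) i) * f (n : E3) = f (n : E3) * (n : E3) i := by
    intro n
    have h2 : rho2 (n : E3) = 1 := by
      rw [rho2_eq (by rw [hn]; norm_num), hn]; norm_num
    have h3 : (Zm 0 (n : E3)) i = (n : E3) i := by simp [Zm]
    rw [h2, h3]; ring
  simp only [c1, c2]
  rw [integral_const_mul]
  have hR0 : R ≠ 0 := by linarith
  have : R ^ 3 * (R⁻¹ * ∫ n : Metric.sphere (0 : E3) 1, f (R • (n : E3)) * (n : E3) i ∂sig)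
      = R ^ 2 * ∫ n : Metric.sphere (0 : E3) 1, f (R • (n : E3)) * (n : E3) i ∂sig := by
    field_simp
  rw [this]

end UMB.Lin
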