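import Pool.Agent.Lib.UMB.Lin.M4

/-! # UMB.Lin, chunk M5: comparison, uniqueness, sup bound -/

open scoped ContDiff BigOperators Topology
open Set MeasureTheory Filter Pool.Agent.Lib.PenroseSph

namespace UMB.Lin

theorem m5_C2c_comb {R : ℝ} {u v : E3 → ℝ} (hu : C2c R u) (hv : C2c R v) (s t : ℝ) :
    C2c R (fun y => s * u y + t * v y) where
  c2 := fun x hx => (contDiffAt_const.mul (hu.c2 x hx)).add (contDiffAt_const.mul (hv.c2 x hx))
  cont := (continuousOn_const.mul hu.cont).add (continuousOn_const.mul hv.cont)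

theorem m5_C2c_const (R s : ℝ) : C2c R (fun _ => s) where
  c2 := fun _ _ => contDiffAt_const
  cont := continuousOn_const

theorem m5_Lc_zero {a : Fin 3 → Fin 3 → E3 → ℝ} {b : Fin 3 → E3 → ℝ} {c : E3 → ℝ} (f : E3 → ℝ)
    (x : E3) : Lc a b c f x = Lc a b (fun _ => 0) f x + c x * f x := by
  unfold Lc
  ring

/-- comparison of two functions (`weak_max` for `u - v`) -/
theorem comparison {R lam B : ℝ} (hR : 1 < R) (hlam : 0 < lam) (hB : 0 ≤ B)
    {a : Fin 3 → Fin 3 → E3 → ℝ} {b : Fin 3 → E3 → ℝ} {c : E3 → ℝ} (h : CGood R lam B a b c)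
    {u v : E3 → ℝ} (hu : C2c R u) (hv : C2c R v) (hL : ∀ x ∈ Ann R, Lc a b c v x ≤ Lc a b c u x)
    (h0 : ∀ x, (‖x‖ = 1 ∨ ‖x‖ = R) → u x ≤ v x) : ∀ x ∈ cAnn R, u x ≤ v x := by
  intro x hx
  have hw := m5_C2c_comb hu hv 1 (-1)
  have h1 := weak_max hR hlam hB h hw (fun y hy => by
    rw [Lc_add_mul (hu.c2 y hy) (hv.c2 y hy)]
    have := hL y hy
    linarith) (fun y hy => by
    have := h0 y hy
    linarith) x hx
  have h2 : 1 * u x + -1 * v x ≤ 0 := h1
  linarith

/-- sup bound: compare `v` with `s + K/c0 (e^{κR²} - e^{κ|x|²})` (`exp_sub_unif`) -/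
theorem sup_bound {R lam B : ℝ} (hR : 1 < R) (hlam : 0 < lam) (hB : 0 ≤ B) :
    ∃ C, 0 ≤ C ∧ ∀ (a : Fin 3 → Fin 3 → E3 → ℝ) (b : Fin 3 → E3 → ℝ) (c : E3 → ℝ),
      CGood R lam B a b c → ∀ v : E3 → ℝ, C2c R v → ∀ s K : ℝ, 0 ≤ s → 0 ≤ K →
        (∀ x ∈ Ann R, |Lc a b c v x| ≤ K) → (∀ x, (‖x‖ = 1 ∨ ‖x‖ = R) → |v x| ≤ s) →
        ∀ x ∈ cAnn R, |v x| ≤ s + C * K := by
  obtain ⟨c0, hc0, hsub⟩ := exp_sub_unif hR hlam hB
  set κ := kp R lam B with hκ
  have hκ1 : 1 ≤ κ := kp_pos hR hlam hB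
  set E := Real.exp (κ * R ^ 2) with hE
  have hE0 : 0 < E := Real.exp_pos _
  refine ⟨E / c0, by positivity, ?_⟩
  intro a b c h v hv s K hs hK hLv hbv
  -- the barrier
  set g : E3 → ℝ := fun y => Real.exp (κ * ‖y‖ ^ 2) with hg
  have hgC : C2c R g := C2c_exp R κ
  set u : E3 → ℝ := fun y => 1 * (s + K / c0 * E) + (-(K / c0)) * g y with hu
  have huC : C2c R u := m5_C2c_comb (m5_C2c_const R (s + K / c0 * E)) hgC 1 (-(K / c0))
  have hKc : 0 ≤ K / c0 := by positivity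
  have hgle : ∀ y : E3, ‖y‖ ≤ R → g y ≤ E := by
    intro y hy
    refine Real.exp_le_exp.mpr ?_
    have : ‖y‖ ^ 2 ≤ R ^ 2 := pow_le_pow_left₀ (norm_nonneg y) hy 2
    exact mul_le_mul_of_nonneg_left this (by linarith)
  have hg0 : ∀ y : E3, 0 < g y := fun y => Real.exp_pos _
  have hus : ∀ y : E3, ‖y‖ ≤ R → s ≤ u y := by
    intro y hy
    have h1 := mul_le_mul_of_nonneg_left (hgle y hy) hKc
    simp only [hu]; linarith
  have huE : ∀ y : E3, u y ≤ s + E / c0 * K := by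
    intro y
    have h1 := mul_nonneg hKc (hg0 y).le
    have h2 : K / c0 * E = E / c0 * K := by ring
    simp only [hu]; linarith
  have hLu : ∀ x ∈ Ann R, Lc a b c u x ≤ -K := by
    intro x hx
    have e1 : Lc a b c u x = 1 * Lc a b c (fun _ => s + K / c0 * E) x
        + (-(K / c0)) * Lc a b c g x :=
      Lc_add_mul contDiffAt_const (hgC.c2 x hx) 1 (-(K / c0))
    rw [e1, Lc_const, m5_Lc_zero g x]
    have h2 : c0 ≤ Lc a b (fun _ => 0) g x := hsub a b c h x hx
    have h3 := mul_le_mul_of_nonneg_left h2 hKc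
    have h4 : K / c0 * c0 = K := div_mul_cancel₀ K hc0.ne'
    have h5 : c x * (s + K / c0 * (E - g x)) ≤ 0 := by
      refine mul_nonpos_of_nonpos_of_nonneg (h.neg x hx) ?_
      have h6 : 0 ≤ K / c0 * (E - g x) := mul_nonneg hKc (by linarith [hgle x hx.2.le])
      linarith
    have h7 : c x * (s + K / c0 * (E - g x)) = c x * (s + K / c0 * E) - K / c0 * (c x * g x) := by
      ring
    rw [h7] at h5
    linarith
  intro x hx
  refine abs_le.mpr ⟨?_, ?_⟩
  · have hnv : C2c R (fun y => (-1) * v y + 0 * v y) := m5_C2c_comb hv hv (-1) 0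
    have h1 := comparison hR hlam hB h hnv huC (fun y hy => by
      rw [Lc_add_mul (hv.c2 y hy) (hv.c2 y hy)]
      have h2 := hLu y hy
      have h3 := (abs_le.mp (hLv y hy)).2
      linarith) (fun y hy => by
      have h2 := (abs_le.mp (hbv y hy)).1
      have h3 : s ≤ u y := hus y (by rcases hy with hy | hy <;> linarith)
      linarith) x hx
    have h4 := huE x
    have h5 : (-1) * v x + 0 * v x ≤ u x := h1
    linarith
  · have h1 := comparison hR hlam hB h hv huC (fun y hy => by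
      have h2 := hLu y hy
      have h3 := (abs_le.mp (hLv y hy)).1
      linarith) (fun y hy => by
      have h2 := (abs_le.mp (hbv y hy)).2
      have h3 : s ≤ u y := hus y (by rcases hy with hy | hy <;> linarith)
      linarith) x hx
    exact h1.trans (huE x)

end UMB.Lin
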