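import Pool.Agent.Lib.UMB.Lin.A3
import Pool.Agent.Lib.UMB.Lin.G5d

/-! # UMB.Lin, chunk A1: the energy inequality -/

open scoped ContDiff BigOperators
open Set MeasureTheory Pool.Agent.Lib.PenroseSph

namespace UMB.Lin

/-- `∫ v Z_a (G) = - ∫ Z_a v G - 3 [a = 0] ∫ v G` for `v = 0` on the spheres, `G` smooth
(`int_Z_of_Bz` for `v G`). -/
theorem ibp {R : ℝ} (hR : 1 < R) (a : Fin 4) {v G : E3 → ℝ} (hv : ContDiff ℝ ∞ v)
    (hG : ContDiff ℝ ∞ G) (hz : Bz R v) :
    ∫ x in Ann R, v x * Z a G x = - (∫ x in Ann R, Z a v x * G x)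
      - (if a = 0 then 3 else 0) * ∫ x in Ann R, v x * G x := by
  have h1 : ∀ x, Z a (fun y => G y * v y) x = Z a v x * G x + v x * Z a G x := by
    intro x
    rw [Z_mul a (hG.differentiable (by simp) x) (hv.differentiable (by simp) x)]
    ring
  have h2 := int_Z_of_Bz hR a (f := fun y => G y * v y) ((hG.mul hv).of_le (by norm_cast))
    (Bz_mul hz)
  have hc1 : Continuous (fun x => Z a v x * G x) := (contDiff_Z a hv).continuous.mul hG.continuous
  have hc2 : Continuous (fun x => v x * Z a G x) := hv.continuous.mul (contDiff_Z a hG).continuous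
  have h3 : ∫ x in Ann R, Z a (fun y => G y * v y) x
      = (∫ x in Ann R, Z a v x * G x) + ∫ x in Ann R, v x * Z a G x := by
    rw [← integral_add (integrableOn_Ann hc1) (integrableOn_Ann hc2)]
    exact integral_congr_ae (Filter.Eventually.of_forall h1)
  have h4 : ∫ x in Ann R, G x * v x = ∫ x in Ann R, v x * G x :=
    integral_congr_ae (Filter.Eventually.of_forall (fun x => mul_comm (G x) (v x)))
  rw [h3, h4] at h2
  linarith

/-- `∫ f X_i g = - ∫ X_i f g` for all smooth functions (no boundary condition), `int_rot`. -/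
theorem ibp_rot (R : ℝ) (i : Fin 3) {f g : E3 → ℝ} (hf : ContDiff ℝ ∞ f) (hg : ContDiff ℝ ∞ g) :
    ∫ x in Ann R, f x * Z i.succ g x = - ∫ x in Ann R, Z i.succ f x * g x := by
  have h1 : ∀ x, Z i.succ (fun y => f y * g y) x = f x * Z i.succ g x + Z i.succ f x * g x := by
    intro x
    rw [Z_mul i.succ (hf.differentiable (by simp) x) (hg.differentiable (by simp) x)]
    ring
  have h2 := int_rot R i (f := fun y => f y * g y) ((hf.mul hg).of_le (by norm_cast))
  have hc1 : Continuous (fun x => f x * Z i.succ g x) :=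
    hf.continuous.mul (contDiff_Z i.succ hg).continuous
  have hc2 : Continuous (fun x => Z i.succ f x * g x) :=
    (contDiff_Z i.succ hf).continuous.mul hg.continuous
  have h3 : ∫ x in Ann R, Z i.succ (fun y => f y * g y) x
      = (∫ x in Ann R, f x * Z i.succ g x) + ∫ x in Ann R, Z i.succ f x * g x := by
    rw [← integral_add (integrableOn_Ann hc1) (integrableOn_Ann hc2)]
    exact integral_congr_ae (Filter.Eventually.of_forall h1)
  rw [h3] at h2
  linarith

theorem a1_bd0 {R B : ℝ} {m : ℕ} {a : E3 → ℝ} (h : Bd R m B a) : ∀ x ∈ Ann R, |a x| ≤ B := by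
  intro x hx
  have := h [] (by simp) x (Ann_subset R hx)
  simpa [Zw] using this

/-- the trilinear bound -/
theorem a1_tri {R B : ℝ} (hB : 0 ≤ B) {a u w : E3 → ℝ} (ha : Continuous a) (hu : Continuous u)
    (hw : Continuous w) (hb : ∀ x ∈ Ann R, |a x| ≤ B) :
    |∫ x in Ann R, u x * (a x * w x)| ≤ B * (l2 R u * l2 R w) := by
  have h1 := l2_cs (R := R) hu (ha.mul hw)
  have h2 := l2_mul_le hB hw ha hb
  have h3 := l2_nonneg R u
  calc |∫ x in Ann R, u x * (a x * w x)| ≤ l2 R u * l2 R (fun x => a x * w x) := h1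
    _ ≤ l2 R u * (B * l2 R w) := mul_le_mul_of_nonneg_left h2 h3
    _ = B * (l2 R u * l2 R w) := by ring

/-- the identity behind the energy inequality -/
theorem a1_ident {R : ℝ} (hR : 1 < R) {L : Op} (hL : L.Smooth) {v : E3 → ℝ} (hv : ContDiff ℝ ∞ v)
    (hz : Bz R v) :
    ∫ x in Ann R, v x * L.ap v x =
      - (∑ a, ∑ b, ∫ x in Ann R, Z a v x * (L.α a b x * Z b v x))
      - 3 * (∑ b, ∫ x in Ann R, v x * (L.α 0 b x * Z b v x))
      + (∑ a, ∫ x in Ann R, v x * (L.β a x * Z a v x))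
      + ∫ x in Ann R, v x * (L.γ x * v x) := by
  have hG : ∀ a b, ContDiff ℝ ∞ (fun y => L.α a b y * Z b v y) :=
    fun a b => (hL.α a b).mul (contDiff_Z b hv)
  have hc1 : ∀ a b, Continuous (fun x => v x * Z a (fun y => L.α a b y * Z b v y) x) :=
    fun a b => hv.continuous.mul (contDiff_Z a (hG a b)).continuous
  have hc2 : ∀ a, Continuous (fun x => v x * (L.β a x * Z a v x)) :=
    fun a => hv.continuous.mul ((hL.β a).continuous.mul (contDiff_Z a hv).continuous)
  have hc3 : Continuous (fun x => v x * (L.γ x * v x)) :=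
    hv.continuous.mul (hL.γ.continuous.mul hv.continuous)
  have h1 : ∫ x in Ann R, v x * L.ap v x = ∫ x in Ann R,
      (((∑ a, ∑ b, v x * Z a (fun y => L.α a b y * Z b v y) x)
        + (∑ a, v x * (L.β a x * Z a v x))) + v x * (L.γ x * v x)) := by
    refine integral_congr_ae (Filter.Eventually.of_forall (fun x => ?_))
    simp only [Op.ap, mul_add, Finset.mul_sum]
  have hcs1 : Continuous (fun x => ∑ a, ∑ b, v x * Z a (fun y => L.α a b y * Z b v y) x) :=
    continuous_finsetSum _ (fun a _ => continuous_finsetSum _ (fun b _ => hc1 a b))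
  have hcs2 : Continuous (fun x => ∑ a, v x * (L.β a x * Z a v x)) :=
    continuous_finsetSum _ (fun a _ => hc2 a)
  have hcs12 : Continuous (fun x => (∑ a, ∑ b, v x * Z a (fun y => L.α a b y * Z b v y) x)
      + ∑ a, v x * (L.β a x * Z a v x)) := hcs1.add hcs2
  have h2 : ∫ x in Ann R, (((∑ a, ∑ b, v x * Z a (fun y => L.α a b y * Z b v y) x)
        + (∑ a, v x * (L.β a x * Z a v x))) + v x * (L.γ x * v x))
      = (∑ a, ∑ b, ∫ x in Ann R, v x * Z a (fun y => L.α a b y * Z b v y) x)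
        + (∑ a, ∫ x in Ann R, v x * (L.β a x * Z a v x))
        + ∫ x in Ann R, v x * (L.γ x * v x) := by
    rw [integral_add (integrableOn_Ann hcs12) (integrableOn_Ann hc3),
      integral_add (integrableOn_Ann hcs1) (integrableOn_Ann hcs2),
      integral_finsetSum _ (fun a _ => integrableOn_Ann (hc2 a)),
      integral_finsetSum _ (fun a _ => integrableOn_Ann
        (continuous_finsetSum _ (fun b _ => hc1 a b)))]
    congr 2
    refine Finset.sum_congr rfl (fun a _ => ?_)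
    exact integral_finsetSum _ (fun b _ => integrableOn_Ann (hc1 a b))
  have h3 : ∀ a b, ∫ x in Ann R, v x * Z a (fun y => L.α a b y * Z b v y) x
      = - (∫ x in Ann R, Z a v x * (L.α a b x * Z b v x))
        - (if a = 0 then 3 else 0) * ∫ x in Ann R, v x * (L.α a b x * Z b v x) :=
    fun a b => ibp hR a hv (hG a b) hz
  rw [h1, h2]
  simp only [h3, Finset.sum_sub_distrib, Finset.sum_neg_distrib]
  have h4 : (∑ a, ∑ b, (if (a : Fin 4) = 0 then (3 : ℝ) else 0)
      * ∫ x in Ann R, v x * (L.α a b x * Z b v x))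
      = 3 * ∑ b, ∫ x in Ann R, v x * (L.α 0 b x * Z b v x) := by
    rw [Finset.sum_eq_single 0]
    · simp [Finset.mul_sum]
    · intro a _ ha
      simp [ha]
    · intro h
      exact absurd (Finset.mem_univ _) h
  rw [h4]

/-- ellipticity, integrated -/
theorem a1_ell {R lam B : ℝ} {m : ℕ} {L : Op} (hL : L.Good R lam B m) {u : Fin 4 → E3 → ℝ}
    (hu : ∀ a, Continuous (u a)) :
    lam * ∑ a, l2 R (u a) ^ 2 ≤ ∑ a, ∑ b, ∫ x in Ann R, u a x * (L.α a b x * u b x) := by
  have hc1 : ∀ a b, Continuous (fun x => u a x * (L.α a b x * u b x)) :=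
    fun a b => (hu a).mul ((hL.α a b).continuous.mul (hu b))
  have h1 : (∑ a, ∑ b, ∫ x in Ann R, u a x * (L.α a b x * u b x))
      = ∫ x in Ann R, ∑ a, ∑ b, u a x * (L.α a b x * u b x) := by
    rw [integral_finsetSum _ (fun a _ => integrableOn_Ann
        (continuous_finsetSum _ (fun b _ => hc1 a b)))]
    refine Finset.sum_congr rfl (fun a _ => ?_)
    exact (integral_finsetSum _ (fun b _ => integrableOn_Ann (hc1 a b))).symm
  have hu2 : ∀ a, Continuous (fun x => u a x ^ 2) := fun a => (hu a).pow 2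
  have h2 : lam * ∑ a, l2 R (u a) ^ 2 = ∫ x in Ann R, lam * ∑ a, u a x ^ 2 := by
    rw [integral_const_mul, integral_finsetSum _ (fun a _ => integrableOn_Ann (hu2 a))]
    simp only [l2_sq]
  rw [h1, h2]
  refine setIntegral_mono_on ?_ ?_ (measurableSet_Ann R) ?_
  · exact integrableOn_Ann (continuous_const.mul (continuous_finsetSum _ (fun a _ => hu2 a)))
  · exact integrableOn_Ann (continuous_finsetSum _ (fun a _ =>
      continuous_finsetSum _ (fun b _ => hc1 a b)))
  · intro x hx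
    have h3 := hL.ell x (Ann_subset R hx) (fun a => u a x)
    refine h3.trans (le_of_eq ?_)
    refine Finset.sum_congr rfl (fun a _ => Finset.sum_congr rfl (fun b _ => ?_))
    ring

/-- Energy inequality. `lam ∑ |Z_a v|^2 ≤ ∑ ∫ α_ab Z_a v Z_b v
= - ∫ v L v - 3 ∑_b ∫ v α_0b Z_b v + ∑ ∫ v β_a Z_a v + ∫ γ v^2`, Cauchy-Schwarz, Young. -/
theorem energy {R lam B : ℝ} (hR : 1 < R) (hlam : 0 < lam) (hB : 0 ≤ B) :
    ∃ C, 0 ≤ C ∧ ∀ L : Op, L.Good R lam B 1 → ∀ v : E3 → ℝ, ContDiff ℝ ∞ v → Bz R v →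
      ∑ a, l2 R (Z a v) ^ 2 ≤ C * (|∫ x in Ann R, v x * L.ap v x| + l2 R v ^ 2) := by
  refine ⟨(2 / lam) * (1 + 32 * B ^ 2 / lam), by positivity, ?_⟩
  intro L hL v hv hz
  have hid := a1_ident hR hL.toSmooth hv hz
  have hell := a1_ell hL (u := fun a => Z a v) (fun a => (contDiff_Z a hv).continuous)
  have hvc := hv.continuous
  -- the first order terms
  have hb1 : ∀ b, |∫ x in Ann R, v x * (L.α 0 b x * Z b v x)| ≤ B * (l2 R v * l2 R (Z b v)) :=
    fun b => a1_tri hB (hL.α 0 b).continuous hvc (contDiff_Z b hv).continuous (a1_bd0 (hL.bα 0 b))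
  have hb2 : ∀ b, |∫ x in Ann R, v x * (L.β b x * Z b v x)| ≤ B * (l2 R v * l2 R (Z b v)) :=
    fun b => a1_tri hB (hL.β b).continuous hvc (contDiff_Z b hv).continuous (a1_bd0 (hL.bβ b))
  have hb3 : ∫ x in Ann R, v x * (L.γ x * v x) ≤ 0 := by
    refine setIntegral_nonpos (measurableSet_Ann R) (fun x hx => ?_)
    have h1 := hL.neg x (Ann_subset R hx)
    have h2 : v x * (L.γ x * v x) = L.γ x * (v x) ^ 2 := by ring
    rw [h2]
    exact mul_nonpos_of_nonpos_of_nonneg h1 (sq_nonneg _)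
  have hs1 : |∑ b, ∫ x in Ann R, v x * (L.α 0 b x * Z b v x)|
      ≤ ∑ b, B * (l2 R v * l2 R (Z b v)) :=
    (Finset.abs_sum_le_sum_abs _ _).trans (Finset.sum_le_sum (fun b _ => hb1 b))
  have hs2 : |∑ b, ∫ x in Ann R, v x * (L.β b x * Z b v x)|
      ≤ ∑ b, B * (l2 R v * l2 R (Z b v)) :=
    (Finset.abs_sum_le_sum_abs _ _).trans (Finset.sum_le_sum (fun b _ => hb2 b))
  have hY : ∀ b, 4 * (B * (l2 R v * l2 R (Z b v)))
      ≤ lam / 2 * l2 R (Z b v) ^ 2 + 8 * B ^ 2 / lam * l2 R v ^ 2 := by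
    intro b
    have h1 : 0 ≤ (lam * l2 R (Z b v) - 4 * B * l2 R v) ^ 2 / (2 * lam) := by positivity
    have h2 : (lam * l2 R (Z b v) - 4 * B * l2 R v) ^ 2 / (2 * lam)
        = lam / 2 * l2 R (Z b v) ^ 2 + 8 * B ^ 2 / lam * l2 R v ^ 2
          - 4 * (B * (l2 R v * l2 R (Z b v))) := by
      field_simp
      ring
    rw [h2] at h1
    linarith
  have hYs : 4 * ∑ b : Fin 4, B * (l2 R v * l2 R (Z b v))
      ≤ lam / 2 * ∑ b : Fin 4, l2 R (Z b v) ^ 2 + 32 * B ^ 2 / lam * l2 R v ^ 2 := by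
    rw [Finset.mul_sum]
    refine (Finset.sum_le_sum (fun b _ => hY b)).trans (le_of_eq ?_)
    rw [Finset.sum_add_distrib, ← Finset.mul_sum]
    simp only [Finset.sum_const, Finset.card_univ, Fintype.card_fin, nsmul_eq_mul]
    push_cast
    ring
  set I := ∫ x in Ann R, v x * L.ap v x with hI
  set S := ∑ b : Fin 4, l2 R (Z b v) ^ 2 with hS
  set T := ∑ b : Fin 4, B * (l2 R v * l2 R (Z b v)) with hT
  have h5 : lam * S ≤ |I| + 4 * T := by
    have a1 := neg_abs_le I
    have a2 := (abs_le.mp hs1).1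
    have a3 := (abs_le.mp hs2).2
    linarith
  have h6 : lam / 2 * S ≤ |I| + 32 * B ^ 2 / lam * l2 R v ^ 2 := by linarith
  have h7 : S ≤ (2 / lam) * (|I| + 32 * B ^ 2 / lam * l2 R v ^ 2) := by
    have : S = (2 / lam) * (lam / 2 * S) := by field_simp
    rw [this]
    exact mul_le_mul_of_nonneg_left h6 (by positivity)
  refine h7.trans ?_
  rw [mul_assoc]
  refine mul_le_mul_of_nonneg_left ?_ (by positivity)
  have h8 : 0 ≤ 32 * B ^ 2 / lam := by positivity
  have h9 : 0 ≤ |I| := abs_nonneg _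
  have h10 : 0 ≤ l2 R v ^ 2 := sq_nonneg _
  nlinarith [mul_nonneg h8 h9]

/-- corollary: `|∫ v L v| ≤ |v| |L v|`. -/
theorem energy_H1 {R lam B : ℝ} (hR : 1 < R) (hlam : 0 < lam) (hB : 0 ≤ B) :
    ∃ C, 0 ≤ C ∧ ∀ L : Op, L.Good R lam B 1 → ∀ v : E3 → ℝ, ContDiff ℝ ∞ v → Bz R v →
      H R 1 v ≤ C * (l2 R (L.ap v) + l2 R v) := by
  obtain ⟨C, hC, hE⟩ := energy hR hlam hB
  refine ⟨1 + 4 * Real.sqrt C, by positivity, ?_⟩
  intro L hL v hv hz
  have h1 := hE L hL v hv hz
  have h2 : |∫ x in Ann R, v x * L.ap v x| ≤ l2 R v * l2 R (L.ap v) :=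
    l2_cs hv.continuous (contDiff_ap hL.toSmooth hv).continuous
  have n1 := l2_nonneg R v
  have n2 := l2_nonneg R (L.ap v)
  have h3 : ∀ a, l2 R (Z a v) ≤ Real.sqrt C * (l2 R (L.ap v) + l2 R v) := by
    intro a
    have h4 : l2 R (Z a v) ^ 2 ≤ ∑ b, l2 R (Z b v) ^ 2 :=
      Finset.single_le_sum (f := fun b => l2 R (Z b v) ^ 2) (fun b _ => sq_nonneg _)
        (Finset.mem_univ a)
    have h5 : l2 R (Z a v) ^ 2 ≤ C * (l2 R (L.ap v) + l2 R v) ^ 2 := by
      refine (h4.trans h1).trans (mul_le_mul_of_nonneg_left ?_ hC)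
      nlinarith [mul_nonneg n1 n2]
    have h6 : Real.sqrt C * (l2 R (L.ap v) + l2 R v) =
        Real.sqrt (C * (l2 R (L.ap v) + l2 R v) ^ 2) := by
      rw [Real.sqrt_mul hC, Real.sqrt_sq (by positivity)]
    rw [h6]
    exact Real.le_sqrt_of_sq_le h5
  have h7 : H R 1 v = l2 R v + ∑ a, l2 R (Z a v) := rfl
  rw [h7]
  have h8 : ∑ a, l2 R (Z a v) ≤ ∑ a : Fin 4, Real.sqrt C * (l2 R (L.ap v) + l2 R v) :=
    Finset.sum_le_sum (fun a _ => h3 a)
  simp only [Finset.sum_const, Finset.card_univ, Fintype.card_fin, nsmul_eq_mul] at h8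
  push_cast at h8
  nlinarith

end UMB.Lin
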