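import Pool.Agent.Lib.UMB.Lin.Defs

/-! # UMB.Lin, chunk G6: the rotation fields are tangential -/

open scoped ContDiff BigOperators
open Set MeasureTheory Pool.Agent.Lib.PenroseSph

namespace UMB.Lin

theorem g6_perp (i : Fin 3) (x : E3) : inner ℝ x (Zm i.succ x) = 0 := by
  fin_cases i <;> simp [Zm, rotL, PiLp.inner_apply, Fin.sum_univ_three] <;> ring

/-- a great circle through `x` with velocity `ξ` orthogonal to `x` -/
theorem g6_curve {x ξ : E3} (hx : x ≠ 0) (hξ : ξ ≠ 0) (h : inner ℝ x ξ = 0) :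
    ∃ c : ℝ → E3, c 0 = x ∧ (∀ t, ‖c t‖ = ‖x‖) ∧ HasDerivAt c ξ 0 := by
  have hr : ‖x‖ ≠ 0 := norm_ne_zero_iff.2 hx
  have hs : ‖ξ‖ ≠ 0 := norm_ne_zero_iff.2 hξ
  refine ⟨fun t => Real.cos (t * (‖ξ‖ / ‖x‖)) • x
    + ((‖x‖ / ‖ξ‖) * Real.sin (t * (‖ξ‖ / ‖x‖))) • ξ, by simp, ?_, ?_⟩
  · intro t
    have h1 : ‖Real.cos (t * (‖ξ‖ / ‖x‖)) • x
        + ((‖x‖ / ‖ξ‖) * Real.sin (t * (‖ξ‖ / ‖x‖))) • ξ‖ ^ 2 = ‖x‖ ^ 2 := by
      rw [norm_add_sq_real, inner_smul_left, inner_smul_right, h, norm_smul, norm_smul,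
        Real.norm_eq_abs, Real.norm_eq_abs, mul_pow, mul_pow, sq_abs, sq_abs]
      have h2 := Real.sin_sq_add_cos_sq (t * (‖ξ‖ / ‖x‖))
      have h3 : (‖x‖ / ‖ξ‖ * Real.sin (t * (‖ξ‖ / ‖x‖))) ^ 2 * ‖ξ‖ ^ 2
          = ‖x‖ ^ 2 * Real.sin (t * (‖ξ‖ / ‖x‖)) ^ 2 := by
        field_simp
      rw [h3]
      linear_combination ‖x‖ ^ 2 * h2
    have h4 := Real.sqrt_sq (norm_nonneg (Real.cos (t * (‖ξ‖ / ‖x‖)) • x
        + ((‖x‖ / ‖ξ‖) * Real.sin (t * (‖ξ‖ / ‖x‖))) • ξ))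
    rw [← h4, h1, Real.sqrt_sq (norm_nonneg x)]
  · have h1 : HasDerivAt (fun t : ℝ => t * (‖ξ‖ / ‖x‖)) (‖ξ‖ / ‖x‖) 0 := by
      simpa using (hasDerivAt_id (0 : ℝ)).mul_const (‖ξ‖ / ‖x‖)
    have h2 := h1.cos.smul_const x
    have h3 := (h1.sin.const_mul (‖x‖ / ‖ξ‖)).smul_const ξ
    have h4 := h2.add h3
    refine h4.congr_deriv ?_
    have h5 : ‖x‖ / ‖ξ‖ * (‖ξ‖ / ‖x‖) = 1 := by field_simp
    simp [h5]

/-- a rotation field applied to a function vanishing on the two spheres vanishes there: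
differentiate `t ↦ v (exp (t X) x)`, or: the rotation field is tangent to the sphere, on which
`v = 0`; e.g. compose `v` with the curve `t ↦ cos t • (x minus its axis part) + ...`. -/
theorem Bz_rot {R : ℝ} (i : Fin 3) {v : E3 → ℝ} (hv : Differentiable ℝ v) (h : Bz R v) :
    Bz R (Z i.succ v) := by
  intro x hx
  show fderiv ℝ v x (Zm i.succ x) = 0
  by_cases h0 : Zm i.succ x = 0
  · rw [h0, map_zero]
  · have hx0 : x ≠ 0 := by
      intro hx0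
      exact h0 (by rw [hx0, map_zero])
    obtain ⟨c, hc0, hc1, hc2⟩ := g6_curve hx0 h0 (g6_perp i x)
    have h1 : HasFDerivAt v (fderiv ℝ v x) (c 0) := by
      rw [hc0]; exact (hv x).hasFDerivAt
    have h2 := h1.comp_hasDerivAt (0 : ℝ) hc2
    have h3 : (v ∘ c) = fun _ => (0 : ℝ) := by
      funext t
      refine h (c t) ?_
      rw [hc1 t]
      exact hx
    rw [h3] at h2
    exact h2.unique (hasDerivAt_const (0 : ℝ) (0 : ℝ))

end UMB.Lin
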