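import Pool.Agent.Lib.UMB.Lin.A1
import Pool.Agent.Lib.UMB.Lin.G6

/-! # UMB.Lin, chunk A2: one tangential derivative -/

open scoped ContDiff BigOperators
open Set MeasureTheory Pool.Agent.Lib.PenroseSph

namespace UMB.Lin

theorem a2_tri {R B U V : ℝ} (hB : 0 ≤ B) {a u w : E3 → ℝ} (ha : Continuous a) (hu : Continuous u)
    (hw : Continuous w) (hb : ∀ x ∈ Ann R, |a x| ≤ B) (hU : l2 R u ≤ U) (hV : l2 R w ≤ V) :
    |∫ x in Ann R, u x * (a x * w x)| ≤ B * (U * V) := by
  have h1 := l2_nonneg R u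
  have h2 := l2_nonneg R w
  refine (a1_tri hB ha hu hw hb).trans (mul_le_mul_of_nonneg_left ?_ hB)
  exact mul_le_mul hU hV h2 (h1.trans hU)

theorem a2_sum4 {c : Fin 4 → ℝ} {t : Fin 4 → ℝ} {M : ℝ} (hc : ∀ k, |c k| ≤ 1) (ht : ∀ k, |t k| ≤ M) :
    |∑ k, c k * t k| ≤ 4 * M := by
  have h0 : 0 ≤ M := (abs_nonneg _).trans (ht 0)
  have h1 : |∑ k, c k * t k| ≤ ∑ k : Fin 4, M := by
    refine (Finset.abs_sum_le_sum_abs _ _).trans (Finset.sum_le_sum (fun k _ => ?_))
    rw [abs_mul]
    have := mul_le_mul (hc k) (ht k) (abs_nonneg _) zero_le_one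
    linarith
  simpa using h1

/-- one pair of second order coefficients -/
theorem a2_pair {R B : ℝ} (hR : 1 < R) (hB : 0 ≤ B) {α : E3 → ℝ} (hα : ContDiff ℝ ∞ α)
    (hBα : Bd R 1 B α) {v : E3 → ℝ} (hv : ContDiff ℝ ∞ v) (hz : Bz R v) (i : Fin 3) (a b : Fin 4)
    {U V : ℝ} (hU : ∀ c, l2 R (Z c (Z i.succ v)) ≤ U) (hV : ∀ c, l2 R (Z c v) ≤ V) :
    |(∫ x in Ann R, Z i.succ (Z i.succ v) x * Z a (fun y => α y * Z b v y) x)
      - ∫ x in Ann R, Z a (Z i.succ v) x * (α x * Z b (Z i.succ v) x)| ≤ 12 * (B * (U * V)) := by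
  set u := Z i.succ v with hu_def
  have hu : ContDiff ℝ ∞ u := contDiff_Z _ hv
  have huz : Bz R u := Bz_rot i (hv.differentiable (by simp)) hz
  have hXu : ContDiff ℝ ∞ (Z i.succ u) := contDiff_Z _ hu
  have hXuz : Bz R (Z i.succ u) := Bz_rot i (hu.differentiable (by simp)) huz
  have hG : ContDiff ℝ ∞ (fun y => α y * Z b v y) := hα.mul (contDiff_Z b hv)
  have cZv : ∀ c, Continuous (Z c v) := fun c => (contDiff_Z c hv).continuous
  have cZu : ∀ c, Continuous (Z c u) := fun c => (contDiff_Z c hu).continuous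
  have cα : Continuous α := hα.continuous
  have cXα : Continuous (Z i.succ α) := (contDiff_Z _ hα).continuous
  have bα : ∀ x ∈ Ann R, |α x| ≤ B := a1_bd0 hBα
  have bXα : ∀ x ∈ Ann R, |Z i.succ α x| ≤ B := a1_bd0 (Bd_Z hBα i.succ)
  have two : (2 : WithTop ℕ∞) ≤ ∞ := by norm_cast
  have h1 := ibp hR a hXu hG hXuz
  have h2 : ∫ x in Ann R, Z a (Z i.succ u) x * (α x * Z b v x)
      = (∫ x in Ann R, (α x * Z b v x) * Z i.succ (Z a u) x)
        + ∑ c, cc a i.succ c * ∫ x in Ann R, Z c u x * (α x * Z b v x) := by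
    have hca : Continuous (fun x => (α x * Z b v x) * Z i.succ (Z a u) x) :=
      (cα.mul (cZv b)).mul (contDiff_Z _ (contDiff_Z a hu)).continuous
    have hcb : ∀ c, Continuous (fun x => cc a i.succ c * (Z c u x * (α x * Z b v x))) :=
      fun c => continuous_const.mul ((cZu c).mul (cα.mul (cZv b)))
    have e1 : ∀ x, Z a (Z i.succ u) x * (α x * Z b v x)
        = (α x * Z b v x) * Z i.succ (Z a u) x
          + ∑ c, cc a i.succ c * (Z c u x * (α x * Z b v x)) := by
      intro x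
      have e2 := Z_comm a i.succ (v := u) (hu.of_le two) x
      have e3 : Z a (Z i.succ u) x = Z i.succ (Z a u) x + ∑ c, cc a i.succ c * Z c u x := by
        linarith
      rw [e3, add_mul, Finset.sum_mul]
      congr 1
      · ring
      · refine Finset.sum_congr rfl (fun c _ => ?_)
        ring
    rw [integral_congr_ae (Filter.Eventually.of_forall e1),
      integral_add (integrableOn_Ann hca) (integrableOn_Ann (continuous_finsetSum _ (fun c _ => hcb c))),
      integral_finsetSum _ (fun c _ => integrableOn_Ann (hcb c))]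
    simp only [integral_const_mul]
  have h3 := ibp_rot R i hG (contDiff_Z a hu)
  have h4 : ∫ x in Ann R, Z i.succ (fun y => α y * Z b v y) x * Z a u x
      = (∫ x in Ann R, Z a u x * (α x * Z b u x))
        + (∑ c, cc i.succ b c * ∫ x in Ann R, Z a u x * (α x * Z c v x))
        + ∫ x in Ann R, Z a u x * (Z i.succ α x * Z b v x) := by
    have hca : Continuous (fun x => Z a u x * (α x * Z b u x)) :=
      (cZu a).mul (cα.mul (cZu b))
    have hcb : ∀ c, Continuous (fun x => cc i.succ b c * (Z a u x * (α x * Z c v x))) :=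
      fun c => continuous_const.mul ((cZu a).mul (cα.mul (cZv c)))
    have hcc : Continuous (fun x => Z a u x * (Z i.succ α x * Z b v x)) :=
      (cZu a).mul (cXα.mul (cZv b))
    have hcs : Continuous (fun x => ∑ c, cc i.succ b c * (Z a u x * (α x * Z c v x))) :=
      continuous_finsetSum _ (fun c _ => hcb c)
    have hcas : Continuous (fun x => Z a u x * (α x * Z b u x)
        + ∑ c, cc i.succ b c * (Z a u x * (α x * Z c v x))) := hca.add hcs
    have e1 : ∀ x, Z i.succ (fun y => α y * Z b v y) x * Z a u x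
        = (Z a u x * (α x * Z b u x) + ∑ c, cc i.succ b c * (Z a u x * (α x * Z c v x)))
          + Z a u x * (Z i.succ α x * Z b v x) := by
      intro x
      have e2 := Z_comm i.succ b (v := v) (hv.of_le two) x
      have e3 : Z i.succ (Z b v) x = Z b u x + ∑ c, cc i.succ b c * Z c v x := by
        rw [← hu_def] at e2
        linarith
      rw [Z_mul i.succ (hα.differentiable (by simp) x)
        ((contDiff_Z b hv).differentiable (by simp) x), e3]
      have e4 : ∑ c, cc i.succ b c * (Z a u x * (α x * Z c v x))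
          = (Z a u x * α x) * ∑ c, cc i.succ b c * Z c v x := by
        rw [Finset.mul_sum]
        refine Finset.sum_congr rfl (fun c _ => ?_)
        ring
      rw [e4]
      ring
    rw [integral_congr_ae (Filter.Eventually.of_forall e1),
      integral_add (integrableOn_Ann hcas) (integrableOn_Ann hcc),
      integral_add (integrableOn_Ann hca) (integrableOn_Ann hcs),
      integral_finsetSum _ (fun c _ => integrableOn_Ann (hcb c))]
    simp only [integral_const_mul]
  have b1 : |∑ c, cc i.succ b c * ∫ x in Ann R, Z a u x * (α x * Z c v x)|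
      ≤ 4 * (B * (U * V)) :=
    a2_sum4 (fun c => cc_abs _ _ _) (fun c => a2_tri hB cα (cZu a) (cZv c) bα (hU a) (hV c))
  have b2 : |∫ x in Ann R, Z a u x * (Z i.succ α x * Z b v x)| ≤ B * (U * V) :=
    a2_tri hB cXα (cZu a) (cZv b) bXα (hU a) (hV b)
  have b3 : |∑ c, cc a i.succ c * ∫ x in Ann R, Z c u x * (α x * Z b v x)|
      ≤ 4 * (B * (U * V)) :=
    a2_sum4 (fun c => cc_abs _ _ _) (fun c => a2_tri hB cα (cZu c) (cZv b) bα (hU c) (hV b))
  have b4 : |∫ x in Ann R, Z i.succ u x * (α x * Z b v x)| ≤ B * (U * V) :=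
    a2_tri hB cα (cZu _) (cZv b) bα (hU _) (hV b)
  have b5 : |(if a = 0 then (3 : ℝ) else 0) * ∫ x in Ann R, Z i.succ u x * (α x * Z b v x)|
      ≤ 3 * (B * (U * V)) := by
    rw [abs_mul]
    have : |(if a = 0 then (3 : ℝ) else 0)| ≤ 3 := by
      split_ifs <;> simp
    exact mul_le_mul this b4 (abs_nonneg _) (by norm_num)
  rw [h1, h2, h3, h4]
  rw [abs_le] at b1 b2 b3 b5 ⊢
  constructor <;> linarith [b1.1, b1.2, b2.1, b2.2, b3.1, b3.2, b5.1, b5.2]

/-- Let `X = Z i.succ`, `u = X v` (zero on the spheres, `Bz_rot`; so is `X u`). Test `L v` with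
`X u`. For `G_ab = α_ab Z_b v`:
`∫ Z_a G_ab X u = - ∫ G_ab Z_a X u - 3 [a = 0] ∫ G_ab X u` (`ibp`),
`Z_a X u = X Z_a u + ∑_c cc_{a,i,c} Z_c u` (`Z_comm`), `- ∫ G_ab X Z_a u = ∫ X G_ab Z_a u` (`ibp_rot`),
`X G_ab = (X α_ab) Z_b v + α_ab Z_b u + α_ab ∑_c cc_{i,b,c} Z_c v`. Hence
`∑ ∫ α_ab Z_a u Z_b u = ∫ L v X u + (terms bounded by C B |Z v| |Z u|)`, where
`|∫ L v X u| ≤ |L v| |X u|`; divide by `(∑ |Z_a u|^2)^{1/2}`. -/
theorem tang {R lam B : ℝ} (hR : 1 < R) (hlam : 0 < lam) (hB : 0 ≤ B) :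
    ∃ C, 0 ≤ C ∧ ∀ L : Op, L.Good R lam B 1 → ∀ v : E3 → ℝ, ContDiff ℝ ∞ v → Bz R v →
      ∀ i : Fin 3, ∑ a, l2 R (Z a (Z i.succ v)) ≤ C * (l2 R (L.ap v) + H R 1 v) := by
  refine ⟨(4 / lam) * (1 + 197 * B), by positivity, ?_⟩
  intro L hL v hv hz i
  set u := Z i.succ v with hu_def
  have hu : ContDiff ℝ ∞ u := contDiff_Z _ hv
  set U := ∑ a, l2 R (Z a u) with hUdef
  set V := H R 1 v with hVdef
  have hV7 : V = l2 R v + ∑ a, l2 R (Z a v) := rfl
  have hU : ∀ c, l2 R (Z c u) ≤ U := fun c =>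
    Finset.single_le_sum (f := fun c => l2 R (Z c u)) (fun c _ => l2_nonneg R _) (Finset.mem_univ c)
  have hV : ∀ c, l2 R (Z c v) ≤ V := fun c => by
    have h1 : l2 R (Z c v) ≤ ∑ a, l2 R (Z a v) :=
      Finset.single_le_sum (f := fun c => l2 R (Z c v)) (fun c _ => l2_nonneg R _)
        (Finset.mem_univ c)
    have h2 := l2_nonneg R v
    linarith
  have hV0 : l2 R v ≤ V := by
    have h1 : 0 ≤ ∑ a, l2 R (Z a v) := Finset.sum_nonneg (fun a _ => l2_nonneg R _)
    linarith
  have hU0 : 0 ≤ U := Finset.sum_nonneg (fun a _ => l2_nonneg R _)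
  have hVn : 0 ≤ V := (l2_nonneg R v).trans hV0
  have cXu : Continuous (Z i.succ u) := (contDiff_Z _ hu).continuous
  have hG : ∀ a b, ContDiff ℝ ∞ (fun y => L.α a b y * Z b v y) :=
    fun a b => (hL.α a b).mul (contDiff_Z b hv)
  -- expansion of `∫ X u L v`
  have hexp : ∫ x in Ann R, Z i.succ u x * L.ap v x
      = (∑ a, ∑ b, ∫ x in Ann R, Z i.succ u x * Z a (fun y => L.α a b y * Z b v y) x)
        + (∑ a, ∫ x in Ann R, Z i.succ u x * (L.β a x * Z a v x))
        + ∫ x in Ann R, Z i.succ u x * (L.γ x * v x) := by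
    have hc1 : ∀ a b, Continuous (fun x => Z i.succ u x * Z a (fun y => L.α a b y * Z b v y) x) :=
      fun a b => cXu.mul (contDiff_Z a (hG a b)).continuous
    have hc2 : ∀ a, Continuous (fun x => Z i.succ u x * (L.β a x * Z a v x)) :=
      fun a => cXu.mul ((hL.β a).continuous.mul (contDiff_Z a hv).continuous)
    have hc3 : Continuous (fun x => Z i.succ u x * (L.γ x * v x)) :=
      cXu.mul (hL.γ.continuous.mul hv.continuous)
    have hcs1 : Continuous
        (fun x => ∑ a, ∑ b, Z i.succ u x * Z a (fun y => L.α a b y * Z b v y) x) :=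
      continuous_finsetSum _ (fun a _ => continuous_finsetSum _ (fun b _ => hc1 a b))
    have hcs2 : Continuous (fun x => ∑ a, Z i.succ u x * (L.β a x * Z a v x)) :=
      continuous_finsetSum _ (fun a _ => hc2 a)
    have hcs12 : Continuous (fun x =>
        (∑ a, ∑ b, Z i.succ u x * Z a (fun y => L.α a b y * Z b v y) x)
        + ∑ a, Z i.succ u x * (L.β a x * Z a v x)) := hcs1.add hcs2
    have h1 : ∫ x in Ann R, Z i.succ u x * L.ap v x = ∫ x in Ann R,
        (((∑ a, ∑ b, Z i.succ u x * Z a (fun y => L.α a b y * Z b v y) x)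
          + (∑ a, Z i.succ u x * (L.β a x * Z a v x))) + Z i.succ u x * (L.γ x * v x)) := by
      refine integral_congr_ae (Filter.Eventually.of_forall (fun x => ?_))
      simp only [Op.ap, mul_add, Finset.mul_sum]
    rw [h1, integral_add (integrableOn_Ann hcs12) (integrableOn_Ann hc3),
      integral_add (integrableOn_Ann hcs1) (integrableOn_Ann hcs2),
      integral_finsetSum _ (fun a _ => integrableOn_Ann (hc2 a)),
      integral_finsetSum _ (fun a _ => integrableOn_Ann
        (continuous_finsetSum _ (fun b _ => hc1 a b)))]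
    congr 2
    refine Finset.sum_congr rfl (fun a _ => ?_)
    exact integral_finsetSum _ (fun b _ => integrableOn_Ann (hc1 a b))
  have hpair : ∀ a b,
      (∫ x in Ann R, Z a u x * (L.α a b x * Z b u x))
        ≤ (∫ x in Ann R, Z i.succ u x * Z a (fun y => L.α a b y * Z b v y) x)
          + 12 * (B * (U * V)) := by
    intro a b
    have h1 := a2_pair hR hB (hL.α a b) (hL.bα a b) hv hz i a b hU hV
    have h2 := (abs_le.mp h1).1
    linarith
  have hsum : (∑ a, ∑ b, ∫ x in Ann R, Z a u x * (L.α a b x * Z b u x))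
      ≤ (∑ a, ∑ b, ∫ x in Ann R, Z i.succ u x * Z a (fun y => L.α a b y * Z b v y) x)
        + 192 * (B * (U * V)) := by
    have h1 : (∑ a : Fin 4, ∑ b : Fin 4, ∫ x in Ann R, Z a u x * (L.α a b x * Z b u x))
        ≤ ∑ a : Fin 4, ∑ b : Fin 4,
          ((∫ x in Ann R, Z i.succ u x * Z a (fun y => L.α a b y * Z b v y) x)
            + 12 * (B * (U * V))) :=
      Finset.sum_le_sum (fun a _ => Finset.sum_le_sum (fun b _ => hpair a b))
    refine h1.trans (le_of_eq ?_)
    simp only [Finset.sum_add_distrib, Finset.sum_const, Finset.card_univ, Fintype.card_fin,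
      nsmul_eq_mul]
    push_cast
    ring
  have hb1 : |∑ a, ∫ x in Ann R, Z i.succ u x * (L.β a x * Z a v x)| ≤ 4 * (B * (U * V)) := by
    have h1 := a2_sum4 (c := fun _ => 1) (t := fun a => ∫ x in Ann R, Z i.succ u x * (L.β a x * Z a v x))
      (M := B * (U * V)) (fun _ => by simp)
      (fun a => a2_tri hB (hL.β a).continuous cXu (contDiff_Z a hv).continuous
        (a1_bd0 (hL.bβ a)) (hU _) (hV a))
    simpa using h1
  have hb2 : |∫ x in Ann R, Z i.succ u x * (L.γ x * v x)| ≤ B * (U * V) :=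
    a2_tri hB hL.γ.continuous cXu hv.continuous (a1_bd0 hL.bγ) (hU _) hV0
  have hb3 : |∫ x in Ann R, Z i.succ u x * L.ap v x| ≤ U * l2 R (L.ap v) := by
    refine (l2_cs cXu (contDiff_ap hL.toSmooth hv).continuous).trans ?_
    exact mul_le_mul_of_nonneg_right (hU _) (l2_nonneg R _)
  have hell := a1_ell hL (u := fun a => Z a u) (fun a => (contDiff_Z a hu).continuous)
  have hmain : lam * ∑ a, l2 R (Z a u) ^ 2 ≤ U * (l2 R (L.ap v) + 197 * B * V) := by
    have a1 := (abs_le.mp hb1).1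
    have a2 := (abs_le.mp hb2).1
    have a3 := (abs_le.mp hb3).2
    rw [hexp] at a3
    have a4 : U * (l2 R (L.ap v) + 197 * B * V)
        = U * l2 R (L.ap v) + 197 * (B * (U * V)) := by ring
    rw [a4]
    linarith
  have hCS : U ^ 2 ≤ 4 * ∑ a, l2 R (Z a u) ^ 2 := by
    have := sq_sum_le_card_mul_sum_sq (s := (Finset.univ : Finset (Fin 4)))
      (f := fun a => l2 R (Z a u))
    simpa using this
  have n2 := l2_nonneg R (L.ap v)
  have hfin : U ≤ (4 / lam) * (l2 R (L.ap v) + 197 * B * V) := by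
    rcases eq_or_lt_of_le hU0 with h0 | h0
    · rw [← h0]
      positivity
    · have h1 : U * (lam * U) ≤ U * (4 * (l2 R (L.ap v) + 197 * B * V)) := by nlinarith
      have h2 : lam * U ≤ 4 * (l2 R (L.ap v) + 197 * B * V) := le_of_mul_le_mul_left h1 h0
      have h3 : U = (1 / lam) * (lam * U) := by field_simp
      rw [h3]
      calc (1 / lam) * (lam * U) ≤ (1 / lam) * (4 * (l2 R (L.ap v) + 197 * B * V)) :=
            mul_le_mul_of_nonneg_left h2 (by positivity)
        _ = (4 / lam) * (l2 R (L.ap v) + 197 * B * V) := by ring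
  refine hfin.trans ?_
  have hx : l2 R (L.ap v) + 197 * B * V ≤ (1 + 197 * B) * (l2 R (L.ap v) + V) := by
    nlinarith [mul_nonneg hB n2, mul_nonneg hB hVn]
  have hy : 0 ≤ 4 / lam := by positivity
  calc (4 / lam) * (l2 R (L.ap v) + 197 * B * V)
      ≤ (4 / lam) * ((1 + 197 * B) * (l2 R (L.ap v) + V)) := mul_le_mul_of_nonneg_left hx hy
    _ = (4 / lam) * (1 + 197 * B) * (l2 R (L.ap v) + V) := by ring

end UMB.Lin
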