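import Pool.Agent.Lib.UMB.Lin.N4

/-! # UMB.Lin, chunk A3: elementary properties of the operators -/

open scoped ContDiff BigOperators
open Set MeasureTheory Pool.Agent.Lib.PenroseSph

namespace UMB.Lin

theorem a3_diff {f : E3 → ℝ} (hf : ContDiff ℝ ∞ f) (x : E3) : DifferentiableAt ℝ f x :=
  (hf.differentiable (by simp)) x

theorem a3_main {L : Op} (hL : L.Smooth) {v : E3 → ℝ} (hv : ContDiff ℝ ∞ v) (a b : Fin 4) :
    ContDiff ℝ ∞ (Z a (fun y => L.α a b y * Z b v y)) :=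
  contDiff_Z a ((hL.α a b).mul (contDiff_Z b hv))

/-- `L.ap v` is smooth -/
theorem contDiff_ap {L : Op} (hL : L.Smooth) {v : E3 → ℝ} (hv : ContDiff ℝ ∞ v) :
    ContDiff ℝ ∞ (L.ap v) := by
  have h1 : ContDiff ℝ ∞ (fun x => ∑ a, ∑ b, Z a (fun y => L.α a b y * Z b v y) x) :=
    ContDiff.sum fun a _ => ContDiff.sum fun b _ => a3_main hL hv a b
  have h2 : ContDiff ℝ ∞ (fun x => ∑ a, L.β a x * Z a v x) :=
    ContDiff.sum fun a _ => (hL.β a).mul (contDiff_Z a hv)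
  have h3 : ContDiff ℝ ∞ (fun x => L.γ x * v x) := hL.γ.mul hv
  exact (h1.add h2).add h3

/-- expansion of the operator: `L v = ∑ (α_ab Z_a Z_b v + (Z_a α_ab) Z_b v) + β_a Z_a v + γ v` -/
theorem ap_expand {L : Op} (hL : L.Smooth) {v : E3 → ℝ} (hv : ContDiff ℝ ∞ v) (x : E3) :
    L.ap v x = (∑ a, ∑ b, (L.α a b x * Z a (Z b v) x + Z a (L.α a b) x * Z b v x))
      + (∑ a, L.β a x * Z a v x) + L.γ x * v x := by
  have h1 : ∀ a b : Fin 4, Z a (fun y => L.α a b y * Z b v y) x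
      = L.α a b x * Z a (Z b v) x + Z a (L.α a b) x * Z b v x := by
    intro a b
    rw [Z_mul a (a3_diff (hL.α a b) x) (a3_diff (contDiff_Z b hv) x)]
    ring
  unfold Op.ap
  simp only [h1]

theorem a3_Zsub (b : Fin 4) {u v : E3 → ℝ} (hu : ContDiff ℝ ∞ u) (hv : ContDiff ℝ ∞ v) :
    Z b (fun y => u y - v y) = fun y => Z b u y - Z b v y := by
  funext y
  exact Z_sub b (a3_diff hu y) (a3_diff hv y)

theorem a3_Zadd (b : Fin 4) {u v : E3 → ℝ} (hu : ContDiff ℝ ∞ u) (hv : ContDiff ℝ ∞ v) :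
    Z b (fun y => u y + v y) = fun y => Z b u y + Z b v y := by
  funext y
  exact Z_add b (a3_diff hu y) (a3_diff hv y)

theorem ap_sub {L : Op} (hL : L.Smooth) {u v : E3 → ℝ} (hu : ContDiff ℝ ∞ u)
    (hv : ContDiff ℝ ∞ v) (x : E3) :
    L.ap (fun y => u y - v y) x = L.ap u x - L.ap v x := by
  rw [ap_expand hL hu x, ap_expand hL hv x, ap_expand hL (hu.sub hv) x]
  have h1 : ∀ b : Fin 4, Z b (fun y => u y - v y) = fun y => Z b u y - Z b v y :=
    fun b => a3_Zsub b hu hv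
  have h2 : ∀ a b : Fin 4, Z a (Z b (fun y => u y - v y)) = fun y => Z a (Z b u) y - Z a (Z b v) y := by
    intro a b
    rw [h1 b]
    exact a3_Zsub a (contDiff_Z b hu) (contDiff_Z b hv)
  simp only [h2]
  simp only [h1]
  simp only [Fin.sum_univ_four]
  ring

theorem ap_add {L : Op} (hL : L.Smooth) {u v : E3 → ℝ} (hu : ContDiff ℝ ∞ u)
    (hv : ContDiff ℝ ∞ v) (x : E3) :
    L.ap (fun y => u y + v y) x = L.ap u x + L.ap v x := by
  rw [ap_expand hL hu x, ap_expand hL hv x, ap_expand hL (hu.add hv) x]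
  have h1 : ∀ b : Fin 4, Z b (fun y => u y + v y) = fun y => Z b u y + Z b v y :=
    fun b => a3_Zadd b hu hv
  have h2 : ∀ a b : Fin 4, Z a (Z b (fun y => u y + v y)) = fun y => Z a (Z b u) y + Z a (Z b v) y := by
    intro a b
    rw [h1 b]
    exact a3_Zadd a (contDiff_Z b hu) (contDiff_Z b hv)
  simp only [h2]
  simp only [h1]
  simp only [Fin.sum_univ_four]
  ring

/-- the operator is bounded from `H (k+2)` to `H k` -/
theorem ap_bound (R : ℝ) (k : ℕ) {B : ℝ} (hB : 0 ≤ B) :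
    ∃ C, 0 ≤ C ∧ ∀ L : Op, L.Smooth → (∀ a b, Bd R (k + 1) B (L.α a b)) →
      (∀ a, Bd R k B (L.β a)) → Bd R k B L.γ → ∀ v : E3 → ℝ, ContDiff ℝ ∞ v →
      H R k (L.ap v) ≤ C * H R (k + 2) v := by
  refine ⟨16 * (5 ^ (k + 1) * B) + 4 * (5 ^ k * B) + 5 ^ k * B, by positivity, ?_⟩
  intro L hL hα hβ hγ v hv
  have hHk2 : 0 ≤ H R (k + 2) v := H_nonneg R (k + 2) v
  have e1 : ∀ a b : Fin 4, H R k (Z a (fun y => L.α a b y * Z b v y)) ≤ 5 ^ (k + 1) * B * H R (k + 2) v := by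
    intro a b
    have s1 : H R k (Z a (fun y => L.α a b y * Z b v y)) ≤ H R (k + 1) (fun y => L.α a b y * Z b v y) :=
      H_Z R k a _
    have s2 : H R (k + 1) (fun y => L.α a b y * Z b v y) ≤ 5 ^ (k + 1) * B * H R (k + 1) (Z b v) :=
      H_mul hB (k + 1) (hL.α a b) (contDiff_Z b hv) (hα a b)
    have s3 : H R (k + 1) (Z b v) ≤ H R (k + 2) v := H_Z R (k + 1) b v
    have s4 : 5 ^ (k + 1) * B * H R (k + 1) (Z b v) ≤ 5 ^ (k + 1) * B * H R (k + 2) v :=
      mul_le_mul_of_nonneg_left s3 (by positivity)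
    linarith
  have e2 : ∀ a : Fin 4, H R k (fun x => L.β a x * Z a v x) ≤ 5 ^ k * B * H R (k + 2) v := by
    intro a
    have s2 : H R k (fun y => L.β a y * Z a v y) ≤ 5 ^ k * B * H R k (Z a v) :=
      H_mul hB k (hL.β a) (contDiff_Z a hv) (hβ a)
    have s3 : H R k (Z a v) ≤ H R (k + 2) v := (H_Z R k a v).trans (H_le_succ R (k + 1) v)
    have s4 : 5 ^ k * B * H R k (Z a v) ≤ 5 ^ k * B * H R (k + 2) v :=
      mul_le_mul_of_nonneg_left s3 (by positivity)
    linarith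
  have e3 : H R k (fun x => L.γ x * v x) ≤ 5 ^ k * B * H R (k + 2) v := by
    have s2 : H R k (fun y => L.γ y * v y) ≤ 5 ^ k * B * H R k v := H_mul hB k hL.γ hv hγ
    have s3 : H R k v ≤ H R (k + 2) v := H_mono R (by omega) v
    have s4 : 5 ^ k * B * H R k v ≤ 5 ^ k * B * H R (k + 2) v :=
      mul_le_mul_of_nonneg_left s3 (by positivity)
    linarith
  have c1 : ∀ a b : Fin 4, ContDiff ℝ ∞ (Z a (fun y => L.α a b y * Z b v y)) := a3_main hL hv
  have c2 : ∀ a : Fin 4, ContDiff ℝ ∞ (fun x => L.β a x * Z a v x) :=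
    fun a => (hL.β a).mul (contDiff_Z a hv)
  have c3 : ContDiff ℝ ∞ (fun x => L.γ x * v x) := hL.γ.mul hv
  have d1 : ContDiff ℝ ∞ (fun x => ∑ a, ∑ b, Z a (fun y => L.α a b y * Z b v y) x) :=
    ContDiff.sum fun a _ => ContDiff.sum fun b _ => c1 a b
  have d2 : ContDiff ℝ ∞ (fun x => ∑ a, L.β a x * Z a v x) := ContDiff.sum fun a _ => c2 a
  have f1 : H R k (fun x => ∑ a, ∑ b, Z a (fun y => L.α a b y * Z b v y) x)
      ≤ 16 * (5 ^ (k + 1) * B * H R (k + 2) v) := by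
    have g1 : H R k (fun x => ∑ a, (fun a x => ∑ b, Z a (fun y => L.α a b y * Z b v y) x) a x)
        ≤ ∑ a, H R k (fun x => ∑ b, Z a (fun y => L.α a b y * Z b v y) x) :=
      H_sum k Finset.univ (u := fun a x => ∑ b, Z a (fun y => L.α a b y * Z b v y) x)
        fun a _ => ContDiff.sum fun b _ => c1 a b
    have g2 : ∀ a : Fin 4, H R k (fun x => ∑ b, Z a (fun y => L.α a b y * Z b v y) x)
        ≤ 4 * (5 ^ (k + 1) * B * H R (k + 2) v) := by
      intro a
      have g3 : H R k (fun x => ∑ b, (fun b => Z a (fun y => L.α a b y * Z b v y)) b x)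
          ≤ ∑ b, H R k (Z a (fun y => L.α a b y * Z b v y)) :=
        H_sum k Finset.univ (u := fun b => Z a (fun y => L.α a b y * Z b v y)) fun b _ => c1 a b
      have g4 : ∑ b, H R k (Z a (fun y => L.α a b y * Z b v y)) ≤ ∑ _b : Fin 4, 5 ^ (k + 1) * B * H R (k + 2) v :=
        Finset.sum_le_sum fun b _ => e1 a b
      simp only [Finset.sum_const, Finset.card_univ, Fintype.card_fin, nsmul_eq_mul] at g4
      push_cast at g4
      exact g3.trans g4
    have g5 : ∑ a, H R k (fun x => ∑ b, Z a (fun y => L.α a b y * Z b v y) x)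
        ≤ ∑ _a : Fin 4, 4 * (5 ^ (k + 1) * B * H R (k + 2) v) := Finset.sum_le_sum fun a _ => g2 a
    simp only [Finset.sum_const, Finset.card_univ, Fintype.card_fin, nsmul_eq_mul] at g5
    push_cast at g5
    have g6 := g1.trans g5
    linarith
  have f2 : H R k (fun x => ∑ a, L.β a x * Z a v x) ≤ 4 * (5 ^ k * B * H R (k + 2) v) := by
    have g3 : H R k (fun x => ∑ a, (fun a x => L.β a x * Z a v x) a x)
        ≤ ∑ a, H R k (fun x => L.β a x * Z a v x) :=
      H_sum k Finset.univ (u := fun a x => L.β a x * Z a v x) fun a _ => c2 a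
    have g4 : ∑ a, H R k (fun x => L.β a x * Z a v x) ≤ ∑ _a : Fin 4, 5 ^ k * B * H R (k + 2) v :=
      Finset.sum_le_sum fun a _ => e2 a
    simp only [Finset.sum_const, Finset.card_univ, Fintype.card_fin, nsmul_eq_mul] at g4
    push_cast at g4
    exact g3.trans g4
  have f3 : H R k (L.ap v) ≤ H R k (fun x => (∑ a, ∑ b, Z a (fun y => L.α a b y * Z b v y) x)
      + (∑ a, L.β a x * Z a v x)) + H R k (fun x => L.γ x * v x) := H_add k (d1.add d2) c3
  have f4 : H R k (fun x => (∑ a, ∑ b, Z a (fun y => L.α a b y * Z b v y) x) + (∑ a, L.β a x * Z a v x))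
      ≤ H R k (fun x => ∑ a, ∑ b, Z a (fun y => L.α a b y * Z b v y) x)
        + H R k (fun x => ∑ a, L.β a x * Z a v x) := H_add k d1 d2
  calc H R k (L.ap v) ≤ 16 * (5 ^ (k + 1) * B * H R (k + 2) v) + 4 * (5 ^ k * B * H R (k + 2) v)
        + 5 ^ k * B * H R (k + 2) v := by linarith
    _ = (16 * (5 ^ (k + 1) * B) + 4 * (5 ^ k * B) + 5 ^ k * B) * H R (k + 2) v := by ring

end UMB.Lin
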