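import Pool.Agent.Lib.UMB.Lin.A3

/-! # UMB.Lin, chunk A3b: the second Euler derivative from the equation -/

open scoped ContDiff BigOperators
open Set MeasureTheory Pool.Agent.Lib.PenroseSph

namespace UMB.Lin

/-- the second order terms except `α_00 Z_0 Z_0 v` -/
noncomputable def a3bT (L : Op) (v : E3 → ℝ) (a b : Fin 4) : E3 → ℝ :=
  if a = 0 ∧ b = 0 then (fun _ => 0) else fun x => L.α a b x * Z a (Z b v) x

theorem a3b_contT {L : Op} (hL : L.Smooth) {v : E3 → ℝ} (hv : ContDiff ℝ ∞ v) (a b : Fin 4) :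
    ContDiff ℝ ∞ (a3bT L v a b) := by
  unfold a3bT
  split_ifs with h
  · exact contDiff_const
  · exact (hL.α a b).mul (contDiff_Z a (contDiff_Z b hv))

theorem a3b_swap (a : Fin 4) {v : E3 → ℝ} (hv : ContDiff ℝ ∞ v) (x : E3) :
    Z a (Z 0 v) x = Z 0 (Z a v) x := by
  have h := Z_comm a 0 (contDiff_infty.1 hv 2) x
  have h2 : ∑ c, cc a 0 c * Z c v x = 0 :=
    Finset.sum_eq_zero fun c _ => by rw [cc_zero_right]; ring
  linarith

theorem a3b_boundT {R B : ℝ} (k : ℕ) (hB : 0 ≤ B) {L : Op} (hL : L.Smooth)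
    (hα : ∀ a b, Bd R k B (L.α a b)) {v : E3 → ℝ} (hv : ContDiff ℝ ∞ v) (a b : Fin 4) :
    H R k (a3bT L v a b) ≤ 5 ^ k * B * (∑ i : Fin 3, H R (k + 1) (Z i.succ v)
      + H R (k + 1) v) := by
  have hS : 0 ≤ ∑ i : Fin 3, H R (k + 1) (Z i.succ v) :=
    Finset.sum_nonneg fun i _ => H_nonneg R _ _
  have hv0 := H_nonneg R (k + 1) v
  have hc : (0 : ℝ) ≤ 5 ^ k * B := by positivity
  unfold a3bT
  split_ifs with h
  · rw [H_zero_fun]; positivity
  · refine (H_mul hB k (hL.α a b) (contDiff_Z a (contDiff_Z b hv)) (hα a b)).trans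
      (mul_le_mul_of_nonneg_left ?_ hc)
    rcases Fin.eq_zero_or_eq_succ b with rfl | ⟨i, rfl⟩
    · rcases Fin.eq_zero_or_eq_succ a with rfl | ⟨j, rfl⟩
      · exact absurd ⟨rfl, rfl⟩ h
      · have h1 : H R k (Z j.succ (Z 0 v)) = H R k (Z 0 (Z j.succ v)) :=
          H_congr k fun x _ => a3b_swap j.succ hv x
        rw [h1]
        have h2 := H_Z R k 0 (Z j.succ v)
        have h3 : H R (k + 1) (Z j.succ v) ≤ ∑ i : Fin 3, H R (k + 1) (Z i.succ v) :=
          Finset.single_le_sum (f := fun i : Fin 3 => H R (k + 1) (Z i.succ v))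
            (fun i _ => H_nonneg R _ _) (Finset.mem_univ j)
        linarith
    · have h2 := H_Z R k a (Z i.succ v)
      have h3 : H R (k + 1) (Z i.succ v) ≤ ∑ i : Fin 3, H R (k + 1) (Z i.succ v) :=
        Finset.single_le_sum (f := fun i : Fin 3 => H R (k + 1) (Z i.succ v))
          (fun i _ => H_nonneg R _ _) (Finset.mem_univ i)
      linarith

/-- the lower order terms and the second order terms except `α_00 Z_0 Z_0 v` -/
noncomputable def a3bRest (L : Op) (v : E3 → ℝ) : E3 → ℝ := fun x =>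
  (∑ a, ∑ b, a3bT L v a b x) + ((∑ a, ∑ b, Z a (L.α a b) x * Z b v x)
    + ((∑ a, L.β a x * Z a v x) + L.γ x * v x))

theorem a3b_eq {L : Op} (hL : L.Smooth) {v : E3 → ℝ} (hv : ContDiff ℝ ∞ v) (x : E3) :
    L.α 0 0 x * Z 0 (Z 0 v) x = L.ap v x - a3bRest L v x := by
  rw [ap_expand hL hv x]
  unfold a3bRest a3bT
  simp only [Fin.sum_univ_four]
  simp
  ring

/-- `α_00 ≥ lam` on the closed annulus (`ξ = e_0`), and by `ap_expand`
`α_00 Z_0 Z_0 v = L v - ∑_{(a,b) ≠ (0,0)} α_ab Z_a Z_b v - ...`; in every other second order term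
one of the fields is a rotation and can be moved to the right (`Z_comm`). Use `H_mul`, `H_div`. -/
theorem euler_sq (R : ℝ) (k : ℕ) {lam B : ℝ} (hlam : 0 < lam) (hB : 0 ≤ B) :
    ∃ C, 0 ≤ C ∧ ∀ L : Op, L.Good R lam B (k + 1) → ∀ v : E3 → ℝ, ContDiff ℝ ∞ v →
      H R k (Z 0 (Z 0 v)) ≤ C * (H R k (L.ap v) + ∑ i : Fin 3, H R (k + 1) (Z i.succ v)
        + H R (k + 1) v) := by
  obtain ⟨C, hC, hdiv⟩ := H_div R k hlam hB
  refine ⟨C * (1 + 37 * (5 ^ k * B)), by positivity, fun L hL v hv => ?_⟩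
  have hsm := hL.toSmooth
  have hα : ∀ a b, Bd R k B (L.α a b) := fun a b => Bd_mono (Nat.le_succ k) le_rfl (hL.bα a b)
  have hβ : ∀ a, Bd R k B (L.β a) := fun a => Bd_mono (Nat.le_succ k) le_rfl (hL.bβ a)
  have hγ : Bd R k B L.γ := Bd_mono (Nat.le_succ k) le_rfl hL.bγ
  set S : ℝ := ∑ i : Fin 3, H R (k + 1) (Z i.succ v) + H R (k + 1) v with hSdef
  have hS1 : 0 ≤ ∑ i : Fin 3, H R (k + 1) (Z i.succ v) :=
    Finset.sum_nonneg fun i _ => H_nonneg R _ _
  have hv0 := H_nonneg R (k + 1) v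
  have hS0 : 0 ≤ S := by rw [hSdef]; linarith
  have hc : (0 : ℝ) ≤ 5 ^ k * B := by positivity
  have hHv : H R (k + 1) v ≤ S := by rw [hSdef]; linarith
  -- smoothness
  have s1 : ContDiff ℝ ∞ (fun x => ∑ a, ∑ b, a3bT L v a b x) :=
    ContDiff.sum fun a _ => ContDiff.sum fun b _ => a3b_contT hsm hv a b
  have s2 : ContDiff ℝ ∞ (fun x => ∑ a, ∑ b, Z a (L.α a b) x * Z b v x) :=
    ContDiff.sum fun a _ => ContDiff.sum fun b _ =>
      (contDiff_Z a (hsm.α a b)).mul (contDiff_Z b hv)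
  have s3 : ContDiff ℝ ∞ (fun x => ∑ a, L.β a x * Z a v x) :=
    ContDiff.sum fun a _ => (hsm.β a).mul (contDiff_Z a hv)
  have s4 : ContDiff ℝ ∞ (fun x => L.γ x * v x) := hsm.γ.mul hv
  have s34 : ContDiff ℝ ∞ (fun x => (∑ a, L.β a x * Z a v x) + L.γ x * v x) := s3.add s4
  have s234 : ContDiff ℝ ∞ (fun x => (∑ a, ∑ b, Z a (L.α a b) x * Z b v x)
    + ((∑ a, L.β a x * Z a v x) + L.γ x * v x)) := s2.add s34
  have srest : ContDiff ℝ ∞ (a3bRest L v) := s1.add s234
  -- bounds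
  have b1 : H R k (fun x => ∑ a, ∑ b, a3bT L v a b x) ≤ 16 * (5 ^ k * B * S) := by
    refine (H_sum k Finset.univ (fun a _ => ContDiff.sum fun b _ => a3b_contT hsm hv a b)).trans ?_
    have : ∀ a : Fin 4, H R k (fun x => ∑ b, a3bT L v a b x) ≤ 4 * (5 ^ k * B * S) := by
      intro a
      refine (H_sum k Finset.univ (fun b _ => a3b_contT hsm hv a b)).trans ?_
      refine (Finset.sum_le_sum fun b _ => a3b_boundT k hB hsm hα hv a b).trans ?_
      rw [Finset.sum_const, Finset.card_univ, Fintype.card_fin, nsmul_eq_mul]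
      exact le_of_eq (by push_cast; ring)
    refine (Finset.sum_le_sum fun a _ => this a).trans ?_
    rw [Finset.sum_const, Finset.card_univ, Fintype.card_fin, nsmul_eq_mul]
    exact le_of_eq (by push_cast; ring)
  have hZ : ∀ b, H R k (Z b v) ≤ S := fun b => (H_Z R k b v).trans hHv
  have b2 : H R k (fun x => ∑ a, ∑ b, Z a (L.α a b) x * Z b v x) ≤ 16 * (5 ^ k * B * S) := by
    refine (H_sum k Finset.univ (fun a _ => ContDiff.sum fun b _ =>
      (contDiff_Z a (hsm.α a b)).mul (contDiff_Z b hv))).trans ?_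
    have : ∀ a : Fin 4, H R k (fun x => ∑ b, Z a (L.α a b) x * Z b v x)
        ≤ 4 * (5 ^ k * B * S) := by
      intro a
      refine (H_sum k Finset.univ (fun b _ =>
        (contDiff_Z a (hsm.α a b)).mul (contDiff_Z b hv))).trans ?_
      refine (Finset.sum_le_sum fun b _ => (H_mul hB k (contDiff_Z a (hsm.α a b))
        (contDiff_Z b hv) (Bd_Z (hL.bα a b) a)).trans
          (mul_le_mul_of_nonneg_left (hZ b) hc)).trans ?_
      rw [Finset.sum_const, Finset.card_univ, Fintype.card_fin, nsmul_eq_mul]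
      exact le_of_eq (by push_cast; ring)
    refine (Finset.sum_le_sum fun a _ => this a).trans ?_
    rw [Finset.sum_const, Finset.card_univ, Fintype.card_fin, nsmul_eq_mul]
    exact le_of_eq (by push_cast; ring)
  have b3 : H R k (fun x => ∑ a, L.β a x * Z a v x) ≤ 4 * (5 ^ k * B * S) := by
    refine (H_sum k Finset.univ (fun a _ => (hsm.β a).mul (contDiff_Z a hv))).trans ?_
    refine (Finset.sum_le_sum fun b _ => (H_mul hB k (hsm.β b)
        (contDiff_Z b hv) (hβ b)).trans (mul_le_mul_of_nonneg_left (hZ b) hc)).trans ?_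
    rw [Finset.sum_const, Finset.card_univ, Fintype.card_fin, nsmul_eq_mul]
    exact le_of_eq (by push_cast; ring)
  have b4 : H R k (fun x => L.γ x * v x) ≤ 5 ^ k * B * S :=
    (H_mul hB k hsm.γ hv hγ).trans (mul_le_mul_of_nonneg_left
      ((H_le_succ R k v).trans hHv) hc)
  have b34 := (H_add k s3 s4).trans (add_le_add b3 b4)
  have b234 := (H_add k s2 s34).trans (add_le_add b2 b34)
  have brest : H R k (a3bRest L v) ≤ 37 * (5 ^ k * B * S) := by
    refine ((H_add k s1 s234).trans (add_le_add b1 b234)).trans (le_of_eq (by ring))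
  -- division
  have hell : ∀ x ∈ Ann R, lam ≤ L.α 0 0 x := by
    intro x hx
    have h1 := hL.ell x ⟨hx.1.le, hx.2.le⟩ (Pi.single 0 1)
    simp only [Fin.sum_univ_four] at h1
    simp at h1
    linarith
  have hap := contDiff_ap hsm hv
  have key := hdiv (L.α 0 0) (Z 0 (Z 0 v)) (fun x => L.ap v x - a3bRest L v x) (hsm.α 0 0)
    (contDiff_Z 0 (contDiff_Z 0 hv)) (hap.sub srest) hell (hα 0 0)
    (fun x _ => a3b_eq hsm hv x)
  refine key.trans ?_
  have h5 := H_sub k (R := R) hap srest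
  have h6 := H_nonneg R k (L.ap v)
  have h7 : H R k (fun x => L.ap v x - a3bRest L v x)
      ≤ (1 + 37 * (5 ^ k * B)) * (H R k (L.ap v) + S) := by
    have h8 : 0 ≤ 37 * (5 ^ k * B) * H R k (L.ap v) := by positivity
    nlinarith [h5, brest]
  calc C * H R k (fun x => L.ap v x - a3bRest L v x)
      ≤ C * ((1 + 37 * (5 ^ k * B)) * (H R k (L.ap v) + S)) := mul_le_mul_of_nonneg_left h7 hC
    _ = C * (1 + 37 * (5 ^ k * B)) * (H R k (L.ap v)
        + ∑ i : Fin 3, H R (k + 1) (Z i.succ v) + H R (k + 1) v) := by rw [hSdef]; ring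

end UMB.Lin
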