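import Pool.Agent.Lib.UMB.Lin.A3

/-! # UMB.Lin, chunk A4: commutators of the operator with the rotations -/

open scoped ContDiff BigOperators
open Set MeasureTheory Pool.Agent.Lib.PenroseSph

namespace UMB.Lin

/-- one product term -/
theorem a4_term {R B W : ℝ} (hB : 0 ≤ B) (k : ℕ) {a w : E3 → ℝ} (ha : ContDiff ℝ ∞ a)
    (hw : ContDiff ℝ ∞ w) (hBa : Bd R k B a) (hW : H R k w ≤ W) :
    H R k (fun x => a x * w x) ≤ 5 ^ k * B * W :=
  (H_mul hB k ha hw hBa).trans (mul_le_mul_of_nonneg_left hW (by positivity))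

theorem a4_cont {a w : E3 → ℝ} (c : ℝ) (ha : ContDiff ℝ ∞ a) (hw : ContDiff ℝ ∞ w) :
    ContDiff ℝ ∞ (fun x => c * (a x * w x)) := contDiff_const.mul (ha.mul hw)

theorem a4_contsum {a : E3 → ℝ} {w : Fin 4 → E3 → ℝ} (c : Fin 4 → ℝ) (ha : ContDiff ℝ ∞ a)
    (hw : ∀ j, ContDiff ℝ ∞ (w j)) :
    ContDiff ℝ ∞ (fun x => ∑ j, c j * (a x * w j x)) :=
  ContDiff.sum (fun j _ => a4_cont (c j) ha (hw j))

/-- a sum of four product terms with structure constants -/
theorem a4_csum {R B W : ℝ} (hB : 0 ≤ B) (k : ℕ) {a : E3 → ℝ} {w : Fin 4 → E3 → ℝ}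
    (p q : Fin 4) (ha : ContDiff ℝ ∞ a)
    (hw : ∀ j, ContDiff ℝ ∞ (w j)) (hBa : Bd R k B a) (hW : ∀ j, H R k (w j) ≤ W) :
    H R k (fun x => ∑ j, cc p q j * (a x * w j x)) ≤ 4 * (5 ^ k * B * W) := by
  refine (H_sum k Finset.univ (fun j _ => a4_cont (cc p q j) ha (hw j))).trans ?_
  have h1 : ∀ j : Fin 4, H R k (fun x => cc p q j * (a x * w j x)) ≤ 5 ^ k * B * W := by
    intro j
    rw [H_const_mul k (cc p q j) (ha.mul (hw j))]
    have h2 := a4_term hB k ha (hw j) hBa (hW j)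
    have h3 := cc_abs p q j
    have h4 := H_nonneg R k (fun x => a x * w j x)
    calc |cc p q j| * H R k (fun x => a x * w j x) ≤ 1 * H R k (fun x => a x * w j x) :=
          mul_le_mul_of_nonneg_right h3 h4
      _ ≤ 5 ^ k * B * W := by rw [one_mul]; exact h2
  calc ∑ j : Fin 4, H R k (fun x => cc p q j * (a x * w j x)) ≤ ∑ j : Fin 4, 5 ^ k * B * W :=
        Finset.sum_le_sum (fun j _ => h1 j)
    _ = 4 * (5 ^ k * B * W) := by
        rw [Finset.sum_const, Finset.card_univ, Fintype.card_fin, nsmul_eq_mul]; norm_num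

/-- the double commutator -/
theorem a4_comm2 (a b p : Fin 4) {v : E3 → ℝ} (hv : ContDiff ℝ ∞ v) (x : E3) :
    Z a (Z b (Z p v)) x = Z p (Z a (Z b v)) x + ∑ c, cc b p c * Z a (Z c v) x
      + ∑ c, cc a p c * Z c (Z b v) x := by
  have hv2 : ContDiff ℝ 2 v := by exact_mod_cast contDiff_infty.1 hv 2
  have h1 : Z b (Z p v) = fun y => Z p (Z b v) y + ∑ c, cc b p c * Z c v y := by
    funext y
    have := Z_comm b p hv2 y
    linarith
  have hd : ∀ (c : Fin 4) (y : E3), DifferentiableAt ℝ (Z c v) y := fun c y =>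
    ((contDiff_Z c hv).differentiable (by simp)).differentiableAt
  have h2 : Z a (Z b (Z p v)) x = Z a (Z p (Z b v)) x + ∑ c, cc b p c * Z a (Z c v) x := by
    rw [h1]
    rw [Z_add a (((contDiff_Z p (contDiff_Z b hv)).differentiable (by simp)).differentiableAt)
      (DifferentiableAt.fun_sum (fun c _ => (hd c x).const_mul _))]
    rw [Z_sum a Finset.univ (fun c _ => (hd c x).const_mul _)]
    congr 1
    exact Finset.sum_congr rfl (fun c _ => Z_const_mul a _ (hd c x))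
  have h3 := Z_comm a p (v := Z b v) (by exact_mod_cast contDiff_infty.1 (contDiff_Z b hv) 2) x
  linarith

theorem a4_comm1 (a p : Fin 4) {v : E3 → ℝ} (hv : ContDiff ℝ ∞ v) (x : E3) :
    Z a (Z p v) x = Z p (Z a v) x + ∑ c, cc a p c * Z c v x := by
  have hv2 : ContDiff ℝ 2 v := by exact_mod_cast contDiff_infty.1 hv 2
  have := Z_comm a p hv2 x
  linarith

/-- the remainder of the commutator -/
noncomputable def a4_rem (L : Op) (p : Fin 4) (v : E3 → ℝ) (x : E3) : ℝ :=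
  (∑ a, ∑ b, ((∑ c, cc b p c * (L.α a b x * Z a (Z c v) x))
      + (∑ c, cc a p c * (L.α a b x * Z c (Z b v) x))
      - Z p (L.α a b) x * Z a (Z b v) x
      + (∑ c, cc b p c * (Z a (L.α a b) x * Z c v x))
      - Z p (Z a (L.α a b)) x * Z b v x))
    + (∑ a, ((∑ c, cc a p c * (L.β a x * Z c v x)) - Z p (L.β a) x * Z a v x))
    - Z p L.γ x * v x

theorem a4_eq {L : Op} (hL : L.Smooth) (p : Fin 4) {v : E3 → ℝ} (hv : ContDiff ℝ ∞ v) (x : E3) :
    L.ap (Z p v) x - Z p (L.ap v) x = a4_rem L p v x := by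
  have hd : ∀ {w : E3 → ℝ}, ContDiff ℝ ∞ w → DifferentiableAt ℝ w x := fun hw =>
    (hw.differentiable (by simp)).differentiableAt
  have hZ := fun (a : Fin 4) => contDiff_Z a hv
  have hZZ := fun (a b : Fin 4) => contDiff_Z a (contDiff_Z b hv)
  have e1 : L.ap v = fun x => (∑ a, ∑ b, (L.α a b x * Z a (Z b v) x + Z a (L.α a b) x * Z b v x))
      + (∑ a, L.β a x * Z a v x) + L.γ x * v x := by
    funext y; exact ap_expand hL hv y
  have c1 : ∀ a b, ContDiff ℝ ∞ (fun x => L.α a b x * Z a (Z b v) x) := fun a b =>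
    (hL.α a b).mul (hZZ a b)
  have c2 : ∀ a b, ContDiff ℝ ∞ (fun x => Z a (L.α a b) x * Z b v x) := fun a b =>
    (contDiff_Z a (hL.α a b)).mul (hZ b)
  have c12 : ∀ a b, ContDiff ℝ ∞ (fun x => L.α a b x * Z a (Z b v) x
      + Z a (L.α a b) x * Z b v x) := fun a b => (c1 a b).add (c2 a b)
  have cs : ∀ a, ContDiff ℝ ∞ (fun x => ∑ b, (L.α a b x * Z a (Z b v) x
      + Z a (L.α a b) x * Z b v x)) := fun a => ContDiff.sum (fun b _ => c12 a b)
  have css : ContDiff ℝ ∞ (fun x => ∑ a, ∑ b, (L.α a b x * Z a (Z b v) x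
      + Z a (L.α a b) x * Z b v x)) := ContDiff.sum (fun a _ => cs a)
  have c3 : ∀ a, ContDiff ℝ ∞ (fun x => L.β a x * Z a v x) := fun a => (hL.β a).mul (hZ a)
  have cs3 : ContDiff ℝ ∞ (fun x => ∑ a, L.β a x * Z a v x) := ContDiff.sum (fun a _ => c3 a)
  have c4 : ContDiff ℝ ∞ (fun x => L.γ x * v x) := hL.γ.mul hv
  have e2 : Z p (L.ap v) x = (∑ a, ∑ b, ((L.α a b x * Z p (Z a (Z b v)) x
        + Z a (Z b v) x * Z p (L.α a b) x)
        + (Z a (L.α a b) x * Z p (Z b v) x + Z b v x * Z p (Z a (L.α a b)) x)))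
      + (∑ a, (L.β a x * Z p (Z a v) x + Z a v x * Z p (L.β a) x))
      + (L.γ x * Z p v x + v x * Z p L.γ x) := by
    rw [e1]
    rw [Z_add p (hd (css.add cs3)) (hd c4), Z_add p (hd css) (hd cs3),
      Z_mul p (hd hL.γ) (hd hv), Z_sum p Finset.univ (fun a _ => hd (cs a)),
      Z_sum p Finset.univ (fun a _ => hd (c3 a))]
    congr 1
    congr 1
    · refine Finset.sum_congr rfl (fun a _ => ?_)
      rw [Z_sum p Finset.univ (fun b _ => hd (c12 a b))]
      refine Finset.sum_congr rfl (fun b _ => ?_)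
      rw [Z_add p (hd (c1 a b)) (hd (c2 a b)), Z_mul p (hd (hL.α a b)) (hd (hZZ a b)),
        Z_mul p (hd (contDiff_Z a (hL.α a b))) (hd (hZ b))]
    · refine Finset.sum_congr rfl (fun a _ => ?_)
      rw [Z_mul p (hd (hL.β a)) (hd (hZ a))]
  have e3 : L.ap (Z p v) x = (∑ a, ∑ b, (L.α a b x * (Z p (Z a (Z b v)) x
        + ∑ c, cc b p c * Z a (Z c v) x + ∑ c, cc a p c * Z c (Z b v) x)
        + Z a (L.α a b) x * (Z p (Z b v) x + ∑ c, cc b p c * Z c v x)))
      + (∑ a, L.β a x * (Z p (Z a v) x + ∑ c, cc a p c * Z c v x)) + L.γ x * Z p v x := by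
    rw [ap_expand hL (hZ p) x]
    congr 1
    congr 1
    · refine Finset.sum_congr rfl (fun a _ => Finset.sum_congr rfl (fun b _ => ?_))
      rw [a4_comm2 a b p hv x, a4_comm1 b p hv x]
    · refine Finset.sum_congr rfl (fun a _ => ?_)
      rw [a4_comm1 a p hv x]
  rw [e2, e3, a4_rem]
  have s1 : ∀ a b, (L.α a b x * (Z p (Z a (Z b v)) x
        + ∑ c, cc b p c * Z a (Z c v) x + ∑ c, cc a p c * Z c (Z b v) x)
        + Z a (L.α a b) x * (Z p (Z b v) x + ∑ c, cc b p c * Z c v x))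
      = ((L.α a b x * Z p (Z a (Z b v)) x
        + Z a (Z b v) x * Z p (L.α a b) x)
        + (Z a (L.α a b) x * Z p (Z b v) x + Z b v x * Z p (Z a (L.α a b)) x))
      + ((∑ c, cc b p c * (L.α a b x * Z a (Z c v) x))
      + (∑ c, cc a p c * (L.α a b x * Z c (Z b v) x))
      - Z p (L.α a b) x * Z a (Z b v) x
      + (∑ c, cc b p c * (Z a (L.α a b) x * Z c v x))
      - Z p (Z a (L.α a b)) x * Z b v x) := by
    intro a b
    have t1 : ∑ c, cc b p c * (L.α a b x * Z a (Z c v) x)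
        = L.α a b x * ∑ c, cc b p c * Z a (Z c v) x := by
      rw [Finset.mul_sum]; exact Finset.sum_congr rfl (fun c _ => by ring)
    have t2 : ∑ c, cc a p c * (L.α a b x * Z c (Z b v) x)
        = L.α a b x * ∑ c, cc a p c * Z c (Z b v) x := by
      rw [Finset.mul_sum]; exact Finset.sum_congr rfl (fun c _ => by ring)
    have t3 : ∑ c, cc b p c * (Z a (L.α a b) x * Z c v x)
        = Z a (L.α a b) x * ∑ c, cc b p c * Z c v x := by
      rw [Finset.mul_sum]; exact Finset.sum_congr rfl (fun c _ => by ring)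
    rw [t1, t2, t3]
    ring
  have s2 : ∀ a, L.β a x * (Z p (Z a v) x + ∑ c, cc a p c * Z c v x)
      = (L.β a x * Z p (Z a v) x + Z a v x * Z p (L.β a) x)
        + ((∑ c, cc a p c * (L.β a x * Z c v x)) - Z p (L.β a) x * Z a v x) := by
    intro a
    have t1 : ∑ c, cc a p c * (L.β a x * Z c v x) = L.β a x * ∑ c, cc a p c * Z c v x := by
      rw [Finset.mul_sum]; exact Finset.sum_congr rfl (fun c _ => by ring)
    rw [t1]
    ring
  rw [Finset.sum_congr rfl (fun a _ => Finset.sum_congr rfl (fun b _ => s1 a b)),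
    Finset.sum_congr rfl (fun a _ => s2 a)]
  simp only [Finset.sum_add_distrib]
  ring

/-- With `X = Z i.succ`, by `ap_expand` for `v` and `X v` and the Leibniz rule
`L X v - X L v = ∑ (α_ab [Z_a Z_b, X] v - (X α_ab) Z_a Z_b v + (Z_a α_ab)[Z_b, X] v
 - (X Z_a α_ab) Z_b v) + β_a [Z_a, X] v - (X β_a) Z_a v - (X γ) v`,
`[Z_a Z_b, X] = Z_a [Z_b, X] + [Z_a, X] Z_b`, all commutators are `∑ cc Z_c`. -/
theorem comm_bound (R : ℝ) (k : ℕ) {B : ℝ} (hB : 0 ≤ B) :
    ∃ C, 0 ≤ C ∧ ∀ L : Op, L.Smooth → (∀ a b, Bd R (k + 2) B (L.α a b)) →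
      (∀ a, Bd R (k + 2) B (L.β a)) → Bd R (k + 2) B L.γ → ∀ v : E3 → ℝ, ContDiff ℝ ∞ v →
      ∀ i : Fin 3, H R k (fun x => L.ap (Z i.succ v) x - Z i.succ (L.ap v) x)
        ≤ C * H R (k + 2) v := by
  refine ⟨245 * (5 ^ k * B), by positivity, ?_⟩
  intro L hL hα hβ hγ v hv i
  set p : Fin 4 := i.succ with hp
  have hZ := fun (a : Fin 4) => contDiff_Z a hv
  have hZZ := fun (a b : Fin 4) => contDiff_Z a (contDiff_Z b hv)
  set W := H R (k + 2) v with hW
  have w2 : ∀ a b, H R k (Z a (Z b v)) ≤ W := fun a b =>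
    (H_Z R k a (Z b v)).trans (H_Z R (k + 1) b v)
  have w1 : ∀ a, H R k (Z a v) ≤ W := fun a =>
    (H_Z R k a v).trans (H_le_succ R (k + 1) v)
  have w0 : H R k v ≤ W := H_mono R (by omega) v
  set K := 5 ^ k * B * W with hK
  have b0 : ∀ a b, Bd R k B (L.α a b) := fun a b => Bd_mono (by omega) le_rfl (hα a b)
  have b1 : ∀ q a b, Bd R k B (Z q (L.α a b)) := fun q a b =>
    Bd_Z (Bd_mono (by omega) le_rfl (hα a b)) q
  have b2 : ∀ q r a b, Bd R k B (Z q (Z r (L.α a b))) := fun q r a b =>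
    Bd_Z (Bd_Z (Bd_mono (by omega) le_rfl (hα a b)) r) q
  have b3 : ∀ a, Bd R k B (L.β a) := fun a => Bd_mono (by omega) le_rfl (hβ a)
  have b4 : ∀ q a, Bd R k B (Z q (L.β a)) := fun q a =>
    Bd_Z (Bd_mono (by omega) le_rfl (hβ a)) q
  have b5 : Bd R k B (Z p L.γ) := Bd_Z (Bd_mono (by omega) le_rfl hγ) p
  -- smoothness of the pieces
  have f1 : ∀ a b, ContDiff ℝ ∞ (fun x => ∑ c, cc b p c * (L.α a b x * Z a (Z c v) x)) :=
    fun a b => a4_contsum _ (hL.α a b) (fun c => hZZ a c)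
  have f2 : ∀ a b, ContDiff ℝ ∞ (fun x => ∑ c, cc a p c * (L.α a b x * Z c (Z b v) x)) :=
    fun a b => a4_contsum _ (hL.α a b) (fun c => hZZ c b)
  have f3 : ∀ a b, ContDiff ℝ ∞ (fun x => Z p (L.α a b) x * Z a (Z b v) x) :=
    fun a b => (contDiff_Z p (hL.α a b)).mul (hZZ a b)
  have f4 : ∀ a b, ContDiff ℝ ∞ (fun x => ∑ c, cc b p c * (Z a (L.α a b) x * Z c v x)) :=
    fun a b => a4_contsum _ (contDiff_Z a (hL.α a b)) (fun c => hZ c)
  have f5 : ∀ a b, ContDiff ℝ ∞ (fun x => Z p (Z a (L.α a b)) x * Z b v x) :=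
    fun a b => (contDiff_Z p (contDiff_Z a (hL.α a b))).mul (hZ b)
  have f6 : ∀ a, ContDiff ℝ ∞ (fun x => ∑ c, cc a p c * (L.β a x * Z c v x)) :=
    fun a => a4_contsum _ (hL.β a) (fun c => hZ c)
  have f7 : ∀ a, ContDiff ℝ ∞ (fun x => Z p (L.β a) x * Z a v x) :=
    fun a => (contDiff_Z p (hL.β a)).mul (hZ a)
  have f8 : ContDiff ℝ ∞ (fun x => Z p L.γ x * v x) := (contDiff_Z p hL.γ).mul hv
  have g1 : ∀ a b, ContDiff ℝ ∞ (fun x => (∑ c, cc b p c * (L.α a b x * Z a (Z c v) x))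
      + (∑ c, cc a p c * (L.α a b x * Z c (Z b v) x))
      - Z p (L.α a b) x * Z a (Z b v) x
      + (∑ c, cc b p c * (Z a (L.α a b) x * Z c v x))
      - Z p (Z a (L.α a b)) x * Z b v x) := fun a b =>
    ((((f1 a b).add (f2 a b)).sub (f3 a b)).add (f4 a b)).sub (f5 a b)
  have g1s : ∀ a, ContDiff ℝ ∞ (fun x => ∑ b, ((∑ c, cc b p c * (L.α a b x * Z a (Z c v) x))
      + (∑ c, cc a p c * (L.α a b x * Z c (Z b v) x))
      - Z p (L.α a b) x * Z a (Z b v) x
      + (∑ c, cc b p c * (Z a (L.α a b) x * Z c v x))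
      - Z p (Z a (L.α a b)) x * Z b v x)) := fun a => ContDiff.sum (fun b _ => g1 a b)
  have g1ss : ContDiff ℝ ∞ (fun x => ∑ a, ∑ b, ((∑ c, cc b p c * (L.α a b x * Z a (Z c v) x))
      + (∑ c, cc a p c * (L.α a b x * Z c (Z b v) x))
      - Z p (L.α a b) x * Z a (Z b v) x
      + (∑ c, cc b p c * (Z a (L.α a b) x * Z c v x))
      - Z p (Z a (L.α a b)) x * Z b v x)) := ContDiff.sum (fun a _ => g1s a)
  have g2 : ∀ a, ContDiff ℝ ∞ (fun x => (∑ c, cc a p c * (L.β a x * Z c v x))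
      - Z p (L.β a) x * Z a v x) := fun a => (f6 a).sub (f7 a)
  have g2s : ContDiff ℝ ∞ (fun x => ∑ a, ((∑ c, cc a p c * (L.β a x * Z c v x))
      - Z p (L.β a) x * Z a v x)) := ContDiff.sum (fun a _ => g2 a)
  -- bounds of the pieces
  have h1 : ∀ a b, H R k (fun x => (∑ c, cc b p c * (L.α a b x * Z a (Z c v) x))
      + (∑ c, cc a p c * (L.α a b x * Z c (Z b v) x))
      - Z p (L.α a b) x * Z a (Z b v) x
      + (∑ c, cc b p c * (Z a (L.α a b) x * Z c v x))
      - Z p (Z a (L.α a b)) x * Z b v x) ≤ 14 * K := by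
    intro a b
    have t1 := H_sub (R := R) k ((((f1 a b).add (f2 a b)).sub (f3 a b)).add (f4 a b)) (f5 a b)
    have t2 := H_add (R := R) k (((f1 a b).add (f2 a b)).sub (f3 a b)) (f4 a b)
    have t3 := H_sub (R := R) k ((f1 a b).add (f2 a b)) (f3 a b)
    have t4 := H_add (R := R) k (f1 a b) (f2 a b)
    have u1 := a4_csum hB k b p (hL.α a b) (fun c => hZZ a c) (b0 a b) (fun c => w2 a c)
    have u2 := a4_csum hB k a p (hL.α a b) (fun c => hZZ c b) (b0 a b) (fun c => w2 c b)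
    have u3 := a4_term hB k (contDiff_Z p (hL.α a b)) (hZZ a b) (b1 p a b) (w2 a b)
    have u4 := a4_csum hB k b p (contDiff_Z a (hL.α a b)) (fun c => hZ c) (b1 a a b)
      (fun c => w1 c)
    have u5 := a4_term hB k (contDiff_Z p (contDiff_Z a (hL.α a b))) (hZ b) (b2 p a a b) (w1 b)
    linarith
  have h2 : ∀ a, H R k (fun x => (∑ c, cc a p c * (L.β a x * Z c v x))
      - Z p (L.β a) x * Z a v x) ≤ 5 * K := by
    intro a
    have t1 := H_sub (R := R) k (f6 a) (f7 a)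
    have u1 := a4_csum hB k a p (hL.β a) (fun c => hZ c) (b3 a) (fun c => w1 c)
    have u2 := a4_term hB k (contDiff_Z p (hL.β a)) (hZ a) (b4 p a) (w1 a)
    linarith
  have h3 : H R k (fun x => Z p L.γ x * v x) ≤ K :=
    a4_term hB k (contDiff_Z p hL.γ) hv b5 w0
  have e : H R k (fun x => L.ap (Z p v) x - Z p (L.ap v) x) = H R k (a4_rem L p v) :=
    H_congr k (fun x _ => a4_eq hL p hv x)
  rw [e]
  have k1 := H_sub (R := R) k (g1ss.add g2s) f8
  have k2 := H_add (R := R) k g1ss g2s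
  have k3 : H R k (fun x => ∑ a, ∑ b, ((∑ c, cc b p c * (L.α a b x * Z a (Z c v) x))
      + (∑ c, cc a p c * (L.α a b x * Z c (Z b v) x))
      - Z p (L.α a b) x * Z a (Z b v) x
      + (∑ c, cc b p c * (Z a (L.α a b) x * Z c v x))
      - Z p (Z a (L.α a b)) x * Z b v x)) ≤ 4 * (4 * (14 * K)) := by
    refine (H_sum k Finset.univ (fun a _ => g1s a)).trans ?_
    have : ∀ a : Fin 4, H R k (fun x => ∑ b, ((∑ c, cc b p c * (L.α a b x * Z a (Z c v) x))
      + (∑ c, cc a p c * (L.α a b x * Z c (Z b v) x))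
      - Z p (L.α a b) x * Z a (Z b v) x
      + (∑ c, cc b p c * (Z a (L.α a b) x * Z c v x))
      - Z p (Z a (L.α a b)) x * Z b v x)) ≤ 4 * (14 * K) := by
      intro a
      refine (H_sum k Finset.univ (fun b _ => g1 a b)).trans ?_
      refine (Finset.sum_le_sum (fun b _ => h1 a b)).trans ?_
      rw [Finset.sum_const, Finset.card_univ, Fintype.card_fin, nsmul_eq_mul]
      norm_num
    refine (Finset.sum_le_sum (fun a _ => this a)).trans ?_
    rw [Finset.sum_const, Finset.card_univ, Fintype.card_fin, nsmul_eq_mul]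
    norm_num
  have k4 : H R k (fun x => ∑ a, ((∑ c, cc a p c * (L.β a x * Z c v x))
      - Z p (L.β a) x * Z a v x)) ≤ 4 * (5 * K) := by
    refine (H_sum k Finset.univ (fun a _ => g2 a)).trans ?_
    refine (Finset.sum_le_sum (fun a _ => h2 a)).trans ?_
    rw [Finset.sum_const, Finset.card_univ, Fintype.card_fin, nsmul_eq_mul]
    norm_num
  have k5 : H R k (a4_rem L p v) ≤ 245 * K := by
    have : H R k (a4_rem L p v) ≤ 4 * (4 * (14 * K)) + 4 * (5 * K) + K := by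
      refine le_trans k1 ?_
      linarith
    linarith
  calc H R k (a4_rem L p v) ≤ 245 * K := k5
    _ = 245 * (5 ^ k * B) * W := by rw [hK]; ring

end UMB.Lin
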