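import Pool.Agent.Lib.UMB.Lin.A2
import Pool.Agent.Lib.UMB.Lin.A4
import Pool.Agent.Lib.UMB.Lin.A3b

/-! # UMB.Lin, chunk A5: the a priori estimate of all orders -/

open scoped ContDiff BigOperators
open Set MeasureTheory Pool.Agent.Lib.PenroseSph

namespace UMB.Lin

/-- Order zero: `H_split` with `k = 0`, `tang` (for `H R 1 (X_i v)`), `euler_sq` with `k = 0`,
`energy_H1`. -/
theorem apriori_zero {R lam B : ℝ} (hR : 1 < R) (hlam : 0 < lam) (hB : 0 ≤ B) :
    ∃ C, 0 ≤ C ∧ ∀ L : Op, L.Good R lam B 2 → ∀ v : E3 → ℝ, ContDiff ℝ ∞ v → Bz R v →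
      H R 2 v ≤ C * (H R 0 (L.ap v) + H R 0 v) := by
  obtain ⟨CE, hCE, hE⟩ := euler_sq R 0 hlam hB
  obtain ⟨CT, hCT, hT⟩ := tang hR hlam hB
  obtain ⟨CH, hCH, hH⟩ := energy_H1 hR hlam hB
  refine ⟨2 * CH + 2 * (3 * (CH + CT * (1 + CH))) + CE * (1 + 3 * (CH + CT * (1 + CH)) + CH),
    by positivity, ?_⟩
  intro L hL v hv hz
  have hL1 : L.Good R lam B 1 := hL.mono (by norm_num)
  have h2 := H_split (R := R) 0 hv
  have he := hE L hL1 v hv
  have hh := hH L hL1 v hv hz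
  have ht := fun i => hT L hL1 v hv hz i
  have hA : 0 ≤ H R 0 (L.ap v) := H_nonneg _ _ _
  have hb : 0 ≤ H R 0 v := H_nonneg _ _ _
  have hh1 : H R 1 v ≤ CH * (H R 0 (L.ap v) + H R 0 v) := hh
  have hx : ∀ i : Fin 3, H R 1 (Z i.succ v) ≤
      (CH + CT * (1 + CH)) * (H R 0 (L.ap v) + H R 0 v) := by
    intro i
    have h3 : H R 1 (Z i.succ v) = H R 0 (Z i.succ v) + ∑ a, l2 R (Z a (Z i.succ v)) := rfl
    have h4 : H R 0 (Z i.succ v) ≤ H R 1 v := H_Z R 0 i.succ v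
    have h5 : ∑ a, l2 R (Z a (Z i.succ v)) ≤ CT * (H R 0 (L.ap v) + H R 1 v) := ht i
    have h6 : CT * (H R 0 (L.ap v) + H R 1 v) ≤
        CT * ((H R 0 (L.ap v) + H R 0 v) + CH * (H R 0 (L.ap v) + H R 0 v)) :=
      mul_le_mul_of_nonneg_left (by linarith) hCT
    calc H R 1 (Z i.succ v) ≤ CH * (H R 0 (L.ap v) + H R 0 v) +
          CT * ((H R 0 (L.ap v) + H R 0 v) + CH * (H R 0 (L.ap v) + H R 0 v)) := by
          rw [h3]; linarith
      _ = _ := by ring
  have hS : ∑ i : Fin 3, H R 1 (Z i.succ v) ≤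
      3 * (CH + CT * (1 + CH)) * (H R 0 (L.ap v) + H R 0 v) := by
    rw [Fin.sum_univ_three]
    have h0 := hx 0
    have h1 := hx 1
    have h2 := hx 2
    linarith
  have he' : H R 0 (Z 0 (Z 0 v)) ≤ CE * ((H R 0 (L.ap v) + H R 0 v) +
      3 * (CH + CT * (1 + CH)) * (H R 0 (L.ap v) + H R 0 v) +
      CH * (H R 0 (L.ap v) + H R 0 v)) := by
    refine he.trans (mul_le_mul_of_nonneg_left ?_ hCE)
    have h7 : ∑ i : Fin 3, H R (0 + 1) (Z i.succ v) = ∑ i : Fin 3, H R 1 (Z i.succ v) := rfl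
    have h8 : H R (0 + 1) v = H R 1 v := rfl
    rw [h7, h8]
    linarith
  have h2' : H R 2 v ≤ 2 * H R 1 v + 2 * ∑ i : Fin 3, H R 1 (Z i.succ v)
      + H R 0 (Z 0 (Z 0 v)) := h2
  calc H R 2 v ≤ 2 * (CH * (H R 0 (L.ap v) + H R 0 v)) +
        2 * (3 * (CH + CT * (1 + CH)) * (H R 0 (L.ap v) + H R 0 v)) +
        CE * ((H R 0 (L.ap v) + H R 0 v) +
      3 * (CH + CT * (1 + CH)) * (H R 0 (L.ap v) + H R 0 v) +
      CH * (H R 0 (L.ap v) + H R 0 v)) := by linarith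
    _ = _ := by ring

/-- Induction on `k`. Step: `H_split` for `k + 1`, `euler_sq` for `k + 1`, and the induction
hypothesis for `X_i v` (zero on the spheres, `Bz_rot`):
`H (k+2) (X_i v) ≤ C (H k (L X_i v) + H 0 (X_i v))`,
`H k (L X_i v) ≤ H k (X_i L v) + C H (k+2) v ≤ H (k+1) (L v) + C H (k+2) v` (`comm_bound`), and the
induction hypothesis for `v`. -/
theorem apriori {R lam B : ℝ} (hR : 1 < R) (hlam : 0 < lam) (hB : 0 ≤ B) (k : ℕ) :
    ∃ C, 0 ≤ C ∧ ∀ L : Op, L.Good R lam B (k + 2) → ∀ v : E3 → ℝ, ContDiff ℝ ∞ v → Bz R v →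
      H R (k + 2) v ≤ C * (H R k (L.ap v) + H R 0 v) := by
  induction k with
  | zero => exact apriori_zero hR hlam hB
  | succ k ih =>
    obtain ⟨C, hC, hI⟩ := ih
    obtain ⟨CE, hCE, hE⟩ := euler_sq R (k + 1) hlam hB
    obtain ⟨Cc, hCc, hc⟩ := comm_bound R k hB
    refine ⟨2 * C + 2 * (3 * (C * (Cc * C + 1 + C))) + CE * (1 + 3 * (C * (Cc * C + 1 + C)) + C),
      by positivity, ?_⟩
    intro L hL v hv hz
    have hL2 : L.Good R lam B (k + 2) := hL.mono (by omega)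
    have hb : 0 ≤ H R 0 v := H_nonneg _ _ _
    have hA : 0 ≤ H R (k + 1) (L.ap v) := H_nonneg _ _ _
    have hA' : H R k (L.ap v) ≤ H R (k + 1) (L.ap v) := H_le_succ _ _ _
    have hsm := contDiff_ap hL.toSmooth hv
    have hv2 : H R (k + 2) v ≤ C * (H R (k + 1) (L.ap v) + H R 0 v) :=
      (hI L hL2 v hv hz).trans (mul_le_mul_of_nonneg_left (by linarith) hC)
    have hx : ∀ i : Fin 3, H R (k + 2) (Z i.succ v) ≤
        (C * (Cc * C + 1 + C)) * (H R (k + 1) (L.ap v) + H R 0 v) := by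
      intro i
      have hXs : ContDiff ℝ ∞ (Z i.succ v) := contDiff_Z i.succ hv
      have hXz : Bz R (Z i.succ v) := Bz_rot i (hv.differentiable (by simp)) hz
      have h1 := hI L hL2 (Z i.succ v) hXs hXz
      have h2 := hc L hL.toSmooth hL2.bα hL2.bβ hL2.bγ v hv i
      have h3 : H R k (L.ap (Z i.succ v)) ≤
          H R k (fun x => L.ap (Z i.succ v) x - Z i.succ (L.ap v) x) +
            H R k (Z i.succ (L.ap v)) := by
        have h4 := H_add (R := R) k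
          (u := fun x => L.ap (Z i.succ v) x - Z i.succ (L.ap v) x) (v := Z i.succ (L.ap v))
          ((contDiff_ap hL.toSmooth hXs).sub (contDiff_Z i.succ hsm)) (contDiff_Z i.succ hsm)
        have h5 : (fun x => L.ap (Z i.succ v) x - Z i.succ (L.ap v) x + Z i.succ (L.ap v) x) =
            L.ap (Z i.succ v) := by
          funext x
          ring
        rw [h5] at h4
        exact h4
      have h6 : H R k (Z i.succ (L.ap v)) ≤ H R (k + 1) (L.ap v) := H_Z R k i.succ _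
      have h7 : H R 0 (Z i.succ v) ≤ H R (k + 2) v :=
        (H_Z R 0 i.succ v).trans (H_mono R (by omega) v)
      have h8 : Cc * H R (k + 2) v ≤ Cc * (C * (H R (k + 1) (L.ap v) + H R 0 v)) :=
        mul_le_mul_of_nonneg_left hv2 hCc
      calc H R (k + 2) (Z i.succ v) ≤ C * (H R k (L.ap (Z i.succ v)) + H R 0 (Z i.succ v)) := h1
        _ ≤ C * (Cc * (C * (H R (k + 1) (L.ap v) + H R 0 v)) +
            (H R (k + 1) (L.ap v) + H R 0 v) + C * (H R (k + 1) (L.ap v) + H R 0 v)) :=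
            mul_le_mul_of_nonneg_left (by linarith) hC
        _ = _ := by ring
    have hS : ∑ i : Fin 3, H R (k + 2) (Z i.succ v) ≤
        3 * (C * (Cc * C + 1 + C)) * (H R (k + 1) (L.ap v) + H R 0 v) := by
      rw [Fin.sum_univ_three]
      have h0 := hx 0
      have h1 := hx 1
      have h2 := hx 2
      linarith
    have he := hE L hL2 v hv
    have he' : H R (k + 1) (Z 0 (Z 0 v)) ≤ CE * ((H R (k + 1) (L.ap v) + H R 0 v) +
        3 * (C * (Cc * C + 1 + C)) * (H R (k + 1) (L.ap v) + H R 0 v) +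
        C * (H R (k + 1) (L.ap v) + H R 0 v)) := by
      refine he.trans (mul_le_mul_of_nonneg_left ?_ hCE)
      have h7 : ∑ i : Fin 3, H R (k + 1 + 1) (Z i.succ v) =
          ∑ i : Fin 3, H R (k + 2) (Z i.succ v) := rfl
      have h8 : H R (k + 1 + 1) v = H R (k + 2) v := rfl
      rw [h7, h8]
      linarith
    have h2' : H R (k + 1 + 2) v ≤ 2 * H R (k + 2) v + 2 * ∑ i : Fin 3, H R (k + 2) (Z i.succ v)
        + H R (k + 1) (Z 0 (Z 0 v)) := H_split (R := R) (k + 1) hv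
    calc H R (k + 1 + 2) v ≤ 2 * (C * (H R (k + 1) (L.ap v) + H R 0 v)) +
          2 * (3 * (C * (Cc * C + 1 + C)) * (H R (k + 1) (L.ap v) + H R 0 v)) +
          CE * ((H R (k + 1) (L.ap v) + H R 0 v) +
        3 * (C * (Cc * C + 1 + C)) * (H R (k + 1) (L.ap v) + H R 0 v) +
        C * (H R (k + 1) (L.ap v) + H R 0 v)) := by linarith
      _ = _ := by ring

end UMB.Lin
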