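import Pool.Agent.Lib.UMB.Lin.G2
import Pool.Agent.Lib.UMB.Lin.G4

/-!
# UMB.Lin, the model operator `L0 v = |x|^2 Δ v`

In the frame: `L0 v = ∑_a Z_a Z_a v + Z_0 v`.
-/

open scoped ContDiff BigOperators
open Set MeasureTheory Pool.Agent.Lib.PenroseSph

namespace UMB.Lin

/-- the model operator `v ↦ |x|^2 Δ v = ∑_a Z_a Z_a v + Z_0 v` -/
noncomputable def L0 : Op where
  α := fun a b _ => if a = b then 1 else 0
  β := fun a _ => if a = 0 then 1 else 0
  γ := fun _ => 0

theorem L0_smooth : L0.Smooth where
  α := fun a b => by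
    unfold L0
    exact contDiff_const
  β := fun a => by
    unfold L0
    exact contDiff_const
  γ := by
    unfold L0
    exact contDiff_const
  symm := fun a b x => by
    simp [L0, eq_comm]

theorem L0_ap {v : E3 → ℝ} (x : E3) :
    L0.ap v x = (∑ a, Z a (Z a v) x) + Z 0 v x := by
  have h1 : ∀ a b : Fin 4, Z a (fun y => L0.α a b y * Z b v y) x
      = if a = b then Z a (Z b v) x else 0 := by
    intro a b
    by_cases h : a = b
    · subst h
      simp only [L0, if_true, one_mul]
    · simp only [L0, h, if_false, zero_mul]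
      exact Z_const a 0 x
  unfold Op.ap
  simp only [h1]
  simp [L0]

end UMB.Lin
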