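import Pool.Agent.Lib.UMB.Lin.Defs

/-!
Polynomials in three variables: the Laplacian, multiplication by the squared norm, and the
decomposition of a polynomial into powers of the squared norm times harmonic homogeneous
polynomials.
-/

open MvPolynomial Finset

namespace UMB.Lin.Base

/-- Real polynomials in three variables. -/
abbrev P3 := MvPolynomial (Fin 3) ℝ

/-- The Laplacian of a polynomial. -/
noncomputable def lapP (p : P3) : P3 := ∑ i, pderiv i (pderiv i p)

/-- The squared norm as a polynomial. -/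
noncomputable def nsq : P3 := ∑ i, X i ^ 2

theorem lapP_add (p q : P3) : lapP (p + q) = lapP p + lapP q := by
  simp [lapP, Finset.sum_add_distrib]

theorem lapP_sub (p q : P3) : lapP (p - q) = lapP p - lapP q := by
  simp [lapP, Finset.sum_sub_distrib]

theorem lapP_C_mul (a : ℝ) (p : P3) : lapP (C a * p) = C a * lapP p := by
  simp only [lapP, pderiv_C_mul, Finset.mul_sum]

theorem lapP_homog {n : ℕ} {p : P3} (hp : p.IsHomogeneous n) : (lapP p).IsHomogeneous (n - 2) := by
  refine IsHomogeneous.sum _ _ _ fun i _ => ?_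
  have h := (hp.pderiv (i := i)).pderiv (i := i)
  exact h

theorem nsq_homog : nsq.IsHomogeneous 2 := by
  refine IsHomogeneous.sum _ _ _ fun i _ => ?_
  simpa using (isHomogeneous_X ℝ i).pow 2

theorem pderiv_nsq (i : Fin 3) : pderiv i nsq = C 2 * X i := by
  have h : ∀ j : Fin 3, pderiv i (X j ^ 2 : P3) = if j = i then C 2 * X i else 0 := by
    intro j
    rw [pderiv_pow]
    split_ifs with h
    · subst h
      rw [pderiv_X_self]
      have h2 : (C 2 : P3) = 2 := map_ofNat C 2
      rw [h2]
      simp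
    · rw [pderiv_X_of_ne h]
      simp
  unfold nsq
  rw [map_sum]
  simp only [h]
  simp

theorem lapP_nsq_mul {n : ℕ} {p : P3} (hp : p.IsHomogeneous n) :
    lapP (nsq * p) = nsq * lapP p + C (4 * (n : ℝ) + 6) * p := by
  have h1 : ∀ i : Fin 3, pderiv i (pderiv i (nsq * p))
      = nsq * pderiv i (pderiv i p) + C 4 * (X i * pderiv i p) + C 2 * p := by
    intro i
    rw [pderiv_mul, map_add, pderiv_mul, pderiv_mul, pderiv_nsq, pderiv_C_mul, pderiv_X_self]
    have h4 : (C 4 : P3) = C 2 + C 2 := by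
      rw [← C_add]
      norm_num
    rw [h4]
    ring
  unfold lapP
  simp only [h1]
  rw [Finset.sum_add_distrib, Finset.sum_add_distrib, ← Finset.mul_sum, ← Finset.mul_sum,
    hp.sum_X_mul_pderiv]
  simp only [Finset.sum_const, Finset.card_univ, Fintype.card_fin, C_add, C_mul]
  simp only [nsmul_eq_mul]
  have h6 : (C 6 : P3) = 3 * C 2 := by
    have : (3 : P3) = C 3 := (map_ofNat C 3).symm
    rw [this, ← C_mul]
    norm_num
  have hn : (C (n : ℝ) : P3) = (n : P3) := by simp
  rw [h6, hn]
  push_cast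
  ring

theorem nsqpow_homog (j : ℕ) : (nsq ^ j).IsHomogeneous (2 * j) := by
  simpa using nsq_homog.pow j

theorem lapP_nsqpow_mul (j : ℕ) {n : ℕ} {p : P3} (hp : p.IsHomogeneous n) :
    lapP (nsq ^ (j + 1) * p) = nsq ^ (j + 1) * lapP p
      + C ((2 * (j : ℝ) + 2) * (2 * j + 3 + 2 * n)) * (nsq ^ j * p) := by
  induction j with
  | zero =>
    have := lapP_nsq_mul hp
    simp only [zero_add, pow_one, pow_zero, one_mul]
    rw [this]
    congr 3
    push_cast
    ring
  | succ j ih =>
    have h1 : (nsq ^ (j + 1) * p).IsHomogeneous (2 * (j + 1) + n) := (nsqpow_homog (j + 1)).mul hp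
    have h2 : nsq ^ (j + 1 + 1) * p = nsq * (nsq ^ (j + 1) * p) := by ring
    rw [h2, lapP_nsq_mul h1, ih]
    have h3 : (C ((2 * ((j + 1 : ℕ) : ℝ) + 2) * (2 * ((j + 1 : ℕ) : ℝ) + 3 + 2 * n)) : P3)
        = C ((2 * (j : ℝ) + 2) * (2 * j + 3 + 2 * n))
          + C (4 * ((2 * (j + 1) + n : ℕ) : ℝ) + 6) := by
      rw [← C_add]
      congr 1
      push_cast
      ring
    rw [h3]
    ring

theorem lapP_of_lt {n : ℕ} {p : P3} (hp : p.IsHomogeneous n) (hn : n < 2) : lapP p = 0 := by
  have h1 : ∀ i : Fin 3, (pderiv i p).IsHomogeneous 0 := by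
    intro i
    have h := hp.pderiv (i := i)
    have : n - 1 = 0 := by omega
    rwa [this] at h
  unfold lapP
  refine Finset.sum_eq_zero fun i _ => ?_
  have h2 := totalDegree_eq_zero_iff_eq_C.1 (Nat.le_zero.1 (h1 i).totalDegree_le)
  rw [h2, pderiv_C]

theorem surj_aux (n : ℕ) : ∀ (j : ℕ) (p : P3), p.IsHomogeneous n →
    ∃ q : P3, q.IsHomogeneous n ∧ lapP (nsq ^ (j + 1) * q) = nsq ^ j * p := by
  induction n using Nat.strong_induction_on with
  | _ n ih =>
    intro j p hp
    have ha : ((2 * (j : ℝ) + 2) * (2 * j + 3 + 2 * n)) ≠ 0 := by positivity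
    rcases lt_or_ge n 2 with hn | hn
    · refine ⟨C ((2 * (j : ℝ) + 2) * (2 * j + 3 + 2 * n))⁻¹ * p, ?_, ?_⟩
      · simpa using (isHomogeneous_C (Fin 3) (((2 * (j : ℝ) + 2) * (2 * j + 3 + 2 * n))⁻¹)).mul hp
      · have h1 : nsq ^ (j + 1) * (C ((2 * (j : ℝ) + 2) * (2 * j + 3 + 2 * n))⁻¹ * p)
            = C ((2 * (j : ℝ) + 2) * (2 * j + 3 + 2 * n))⁻¹ * (nsq ^ (j + 1) * p) := by ring
        rw [h1, lapP_C_mul, lapP_nsqpow_mul j hp, lapP_of_lt hp hn, mul_zero, zero_add,
          ← mul_assoc, ← C_mul, inv_mul_cancel₀ ha, C_1, one_mul]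
    · obtain ⟨q', hq', hl⟩ := ih (n - 2) (by omega) (j + 1) (lapP p) (lapP_homog hp)
      have hq2 : (nsq * q').IsHomogeneous n := by
        have := nsq_homog.mul hq'
        have h2 : 2 + (n - 2) = n := by omega
        rwa [h2] at this
      refine ⟨C ((2 * (j : ℝ) + 2) * (2 * j + 3 + 2 * n))⁻¹ * (p - nsq * q'), ?_, ?_⟩
      · simpa using (isHomogeneous_C (Fin 3)
          (((2 * (j : ℝ) + 2) * (2 * j + 3 + 2 * n))⁻¹)).mul (hp.sub hq2)
      · have h1 : nsq ^ (j + 1) * (C ((2 * (j : ℝ) + 2) * (2 * j + 3 + 2 * n))⁻¹ * (p - nsq * q'))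
            = C ((2 * (j : ℝ) + 2) * (2 * j + 3 + 2 * n))⁻¹
              * (nsq ^ (j + 1) * p - nsq ^ (j + 1 + 1) * q') := by ring
        rw [h1, lapP_C_mul, lapP_sub, hl, lapP_nsqpow_mul j hp, add_sub_cancel_left,
          ← mul_assoc, ← C_mul, inv_mul_cancel₀ ha, C_1, one_mul]

/-- Every homogeneous polynomial is the Laplacian of the squared norm times one. -/
theorem exists_lapP_nsq_mul {n : ℕ} {p : P3} (hp : p.IsHomogeneous n) :
    ∃ q : P3, q.IsHomogeneous n ∧ lapP (nsq * q) = p := by
  obtain ⟨q, h1, h2⟩ := surj_aux n 0 p hp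
  exact ⟨q, h1, by simpa using h2⟩

/-- The Laplacian is onto on polynomials. -/
theorem lapP_surj (p : P3) : ∃ q : P3, lapP q = p := by
  have h : ∀ n : ℕ, ∃ q : P3, lapP q = homogeneousComponent n p := by
    intro n
    obtain ⟨q, -, hq⟩ := exists_lapP_nsq_mul (homogeneousComponent_isHomogeneous n p)
    exact ⟨nsq * q, hq⟩
  choose q hq using h
  refine ⟨∑ n ∈ range (p.totalDegree + 1), q n, ?_⟩
  have hs : ∀ s : Finset ℕ, lapP (∑ n ∈ s, q n) = ∑ n ∈ s, lapP (q n) := by
    intro s
    induction s using Finset.induction_on with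
    | empty => simp [lapP]
    | insert a s ha ih => rw [Finset.sum_insert ha, Finset.sum_insert ha, lapP_add, ih]
  rw [hs]
  simp only [hq]
  exact sum_homogeneousComponent p

/-- A property of polynomials which is additive and holds for the powers of the squared norm times
a harmonic homogeneous polynomial holds for all polynomials. -/
theorem poly_induction (S : P3 → Prop) (h0 : S 0) (hadd : ∀ p q, S p → S q → S (p + q))
    (hb : ∀ (j n : ℕ) (h : P3), h.IsHomogeneous n → lapP h = 0 → S (nsq ^ j * h)) (p : P3) :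
    S p := by
  have key : ∀ n : ℕ, ∀ (j : ℕ) (p : P3), p.IsHomogeneous n → S (nsq ^ j * p) := by
    intro n
    induction n using Nat.strong_induction_on with
    | _ n ih =>
      intro j p hp
      rcases lt_or_ge n 2 with hn | hn
      · exact hb j n p hp (lapP_of_lt hp hn)
      · obtain ⟨q, hq, hl⟩ := exists_lapP_nsq_mul (lapP_homog hp)
        have hq2 : (nsq * q).IsHomogeneous n := by
          have := nsq_homog.mul hq
          have h2 : 2 + (n - 2) = n := by omega
          rwa [h2] at this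
        have h1 : S (nsq ^ j * (p - nsq * q)) := by
          refine hb j n _ (hp.sub hq2) ?_
          rw [lapP_sub, hl, sub_self]
        have h2 : S (nsq ^ (j + 1) * q) := ih (n - 2) (by omega) (j + 1) q hq
        have h3 : nsq ^ j * p = nsq ^ j * (p - nsq * q) + nsq ^ (j + 1) * q := by ring
        rw [h3]
        exact hadd _ _ h1 h2
  have hs : ∀ s : Finset ℕ, S (∑ n ∈ s, homogeneousComponent n p) := by
    intro s
    induction s using Finset.induction_on with
    | empty => simpa using h0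
    | insert a s ha ih =>
      rw [Finset.sum_insert ha]
      refine hadd _ _ ?_ ih
      simpa using key a 0 _ (homogeneousComponent_isHomogeneous a p)
  have := hs (range (p.totalDegree + 1))
  rwa [sum_homogeneousComponent p] at this

end UMB.Lin.Base
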