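import Pool.Agent.Lib.UMB.Lin.B1
import Pool.Agent.Lib.UMB.Lin.G2
import Pool.Agent.Lib.UMB.Lin.G4

/-!
# UMB.Lin, base case: polynomials as functions, the frame on polynomials
-/

open scoped ContDiff BigOperators
open Set MeasureTheory Pool.Agent.Lib.PenroseSph MvPolynomial

namespace UMB.Lin.Base

/-- evaluation of a polynomial at a point -/
noncomputable def ev (p : P3) (x : E3) : ℝ := MvPolynomial.eval (fun i => x i) p

theorem contDiff_ev (p : P3) : ContDiff ℝ ∞ (ev p) := by
  induction p using MvPolynomial.induction_on with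
  | C a =>
    have : ev (C a) = fun _ => a := by
      funext x
      simp [ev]
    rw [this]
    exact contDiff_const
  | add p q hp hq =>
    have : ev (p + q) = fun x => ev p x + ev q x := by
      funext x
      simp [ev]
    rw [this]
    exact hp.add hq
  | mul_X p i hp =>
    have : ev (p * X i) = fun x => ev p x * x i := by
      funext x
      simp [ev]
    rw [this]
    exact hp.mul (contDiff_euclidean.1 contDiff_id i)

theorem differentiable_ev (p : P3) : Differentiable ℝ (ev p) :=
  (contDiff_ev p).differentiable (by simp)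

theorem ev_add (p q : P3) (x : E3) : ev (p + q) x = ev p x + ev q x := by simp [ev]
theorem ev_sub (p q : P3) (x : E3) : ev (p - q) x = ev p x - ev q x := by simp [ev]
theorem ev_mul (p q : P3) (x : E3) : ev (p * q) x = ev p x * ev q x := by simp [ev]
theorem ev_pow (p : P3) (n : ℕ) (x : E3) : ev (p ^ n) x = ev p x ^ n := by simp [ev]
theorem ev_C (a : ℝ) (x : E3) : ev (C a) x = a := by simp [ev]
theorem ev_X (i : Fin 3) (x : E3) : ev (X i) x = x i := by simp [ev]
theorem ev_zero (x : E3) : ev 0 x = 0 := by simp [ev]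
theorem ev_sum {ι : Type*} (s : Finset ι) (p : ι → P3) (x : E3) :
    ev (∑ i ∈ s, p i) x = ∑ i ∈ s, ev (p i) x := by simp [ev]

theorem ev_nsq (x : E3) : ev nsq x = ‖x‖ ^ 2 := by
  rw [EuclideanSpace.norm_sq_eq]
  simp [nsq, ev]

theorem pd_coord (i j : Fin 3) (x : E3) : pd i (fun y : E3 => y j) x = if i = j then 1 else 0 := by
  have h : HasFDerivAt (fun y : E3 => y j) (EuclideanSpace.proj (𝕜 := ℝ) j : E3 →L[ℝ] ℝ) x :=
    (EuclideanSpace.proj (𝕜 := ℝ) j : E3 →L[ℝ] ℝ).hasFDerivAt
  unfold pd
  rw [h.fderiv]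
  simp [eq_comm]

theorem pd_ev (i : Fin 3) (p : P3) (x : E3) : pd i (ev p) x = ev (pderiv i p) x := by
  induction p using MvPolynomial.induction_on generalizing x with
  | C a =>
    have : ev (C a) = fun _ => a := by
      funext x
      simp [ev]
    rw [this, pderiv_C, ev_zero]
    unfold pd
    simp
  | add p q hp hq =>
    have : ev (p + q) = fun x => ev p x + ev q x := by
      funext x
      simp [ev]
    rw [this, map_add, ev_add, ← hp, ← hq]
    unfold pd
    have h := ((differentiable_ev p x).hasFDerivAt.add (differentiable_ev q x).hasFDerivAt).fderiv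
    rw [show (fun x => ev p x + ev q x) = (ev p + ev q) from rfl, h]
    rfl
  | mul_X p j hp =>
    have : ev (p * X j) = fun x => ev p x * x j := by
      funext x
      simp [ev]
    rw [this, pderiv_mul, ev_add, ev_mul, ev_mul, ← hp, ev_X]
    have hc : DifferentiableAt ℝ (fun y : E3 => y j) x :=
      (EuclideanSpace.proj (𝕜 := ℝ) j : E3 →L[ℝ] ℝ).differentiableAt
    have h2 := pd_coord i j x
    unfold pd at h2 ⊢
    have h := ((differentiable_ev p x).hasFDerivAt.mul hc.hasFDerivAt).fderiv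
    rw [show (fun x : E3 => ev p x * x j) = (ev p * fun y : E3 => y j) from rfl, h]
    have h3 : ev (pderiv i (X j)) x = if i = j then 1 else 0 := by
      by_cases hij : i = j
      · subst hij
        rw [pderiv_X_self]
        simp [ev]
      · rw [pderiv_X_of_ne (fun h => hij h.symm)]
        simp [ev, hij]
    simp only [add_apply, smul_apply, smul_eq_mul, h2, h3]
    ring

/-- the frame on polynomials -/
noncomputable def Zp : Fin 4 → P3 → P3 :=
  ![fun p => ∑ i, X i * pderiv i p, fun p => X 1 * pderiv 2 p - X 2 * pderiv 1 p,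
    fun p => X 2 * pderiv 0 p - X 0 * pderiv 2 p, fun p => X 0 * pderiv 1 p - X 1 * pderiv 0 p]

theorem Z_ev (a : Fin 4) (p : P3) (x : E3) : Z a (ev p) x = ev (Zp a p) x := by
  rw [Z_eq_pd]
  simp only [pd_ev]
  fin_cases a
  · simp [Zm, Zp, ev_sum, ev_mul, ev_X]
  · simp [Zm, Zp, rotL, Fin.sum_univ_three, ev_sub, ev_mul, ev_X]
    ring
  · simp [Zm, Zp, rotL, Fin.sum_univ_three, ev_sub, ev_mul, ev_X]
    ring
  · simp [Zm, Zp, rotL, Fin.sum_univ_three, ev_sub, ev_mul, ev_X]
    ring

theorem Z_ev' (a : Fin 4) (p : P3) : Z a (ev p) = ev (Zp a p) := funext fun x => Z_ev a p x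

theorem pderiv_comm' (i j : Fin 3) (p : P3) :
    pderiv i (pderiv j p) = pderiv j (pderiv i p) := by
  induction p using MvPolynomial.induction_on with
  | C a => simp
  | add p q hp hq => simp only [map_add, hp, hq]
  | mul_X p k hp =>
    simp only [pderiv_mul, map_add, hp]
    have h : ∀ a b : Fin 3, pderiv a (pderiv b (X k : P3)) = 0 := by
      intro a b
      by_cases hb : k = b
      · subst hb
        rw [pderiv_X_self, pderiv_one]
      · rw [pderiv_X_of_ne hb, map_zero]
    rw [h, h]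
    ring

theorem Zp_sum (p : P3) : (∑ a, Zp a (Zp a p)) + Zp 0 p = nsq * lapP p := by
  have h01 := pderiv_comm' 0 1 p
  have h02 := pderiv_comm' 0 2 p
  have h12 := pderiv_comm' 1 2 p
  have e00 : pderiv (0 : Fin 3) (X 0 : P3) = 1 := pderiv_X_self 0
  have e11 : pderiv (1 : Fin 3) (X 1 : P3) = 1 := pderiv_X_self 1
  have e22 : pderiv (2 : Fin 3) (X 2 : P3) = 1 := pderiv_X_self 2
  have e01 : pderiv (0 : Fin 3) (X 1 : P3) = 0 := pderiv_X_of_ne (by decide)
  have e02 : pderiv (0 : Fin 3) (X 2 : P3) = 0 := pderiv_X_of_ne (by decide)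
  have e10 : pderiv (1 : Fin 3) (X 0 : P3) = 0 := pderiv_X_of_ne (by decide)
  have e12 : pderiv (1 : Fin 3) (X 2 : P3) = 0 := pderiv_X_of_ne (by decide)
  have e20 : pderiv (2 : Fin 3) (X 0 : P3) = 0 := pderiv_X_of_ne (by decide)
  have e21 : pderiv (2 : Fin 3) (X 1 : P3) = 0 := pderiv_X_of_ne (by decide)
  rw [Fin.sum_univ_four]
  simp only [Zp, nsq, lapP, Matrix.cons_val_zero, Matrix.cons_val_one, Matrix.cons_val,
    Fin.sum_univ_three, map_add, map_sub, pderiv_mul, e00, e11, e22, e01, e02, e10, e12, e20, e21]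
  rw [h01, h02, h12]
  ring

/-- the sum of the squares of the rotation fields on a harmonic homogeneous polynomial -/
theorem Zp_rot {n : ℕ} {h : P3} (hh : h.IsHomogeneous n) (h0 : lapP h = 0) :
    Zp 1 (Zp 1 h) + Zp 2 (Zp 2 h) + Zp 3 (Zp 3 h) = C (-((n : ℝ) * (n + 1))) * h := by
  have h1 := Zp_sum h
  rw [h0, mul_zero, Fin.sum_univ_four] at h1
  have hE : Zp 0 h = C (n : ℝ) * h := by
    have := hh.sum_X_mul_pderiv
    simp only [Zp, Matrix.cons_val_zero]
    rw [this, nsmul_eq_mul]
    simp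
  have hE2 : Zp 0 (Zp 0 h) = C (n : ℝ) * (C (n : ℝ) * h) := by
    rw [hE]
    have h2 : (C (n : ℝ) * h).IsHomogeneous n := by
      simpa using (isHomogeneous_C (Fin 3) (n : ℝ)).mul hh
    have := h2.sum_X_mul_pderiv
    simp only [Zp, Matrix.cons_val_zero]
    rw [this, nsmul_eq_mul]
    simp
  rw [hE2, hE] at h1
  have h3 : (C (-((n : ℝ) * (n + 1))) : P3) = -(C (n : ℝ) * (C (n : ℝ) + 1)) := by
    rw [C_neg, C_mul, C_add, C_1]
  rw [h3]
  linear_combination h1

end UMB.Lin.Base
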