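import Pool.Agent.Lib.UMB.Lin.B0
import Pool.Agent.Lib.UMB.Lin.B2

/-!
# UMB.Lin, base case: radial functions times harmonic homogeneous polynomials
-/

open scoped ContDiff BigOperators
open Set MeasureTheory Pool.Agent.Lib.PenroseSph MvPolynomial

namespace UMB.Lin.Base

/-- radial function -/
noncomputable def rad (G : ℝ → ℝ) (x : E3) : ℝ := G (‖x‖ ^ 2)

/-- the Euler field on radial functions, in the variable `|x|^2` -/
noncomputable def DD (G : ℝ → ℝ) : ℝ → ℝ := fun s => 2 * s * deriv G s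

theorem contDiff_rad {G : ℝ → ℝ} (hG : ContDiff ℝ ∞ G) : ContDiff ℝ ∞ (rad G) :=
  hG.comp (contDiff_norm_sq ℝ)

theorem contDiff_DD {G : ℝ → ℝ} (hG : ContDiff ℝ ∞ G) : ContDiff ℝ ∞ (DD G) := by
  have h : ContDiff ℝ ∞ (deriv G) := (contDiff_infty_iff_deriv.1 hG).2
  exact (contDiff_const.mul contDiff_id).mul h

theorem fderiv_rad {G : ℝ → ℝ} (hG : Differentiable ℝ G) (x v : E3) :
    fderiv ℝ (rad G) x v = 2 * inner ℝ x v * deriv G (‖x‖ ^ 2) := by
  have h1 : HasFDerivAt (fun y : E3 => ‖y‖ ^ 2) (2 • (innerSL ℝ x)) x :=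
    (hasStrictFDerivAt_norm_sq x).hasFDerivAt
  have h2 := (hG (‖x‖ ^ 2)).hasDerivAt.comp_hasFDerivAt x h1
  have h3 : fderiv ℝ (rad G) x = deriv G (‖x‖ ^ 2) • (2 • (innerSL ℝ x)) := h2.fderiv
  rw [h3]
  simp
  ring

theorem Z0_rad {G : ℝ → ℝ} (hG : Differentiable ℝ G) (x : E3) : Z 0 (rad G) x = rad (DD G) x := by
  unfold Z
  rw [fderiv_rad hG]
  simp [Zm, rad, DD]

theorem Zi_rad {G : ℝ → ℝ} (hG : Differentiable ℝ G) (i : Fin 3) (x : E3) :
    Z i.succ (rad G) x = 0 := by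
  unfold Z
  rw [fderiv_rad hG, rot_norm]
  simp

theorem Z0_mul {n : ℕ} {h : P3} (hh : h.IsHomogeneous n) {G : ℝ → ℝ} (hG : ContDiff ℝ ∞ G) :
    Z 0 (fun x => rad G x * ev h x) = fun x => (rad (DD G) x + n * rad G x) * ev h x := by
  funext x
  have h1 : DifferentiableAt ℝ (rad G) x := (contDiff_rad hG).differentiable (by simp) x
  rw [Z_mul 0 h1 (differentiable_ev h x), Z0_rad (hG.differentiable (by simp)), Z_ev]
  have hE : ev (Zp 0 h) x = n * ev h x := by
    have := hh.sum_X_mul_pderiv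
    simp only [Zp, Matrix.cons_val_zero]
    rw [this, nsmul_eq_mul, ev_mul]
    simp [ev]
  rw [hE]
  ring

theorem Zi_mul (i : Fin 3) (h : P3) {G : ℝ → ℝ} (hG : ContDiff ℝ ∞ G) :
    Z i.succ (fun x => rad G x * ev h x) = fun x => rad G x * ev (Zp i.succ h) x := by
  funext x
  have h1 : DifferentiableAt ℝ (rad G) x := (contDiff_rad hG).differentiable (by simp) x
  rw [Z_mul i.succ h1 (differentiable_ev h x), Zi_rad (hG.differentiable (by simp)), Z_ev]
  ring

theorem L0_rad_mul {n : ℕ} {h : P3} (hh : h.IsHomogeneous n) (h0 : lapP h = 0) {G : ℝ → ℝ}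
    (hG : ContDiff ℝ ∞ G) (x : E3) :
    L0.ap (fun y => rad G y * ev h y) x
      = (DD (DD G) (‖x‖ ^ 2) + (2 * n + 1) * DD G (‖x‖ ^ 2)) * ev h x := by
  have hs : ∀ {u v : E3 → ℝ}, ContDiff ℝ ∞ u → ContDiff ℝ ∞ v →
      Z 0 (fun y => u y + v y) x = Z 0 u x + Z 0 v x := fun hu hv =>
    Z_add 0 (hu.differentiable (by simp) x) (hv.differentiable (by simp) x)
  have hp : ∀ {K : ℝ → ℝ}, ContDiff ℝ ∞ K → ContDiff ℝ ∞ (fun y => rad K y * ev h y) :=
    fun hK => (contDiff_rad hK).mul (contDiff_ev h)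
  rw [L0_ap, Fin.sum_univ_four]
  have e1 : Z 1 (Z 1 (fun y => rad G y * ev h y)) x = rad G x * ev (Zp 1 (Zp 1 h)) x := by
    have a1 := Zi_mul 0 h hG
    have a2 := Zi_mul 0 (Zp 1 h) hG
    simp only [Fin.succ_zero_eq_one] at a1 a2
    rw [a1, a2]
  have e2 : Z 2 (Z 2 (fun y => rad G y * ev h y)) x = rad G x * ev (Zp 2 (Zp 2 h)) x := by
    have a1 := Zi_mul 1 h hG
    have a2 := Zi_mul 1 (Zp 2 h) hG
    simp only [Fin.succ_one_eq_two] at a1 a2
    rw [a1, a2]
  have e3 : Z 3 (Z 3 (fun y => rad G y * ev h y)) x = rad G x * ev (Zp 3 (Zp 3 h)) x := by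
    have a1 := Zi_mul 2 h hG
    have a2 := Zi_mul 2 (Zp 3 h) hG
    have h3 : (2 : Fin 3).succ = 3 := rfl
    simp only [h3] at a1 a2
    rw [a1, a2]
  have e0 : Z 0 (Z 0 (fun y => rad G y * ev h y)) x
      = (rad (DD (DD G)) x + n * rad (DD G) x) * ev h x
        + n * ((rad (DD G) x + n * rad G x) * ev h x) := by
    rw [Z0_mul hh hG]
    have h1 : (fun x => (rad (DD G) x + n * rad G x) * ev h x)
        = fun x => rad (DD G) x * ev h x + n * (rad G x * ev h x) := by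
      funext y
      ring
    rw [h1, hs (hp (contDiff_DD hG)) (contDiff_const.mul (hp hG)), Z0_mul hh (contDiff_DD hG),
      Z_const_mul 0 n ((hp hG).differentiable (by simp) x), Z0_mul hh hG]
  rw [e0, e1, e2, e3, Z0_mul hh hG]
  have hr := congrArg (fun p => ev p x) (Zp_rot hh h0)
  simp only [ev_add, ev_mul, ev_C] at hr
  simp only [rad] at *
  linear_combination (G (‖x‖ ^ 2)) * hr

/-- the radial equation -/
theorem exists_radial {R : ℝ} (hR : 1 < R) (j n : ℕ) :
    ∃ G : ℝ → ℝ, ContDiff ℝ ∞ G ∧ G 1 = 0 ∧ G (R ^ 2) = 0 ∧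
      ∀ s, 1 / 2 < s → DD (DD G) s + (2 * n + 1) * DD G s = s ^ j := by
  have hc : (2 * (j : ℝ) + 2 * n + 1) ≠ 0 := by positivity
  obtain ⟨u, hu, hu'⟩ : ∃ u : ℝ → ℝ, ContDiffOn ℝ ∞ u (Ioi 0) ∧
      ∀ s, 0 < s → HasDerivAt u (s ^ j / (2 * (2 * (j : ℝ) + 2 * n + 1)) / s) s := by
    rcases Nat.eq_zero_or_pos j with hj | hj
    · subst hj
      refine ⟨fun s => Real.log s / (2 * (2 * (0 : ℝ) + 2 * n + 1)), ?_, ?_⟩
      · intro s hs
        exact ((Real.contDiffAt_log.2 (ne_of_gt hs)).div_const _).contDiffWithinAt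
      · intro s hs
        have h := (Real.hasDerivAt_log hs.ne').div_const (2 * (2 * (0 : ℝ) + 2 * n + 1))
        have h2 : s ^ 0 / (2 * (2 * ((0 : ℕ) : ℝ) + 2 * n + 1)) / s
            = s⁻¹ / (2 * (2 * (0 : ℝ) + 2 * n + 1)) := by
          rw [pow_zero, Nat.cast_zero, div_div, one_div, mul_inv, div_eq_mul_inv, mul_comm]
        rw [h2]
        exact h
    · refine ⟨fun s => s ^ j / (2 * j * (2 * (j : ℝ) + 2 * n + 1)), ?_, ?_⟩
      · exact ((contDiff_id.pow j).div_const _).contDiffOn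
      · intro s hs
        have h := (hasDerivAt_pow j s).div_const (2 * j * (2 * (j : ℝ) + 2 * n + 1))
        have hj' : (j : ℝ) ≠ 0 := by positivity
        have h2 : s ^ j / (2 * (2 * (j : ℝ) + 2 * n + 1)) / s
            = j * s ^ (j - 1) / (2 * j * (2 * (j : ℝ) + 2 * n + 1)) := by
          have h3 : s ^ j = s ^ (j - 1) * s := by
            rw [← pow_succ]
            congr 1
            omega
          rw [h3]
          field_simp
        rw [h2]
        exact h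
  set e : ℝ := -((2 * (n : ℝ) + 1) / 2) with he
  have he0 : e < 0 := by
    rw [he]
    have : (0 : ℝ) < (2 * (n : ℝ) + 1) / 2 := by positivity
    linarith
  have hq : ∀ s : ℝ, 0 < s → HasDerivAt (fun s : ℝ => s ^ e) (e * s ^ e / s) s := by
    intro s hs
    have h := Real.hasDerivAt_rpow_const (x := s) (p := e) (Or.inl hs.ne')
    have h2 : e * s ^ e / s = e * s ^ (e - 1) := by
      rw [Real.rpow_sub_one hs.ne']
      ring
    rw [h2]
    exact h
  have hqR : (R ^ 2 : ℝ) ^ e < 1 := Real.rpow_lt_one_of_one_lt_of_neg (by nlinarith) he0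
  set B : ℝ := -(u (R ^ 2) - u 1) / ((R ^ 2 : ℝ) ^ e - 1) with hB
  set A : ℝ := -u 1 - B with hA
  set g : ℝ → ℝ := fun s => u s + A + B * s ^ e with hg
  have hg1 : g 1 = 0 := by
    simp only [hg, Real.one_rpow, hA]
    ring
  have hg2 : g (R ^ 2) = 0 := by
    have h1 : (R ^ 2 : ℝ) ^ e - 1 ≠ 0 := by linarith
    have h2 : B * ((R ^ 2 : ℝ) ^ e - 1) = -(u (R ^ 2) - u 1) := by
      rw [hB]
      field_simp
    simp only [hg, hA]
    linarith
  have hgd : ∀ s, 0 < s →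
      HasDerivAt g (s ^ j / (2 * (2 * (j : ℝ) + 2 * n + 1)) / s + B * (e * s ^ e / s)) s := by
    intro s hs
    exact ((hu' s hs).add_const A).add ((hq s hs).const_mul B)
  have hgs : ContDiffOn ℝ ∞ g (Ioi 0) := by
    refine (hu.add contDiffOn_const).add (contDiffOn_const.mul ?_)
    intro s hs
    exact (Real.contDiffAt_rpow_const_of_ne (ne_of_gt hs)).contDiffWithinAt
  set χ : ℝ → ℝ := fun s => Real.smoothTransition (4 * s - 1) with hχ
  have hχs : ContDiff ℝ ∞ χ :=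
    Real.smoothTransition.contDiff.comp ((contDiff_const.mul contDiff_id).sub contDiff_const)
  have hχ0 : ∀ s, s ≤ 1 / 4 → χ s = 0 := fun s hs =>
    Real.smoothTransition.zero_of_nonpos (by linarith)
  have hχ1 : ∀ s, 1 / 2 ≤ s → χ s = 1 := fun s hs =>
    Real.smoothTransition.one_of_one_le (by linarith)
  set G : ℝ → ℝ := fun s => χ s * g s with hG
  have hGg : ∀ s, 1 / 2 ≤ s → G s = g s := fun s hs => by simp only [hG, hχ1 s hs, one_mul]
  have hGs : ContDiff ℝ ∞ G := by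
    rw [contDiff_iff_contDiffAt]
    intro s
    rcases lt_or_ge s (1 / 4) with hs | hs
    · have h1 : G =ᶠ[nhds s] fun _ => 0 := by
        filter_upwards [Iio_mem_nhds hs] with t ht
        simp only [hG, hχ0 t (le_of_lt ht), zero_mul]
      exact contDiffAt_const.congr_of_eventuallyEq h1
    · have hs0 : (0 : ℝ) < s := by linarith
      exact hχs.contDiffAt.mul (hgs.contDiffAt (Ioi_mem_nhds hs0))
  have hD1 : ∀ s, 1 / 2 < s → DD G s = s ^ j / (2 * (j : ℝ) + 2 * n + 1) + 2 * e * B * s ^ e := by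
    intro s hs
    have hs0 : (0 : ℝ) < s := by linarith
    have h1 : G =ᶠ[nhds s] g := by
      filter_upwards [Ioi_mem_nhds hs] with t ht
      exact hGg t (le_of_lt ht)
    unfold DD
    rw [h1.deriv_eq, (hgd s hs0).deriv]
    field_simp
  have hD2 : ∀ s, 1 / 2 < s → DD (DD G) s
      = 2 * j * s ^ j / (2 * (j : ℝ) + 2 * n + 1) + 4 * e ^ 2 * B * s ^ e := by
    intro s hs
    have hs0 : (0 : ℝ) < s := by linarith
    have h1 : DD G =ᶠ[nhds s]
        fun t => t ^ j / (2 * (j : ℝ) + 2 * n + 1) + 2 * e * B * t ^ e := by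
      filter_upwards [Ioi_mem_nhds hs] with t ht
      exact hD1 t ht
    have h2 : HasDerivAt (fun t : ℝ => t ^ j / (2 * (j : ℝ) + 2 * n + 1) + 2 * e * B * t ^ e)
        (j * s ^ (j - 1) / (2 * (j : ℝ) + 2 * n + 1) + 2 * e * B * (e * s ^ e / s)) s :=
      ((hasDerivAt_pow j s).div_const _).add ((hq s hs0).const_mul _)
    have h3 : DD (DD G) s = 2 * s * deriv (DD G) s := rfl
    rw [h3, h1.deriv_eq, h2.deriv]
    rcases Nat.eq_zero_or_pos j with hj | hj
    · subst hj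
      field_simp
      ring
    · have h4 : s ^ j = s ^ (j - 1) * s := by
        rw [← pow_succ]
        congr 1
        omega
      rw [h4]
      field_simp
      ring
  refine ⟨G, hGs, ?_, ?_, ?_⟩
  · rw [hGg 1 (by norm_num), hg1]
  · rw [hGg (R ^ 2) (by nlinarith), hg2]
  · intro s hs
    rw [hD1 s hs, hD2 s hs, he]
    field_simp
    ring

end UMB.Lin.Base
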