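import Pool.Agent.Lib.UMB.Lin.B3

/-!
# UMB.Lin, base case: the Dirichlet problem of the model operator with a polynomial right side
-/

open scoped ContDiff BigOperators
open Set MeasureTheory Pool.Agent.Lib.PenroseSph MvPolynomial

namespace UMB.Lin.Base

theorem L0_add {u v : E3 → ℝ} (hu : ContDiff ℝ ∞ u) (hv : ContDiff ℝ ∞ v) (x : E3) :
    L0.ap (fun y => u y + v y) x = L0.ap u x + L0.ap v x := by
  have h1 : ∀ a : Fin 4, Z a (fun y => u y + v y) = fun y => Z a u y + Z a v y := by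
    intro a
    funext y
    exact Z_add a (hu.differentiable (by simp) y) (hv.differentiable (by simp) y)
  have h2 : ∀ a : Fin 4, Z a (Z a (fun y => u y + v y)) x = Z a (Z a u) x + Z a (Z a v) x := by
    intro a
    rw [h1 a]
    exact Z_add a ((contDiff_Z a hu).differentiable (by simp) x)
      ((contDiff_Z a hv).differentiable (by simp) x)
  rw [L0_ap, L0_ap, L0_ap]
  simp only [h2, h1 0, Finset.sum_add_distrib]
  ring

theorem solve_poly {R : ℝ} (hR : 1 < R) (p : P3) :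
    ∃ v : E3 → ℝ, ContDiff ℝ ∞ v ∧ Bz R v ∧ ∀ x : E3, 1 / 2 < ‖x‖ ^ 2 → L0.ap v x = ev p x := by
  refine poly_induction (fun p => ∃ v : E3 → ℝ, ContDiff ℝ ∞ v ∧ Bz R v ∧
    ∀ x : E3, 1 / 2 < ‖x‖ ^ 2 → L0.ap v x = ev p x) ?_ ?_ ?_ p
  · refine ⟨fun _ => 0, contDiff_const, fun x _ => rfl, fun x _ => ?_⟩
    rw [L0_ap, ev_zero]
    have h1 : ∀ a : Fin 4, Z a (fun _ : E3 => (0 : ℝ)) = fun _ => 0 := by
      intro a
      funext y
      exact Z_const a 0 y
    simp [h1]
  · rintro p q ⟨u, hu, hub, hup⟩ ⟨v, hv, hvb, hvq⟩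
    refine ⟨fun y => u y + v y, hu.add hv, fun x hx => by simp only [hub x hx, hvb x hx, add_zero],
      fun x hx => ?_⟩
    rw [L0_add hu hv, hup x hx, hvq x hx, ev_add]
  · intro j n h hh h0
    obtain ⟨G, hG, hG1, hG2, hGe⟩ := exists_radial hR j n
    refine ⟨fun y => rad G y * ev h y, (contDiff_rad hG).mul (contDiff_ev h), ?_, ?_⟩
    · rintro x (hx | hx)
      · simp [rad, hx, hG1]
      · simp [rad, hx, hG2]
    · intro x hx
      rw [L0_rad_mul hh h0 hG, hGe _ hx, ev_mul, ev_pow, ev_nsq]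

end UMB.Lin.Base
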