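import Pool.Agent.Lib.UMB.Lin.B2
import Pool.Agent.Lib.UMB.Lin.Dw

/-!
# UMB.Lin, base case: Stone-Weierstrass on compact sets of `E3`, divisible primitives
-/

open scoped ContDiff BigOperators
open Set MeasureTheory Pool.Agent.Lib.PenroseSph MvPolynomial

namespace UMB.Lin.Base

/-- Stone-Weierstrass: polynomials are dense in the continuous functions on a compact set -/
theorem exists_poly_near {K : Set E3} (hK : IsCompact K) {g : E3 → ℝ} (hg : Continuous g) {ε : ℝ}
    (hε : 0 < ε) : ∃ Q : P3, ∀ x ∈ K, |ev Q x - g x| ≤ ε := by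
  have : CompactSpace K := isCompact_iff_compactSpace.1 hK
  have hc : ∀ i : Fin 3, Continuous fun x : K => (x : E3) i := fun i =>
    ((EuclideanSpace.proj (𝕜 := ℝ) i : E3 →L[ℝ] ℝ).continuous).comp continuous_subtype_val
  let c : Fin 3 → C(K, ℝ) := fun i => ⟨fun x : K => (x : E3) i, hc i⟩
  let A : Subalgebra ℝ C(K, ℝ) := (aeval c : P3 →ₐ[ℝ] C(K, ℝ)).range
  have hev : ∀ (p : P3) (x : K), (aeval c p : C(K, ℝ)) x = ev p x := by
    intro p x
    induction p using MvPolynomial.induction_on with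
    | C a => simp [ev]
    | add p q hp hq => rw [map_add, ContinuousMap.add_apply, hp, hq, ev_add]
    | mul_X p i hp =>
      rw [map_mul, ContinuousMap.mul_apply, hp, ev_mul, aeval_X, ev_X]
      rfl
  have hsep : A.SeparatesPoints := by
    intro x y hxy
    have h1 : ∃ i : Fin 3, (x : E3) i ≠ (y : E3) i := by
      by_contra hcon
      push Not at hcon
      exact hxy (Subtype.ext (by ext i; exact hcon i))
    obtain ⟨i, hi⟩ := h1
    refine ⟨fun z => (c i : C(K, ℝ)) z, ⟨c i, ⟨X i, by simp⟩, rfl⟩, ?_⟩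
    exact hi
  obtain ⟨⟨q, hq⟩, hq2⟩ := ContinuousMap.exists_mem_subalgebra_near_continuousMap_of_separatesPoints
    A hsep ⟨fun x : K => g x, hg.comp continuous_subtype_val⟩ ε hε
  obtain ⟨p, hp⟩ := hq
  refine ⟨p, fun x hx => ?_⟩
  have h3 := ContinuousMap.norm_coe_le_norm (q - ⟨fun x : K => g x, hg.comp continuous_subtype_val⟩)
    ⟨x, hx⟩
  have h4 : q ⟨x, hx⟩ = ev p x := by
    rw [← hp]
    exact hev p ⟨x, hx⟩
  have h5 : ‖q ⟨x, hx⟩ - g x‖ ≤ ε := le_trans h3 (le_of_lt hq2)
  rw [h4] at h5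
  exact h5

theorem primitive_monomial (i : Fin 3) (k : ℕ) : ∀ (t : Fin 3 →₀ ℕ) (a : ℝ),
    ∃ b : ℝ, (pderiv i)^[k] (monomial (t + Finsupp.single i k) b : P3) = monomial t a := by
  induction k with
  | zero =>
    intro t a
    exact ⟨a, by simp⟩
  | succ k ih =>
    intro t a
    obtain ⟨b, hb⟩ := ih t a
    have hn : ((t i + (k + 1) : ℕ) : ℝ) ≠ 0 := by positivity
    refine ⟨b / ((t i + (k + 1) : ℕ) : ℝ), ?_⟩
    rw [Function.iterate_succ_apply, pderiv_monomial]
    have h1 : t + Finsupp.single i (k + 1) - Finsupp.single i 1 = t + Finsupp.single i k := by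
      ext j
      simp only [Finsupp.coe_tsub, Finsupp.coe_add, Pi.sub_apply, Pi.add_apply,
        Finsupp.single_apply]
      split_ifs <;> omega
    have h2 : (t + Finsupp.single i (k + 1)) i = t i + (k + 1) := by simp
    rw [h1, h2, div_mul_cancel₀ _ hn, hb]

/-- every polynomial is the mixed derivative of order `(k, k, k)` of a multiple of `(x y z)^k` -/
theorem primitive (k : ℕ) (Q : P3) : ∃ Q' : P3,
    (pderiv 0)^[k] ((pderiv 1)^[k] ((pderiv 2)^[k] ((X 0 * X 1 * X 2) ^ k * Q'))) = Q := by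
  have hadd : ∀ (i : Fin 3) (n : ℕ) (p q : P3),
      (pderiv i)^[n] (p + q) = (pderiv i)^[n] p + (pderiv i)^[n] q := by
    intro i n
    induction n with
    | zero => intro p q; rfl
    | succ n ih =>
      intro p q
      rw [Function.iterate_succ_apply, Function.iterate_succ_apply, Function.iterate_succ_apply,
        map_add, ih]
  induction Q using MvPolynomial.induction_on' with
  | monomial t a =>
    obtain ⟨a0, h0⟩ := primitive_monomial 0 k t a
    obtain ⟨a1, h1⟩ := primitive_monomial 1 k (t + Finsupp.single 0 k) a0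
    obtain ⟨a2, h2⟩ := primitive_monomial 2 k (t + Finsupp.single 0 k + Finsupp.single 1 k) a1
    refine ⟨monomial t a2, ?_⟩
    have h3 : ((X 0 * X 1 * X 2) ^ k * monomial t a2 : P3)
        = monomial (t + Finsupp.single 0 k + Finsupp.single 1 k + Finsupp.single 2 k) a2 := by
      rw [mul_pow, mul_pow, X_pow_eq_monomial, X_pow_eq_monomial, X_pow_eq_monomial,
        monomial_mul, monomial_mul, monomial_mul]
      have he : (Finsupp.single 0 k + Finsupp.single 1 k + Finsupp.single 2 k + t : Fin 3 →₀ ℕ)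
          = t + Finsupp.single 0 k + Finsupp.single 1 k + Finsupp.single 2 k := by abel
      rw [he, one_mul, one_mul, one_mul]
    rw [h3, h2, h1, h0]
  | add p q hp hq =>
    obtain ⟨p', hp⟩ := hp
    obtain ⟨q', hq⟩ := hq
    refine ⟨p' + q', ?_⟩
    rw [mul_add, hadd, hadd, hadd, hp, hq]

end UMB.Lin.Base
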