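import Pool.Agent.Lib.UMB.Lin.B5
import Pool.Agent.Lib.UMB.Lin.G4

/-!
# UMB.Lin, base case: words in the partial derivatives
-/

open scoped ContDiff BigOperators
open Set MeasureTheory Pool.Agent.Lib.PenroseSph MvPolynomial

namespace UMB.Lin.Base

/-- partial derivatives commute -/
theorem pd_comm {v : E3 → ℝ} (hv : ContDiff ℝ ∞ v) (i j : Fin 3) :
    pd i (pd j v) = pd j (pd i v) := by
  funext x
  have h2 : ContDiff ℝ ∞ (fderiv ℝ v) := hv.fderiv_right (by simp)
  have h3 : DifferentiableAt ℝ (fderiv ℝ v) x := h2.differentiable (by simp) x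
  have key : ∀ a b : Fin 3, pd a (pd b v) x
      = fderiv ℝ (fderiv ℝ v) x (EuclideanSpace.single a 1) (EuclideanSpace.single b 1) := by
    intro a b
    have h4 : HasFDerivAt (fun y => fderiv ℝ v y (EuclideanSpace.single b 1))
        ((ContinuousLinearMap.apply ℝ ℝ (EuclideanSpace.single b (1 : ℝ))).comp
          (fderiv ℝ (fderiv ℝ v) x)) x :=
      (ContinuousLinearMap.apply ℝ ℝ (EuclideanSpace.single b (1 : ℝ))).hasFDerivAt.comp x
        h3.hasFDerivAt
    have h5 : pd a (pd b v) x
        = fderiv ℝ (fun y => fderiv ℝ v y (EuclideanSpace.single b 1)) x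
          (EuclideanSpace.single a 1) := rfl
    rw [h5, h4.fderiv]
    rfl
  rw [key, key]
  have hs : IsSymmSndFDerivAt ℝ v x := by
    refine (hv.contDiffAt (x := x)).isSymmSndFDerivAt ?_
    simp only [minSmoothness_of_isRCLikeNormedField]
    exact WithTop.coe_le_coe.2 le_top
  exact hs _ _

theorem Dw_smooth (w : List (Fin 3)) {v : E3 → ℝ} (hv : ContDiff ℝ ∞ v) :
    ContDiff ℝ ∞ (Dw w v) := by
  induction w with
  | nil => exact hv
  | cons i w ih => exact contDiff_pd i ih

theorem Dw_perm {w w' : List (Fin 3)} (h : w.Perm w') {v : E3 → ℝ} (hv : ContDiff ℝ ∞ v) :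
    Dw w v = Dw w' v := by
  induction h with
  | nil => rfl
  | cons a _ ih =>
    change pd a (Dw _ v) = pd a (Dw _ v)
    rw [ih]
  | swap a b l =>
    change pd b (pd a (Dw l v)) = pd a (pd b (Dw l v))
    exact pd_comm (Dw_smooth l hv) b a
  | trans _ _ ih1 ih2 => rw [ih1, ih2]

theorem pd_sub {u v : E3 → ℝ} (hu : Differentiable ℝ u) (hv : Differentiable ℝ v) (i : Fin 3) :
    pd i (fun y => u y - v y) = fun y => pd i u y - pd i v y := by
  funext x
  have h := ((hu x).hasFDerivAt.sub (hv x).hasFDerivAt).fderiv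
  unfold pd
  rw [show (fun y => u y - v y) = (u - v) from rfl, h]
  rfl

theorem Dw_sub (w : List (Fin 3)) {u v : E3 → ℝ} (hu : ContDiff ℝ ∞ u) (hv : ContDiff ℝ ∞ v) :
    Dw w (fun y => u y - v y) = fun y => Dw w u y - Dw w v y := by
  induction w with
  | nil => rfl
  | cons i w ih =>
    change pd i (Dw w _) = fun y => pd i (Dw w u) y - pd i (Dw w v) y
    rw [ih]
    exact pd_sub ((Dw_smooth w hu).differentiable (by simp))
      ((Dw_smooth w hv).differentiable (by simp)) i

theorem pd_congr' {U : Set E3} (hU : IsOpen U) {u v : E3 → ℝ} (h : ∀ x ∈ U, u x = v x)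
    (i : Fin 3) : ∀ x ∈ U, pd i u x = pd i v x := by
  intro x hx
  have h1 : u =ᶠ[nhds x] v := by
    filter_upwards [hU.mem_nhds hx] with y hy
    exact h y hy
  unfold pd
  rw [h1.fderiv_eq]

theorem Dw_congr (w : List (Fin 3)) {U : Set E3} (hU : IsOpen U) {u v : E3 → ℝ}
    (h : ∀ x ∈ U, u x = v x) : ∀ x ∈ U, Dw w u x = Dw w v x := by
  induction w with
  | nil => exact h
  | cons i w ih => exact pd_congr' hU ih i

theorem Dw_zero (w : List (Fin 3)) {U : Set E3} (hU : IsOpen U) {u : E3 → ℝ}
    (h : ∀ x ∈ U, u x = 0) : ∀ x ∈ U, Dw w u x = 0 := by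
  induction w with
  | nil => exact h
  | cons i w ih =>
    intro x hx
    have h1 : Dw w u =ᶠ[nhds x] fun _ => 0 := by
      filter_upwards [hU.mem_nhds hx] with y hy
      exact ih y hy
    change pd i (Dw w u) x = 0
    unfold pd
    rw [h1.fderiv_eq]
    simp

theorem Dw_translate (w : List (Fin 3)) (u : E3 → ℝ) (c : E3) :
    Dw w (fun y => u (y + c)) = fun y => Dw w u (y + c) := by
  induction w with
  | nil => rfl
  | cons i w ih =>
    change pd i (Dw w _) = fun y => pd i (Dw w u) (y + c)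
    rw [ih]
    funext x
    unfold pd
    rw [fderiv_comp_add_right]

/-- words of derivatives of a polynomial -/
noncomputable def pw : List (Fin 3) → P3 → P3
  | [], p => p
  | i :: w, p => pderiv i (pw w p)

theorem Dw_ev (w : List (Fin 3)) (p : P3) : Dw w (ev p) = ev (pw w p) := by
  induction w with
  | nil => rfl
  | cons i w ih =>
    change pd i (Dw w (ev p)) = _
    rw [ih]
    funext x
    exact pd_ev i _ x

theorem pw_replicate_append (i : Fin 3) (k : ℕ) (w : List (Fin 3)) (p : P3) :
    pw (List.replicate k i ++ w) p = (pderiv i)^[k] (pw w p) := by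
  induction k with
  | zero => rfl
  | succ k ih =>
    rw [List.replicate_succ, List.cons_append, Function.iterate_succ_apply']
    change pderiv i (pw _ p) = _
    rw [ih]

theorem pw_dvd (i : Fin 3) (k : ℕ) (w : List (Fin 3)) {p : P3} (hp : (X i : P3) ^ k ∣ p) :
    (X i : P3) ^ (k - w.count i) ∣ pw w p := by
  induction w with
  | nil => simpa [pw] using hp
  | cons j w ih =>
    obtain ⟨r, hr⟩ := ih
    change _ ∣ pderiv j (pw w p)
    rw [hr]
    by_cases hj : j = i
    · subst hj
      rw [List.count_cons_self, pderiv_mul, pderiv_pow, pderiv_X_self]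
      have h1 : k - (w.count j + 1) = (k - w.count j) - 1 := by omega
      rw [h1]
      refine dvd_add ?_ ?_
      · rw [mul_one, mul_assoc]
        exact Dvd.dvd.mul_left (Dvd.intro _ rfl) _
      · exact Dvd.dvd.mul_right (pow_dvd_pow _ (Nat.sub_le _ _)) _
    · rw [List.count_cons_of_ne (fun h => hj h), pderiv_mul, pderiv_pow,
        pderiv_X_of_ne (fun h => hj h.symm)]
      simp

theorem Dw_ev_zero (i : Fin 3) (k : ℕ) (w : List (Fin 3)) (hw : w.count i < k) {p : P3}
    (hp : (X i : P3) ^ k ∣ p) (x : E3) (hx : x i = 0) : Dw w (ev p) x = 0 := by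
  rw [Dw_ev]
  obtain ⟨r, hr⟩ := pw_dvd i k w hp
  rw [hr, ev_mul, ev_pow, ev_X, hx, zero_pow (by omega), zero_mul]

end UMB.Lin.Base
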