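import Pool.Agent.Lib.UMB.Lin.B6

/-!
# UMB.Lin, base case: all lower derivatives are bounded by the top mixed derivative
-/

open scoped ContDiff BigOperators
open Set MeasureTheory Pool.Agent.Lib.PenroseSph MvPolynomial

namespace UMB.Lin.Base

/-- the closed box `[0, L]^3` -/
def box (L : ℝ) : Set E3 := {y | ∀ i, 0 ≤ y i ∧ y i ≤ L}

theorem isCompact_box (L : ℝ) : IsCompact (box L) := by
  have hcont : ∀ i : Fin 3, Continuous fun y : E3 => y i := fun i =>
    (EuclideanSpace.proj (𝕜 := ℝ) i : E3 →L[ℝ] ℝ).continuous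
  have hcl : IsClosed (box L) := by
    have : box L = ⋂ i, {y : E3 | 0 ≤ y i ∧ y i ≤ L} := by
      ext y
      simp [box]
    rw [this]
    refine isClosed_iInter fun i => ?_
    exact (isClosed_le continuous_const (hcont i)).inter (isClosed_le (hcont i) continuous_const)
  refine Metric.isCompact_of_isClosed_isBounded hcl ?_
  refine (Metric.isBounded_closedBall (x := (0 : E3)) (r := 3 * |L|)).subset ?_
  intro y hy
  rw [Metric.mem_closedBall, dist_zero_right]
  have h1 : ‖y‖ ^ 2 ≤ (3 * |L|) ^ 2 := by
    rw [EuclideanSpace.norm_sq_eq, Fin.sum_univ_three]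
    have h2 : ∀ i, ‖y i‖ ^ 2 ≤ |L| ^ 2 := by
      intro i
      have h3 := hy i
      rw [Real.norm_eq_abs, sq_abs, sq_abs]
      nlinarith [h3.1, h3.2]
    nlinarith [h2 0, h2 1, h2 2, sq_nonneg |L|]
  exact le_trans (le_abs_self _) (abs_le_of_sq_le_sq h1 (by positivity))

theorem bound_of_pd {L s : ℝ} (i : Fin 3) {g : E3 → ℝ} (hg : Differentiable ℝ g)
    (hs : 0 ≤ s) (h0 : ∀ y ∈ box L, y i = 0 → g y = 0) (h1 : ∀ y ∈ box L, |pd i g y| ≤ s) :
    ∀ y ∈ box L, |g y| ≤ L * s := by
  intro y hy
  set γ : ℝ → E3 := fun t => y + (t - y i) • EuclideanSpace.single i (1 : ℝ) with hγ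
  have hγi : ∀ t j, (γ t) j = if j = i then t else y j := by
    intro t j
    by_cases hj : j = i
    · subst hj
      simp [hγ]
    · simp [hγ, hj]
  have hbox : ∀ t, 0 ≤ t → t ≤ y i → γ t ∈ box L := by
    intro t h0 h1 j
    rw [hγi]
    split_ifs with hj
    · exact ⟨h0, le_trans h1 (hy i).2⟩
    · exact hy j
  have hγd : ∀ t, HasDerivAt γ (EuclideanSpace.single i (1 : ℝ)) t := by
    intro t
    have h2 : HasDerivAt (fun t : ℝ => t - y i) 1 t := (hasDerivAt_id t).sub_const _
    have h3 := (h2.smul_const (EuclideanSpace.single i (1 : ℝ))).const_add y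
    simpa [hγ] using h3
  have hd : ∀ t, HasDerivAt (fun t => g (γ t)) (pd i g (γ t)) t := by
    intro t
    have h2 := (hg (γ t)).hasFDerivAt.comp_hasDerivAt t (hγd t)
    exact h2
  have h2 : ‖g (γ (y i)) - g (γ 0)‖ ≤ s * (y i - 0) := by
    refine norm_image_sub_le_of_norm_deriv_le_segment' (f := fun t => g (γ t))
      (f' := fun t => pd i g (γ t)) (fun t _ => (hd t).hasDerivWithinAt) (fun t ht => ?_) (y i)
      ⟨(hy i).1, le_refl _⟩
    rw [Real.norm_eq_abs]
    exact h1 _ (hbox t ht.1 (le_of_lt ht.2))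
  have h3 : γ (y i) = y := by simp [hγ]
  have h4 : g (γ 0) = 0 := by
    refine h0 _ (hbox 0 (le_refl _) (hy i).1) ?_
    rw [hγi]
    simp
  rw [h3, h4, sub_zero, sub_zero, Real.norm_eq_abs] at h2
  calc |g y| ≤ s * y i := h2
    _ ≤ s * L := mul_le_mul_of_nonneg_left (hy i).2 hs
    _ = L * s := mul_comm _ _

theorem length_eq (w : List (Fin 3)) : w.length = w.count 0 + w.count 1 + w.count 2 := by
  induction w with
  | nil => simp
  | cons i w ih =>
    fin_cases i <;> simp [ih] <;> omega

theorem bound_words {L s : ℝ} (hL : 0 ≤ L) (hs : 0 ≤ s) (k : ℕ) {U : E3 → ℝ}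
    (hU : ContDiff ℝ ∞ U)
    (hv : ∀ (i : Fin 3) (w : List (Fin 3)), w.count i < k → ∀ y ∈ box L, y i = 0 → Dw w U y = 0)
    (htop : ∀ y ∈ box L,
      |Dw (List.replicate k 0 ++ (List.replicate k 1 ++ List.replicate k 2)) U y| ≤ s) :
    ∀ (m : ℕ) (w : List (Fin 3)), w.length + m = 3 * k → (∀ i, w.count i ≤ k) →
      ∀ y ∈ box L, |Dw w U y| ≤ L ^ m * s := by
  intro m
  induction m with
  | zero =>
    intro w hw hc y hy
    have h1 := length_eq w
    have h2 : w.Perm (List.replicate k 0 ++ (List.replicate k 1 ++ List.replicate k 2)) := by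
      rw [List.perm_iff_count]
      have c0 := hc 0
      have c1 := hc 1
      have c2 := hc 2
      intro a
      fin_cases a
      · simp [List.count_append, List.count_replicate]
        omega
      · simp [List.count_append, List.count_replicate]
        omega
      · simp [List.count_append, List.count_replicate]
        omega
    rw [Dw_perm h2 hU, pow_zero, one_mul]
    exact htop y hy
  | succ m ih =>
    intro w hw hc y hy
    have h1 := length_eq w
    have h2 : ∃ i, w.count i < k := by
      by_contra hcon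
      push Not at hcon
      have c0 := hcon 0
      have c1 := hcon 1
      have c2 := hcon 2
      omega
    obtain ⟨i, hi⟩ := h2
    have h3 : ∀ y ∈ box L, |Dw w U y| ≤ L * (L ^ m * s) := by
      refine bound_of_pd i ((Dw_smooth w hU).differentiable (by simp)) (by positivity)
        (hv i w hi) ?_
      intro z hz
      refine ih (i :: w) ?_ ?_ z hz
      · rw [List.length_cons]
        omega
      · intro j
        by_cases hj : i = j
        · subst hj
          rw [List.count_cons_self]
          omega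
        · rw [List.count_cons_of_ne hj]
          exact hc j
    have h4 := h3 y hy
    rw [pow_succ]
    calc |Dw w U y| ≤ L * (L ^ m * s) := h4
      _ = L ^ m * L * s := by ring

end UMB.Lin.Base
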