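import Pool.Agent.Lib.UMB.Lin.LDefs

set_option autoImplicit false

/-! # UMB.Lin, chunk L1 (from Cauchy in all Sobolev norms to a smooth limit) -/

open scoped ContDiff BigOperators Topology
open Set MeasureTheory Filter Pool.Agent.Lib.PenroseSph

namespace UMB.Lin

/-- CHUNK L1 (S/M). `sobolev_Bd` for `w m - w n`; the limit of a uniformly Cauchy sequence (`UniformCauchySeqOn`), word `[]`. -/
theorem l1_slim {R : ℝ} (hR : 1 < R) {w : ℕ → E3 → ℝ} (hw : ∀ n, ContDiff ℝ ∞ (w n))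
    (hc : ∀ (k : ℕ) (e : ℝ), 0 < e → ∃ N : ℕ, ∀ m n, N ≤ m → N ≤ n → H R k (fun x => w m x - w n x) < e) :
    ∃ v : E3 → ℝ, SLim R w v := by
  have hcau : ∀ (k : ℕ) (e : ℝ), 0 < e → ∃ N : ℕ, ∀ m n, N ≤ m → N ≤ n →
      Bd R k e (fun x => w m x - w n x) := by
    intro k e he
    obtain ⟨C, hC, hS⟩ := sobolev_Bd hR k
    obtain ⟨N, hN⟩ := hc (k + 3) (e / (C + 1)) (by positivity)
    refine ⟨N, fun m n hm hn => ?_⟩
    refine Bd_mono le_rfl ?_ (hS _ ((hw m).sub (hw n)))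
    have h1 := (hN m n hm hn).le
    have h2 : C * H R (k + 3) (fun x => w m x - w n x) ≤ C * (e / (C + 1)) :=
      mul_le_mul_of_nonneg_left h1 hC
    refine h2.trans ?_
    have h3 : C * (e / (C + 1)) = e * (C / (C + 1)) := by ring
    rw [h3]
    have h4 : C / (C + 1) ≤ 1 := by
      rw [div_le_one (by linarith)]
      linarith
    nlinarith
  have huc : UniformCauchySeqOn (fun (n : ℕ) (x : E3) => w n x) atTop (cAnn R) := by
    rw [Metric.uniformCauchySeqOn_iff]
    intro e he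
    obtain ⟨N, hN⟩ := hcau 0 (e / 2) (by positivity)
    refine ⟨N, fun m hm n hn x hx => ?_⟩
    rw [Real.dist_eq]
    have h1 : |w m x - w n x| ≤ e / 2 := hN m n hm hn [] (by simp) x hx
    linarith
  have hpt : ∀ x ∈ cAnn R, ∃ y, Tendsto (fun n => w n x) atTop (𝓝 y) := by
    intro x hx
    exact cauchySeq_tendsto_of_complete (huc.cauchySeq hx)
  choose! v hv using hpt
  exact ⟨v, ⟨hw, hcau, huc.tendstoUniformlyOn_of_tendsto fun x hx => hv x hx⟩⟩

end UMB.Lin
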