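import Pool.Agent.Lib.UMB.Lin.C2

/-! # UMB.Lin, chunk C3: the Cartesian operator and the operator in the frame agree -/

open scoped ContDiff BigOperators
open Set MeasureTheory Pool.Agent.Lib.PenroseSph

namespace UMB.Lin

theorem c3_contDiff_coord (i : Fin 3) : ContDiff ℝ ∞ (fun y : E3 => y i) :=
  (EuclideanSpace.proj i : E3 →L[ℝ] ℝ).contDiff

theorem c3_contDiff_Zm (p : Fin 4) (i : Fin 3) : ContDiff ℝ ∞ (fun y : E3 => (Zm p y) i) :=
  (c3_contDiff_coord i).comp (Zm p).contDiff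

theorem ofCart_smooth {lam : ℝ} {a : Fin 3 → Fin 3 → E3 → ℝ} {b : Fin 3 → E3 → ℝ} {c : E3 → ℝ}
    (ha : ∀ i j, ContDiff ℝ ∞ (a i j)) (hb : ∀ i, ContDiff ℝ ∞ (b i)) (hc : ContDiff ℝ ∞ c)
    (hs : ∀ i j x, a i j x = a j i x) : (ofCart lam a b c).Smooth := by
  refine ⟨fun p q => ?_, fun q => ?_, hc, fun p q x => ?_⟩
  · unfold ofCart
    refine (contDiff_rho2.pow 2).mul (ContDiff.add ?_ ((contDiff_const.mul (contDiff_tau p)).mul (contDiff_tau q)))
    exact ContDiff.sum fun i _ => ContDiff.sum fun j _ =>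
      ((c3_contDiff_Zm p i).mul (ha i j)).mul (c3_contDiff_Zm q j)
  · unfold ofCart
    refine ContDiff.add ?_ ?_
    · refine (contDiff_const.mul (contDiff_rho2.pow 2)).mul ?_
      exact ContDiff.sum fun i _ => ContDiff.sum fun j _ =>
        ((c3_contDiff_coord i).mul (ha i j)).mul (c3_contDiff_Zm q j)
    · refine contDiff_rho2.mul (ContDiff.sum fun j _ => ?_)
      exact ((hb j).sub (ContDiff.sum fun i _ => contDiff_pd i (ha i j))).mul (c3_contDiff_Zm q j)
  · unfold ofCart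
    simp only
    have h1 : (∑ i, ∑ j, (Zm p x) i * a i j x * (Zm q x) j) = ∑ i, ∑ j, (Zm q x) i * a i j x * (Zm p x) j := by
      rw [Finset.sum_comm]
      refine Finset.sum_congr rfl fun j _ => Finset.sum_congr rfl fun i _ => ?_
      rw [hs i j x]
      ring
    rw [h1]
    ring

/-- `∂_i F = ρ ∑_a (Zm a)_i Z_a F` for `|x| > 1/2` -/
theorem c3_pd {x : E3} (hx : 1 / 2 < ‖x‖) (i : Fin 3) (F : E3 → ℝ) :
    rho2 x * (∑ p, (Zm p x) i * Z p F x) = pd i F x := by
  rw [← pd_eq_Z, rho2_eq hx.le]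
  have : 0 < ‖x‖ := by linarith
  field_simp

theorem c3_Z_congr (p : Fin 4) {u v : E3 → ℝ} {x : E3} (h : u =ᶠ[nhds x] v) : Z p u x = Z p v x := by
  unfold Z
  rw [h.fderiv_eq]

theorem c3_Z_sum (p : Fin 4) {ι : Type} (s : Finset ι) {u : ι → E3 → ℝ} {x : E3}
    (h : ∀ i ∈ s, DifferentiableAt ℝ (u i) x) : Z p (fun y => ∑ i ∈ s, u i y) x = ∑ i ∈ s, Z p (u i) x := by
  unfold Z
  rw [fderiv_fun_sum h]
  simp

/-- On `|x| > 1/2`: `∂_i F = ρ ∑_a (Zm a)_i Z_a F`, so with `G_i = ∑_j a_ij ∂_j v`: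
`∑ a_ij ∂_i ∂_j v = ∑_i ∂_i G_i - ∑ (∂_i a_ij) ∂_j v`,
`∑_i ∂_i G_i = ∑_a Z_a (∑_i ρ (Zm a)_i G_i) - ∑_i G_i ∑_a Z_a (ρ (Zm a)_i)`, `div_frame`,
`∂_j v = ρ ∑_q (Zm q)_j Z_q v` near `x`; the term with `tau` is
`lam ∑_p Z_p (ρ^2 τ_p ∑_q τ_q Z_q v) = 0` (`sum_tau`). -/
theorem ofCart_ap {lam : ℝ} {a : Fin 3 → Fin 3 → E3 → ℝ} {b : Fin 3 → E3 → ℝ} {c : E3 → ℝ}
    (ha : ∀ i j, ContDiff ℝ ∞ (a i j)) {v : E3 → ℝ} (hv : ContDiff ℝ ∞ v)
    {x : E3} (hx : 1 / 2 < ‖x‖) : (ofCart lam a b c).ap v x = Lc a b c v x := by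
  set G : Fin 3 → E3 → ℝ := fun i y => ∑ j, a i j y * pd j v y with hG
  have hGs : ∀ i, ContDiff ℝ ∞ (G i) := fun i =>
    ContDiff.sum fun j _ => (ha i j).mul (contDiff_pd j hv)
  have hd : ∀ {F : E3 → ℝ}, ContDiff ℝ ∞ F → ∀ y, DifferentiableAt ℝ F y :=
    fun hF y => hF.differentiable (by simp) y
  have hρZ : ∀ (p : Fin 4) (i : Fin 3), ContDiff ℝ ∞ (fun y => rho2 y * (Zm p y) i) :=
    fun p i => contDiff_rho2.mul (c3_contDiff_Zm p i)
  -- the first order expression near `x`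
  have hloc : ∀ (p : Fin 4) (y : E3), 1 / 2 < ‖y‖ →
      ∑ q, (ofCart lam a b c).α p q y * Z q v y = ∑ i, (rho2 y * (Zm p y) i) * G i y := by
    intro p y hy
    have h1 : ∀ q, (ofCart lam a b c).α p q y * Z q v y
        = (∑ i, ∑ j, rho2 y * (Zm p y) i * a i j y * (rho2 y * ((Zm q y) j * Z q v y)))
          + lam * rho2 y ^ 2 * tau p y * (tau q y * Z q v y) := by
      intro q
      unfold ofCart
      simp only [mul_add, add_mul, Finset.mul_sum, Finset.sum_mul]
      congr 1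
      · refine Finset.sum_congr rfl fun i _ => Finset.sum_congr rfl fun j _ => ?_
        ring
      · ring
    simp only [h1, Finset.sum_add_distrib, ← Finset.mul_sum, sum_tau, mul_zero, add_zero]
    rw [Finset.sum_comm]
    refine Finset.sum_congr rfl fun i _ => ?_
    rw [Finset.sum_comm, hG]
    simp only [Finset.mul_sum]
    refine Finset.sum_congr rfl fun j _ => ?_
    rw [← c3_pd hy j v]
    simp only [Finset.mul_sum]
    refine Finset.sum_congr rfl fun q _ => ?_
    ring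
  have hopen : ∀ᶠ y in nhds x, 1 / 2 < ‖y‖ := continuous_norm.continuousAt.eventually (lt_mem_nhds hx)
  have hα : ∀ p q, ContDiff ℝ ∞ ((ofCart lam a b c).α p q) := by
    intro p q
    unfold ofCart
    refine (contDiff_rho2.pow 2).mul (ContDiff.add ?_ ((contDiff_const.mul (contDiff_tau p)).mul (contDiff_tau q)))
    exact ContDiff.sum fun i _ => ContDiff.sum fun j _ =>
      ((c3_contDiff_Zm p i).mul (ha i j)).mul (c3_contDiff_Zm q j)
  have hfirst : (∑ p, ∑ q, Z p (fun y => (ofCart lam a b c).α p q y * Z q v y) x)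
      = (∑ i, pd i (G i) x) - 3 * rho2 x * ∑ i, x i * G i x := by
    have h1 : ∀ p, ∑ q, Z p (fun y => (ofCart lam a b c).α p q y * Z q v y) x
        = ∑ i, ((rho2 x * (Zm p x) i) * Z p (G i) x + G i x * Z p (fun y => rho2 y * (Zm p y) i) x) := by
      intro p
      rw [← c3_Z_sum p Finset.univ (u := fun q y => (ofCart lam a b c).α p q y * Z q v y)
        (fun q _ => (hd (hα p q) x).mul (hd (contDiff_Z q hv) x))]
      rw [c3_Z_congr p (hopen.mono fun y hy => hloc p y hy)]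
      rw [c3_Z_sum p Finset.univ (u := fun i y => (rho2 y * (Zm p y) i) * G i y)
        (fun i _ => (hd (hρZ p i) x).mul (hd (hGs i) x))]
      refine Finset.sum_congr rfl fun i _ => ?_
      exact Z_mul p (u := fun y => rho2 y * (Zm p y) i) (v := G i) (hd (hρZ p i) x) (hd (hGs i) x)
    simp only [h1, Finset.sum_add_distrib]
    have h2 : ∑ p, ∑ i, (rho2 x * (Zm p x) i) * Z p (G i) x = ∑ i, pd i (G i) x := by
      rw [Finset.sum_comm]
      refine Finset.sum_congr rfl fun i _ => ?_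
      rw [← c3_pd hx i (G i), Finset.mul_sum]
      refine Finset.sum_congr rfl fun p _ => ?_
      ring
    have h3 : ∑ p, ∑ i, G i x * Z p (fun y => rho2 y * (Zm p y) i) x = -(3 * rho2 x * ∑ i, x i * G i x) := by
      rw [Finset.sum_comm]
      simp only [← Finset.mul_sum, div_frame hx]
      rw [Finset.mul_sum, ← Finset.sum_neg_distrib]
      refine Finset.sum_congr rfl fun i _ => ?_
      ring
    rw [h2, h3]
    ring
  have hGd : ∀ i, pd i (G i) x = ∑ j, (pd i (a i j) x * pd j v x + a i j x * pd i (pd j v) x) := by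
    intro i
    have h1 : ∀ j, DifferentiableAt ℝ (fun y => a i j y * pd j v y) x :=
      fun j => (hd (ha i j) x).mul (hd (contDiff_pd j hv) x)
    have h2 : pd i (G i) x = ∑ j, pd i (fun y => a i j y * pd j v y) x := by
      show fderiv ℝ (fun y => ∑ j, a i j y * pd j v y) x _ = _
      rw [fderiv_fun_sum fun j _ => h1 j]
      simp [pd]
    rw [h2]
    refine Finset.sum_congr rfl fun j _ => ?_
    have h3 : pd i (fun y => a i j y * pd j v y) x
        = a i j x * pd i (pd j v) x + pd j v x * pd i (a i j) x := by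
      show fderiv ℝ (fun y => a i j y * pd j v y) x _ = _
      rw [fderiv_fun_mul (hd (ha i j) x) (hd (contDiff_pd j hv) x)]
      rfl
    rw [h3]
    ring
  have hβ : ∑ q, (ofCart lam a b c).β q x * Z q v x
      = 3 * rho2 x * (∑ i, x i * G i x) + ∑ j, (b j x - ∑ i, pd i (a i j) x) * pd j v x := by
    have h1 : ∀ q, (ofCart lam a b c).β q x * Z q v x
        = (∑ i, ∑ j, 3 * rho2 x * x i * a i j x * (rho2 x * ((Zm q x) j * Z q v x)))
          + ∑ j, (b j x - ∑ i, pd i (a i j) x) * (rho2 x * ((Zm q x) j * Z q v x)) := by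
      intro q
      unfold ofCart
      simp only
      rw [add_mul]
      congr 1
      · simp only [Finset.mul_sum, Finset.sum_mul]
        refine Finset.sum_congr rfl fun i _ => Finset.sum_congr rfl fun j _ => ?_
        ring
      · rw [Finset.mul_sum, Finset.sum_mul]
        refine Finset.sum_congr rfl fun j _ => ?_
        ring
    have h2 : ∀ j, ∑ q, (rho2 x * ((Zm q x) j * Z q v x)) = pd j v x := by
      intro j
      rw [← c3_pd hx j v, Finset.mul_sum]
    simp only [h1, Finset.sum_add_distrib]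
    congr 1
    · rw [Finset.sum_comm, Finset.mul_sum]
      refine Finset.sum_congr rfl fun i _ => ?_
      rw [Finset.sum_comm, hG]
      simp only [Finset.mul_sum]
      refine Finset.sum_congr rfl fun j _ => ?_
      rw [← h2 j, Finset.mul_sum, Finset.mul_sum, Finset.mul_sum]
      refine Finset.sum_congr rfl fun q _ => ?_
      ring
    · rw [Finset.sum_comm]
      refine Finset.sum_congr rfl fun j _ => ?_
      rw [← Finset.mul_sum, h2]
  unfold Op.ap Lc
  rw [hfirst, hβ]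
  simp only [hGd, Finset.sum_add_distrib]
  have h5 : ∑ j, (b j x - ∑ i, pd i (a i j) x) * pd j v x
      = (∑ i, b i x * pd i v x) - ∑ i, ∑ j, pd i (a i j) x * pd j v x := by
    rw [Finset.sum_comm (f := fun i j => pd i (a i j) x * pd j v x), ← Finset.sum_sub_distrib]
    refine Finset.sum_congr rfl fun j _ => ?_
    rw [sub_mul, Finset.sum_mul]
  rw [h5]
  have h6 : (ofCart lam a b c).γ x = c x := rfl
  rw [h6]
  ring

end UMB.Lin
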