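import Pool.Agent.Lib.UMB.Lin.L3
import Pool.Agent.Lib.UMB.Lin.C3

set_option autoImplicit false

/-! # UMB.Lin, chunk L4 (the equation in the limit) -/

open scoped ContDiff BigOperators Topology
open Set MeasureTheory Filter Pool.Agent.Lib.PenroseSph

namespace UMB.Lin

/-- CHUNK L4 (S/M), first statement. `Lc a b 0 (w n) x -> Lc a b 0 v x` for every `x` in the open annulus (words of length one and two,
`l3_smooth`; `pd i (pd j v) = Dw [i, j] v`). -/
theorem l4_Lc {R : ℝ} (hR : 1 < R) {w : ℕ → E3 → ℝ} {v : E3 → ℝ} (h : SLim R w v) (a : Fin 3 → Fin 3 → E3 → ℝ)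
    (b : Fin 3 → E3 → ℝ) {x : E3} (hx : x ∈ Ann R) :
    Tendsto (fun n => Lc a b (fun _ => 0) (w n) x) atTop (𝓝 (Lc a b (fun _ => 0) v x)) := by
  have hs := (l3_smooth hR h).2.2
  have h1 : ∀ i, Tendsto (fun n => pd i (w n) x) atTop (𝓝 (pd i v x)) := fun i => (hs [i]).tendsto_at hx
  have h2 : ∀ i j, Tendsto (fun n => pd i (pd j (w n)) x) atTop (𝓝 (pd i (pd j v) x)) :=
    fun i j => (hs [i, j]).tendsto_at hx
  unfold Lc
  refine (Tendsto.add (tendsto_finsetSum _ fun i _ => tendsto_finsetSum _ fun j _ => ?_)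
    (tendsto_finsetSum _ fun i _ => ?_)).add ?_
  · exact (h2 i j).const_mul _
  · exact (h1 i).const_mul _
  · have h3 : Tendsto (fun n : ℕ => (0 : ℝ) * w n x) atTop (𝓝 (0 * v x)) := by
      simp only [zero_mul]
      exact tendsto_const_nhds
    exact h3

/-- CHUNK L4 (S/M), second statement. If `H R k (L w_n - f) -> 0` for all `k` then `L v = f` inside: `sobolev` (`H R 3`) gives uniform
convergence of `L.ap (w n) - f` to zero on `cAnn R`, `ofCart_ap` identifies `L.ap (w n)` with `Lc a b 0 (w n)` on the annulus,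
`l4_Lc`, uniqueness of limits. -/
theorem l4_eq {R lam : ℝ} (hR : 1 < R) {B : ℕ → ℝ} {a : Fin 3 → Fin 3 → E3 → ℝ} {b : Fin 3 → E3 → ℝ}
    (hab : CBd R lam B a b) {w : ℕ → E3 → ℝ} {v f : E3 → ℝ} (hf : ContDiff ℝ ∞ f) (h : SLim R w v)
    (hL : ∀ k, Tendsto (fun n => H R k (fun x => (ofCart lam a b (fun _ => 0)).ap (w n) x - f x)) atTop (𝓝 0)) :
    ∀ x ∈ Ann R, Lc a b (fun _ => 0) v x = f x := by
  intro x hx
  have hx1 : 1 / 2 < ‖x‖ := by have := hx.1; linarith
  have h1 := l4_Lc hR h a b hx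
  obtain ⟨C, hC, hsob⟩ := sobolev hR
  have hR0 : 0 < R := by linarith
  have hap : ∀ n, (ofCart lam a b (fun _ => 0)).ap (w n) x = Lc a b (fun _ => 0) (w n) x := fun n =>
    ofCart_ap hab.smA (h.smooth n) hx1
  have hsm : ∀ n, ContDiff ℝ ∞ (fun y => (ofCart lam a b (fun _ => 0)).ap (w n) y - f y) := by
    intro n
    exact (contDiff_ap (ofCart_smooth hab.smA hab.smB contDiff_const hab.symm) (h.smooth n)).sub hf
  have h2 : Tendsto (fun n => (ofCart lam a b (fun _ => 0)).ap (w n) x - f x) atTop (𝓝 0) := by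
    refine squeeze_zero_norm (a := fun n => C * H R 3 (fun y => (ofCart lam a b (fun _ => 0)).ap (w n) y - f y)) ?_ ?_
    · intro n
      rw [Real.norm_eq_abs]
      exact hsob _ (hsm n) x (Ann_subset R hx)
    · have := (hL 3).const_mul C
      rwa [mul_zero] at this
  have h3 : Tendsto (fun n => Lc a b (fun _ => 0) (w n) x - f x) atTop (𝓝 (Lc a b (fun _ => 0) v x - f x)) :=
    h1.sub_const _
  have h4 : Lc a b (fun _ => 0) v x - f x = 0 := by
    refine tendsto_nhds_unique h3 ?_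
    simpa only [hap] using h2
  linarith

end UMB.Lin
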