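import Pool.Agent.Lib.UMB.Lin.D4
import Pool.Agent.Lib.UMB.Lin.L4
import Pool.Agent.Lib.UMB.Lin.L1

set_option autoImplicit false

/-! # UMB.Lin: fixed point, definitions and glue -/

open scoped ContDiff BigOperators Topology
open Set MeasureTheory Filter Pool.Agent.Lib.PenroseSph

namespace UMB.Lin

/-- There is a base operator with dense range (helper81: `|x|^2 Laplace`). -/
def BaseOK (R : ℝ) : Prop := ∃ (L0 : Op) (lam0 : ℝ), 0 < lam0 ∧ (∀ m, ∃ B, 0 ≤ B ∧ L0.Good R lam0 B m) ∧ DenseR R L0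

/-- The Cartesian operator `a, b` in the frame. -/
noncomputable def opc (lam : ℝ) (a : Fin 3 → Fin 3 → E3 → ℝ) (b : Fin 3 → E3 → ℝ) : Op := ofCart lam a b (fun _ => 0)

/-- `v` solves the Dirichlet problem with values `1` and `0`, and `w n` is an approximating sequence. -/
structure DSol (R : ℝ) (a : Fin 3 → Fin 3 → E3 → ℝ) (b : Fin 3 → E3 → ℝ) (w : ℕ → E3 → ℝ) (v : E3 → ℝ) : Prop where
  slim : SLim R w v
  one : ∀ n x, ‖x‖ = 1 → w n x = 1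
  zero : ∀ n x, ‖x‖ = R → w n x = 0
  eq : ∀ x ∈ Ann R, Lc a b (fun _ => 0) v x = 0

/-- Order interval of continuous functions. -/
def KK (R : ℝ) (lo hi v : E3 → ℝ) : Prop := ContinuousOn v (cAnn R) ∧ ∀ x ∈ cAnn R, lo x ≤ v x ∧ v x ≤ hi x

/-- A coefficient map on an order interval: uniform bounds of all derivatives, continuity in the sup norm, invariance. -/
structure CMap (R lam : ℝ) (B : ℕ → ℝ) (lo hi : E3 → ℝ) (a : (E3 → ℝ) → Fin 3 → Fin 3 → E3 → ℝ)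
    (b : (E3 → ℝ) → Fin 3 → E3 → ℝ) : Prop where
  clo : ContinuousOn lo (cAnn R)
  chi : ContinuousOn hi (cAnn R)
  lohi : ∀ x ∈ cAnn R, lo x ≤ hi x
  cbd : ∀ v, KK R lo hi v → CBd R lam B (a v) (b v)
  cont : ∀ v, KK R lo hi v → ∀ e : ℝ, 0 < e → ∃ d : ℝ, 0 < d ∧ ∀ v', KK R lo hi v' →
    (∀ x ∈ cAnn R, |v' x - v x| ≤ d) → ∀ x ∈ Ann R, (∀ i j, |a v' i j x - a v i j x| ≤ e) ∧ ∀ i, |b v' i x - b v i x| ≤ e
  inv : ∀ v, KK R lo hi v → ∀ u, C2c R u → (∀ x ∈ Ann R, Lc (a v) (b v) (fun _ => 0) u x = 0) →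
    (∀ x : E3, ‖x‖ = 1 → u x = 1) → (∀ x : E3, ‖x‖ = R → u x = 0) → ∀ x ∈ cAnn R, lo x ≤ u x ∧ u x ≤ hi x

theorem cgood_of_cbd {R lam : ℝ} {B : ℕ → ℝ} {a : Fin 3 → Fin 3 → E3 → ℝ} {b : Fin 3 → E3 → ℝ}
    (h : CBd R lam B a b) : CGood R lam (B 0) a b (fun _ => 0) where
  symm := fun i j x _ => h.symm i j x
  ell := fun x hx => h.ell x (Ann_subset R hx)
  bda := fun i j x hx => h.bdA 0 i j [] (by simp) x (Ann_subset R hx)
  bdb := fun i x hx => h.bdB 0 i [] (by simp) x (Ann_subset R hx)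
  neg := fun _ _ => le_rfl

end UMB.Lin
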