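import Pool.Agent.Lib.UMB.Lin.B
import Pool.Agent.Lib.UMB.Lin.FDefs

/-!
# UMB.Lin, the model operator is a base operator for the continuity method
-/

open scoped ContDiff BigOperators Topology
open Set MeasureTheory Filter Pool.Agent.Lib.PenroseSph

namespace UMB.Lin

theorem b9_const (R c : ℝ) (k : ℕ) : Bd R k |c| (fun _ : E3 => c) := by
  intro w _ x _
  have h0 : ∀ w : List (Fin 4), Zw w (fun _ : E3 => (0 : ℝ)) = fun _ => 0 := by
    intro w
    induction w with
    | nil => rfl
    | cons a w ih =>
      change Z a (Zw w _) = _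
      rw [ih]
      funext y
      exact Z_const a 0 y
  rcases List.eq_nil_or_concat w with h | ⟨w', a, h⟩
  · subst h
    exact le_rfl
  · subst h
    have h1 : Zw (w'.concat a) (fun _ : E3 => c) = Zw w' (Z a (fun _ : E3 => c)) := by
      rw [List.concat_eq_append, Zw_append]
      rfl
    have h2 : Z a (fun _ : E3 => c) = fun _ => 0 := by
      funext y
      exact Z_const a c y
    rw [h1, h2, h0, abs_zero]
    exact abs_nonneg c

theorem L0_good (R : ℝ) (m : ℕ) : L0.Good R 1 1 m where
  toSmooth := L0_smooth
  ell := fun x _ ξ => by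
    have h : ∑ a, ∑ b, L0.α a b x * ξ a * ξ b = ∑ a, ξ a ^ 2 := by
      refine Finset.sum_congr rfl fun a _ => ?_
      simp only [L0, ite_mul, one_mul, zero_mul, Finset.sum_ite_eq, Finset.mem_univ, if_true]
      ring
    rw [h, one_mul]
  bα := fun a b => by
    have h := b9_const R (if a = b then 1 else 0) m
    refine Bd_mono le_rfl ?_ h
    split_ifs <;> simp
  bβ := fun a => by
    have h := b9_const R (if a = 0 then 1 else 0) m
    refine Bd_mono le_rfl ?_ h
    split_ifs <;> simp
  bγ := by
    refine Bd_mono le_rfl ?_ (b9_const R 0 m)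
    simp
  neg := fun _ _ => le_rfl

/-- The model operator `|x|^2 Δ` is a base operator. -/
theorem baseOK {R : ℝ} (hR : 1 < R) : BaseOK R :=
  ⟨L0, 1, one_pos, fun m => ⟨1, zero_le_one, L0_good R m⟩,
    fun k _ hf _ he => base hR k hf he⟩

end UMB.Lin
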