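import Pool.Agent.Lib.UMB.Lin.N6
import Pool.Agent.Lib.UMB.Lin.A3

/-! # UMB.Lin, chunk C1: Cartesian operators in the frame, definitions -/

open scoped ContDiff BigOperators
open Set MeasureTheory Pool.Agent.Lib.PenroseSph

namespace UMB.Lin

/-- smooth function equal to `|x|^{-2}` for `|x| ≥ 1/2` and to `0` near the origin -/
noncomputable def rho2 (x : E3) : ℝ := Real.smoothTransition (16 * ‖x‖ ^ 2 / 3 - 1 / 3) / ‖x‖ ^ 2

/-- coefficients of the relation `∑ τ_a Z_a = 0` -/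
noncomputable def tau (a : Fin 4) (x : E3) : ℝ := (![0, x 0, x 1, x 2] : Fin 4 → ℝ) a

/-- a Cartesian second order operator -/
noncomputable def Lc (a : Fin 3 → Fin 3 → E3 → ℝ) (b : Fin 3 → E3 → ℝ) (c : E3 → ℝ)
    (v : E3 → ℝ) : E3 → ℝ := fun x =>
  (∑ i, ∑ j, a i j x * pd i (pd j v) x) + (∑ i, b i x * pd i v x) + c x * v x

/-- the same operator in the frame -/
noncomputable def ofCart (lam : ℝ) (a : Fin 3 → Fin 3 → E3 → ℝ) (b : Fin 3 → E3 → ℝ)
    (c : E3 → ℝ) : Op where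
  α := fun p q x => rho2 x ^ 2 *
    ((∑ i, ∑ j, (Zm p x) i * a i j x * (Zm q x) j) + lam * tau p x * tau q x)
  β := fun q x => 3 * rho2 x ^ 2 * (∑ i, ∑ j, x i * a i j x * (Zm q x) j)
    + rho2 x * ∑ j, (b j x - ∑ i, pd i (a i j) x) * (Zm q x) j
  γ := c

end UMB.Lin
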