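import Pool.Agent.Lib.UMB.Lin.C3

/-! # UMB.Lin, chunk C4: uniform ellipticity of the operator in the frame -/

open scoped ContDiff BigOperators
open Set MeasureTheory Pool.Agent.Lib.PenroseSph

namespace UMB.Lin

theorem c4_alg (z : Fin 4 → Fin 3 → ℝ) (A : Fin 3 → Fin 3 → ℝ) (τ ξ : Fin 4 → ℝ) (r lam : ℝ) :
    ∑ p, ∑ q, (r ^ 2 * ((∑ i, ∑ j, z p i * A i j * z q j) + lam * τ p * τ q)) * ξ p * ξ q
      = r ^ 2 * ((∑ i, ∑ j, A i j * (∑ p, ξ p * z p i) * (∑ p, ξ p * z p j))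
        + lam * (∑ p, τ p * ξ p) ^ 2) := by
  simp only [Fin.sum_univ_four, Fin.sum_univ_three]
  ring

theorem c4_tau (ξ : Fin 4 → ℝ) (x : E3) :
    ∑ p, tau p x * ξ p = ∑ j : Fin 3, ξ j.succ * x j := by
  simp [tau, Fin.sum_univ_four, Fin.sum_univ_three, mul_comm]

theorem c4_norm (ξ : Fin 4 → ℝ) (x : E3) :
    ∑ i, (∑ p, ξ p * (Zm p x) i) ^ 2
      = ‖x‖ ^ 2 * ∑ a, ξ a ^ 2 - (∑ j : Fin 3, ξ j.succ * x j) ^ 2 := by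
  rw [← frame_norm, EuclideanSpace.real_norm_sq_eq]
  refine Finset.sum_congr rfl fun i _ => ?_
  simp

/-- ellipticity: with `P = ∑ ξ_p Zm p x`, `|P|^2 = |x|^2 |ξ|^2 - (τ . ξ)^2` (`frame_norm`),
`∑ α_pq ξ_p ξ_q = ρ^2 (a(P,P) + lam (τ.ξ)^2) ≥ ρ^2 lam |x|^2 |ξ|^2 = lam |ξ|^2 / |x|^2`. -/
theorem ofCart_ell {R lam : ℝ} (hlam : 0 < lam) {a : Fin 3 → Fin 3 → E3 → ℝ}
    {b : Fin 3 → E3 → ℝ} {c : E3 → ℝ} {x : E3} (hx : x ∈ cAnn R)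
    (hell : ∀ ζ : Fin 3 → ℝ, lam * ∑ i, ζ i ^ 2 ≤ ∑ i, ∑ j, a i j x * ζ i * ζ j)
    (ξ : Fin 4 → ℝ) :
    lam / R ^ 2 * ∑ p, ξ p ^ 2 ≤ ∑ p, ∑ q, (ofCart lam a b c).α p q x * ξ p * ξ q := by
  have h1 : ∑ p, ∑ q, (ofCart lam a b c).α p q x * ξ p * ξ q
      = rho2 x ^ 2 * ((∑ i, ∑ j, a i j x * (∑ p, ξ p * (Zm p x) i) * (∑ p, ξ p * (Zm p x) j))
        + lam * (∑ p, tau p x * ξ p) ^ 2) :=
    c4_alg (fun p i => (Zm p x) i) (fun i j => a i j x) (fun p => tau p x) ξ (rho2 x) lam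
  rw [h1, c4_tau]
  have h2 := hell fun i => ∑ p, ξ p * (Zm p x) i
  rw [c4_norm] at h2
  have hx1 : 1 ≤ ‖x‖ := hx.1
  have hx2 : ‖x‖ ≤ R := hx.2
  have hx0 : 0 < ‖x‖ := by linarith
  have hR0 : 0 < R := by linarith
  rw [rho2_eq (by linarith : 1 / 2 ≤ ‖x‖)]
  have hS : 0 ≤ ∑ p, ξ p ^ 2 := Finset.sum_nonneg fun p _ => sq_nonneg _
  have h3 : lam * (‖x‖ ^ 2 * ∑ p, ξ p ^ 2)
      ≤ (∑ i, ∑ j, a i j x * (∑ p, ξ p * (Zm p x) i) * (∑ p, ξ p * (Zm p x) j))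
        + lam * (∑ j : Fin 3, ξ j.succ * x j) ^ 2 := by
    linarith
  calc lam / R ^ 2 * ∑ p, ξ p ^ 2 ≤ lam / ‖x‖ ^ 2 * ∑ p, ξ p ^ 2 := by
        refine mul_le_mul_of_nonneg_right ?_ hS
        exact div_le_div_of_nonneg_left hlam.le (by positivity) (by gcongr)
    _ = (1 / ‖x‖ ^ 2) ^ 2 * (lam * (‖x‖ ^ 2 * ∑ p, ξ p ^ 2)) := by
        field_simp
    _ ≤ _ := mul_le_mul_of_nonneg_left h3 (by positivity)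

end UMB.Lin
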