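import Pool.Agent.Lib.UMB.Lin.C4

/-! # UMB.Lin, chunk C5: uniform bounds of the operator in the frame -/

open scoped ContDiff BigOperators
open Set MeasureTheory Pool.Agent.Lib.PenroseSph

namespace UMB.Lin

/-- words only see the germ along the region `|x| > 1/2` -/
theorem c5_Zw_congr {u v : E3 → ℝ} (h : ∀ x : E3, 1 / 2 < ‖x‖ → u x = v x) (w : List (Fin 4)) :
    ∀ x : E3, 1 / 2 < ‖x‖ → Zw w u x = Zw w v x := by
  induction w with
  | nil => exact h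
  | cons a w ih =>
    intro x hx
    have hopen : ∀ᶠ y in nhds x, 1 / 2 < ‖y‖ := continuous_norm.continuousAt.eventually (lt_mem_nhds hx)
    exact c3_Z_congr a (hopen.mono fun y hy => ih y hy)

theorem c5_Bd_congr {R B : ℝ} {k : ℕ} {u v : E3 → ℝ} (h : ∀ x : E3, 1 / 2 < ‖x‖ → u x = v x)
    (hv : Bd R k B v) : Bd R k B u := by
  intro w hw x hx
  have hx1 : 1 ≤ ‖x‖ := hx.1
  rw [c5_Zw_congr h w x (by linarith)]
  exact hv w hw x hx

theorem c5_fam (R : ℝ) (m : ℕ) {ι : Type} [Fintype ι] (f : ι → E3 → ℝ) (hf : ∀ i, ContDiff ℝ ∞ (f i)) :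
    ∃ K, 0 ≤ K ∧ ∀ i, Bd R m K (f i) := by
  choose Bf h0 hB using fun i => Bd_exists R m (hf i)
  exact ⟨∑ i, Bf i, Finset.sum_nonneg fun i _ => h0 i, fun i =>
    Bd_mono le_rfl (Finset.single_le_sum (fun j _ => h0 j) (Finset.mem_univ i)) (hB i)⟩

theorem c5_sum {R C : ℝ} (m : ℕ) {ι : Type} (s : Finset ι) {u : ι → E3 → ℝ}
    (hu : ∀ i, ContDiff ℝ ∞ (u i)) (hB : ∀ i, Bd R m C (u i)) :
    Bd R m ((s.card : ℝ) * C) (fun x => ∑ i ∈ s, u i x) := by
  classical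
  induction s using Finset.induction_on with
  | empty =>
    have h0 : ∀ w : List (Fin 4), Zw w (fun _ : E3 => (0 : ℝ)) = fun _ => 0 := by
      intro w
      induction w with
      | nil => rfl
      | cons a w ih =>
        show Z a (Zw w _) = _
        rw [ih]
        funext x
        simp [Z]
    intro w _ x _
    have h1 : (fun x : E3 => ∑ i ∈ (∅ : Finset ι), u i x) = fun _ => 0 := by
      funext x
      simp
    rw [h1, h0]
    simp
  | insert i s hi ih =>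
    have h1 : (fun x => ∑ j ∈ insert i s, u j x) = fun x => u i x + ∑ j ∈ s, u j x := by
      funext x
      rw [Finset.sum_insert hi]
    rw [h1, Finset.card_insert_of_notMem hi]
    have h2 := Bd_add m (hu i) (ContDiff.sum fun j (_ : j ∈ s) => hu j) (hB i) ih
    refine Bd_mono le_rfl (le_of_eq ?_) h2
    push_cast
    ring

theorem c5_lin {R K B : ℝ} (hK : 0 ≤ K) (hB : 0 ≤ B) (m : ℕ) {ι : Type} [Fintype ι] {φ u : ι → E3 → ℝ}
    (hφ : ∀ i, ContDiff ℝ ∞ (φ i)) (hu : ∀ i, ContDiff ℝ ∞ (u i)) (hφB : ∀ i, Bd R m K (φ i))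
    (huB : ∀ i, Bd R m B (u i)) :
    Bd R m ((Fintype.card ι : ℝ) * (2 ^ m * K * B)) (fun x => ∑ i, φ i x * u i x) :=
  c5_sum m Finset.univ (fun i => (hφ i).mul (hu i)) (fun i => Bd_mul hK hB m (hφ i) (hu i) (hφB i) (huB i))

/-- bounds of all derivatives: the coefficients are sums of products of the fixed smooth functions
`rho2, tau, (Zm p x) i, x i` with `a, pd a, b, c`; `Bd_mul`, `Bd_add`, `Bd_exists`, and for
`pd i (a i j)` the formula `∂_i = ρ ∑ (Zm a)_i Z_a` (or `Dw_of_Bd`, `Bd_of_Dw`). -/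
theorem ofCart_good {R : ℝ} (hR : 1 < R) {lam B : ℝ} (hlam : 0 < lam) (hB : 0 ≤ B) (m : ℕ) :
    ∃ B', 0 ≤ B' ∧ ∀ (a : Fin 3 → Fin 3 → E3 → ℝ) (b : Fin 3 → E3 → ℝ) (c : E3 → ℝ),
      (∀ i j, ContDiff ℝ ∞ (a i j)) → (∀ i, ContDiff ℝ ∞ (b i)) → ContDiff ℝ ∞ c →
      (∀ i j x, a i j x = a j i x) →
      (∀ x ∈ cAnn R, ∀ ζ : Fin 3 → ℝ, lam * ∑ i, ζ i ^ 2 ≤ ∑ i, ∑ j, a i j x * ζ i * ζ j) →
      (∀ i j, Bd R (m + 1) B (a i j)) → (∀ i, Bd R m B (b i)) → Bd R m B c →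
      (∀ x ∈ cAnn R, c x ≤ 0) → (ofCart lam a b c).Good R (lam / R ^ 2) B' m := by
  -- fixed smooth functions
  let f1 : Fin 4 × Fin 4 × Fin 3 × Fin 3 → E3 → ℝ := fun s x =>
    rho2 x ^ 2 * ((Zm s.1 x) s.2.2.1 * (Zm s.2.1 x) s.2.2.2)
  let f2 : Fin 4 × Fin 4 → E3 → ℝ := fun s x => lam * rho2 x ^ 2 * (tau s.1 x * tau s.2 x)
  let f3 : Fin 4 × Fin 3 × Fin 3 → E3 → ℝ := fun s x => 3 * rho2 x ^ 2 * (x s.2.1 * (Zm s.1 x) s.2.2)
  let f4 : Fin 4 × Fin 3 → E3 → ℝ := fun s x => rho2 x * (Zm s.1 x) s.2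
  let f5 : Fin 4 × Fin 4 × Fin 3 × Fin 3 → E3 → ℝ := fun s x =>
    -(rho2 x ^ 2 * ((Zm s.1 x) s.2.2.1 * (Zm s.2.1 x) s.2.2.2))
  have s1 : ∀ s, ContDiff ℝ ∞ (f1 s) := fun s =>
    (contDiff_rho2.pow 2).mul ((c3_contDiff_Zm _ _).mul (c3_contDiff_Zm _ _))
  have s2 : ∀ s, ContDiff ℝ ∞ (f2 s) := fun s =>
    (contDiff_const.mul (contDiff_rho2.pow 2)).mul ((contDiff_tau _).mul (contDiff_tau _))
  have s3 : ∀ s, ContDiff ℝ ∞ (f3 s) := fun s =>
    (contDiff_const.mul (contDiff_rho2.pow 2)).mul ((c3_contDiff_coord _).mul (c3_contDiff_Zm _ _))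
  have s4 : ∀ s, ContDiff ℝ ∞ (f4 s) := fun s => contDiff_rho2.mul (c3_contDiff_Zm _ _)
  have s5 : ∀ s, ContDiff ℝ ∞ (f5 s) := fun s => (s1 s).neg
  obtain ⟨K1, K10, hK1⟩ := c5_fam R m f1 s1
  obtain ⟨K2, K20, hK2⟩ := c5_fam R m f2 s2
  obtain ⟨K3, K30, hK3⟩ := c5_fam R m f3 s3
  obtain ⟨K4, K40, hK4⟩ := c5_fam R m f4 s4
  obtain ⟨K5, K50, hK5⟩ := c5_fam R m f5 s5
  refine ⟨9 * (2 ^ m * K1 * B) + K2 + (9 * (2 ^ m * K3 * B) + 3 * (2 ^ m * K4 * B) + 36 * (2 ^ m * K5 * B)) + B,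
    by positivity, ?_⟩
  intro a b c ha hb hc hs hell hBa hBb hBc hneg
  have hBa' : ∀ i j, Bd R m B (a i j) := fun i j => Bd_mono (Nat.le_succ m) le_rfl (hBa i j)
  refine ⟨ofCart_smooth ha hb hc hs, ?_, ?_, ?_, ?_, hneg⟩
  · intro x hx ξ
    exact ofCart_ell hlam hx (hell x hx) ξ
  · intro p q
    have h1 := c5_lin (R := R) (K := K1) (B := B) K10 hB m (ι := Fin 3 × Fin 3)
      (φ := fun s => f1 (p, q, s.1, s.2)) (u := fun s => a s.1 s.2)
      (fun s => s1 _) (fun s => ha _ _) (fun s => hK1 _) (fun s => hBa' _ _)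
    have h2 := Bd_add m (ContDiff.sum fun s _ => (s1 _).mul (ha _ _)) (s2 (p, q)) h1 (hK2 (p, q))
    have e : (ofCart lam a b c).α p q
        = fun x => (∑ s : Fin 3 × Fin 3, f1 (p, q, s.1, s.2) x * a s.1 s.2 x) + f2 (p, q) x := by
      funext x
      unfold ofCart
      simp only [f1, f2, Fintype.sum_prod_type]
      rw [mul_add, Finset.mul_sum]
      congr 1
      · refine Finset.sum_congr rfl fun i _ => ?_
        rw [Finset.mul_sum]
        refine Finset.sum_congr rfl fun j _ => ?_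
        ring
      · ring
    rw [e]
    refine Bd_mono le_rfl ?_ h2
    have hc9 : ((Fintype.card (Fin 3 × Fin 3) : ℕ) : ℝ) = 9 := by
      simp
    rw [hc9]
    have : 0 ≤ 9 * (2 ^ m * K3 * B) + 3 * (2 ^ m * K4 * B) + 36 * (2 ^ m * K5 * B) := by positivity
    linarith
  · intro q
    have h1 := c5_lin (R := R) (K := K3) (B := B) K30 hB m (ι := Fin 3 × Fin 3)
      (φ := fun s => f3 (q, s.1, s.2)) (u := fun s => a s.1 s.2)
      (fun s => s3 _) (fun s => ha _ _) (fun s => hK3 _) (fun s => hBa' _ _)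
    have h2 := c5_lin (R := R) (K := K4) (B := B) K40 hB m (ι := Fin 3)
      (φ := fun j => f4 (q, j)) (u := fun j => b j)
      (fun s => s4 _) (fun s => hb _) (fun s => hK4 _) (fun s => hBb _)
    have h3 := c5_lin (R := R) (K := K5) (B := B) K50 hB m (ι := Fin 4 × Fin 3 × Fin 3)
      (φ := fun s => f5 (s.1, q, s.2.1, s.2.2)) (u := fun s => Z s.1 (a s.2.1 s.2.2))
      (fun s => s5 _) (fun s => contDiff_Z _ (ha _ _)) (fun s => hK5 _) (fun s => Bd_Z (hBa _ _) _)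
    have h12 := Bd_add m (ContDiff.sum fun s _ => (s3 _).mul (ha _ _)) (ContDiff.sum fun s _ => (s4 _).mul (hb _)) h1 h2
    have h123 := Bd_add m ((ContDiff.sum fun s _ => (s3 _).mul (ha _ _)).add
      (ContDiff.sum fun s _ => (s4 _).mul (hb _)))
      (ContDiff.sum fun s _ => (s5 _).mul (contDiff_Z _ (ha _ _))) h12 h3
    have e : ∀ x : E3, 1 / 2 < ‖x‖ → (ofCart lam a b c).β q x
        = (∑ s : Fin 3 × Fin 3, f3 (q, s.1, s.2) x * a s.1 s.2 x) + (∑ j, f4 (q, j) x * b j x)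
          + ∑ s : Fin 4 × Fin 3 × Fin 3, f5 (s.1, q, s.2.1, s.2.2) x * Z s.1 (a s.2.1 s.2.2) x := by
      intro x hx
      have hpd : ∀ i j, pd i (a i j) x = ∑ p, rho2 x * ((Zm p x) i * Z p (a i j) x) := by
        intro i j
        rw [← c3_pd hx i (a i j), Finset.mul_sum]
      unfold ofCart
      simp only [f3, f4, f5, Fintype.sum_prod_type]
      have t1 : 3 * rho2 x ^ 2 * (∑ i, ∑ j, x i * a i j x * (Zm q x) j)
          = ∑ i, ∑ j, 3 * rho2 x ^ 2 * (x i * (Zm q x) j) * a i j x := by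
        rw [Finset.mul_sum]
        refine Finset.sum_congr rfl fun i _ => ?_
        rw [Finset.mul_sum]
        refine Finset.sum_congr rfl fun j _ => ?_
        ring
      have t2 : rho2 x * ∑ j, (b j x - ∑ i, pd i (a i j) x) * (Zm q x) j
          = (∑ j, rho2 x * (Zm q x) j * b j x) - ∑ j, ∑ i, rho2 x * (Zm q x) j * pd i (a i j) x := by
        rw [Finset.mul_sum, ← Finset.sum_sub_distrib]
        refine Finset.sum_congr rfl fun j _ => ?_
        rw [← Finset.mul_sum]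
        ring
      have t3 : ∑ j, ∑ i, rho2 x * (Zm q x) j * pd i (a i j) x
          = - ∑ p, ∑ i, ∑ j, -(rho2 x ^ 2 * ((Zm p x) i * (Zm q x) j)) * Z p (a i j) x := by
        simp only [hpd, Finset.mul_sum]
        rw [Finset.sum_comm]
        have t4 : ∀ i : Fin 3, ∑ j, ∑ p, rho2 x * (Zm q x) j * (rho2 x * ((Zm p x) i * Z p (a i j) x))
            = ∑ p, ∑ j, rho2 x * (Zm q x) j * (rho2 x * ((Zm p x) i * Z p (a i j) x)) := fun i => Finset.sum_comm
        simp only [t4]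
        rw [Finset.sum_comm]
        simp only [← Finset.sum_neg_distrib]
        refine Finset.sum_congr rfl fun p _ => Finset.sum_congr rfl fun i _ => Finset.sum_congr rfl fun j _ => ?_
        ring
      rw [t1, t2, t3]
      ring
    refine c5_Bd_congr e ?_
    refine Bd_mono le_rfl ?_ h123
    have hc9 : ((Fintype.card (Fin 3 × Fin 3) : ℕ) : ℝ) = 9 := by
      simp
    have hc3 : ((Fintype.card (Fin 3) : ℕ) : ℝ) = 3 := by simp
    have hc36 : ((Fintype.card (Fin 4 × Fin 3 × Fin 3) : ℕ) : ℝ) = 36 := by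
      simp
    rw [hc9, hc3, hc36]
    have : 0 ≤ 9 * (2 ^ m * K1 * B) := by positivity
    linarith
  · have h0 : (ofCart lam a b c).γ = c := rfl
    rw [h0]
    refine Bd_mono le_rfl ?_ hBc
    have : 0 ≤ 9 * (2 ^ m * K1 * B) + K2
      + (9 * (2 ^ m * K3 * B) + 3 * (2 ^ m * K4 * B) + 36 * (2 ^ m * K5 * B)) := by positivity
    linarith

end UMB.Lin
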