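import Mathlib

set_option autoImplicit false

/-! # UMB.Lin, chunk D1 (continuity method for dense range, abstract) -/

namespace UMB.Lin

theorem d1_step {V W : Type*} [AddCommGroup V] [Module ℝ V] [AddCommGroup W] [Module ℝ W]
    (N : W → ℝ) (hN0 : ∀ w, 0 ≤ N w) (hNa : ∀ w w', N (w + w') ≤ N w + N w')
    (hNm : ∀ (c : ℝ) w, N (c • w) = |c| * N w) (A A' : V →ₗ[ℝ] W)
    (hA : ∀ (w : W) (e : ℝ), 0 < e → ∃ v, N (A v - w) < e)
    (h : ∀ v, N (A' v - A v) ≤ 1 / 2 * N (A v)) :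
    ∀ (w : W) (e : ℝ), 0 < e → ∃ v, N (A' v - w) < e := by
  have hneg : ∀ w, N (-w) = N w := fun w => by
    have := hNm (-1) w
    simpa using this
  have step : ∀ (w : W) (e : ℝ), 0 < e → ∃ v, N (w - A' v) ≤ N w / 2 + e := by
    intro w e he
    obtain ⟨v, hv⟩ := hA w (e / 2) (by positivity)
    refine ⟨v, ?_⟩
    have h1 : N (A v) ≤ N w + e / 2 := by
      have : A v = w + (A v - w) := by abel
      calc N (A v) = N (w + (A v - w)) := by rw [← this]
        _ ≤ N w + N (A v - w) := hNa _ _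
        _ ≤ N w + e / 2 := by linarith
    have h2 : w - A' v = -(A v - w) + -(A' v - A v) := by abel
    calc N (w - A' v) = N (-(A v - w) + -(A' v - A v)) := by rw [h2]
      _ ≤ N (-(A v - w)) + N (-(A' v - A v)) := hNa _ _
      _ = N (A v - w) + N (A' v - A v) := by rw [hneg, hneg]
      _ ≤ e / 2 + 1 / 2 * (N w + e / 2) := by
          have := h v
          have h3 : 1 / 2 * N (A v) ≤ 1 / 2 * (N w + e / 2) := by linarith
          linarith
      _ ≤ N w / 2 + e := by linarith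
  have iter : ∀ (n : ℕ) (w : W) (e : ℝ), 0 < e → ∃ v, N (w - A' v) ≤ N w / 2 ^ n + 2 * e := by
    intro n
    induction n with
    | zero =>
      intro w e he
      exact ⟨0, by simp; linarith⟩
    | succ n ih =>
      intro w e he
      obtain ⟨v, hv⟩ := ih w e he
      obtain ⟨u, hu⟩ := step (w - A' v) e he
      refine ⟨v + u, ?_⟩
      have : w - A' (v + u) = w - A' v - A' u := by rw [map_add]; abel
      rw [this]
      have h5 : N w / 2 ^ (n + 1) = N w / 2 ^ n / 2 := by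
        rw [pow_succ]; field_simp
      rw [h5]
      linarith
  intro w e he
  obtain ⟨n, hn⟩ : ∃ n : ℕ, N w / 2 ^ n < e / 2 := by
    obtain ⟨n, hn⟩ := pow_unbounded_of_one_lt (N w / (e / 2)) (one_lt_two : (1 : ℝ) < 2)
    refine ⟨n, ?_⟩
    rw [div_lt_iff₀ (by positivity)]
    rw [div_lt_iff₀ (by positivity)] at hn
    linarith
  obtain ⟨v, hv⟩ := iter n w (e / 8) (by positivity)
  refine ⟨v, ?_⟩
  have : A' v - w = -(w - A' v) := by abel
  rw [this, hneg]
  linarith

/-- CHUNK D1 (M). Continuity method in the form `dense range`, no completeness. `L_t = (1-t) L0 + t L1`.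
(The hypothesis `0 ≤ C'` was added by the prover: without it the statement is false.)
PROOF. Let `P t` be: for all `w`, `e > 0` there is `v` with `N (L_t v - w) < e`. `P 0` is `h0`. Let `eta > 0` with
`eta * C' * C <= 1/2`. CLAIM: `P t` and `|t' - t| <= eta`, `t, t'` in `[0,1]` imply `P t'`. Given `w` and `e`: if
`N (L_t v - w) <= e/8` then `L_t' v - w = (L_t v - w) + (t' - t) (L1 v - L0 v)` and
`N ((t'-t)(L1 v - L0 v)) <= |t'-t| C' M v <= |t'-t| C' C N (L_t v) <= (N w + e/8)/2`, so the residual `w' = w - L_t' v` has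
`N w' <= N w/2 + e/4`. Iterate `n` times (induction on `n`: there is `v` with `N (w - L_t' v) <= N w / 2^n + e/2`; linearity of
`L_t'`), choose `n` with `N w / 2^n < e/2`. Finally reach `t = 1` from `t = 0` in finitely many steps `t = j/m`,
`1/m <= eta` (induction on `j`). -/
theorem d1_dense {V W : Type*} [AddCommGroup V] [Module ℝ V] [AddCommGroup W] [Module ℝ W]
    (N : W → ℝ) (M : V → ℝ) (L0 L1 : V →ₗ[ℝ] W) (hN0 : ∀ w, 0 ≤ N w) (hNa : ∀ w w', N (w + w') ≤ N w + N w')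
    (hNm : ∀ (c : ℝ) w, N (c • w) = |c| * N w) (C C' : ℝ) (hC' : 0 ≤ C')
    (h1 : ∀ t : ℝ, 0 ≤ t → t ≤ 1 → ∀ v, M v ≤ C * N ((1 - t) • L0 v + t • L1 v))
    (h2 : ∀ v, N (L1 v - L0 v) ≤ C' * M v) (h0 : ∀ (w : W) (e : ℝ), 0 < e → ∃ v, N (L0 v - w) < e) :
    ∀ (w : W) (e : ℝ), 0 < e → ∃ v, N (L1 v - w) < e := by
  let Lt : ℝ → V →ₗ[ℝ] W := fun t => (1 - t) • L0 + t • L1
  have hLt : ∀ t v, Lt t v = (1 - t) • L0 v + t • L1 v := fun t v => by simp [Lt]
  obtain ⟨m, hm⟩ := exists_nat_gt (2 * C' * max C 0)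
  have hmp : (0 : ℝ) < (m : ℝ) + 1 := by positivity
  have key : ∀ j : ℕ, j ≤ m + 1 →
      ∀ (w : W) (e : ℝ), 0 < e → ∃ v, N (Lt ((j : ℝ) / ((m : ℝ) + 1)) v - w) < e := by
    intro j
    induction j with
    | zero =>
      intro _ w e he
      obtain ⟨v, hv⟩ := h0 w e he
      refine ⟨v, ?_⟩
      rw [hLt]
      simpa using hv
    | succ j ih =>
      intro hj
      have hj' : j ≤ m + 1 := by omega
      refine d1_step N hN0 hNa hNm (Lt ((j : ℝ) / ((m : ℝ) + 1))) _ (ih hj') ?_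
      intro v
      set t : ℝ := (j : ℝ) / ((m : ℝ) + 1) with ht
      have ht0 : 0 ≤ t := by positivity
      have ht1 : t ≤ 1 := by
        rw [ht, div_le_one hmp]
        exact_mod_cast hj'
      have hdiff : Lt (((j + 1 : ℕ) : ℝ) / ((m : ℝ) + 1)) v - Lt t v
          = (1 / ((m : ℝ) + 1)) • (L1 v - L0 v) := by
        have e1 : ((j + 1 : ℕ) : ℝ) / ((m : ℝ) + 1) = t + 1 / ((m : ℝ) + 1) := by
          rw [ht]; push_cast; ring
        rw [e1, hLt, hLt]
        module
      rw [hdiff, hNm, abs_of_nonneg (by positivity)]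
      have h3 : M v ≤ max C 0 * N (Lt t v) := by
        rw [hLt]
        exact (h1 t ht0 ht1 v).trans (mul_le_mul_of_nonneg_right (le_max_left _ _) (hN0 _))
      have h4 : N (L1 v - L0 v) ≤ C' * (max C 0 * N (Lt t v)) :=
        (h2 v).trans (mul_le_mul_of_nonneg_left h3 hC')
      have h5 : 1 / ((m : ℝ) + 1) * N (L1 v - L0 v)
          ≤ 1 / ((m : ℝ) + 1) * (C' * (max C 0 * N (Lt t v))) :=
        mul_le_mul_of_nonneg_left h4 (by positivity)
      refine h5.trans ?_
      have h6 : C' * max C 0 ≤ ((m : ℝ) + 1) / 2 := by linarith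
      have h7 : 1 / ((m : ℝ) + 1) * (C' * max C 0) ≤ 1 / 2 := by
        rw [div_mul_eq_mul_div, one_mul, div_le_iff₀ hmp]
        linarith
      calc 1 / ((m : ℝ) + 1) * (C' * (max C 0 * N (Lt t v)))
          = (1 / ((m : ℝ) + 1) * (C' * max C 0)) * N (Lt t v) := by ring
        _ ≤ 1 / 2 * N (Lt t v) := mul_le_mul_of_nonneg_right h7 (hN0 _)
  intro w e he
  obtain ⟨v, hv⟩ := key (m + 1) le_rfl w e he
  refine ⟨v, ?_⟩
  rw [hLt] at hv
  have e2 : (((m + 1 : ℕ) : ℝ)) / ((m : ℝ) + 1) = 1 := by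
    push_cast; exact div_self hmp.ne'
  rw [e2] at hv
  simpa using hv

end UMB.Lin
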