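import Pool.Agent.Lib.UMB.Lin.A3

set_option autoImplicit false

/-! # UMB.Lin, chunk D2 (the path between two operators) -/

open scoped ContDiff BigOperators
open Set MeasureTheory Pool.Agent.Lib.PenroseSph

namespace UMB.Lin

/-- The operator `(1 - t) L0 + t L`. -/
noncomputable def pathOp (L0 L : Op) (t : ℝ) : Op where
  α := fun a b x => (1 - t) * L0.α a b x + t * L.α a b x
  β := fun a x => (1 - t) * L0.β a x + t * L.β a x
  γ := fun x => (1 - t) * L0.γ x + t * L.γ x

/-- CHUNK D2 (S/M), first statement. `ap` is linear in the operator: `Z_sum`, `Z_add`, `Z_const_mul` for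
`y ↦ ((1-t) α0 + t α) Z_b v`, everything is differentiable (`contDiff_Z`). -/
theorem d2_ap {L0 L : Op} (h0 : L0.Smooth) (hL : L.Smooth) (t : ℝ) {v : E3 → ℝ} (hv : ContDiff ℝ ∞ v) (x : E3) :
    (pathOp L0 L t).ap v x = (1 - t) * L0.ap v x + t * L.ap v x := by
  have h1 : ∀ a b : Fin 4, Z a (fun y => (pathOp L0 L t).α a b y * Z b v y) x
      = (1 - t) * Z a (fun y => L0.α a b y * Z b v y) x
        + t * Z a (fun y => L.α a b y * Z b v y) x := by
    intro a b
    have e : (fun y => (pathOp L0 L t).α a b y * Z b v y)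
        = fun y => (1 - t) * (L0.α a b y * Z b v y) + t * (L.α a b y * Z b v y) := by
      funext y
      simp only [pathOp]
      ring
    have c0 : ContDiff ℝ ∞ (fun y => L0.α a b y * Z b v y) := (h0.α a b).mul (contDiff_Z b hv)
    have c1 : ContDiff ℝ ∞ (fun y => L.α a b y * Z b v y) := (hL.α a b).mul (contDiff_Z b hv)
    have d0 := c0.differentiable (by simp) x
    have d1 := c1.differentiable (by simp) x
    rw [e, Z_add a (d0.const_mul (1 - t)) (d1.const_mul t), Z_const_mul a _ d0,
      Z_const_mul a _ d1]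
  unfold Op.ap
  simp only [h1]
  simp only [pathOp, Finset.sum_add_distrib, ← Finset.mul_sum, add_mul]
  simp only [mul_assoc, ← Finset.mul_sum]
  ring

/-- CHUNK D2, second statement. Convex combinations of good operators are good (same constants): `Bd` for
`(1-t) u + t w` from `Bd` for `u` and `w` (induction on the word: `Zw` is linear on smooth functions, or `Bd_add`,
`Bd_const_mul`, `(1-t) B + t B = B`). -/
theorem d2_good {R lam B : ℝ} {m : ℕ} {L0 L : Op} (h0 : L0.Good R lam B m) (hL : L.Good R lam B m) {t : ℝ}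
    (ht0 : 0 ≤ t) (ht1 : t ≤ 1) : (pathOp L0 L t).Good R lam B m := by
  have ht : 0 ≤ 1 - t := by linarith
  have key : ∀ {u w : E3 → ℝ}, ContDiff ℝ ∞ u → ContDiff ℝ ∞ w → Bd R m B u → Bd R m B w →
      Bd R m B (fun x => (1 - t) * u x + t * w x) := by
    intro u w hu hw hBu hBw
    have h := Bd_add m (contDiff_const.mul hu) (contDiff_const.mul hw)
      (Bd_const_mul m (1 - t) hu hBu) (Bd_const_mul m t hw hBw)
    have e : |1 - t| * B + |t| * B = B := by
      rw [abs_of_nonneg ht, abs_of_nonneg ht0]
      ring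
    rwa [e] at h
  exact
    { α := fun a b => (contDiff_const.mul (h0.α a b)).add (contDiff_const.mul (hL.α a b))
      β := fun a => (contDiff_const.mul (h0.β a)).add (contDiff_const.mul (hL.β a))
      γ := (contDiff_const.mul h0.γ).add (contDiff_const.mul hL.γ)
      symm := fun a b x => by
        simp only [pathOp, h0.symm a b x, hL.symm a b x]
      ell := fun x hx ξ => by
        have e0 := mul_le_mul_of_nonneg_left (h0.ell x hx ξ) ht
        have e1 := mul_le_mul_of_nonneg_left (hL.ell x hx ξ) ht0
        have e2 : ∑ a, ∑ b, (pathOp L0 L t).α a b x * ξ a * ξ b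
            = (1 - t) * ∑ a, ∑ b, L0.α a b x * ξ a * ξ b
              + t * ∑ a, ∑ b, L.α a b x * ξ a * ξ b := by
          simp only [pathOp, Finset.mul_sum, ← Finset.sum_add_distrib]
          refine Finset.sum_congr rfl fun a _ => Finset.sum_congr rfl fun b _ => ?_
          ring
        rw [e2]
        nlinarith [e0, e1]
      bα := fun a b => key (h0.α a b) (hL.α a b) (h0.bα a b) (hL.bα a b)
      bβ := fun a => key (h0.β a) (hL.β a) (h0.bβ a) (hL.bβ a)
      bγ := key h0.γ hL.γ h0.bγ hL.bγ
      neg := fun x hx => by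
        have e0 := mul_nonpos_of_nonneg_of_nonpos ht (h0.neg x hx)
        have e1 := mul_nonpos_of_nonneg_of_nonpos ht0 (hL.neg x hx)
        simp only [pathOp]
        linarith }

/-- CHUNK D2, third statement. Monotonicity in the constants. -/
theorem d2_mono {R lam lam' B B' : ℝ} {m : ℕ} {L : Op} (hL : L.Good R lam B m) (h1 : lam' ≤ lam) (h2 : B ≤ B') :
    L.Good R lam' B' m := by
  exact
    { toSmooth := hL.toSmooth
      ell := fun x hx ξ => le_trans (mul_le_mul_of_nonneg_right h1
        (Finset.sum_nonneg fun a _ => sq_nonneg (ξ a))) (hL.ell x hx ξ)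
      bα := fun a b => Bd_mono le_rfl h2 (hL.bα a b)
      bβ := fun a => Bd_mono le_rfl h2 (hL.bβ a)
      bγ := Bd_mono le_rfl h2 hL.bγ
      neg := hL.neg }

/-- CHUNK D2, fourth statement. `ap` is homogeneous: `L (c v) = c L v`. -/
theorem d2_smul {L : Op} (hL : L.Smooth) (c : ℝ) {v : E3 → ℝ} (hv : ContDiff ℝ ∞ v) (x : E3) :
    L.ap (fun y => c * v y) x = c * L.ap v x := by
  have hz : ∀ b : Fin 4, Z b (fun y => c * v y) = fun y => c * Z b v y := by
    intro b
    funext y
    exact Z_const_mul b c (hv.differentiable (by simp) y)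
  have h1 : ∀ a b : Fin 4, Z a (fun y => L.α a b y * Z b (fun y => c * v y) y) x
      = c * Z a (fun y => L.α a b y * Z b v y) x := by
    intro a b
    have e : (fun y => L.α a b y * Z b (fun y => c * v y) y)
        = fun y => c * (L.α a b y * Z b v y) := by
      funext y
      rw [hz]
      ring
    have c1 : ContDiff ℝ ∞ (fun y => L.α a b y * Z b v y) := (hL.α a b).mul (contDiff_Z b hv)
    rw [e, Z_const_mul a _ (c1.differentiable (by simp) x)]
  have h2 : ∀ a : Fin 4, L.β a x * Z a (fun y => c * v y) x = c * (L.β a x * Z a v x) := by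
    intro a
    rw [hz]
    ring
  unfold Op.ap
  simp only [h1, h2, ← Finset.mul_sum]
  ring

end UMB.Lin
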