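import Pool.Agent.Lib.UMB.Lin.N3

/-! # UMB.Lin, chunk N4: multiplication and division in the Sobolev norms -/

open scoped ContDiff BigOperators
open Set MeasureTheory Pool.Agent.Lib.PenroseSph

namespace UMB.Lin

theorem n4_sub {R : ℝ} {x : E3} (hx : x ∈ Ann R) : x ∈ cAnn R := ⟨hx.1.le, hx.2.le⟩

/-- Induction on `k`: `H (k+1) (a v) = H k (a v) + ∑_b H k (Z_b a * v + a * Z_b v)`. -/
theorem H_mul {R B : ℝ} (hB : 0 ≤ B) (k : ℕ) {a v : E3 → ℝ} (ha : ContDiff ℝ ∞ a)
    (hv : ContDiff ℝ ∞ v) (hBa : Bd R k B a) :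
    H R k (fun x => a x * v x) ≤ 5 ^ k * B * H R k v := by
  induction k generalizing a v with
  | zero =>
    rw [n2_zero, n2_zero, pow_zero, one_mul]
    exact l2_mul_le hB hv.continuous ha.continuous fun x hx => n3_val hBa x (n4_sub hx)
  | succ k ih =>
    rw [n2_succ, n2_succ]
    have hBk : Bd R k B a := Bd_mono (Nat.le_succ k) le_rfl hBa
    have h0 := ih ha hv hBk
    have h1 : ∑ b, H R k (Z b (fun x => a x * v x)) ≤
        ∑ b, (5 ^ k * B * H R k (Z b v) + 5 ^ k * B * H R k v) := by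
      refine Finset.sum_le_sum fun b _ => ?_
      have e : Z b (fun x => a x * v x) = fun x => a x * Z b v x + Z b a x * v x := by
        funext x
        rw [Z_mul b (n2_diff ha x) (n2_diff hv x), mul_comm (v x)]
      rw [e]
      refine (H_add k (ha.mul (contDiff_Z b hv)) ((contDiff_Z b ha).mul hv)).trans ?_
      exact add_le_add (ih ha (contDiff_Z b hv) hBk) (ih (contDiff_Z b ha) hv (Bd_Z hBa b))
    rw [Finset.sum_add_distrib, ← Finset.mul_sum] at h1
    simp only [Finset.sum_const, Finset.card_univ, Fintype.card_fin, nsmul_eq_mul] at h1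
    have hv0 := H_nonneg R k v
    have hs0 : 0 ≤ ∑ b, H R k (Z b v) := Finset.sum_nonneg fun b _ => H_nonneg R k _
    have hp : (0 : ℝ) ≤ 5 ^ k * B := by positivity
    have h2 : (0 : ℝ) ≤ 5 ^ k * B * ∑ b, H R k (Z b v) := mul_nonneg hp hs0
    have h3 : (5 : ℝ) ^ (k + 1) * B * (H R k v + ∑ b, H R k (Z b v)) =
        5 * (5 ^ k * B * H R k v) + 5 * (5 ^ k * B * ∑ b, H R k (Z b v)) := by
      rw [pow_succ]
      ring
    rw [h3]
    push_cast at h1
    linarith

/-- Division: induction on `k` (for all `g, h`), `a Z_b g = Z_b h - (Z_b a) g` on the open annulus,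
constant `C_{k+1}` from `C_k`. -/
theorem H_div (R : ℝ) (k : ℕ) {lam B : ℝ} (hlam : 0 < lam) (hB : 0 ≤ B) :
    ∃ C, 0 ≤ C ∧ ∀ a g h : E3 → ℝ, ContDiff ℝ ∞ a → ContDiff ℝ ∞ g → ContDiff ℝ ∞ h →
      (∀ x ∈ Ann R, lam ≤ a x) → Bd R k B a → (∀ x ∈ Ann R, a x * g x = h x) →
      H R k g ≤ C * H R k h := by
  induction k with
  | zero =>
    refine ⟨lam⁻¹, (inv_pos.mpr hlam).le, ?_⟩
    intro a g h ha hg hh hla _ hagh
    rw [n2_zero, n2_zero]
    have h1 : l2 R g ≤ l2 R (fun x => lam⁻¹ * h x) := by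
      refine l2_mono hg.continuous (continuous_const.mul hh.continuous) fun x hx => ?_
      rw [abs_mul, abs_of_pos (inv_pos.mpr hlam), ← hagh x hx, abs_mul]
      have h2 := hla x hx
      rw [abs_of_pos (lt_of_lt_of_le hlam h2), ← mul_assoc]
      refine le_mul_of_one_le_left (abs_nonneg _) ?_
      rw [inv_mul_eq_div, le_div_iff₀ hlam, one_mul]
      exact h2
    rw [l2_const_mul, abs_of_pos (inv_pos.mpr hlam)] at h1
    exact h1
  | succ k ih =>
    obtain ⟨C, hC, ih⟩ := ih
    refine ⟨C + 4 * (C * (5 ^ k * B * C)), by positivity, ?_⟩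
    intro a g h ha hg hh hla hBa hagh
    have hBk : Bd R k B a := Bd_mono (Nat.le_succ k) le_rfl hBa
    have h0 := ih a g h ha hg hh hla hBk hagh
    have h1 : ∀ b, H R k (Z b g) ≤ C * H R k (Z b h) + C * (5 ^ k * B * C) * H R k h := by
      intro b
      have hs : ContDiff ℝ ∞ (fun x => Z b h x - Z b a x * g x) :=
        (contDiff_Z b hh).sub ((contDiff_Z b ha).mul hg)
      have h2 := ih a (Z b g) (fun x => Z b h x - Z b a x * g x) ha (contDiff_Z b hg) hs hla hBk ?_
      · have h3 := H_sub (R := R) k (contDiff_Z b hh) ((contDiff_Z b ha).mul hg)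
        have h4 := H_mul hB k (contDiff_Z b ha) hg (Bd_Z hBa b)
        have hp : (0 : ℝ) ≤ 5 ^ k * B := by positivity
        have h5 : 5 ^ k * B * H R k g ≤ 5 ^ k * B * (C * H R k h) := mul_le_mul_of_nonneg_left h0 hp
        have h6 : C * H R k (fun x => Z b h x - Z b a x * g x) ≤
            C * (H R k (Z b h) + 5 ^ k * B * (C * H R k h)) :=
          mul_le_mul_of_nonneg_left (h3.trans (by linarith)) hC
        refine h2.trans (h6.trans (le_of_eq ?_))
        ring
      · intro x hx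
        have e1 : Z b (fun y => a y * g y) x = Z b h x := Z_congr b (isOpen_Ann R) hagh x hx
        rw [Z_mul b (n2_diff ha x) (n2_diff hg x)] at e1
        show a x * Z b g x = Z b h x - Z b a x * g x
        linarith
    rw [n2_succ, n2_succ]
    have h7 : ∑ b, H R k (Z b g) ≤ ∑ b, (C * H R k (Z b h) + C * (5 ^ k * B * C) * H R k h) :=
      Finset.sum_le_sum fun b _ => h1 b
    rw [Finset.sum_add_distrib, ← Finset.mul_sum] at h7
    simp only [Finset.sum_const, Finset.card_univ, Fintype.card_fin, nsmul_eq_mul] at h7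
    push_cast at h7
    have hh0 := H_nonneg R k h
    have hs0 : 0 ≤ ∑ b, H R k (Z b h) := Finset.sum_nonneg fun b _ => H_nonneg R k _
    have hp : (0 : ℝ) ≤ C * (5 ^ k * B * C) := by positivity
    have h8 : 0 ≤ C * (5 ^ k * B * C) * ∑ b, H R k (Z b h) := mul_nonneg hp hs0
    have h9 : (C + 4 * (C * (5 ^ k * B * C))) * (H R k h + ∑ b, H R k (Z b h)) =
        C * H R k h + C * (∑ b, H R k (Z b h)) + 4 * (C * (5 ^ k * B * C) * H R k h) +
          4 * (C * (5 ^ k * B * C) * ∑ b, H R k (Z b h)) := by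
      ring
    rw [h9]
    linarith

end UMB.Lin
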