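import Pool.Agent.Lib.UMB.Lin.N5
import Pool.Agent.Lib.UMB.Lin.N4

/-! # UMB.Lin, chunk N6: words in the partial derivatives are bounded by words in the frame -/

open scoped ContDiff BigOperators
open Set MeasureTheory Pool.Agent.Lib.PenroseSph

namespace UMB.Lin

/-- a smooth function equal to `|x|^{-2}` for `|x|^2 > 1/2` -/
noncomputable def n6_rho (x : E3) : ℝ := Real.smoothTransition (4 * ‖x‖ ^ 2 - 1) / ‖x‖ ^ 2

theorem n6_rho_eq {x : E3} (h : 1 / 2 < ‖x‖ ^ 2) : n6_rho x = (‖x‖ ^ 2)⁻¹ := by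
  unfold n6_rho
  rw [Real.smoothTransition.one_of_one_le (by linarith), one_div]

theorem n6_rho_smooth : ContDiff ℝ ∞ n6_rho := by
  rw [contDiff_iff_contDiffAt]
  intro x
  by_cases hx : x = 0
  · have hU : {y : E3 | ‖y‖ ^ 2 < 1 / 4} ∈ nhds x := by
      refine IsOpen.mem_nhds (isOpen_lt (by fun_prop) continuous_const) ?_
      simp [hx]
    have h1 : n6_rho =ᶠ[nhds x] fun _ => 0 := by
      filter_upwards [hU] with y hy
      have hy' : ‖y‖ ^ 2 < 1 / 4 := hy
      unfold n6_rho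
      rw [Real.smoothTransition.zero_of_nonpos (by linarith), zero_div]
    exact contDiffAt_const.congr_of_eventuallyEq h1
  · have h2 : ContDiff ℝ ∞ (fun y : E3 => ‖y‖ ^ 2) := contDiff_norm_sq ℝ
    have h3 : ContDiff ℝ ∞ (fun y : E3 => Real.smoothTransition (4 * ‖y‖ ^ 2 - 1)) :=
      Real.smoothTransition.contDiff.comp ((contDiff_const.mul h2).sub contDiff_const)
    exact h3.contDiffAt.div h2.contDiffAt (by
      have := norm_pos_iff.mpr hx
      positivity)

/-- the smooth coefficients -/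
noncomputable def n6_c (i : Fin 3) (a : Fin 4) (x : E3) : ℝ := n6_rho x * (Zm a x) i

theorem n6_c_smooth (i : Fin 3) (a : Fin 4) : ContDiff ℝ ∞ (n6_c i a) :=
  n6_rho_smooth.mul (n5_coeff a i)

/-- the partial derivative written in the frame, smooth everywhere -/
noncomputable def n6_P (i : Fin 3) (v : E3 → ℝ) (x : E3) : ℝ := ∑ a, n6_c i a x * Z a v x

theorem n6_P_smooth (i : Fin 3) {v : E3 → ℝ} (hv : ContDiff ℝ ∞ v) : ContDiff ℝ ∞ (n6_P i v) := by
  unfold n6_P
  exact ContDiff.sum fun a _ => (n6_c_smooth i a).mul (contDiff_Z a hv)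

/-- the open set -/
def n6_U : Set E3 := {x | 1 / 2 < ‖x‖ ^ 2}

theorem n6_U_open : IsOpen n6_U := isOpen_lt continuous_const (by fun_prop)

theorem n6_pd (i : Fin 3) (v : E3 → ℝ) : ∀ x ∈ n6_U, pd i v x = n6_P i v x := by
  intro x hx
  have hx' : 1 / 2 < ‖x‖ ^ 2 := hx
  have h1 := pd_eq_Z i v x
  unfold n6_P n6_c
  rw [n6_rho_eq hx']
  have h2 : ∑ a, (‖x‖ ^ 2)⁻¹ * (Zm a x) i * Z a v x = (‖x‖ ^ 2)⁻¹ * ∑ a, (Zm a x) i * Z a v x := by
    rw [Finset.mul_sum]
    exact Finset.sum_congr rfl fun a _ => by ring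
  have h3 : ‖x‖ ^ 2 ≠ 0 := by
    intro h0
    rw [h0] at hx'
    linarith
  rw [h2, ← h1, ← mul_assoc, inv_mul_cancel₀ h3, one_mul]

theorem n6_pd_congr (i : Fin 3) {U : Set E3} (hU : IsOpen U) {u v : E3 → ℝ}
    (h : ∀ x ∈ U, u x = v x) : ∀ x ∈ U, pd i u x = pd i v x := by
  intro x hx
  have h1 : u =ᶠ[nhds x] v := by
    filter_upwards [hU.mem_nhds hx] with y hy
    exact h y hy
  unfold pd
  rw [h1.fderiv_eq]

theorem n6_Dw_congr (w : List (Fin 3)) {U : Set E3} (hU : IsOpen U) {u v : E3 → ℝ}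
    (h : ∀ x ∈ U, u x = v x) : ∀ x ∈ U, Dw w u x = Dw w v x := by
  induction w with
  | nil => exact h
  | cons i w ih => exact n6_pd_congr i hU ih

theorem n6_mem {R : ℝ} {x : E3} (hx : x ∈ cAnn R) : x ∈ n6_U := by
  have h1 : 1 ≤ ‖x‖ := hx.1
  show 1 / 2 < ‖x‖ ^ 2
  nlinarith

/-- the same in the other direction; on the open annulus `∂_i v = |x|^{-2} ∑ (Z_a)_i Z_a v`
(induction on the length of the word for all `v`, with the smooth functions `|x|^{-2}` off the
origin; the bound on the closed annulus follows by continuity, `closure_Ann`). -/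
theorem Dw_of_Bd {R : ℝ} (hR : 1 < R) (k : ℕ) : ∃ C, 0 ≤ C ∧ ∀ (v : E3 → ℝ) (s : ℝ), 0 ≤ s →
    ContDiff ℝ ∞ v → Bd R k s v →
    ∀ w : List (Fin 3), w.length ≤ k → ∀ x ∈ cAnn R, |Dw w v x| ≤ C * s := by
  induction k with
  | zero =>
    refine ⟨1, zero_le_one, ?_⟩
    intro v s hs hv hb w hwl x hx
    have : w = [] := List.length_eq_zero_iff.mp (Nat.le_zero.mp hwl)
    subst this
    rw [one_mul]
    exact hb [] (Nat.zero_le _) x hx
  | succ k ih =>
    obtain ⟨C, hC, ih⟩ := ih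
    have hB : ∀ (i : Fin 3) (a : Fin 4), ∃ B, 0 ≤ B ∧ Bd R k B (n6_c i a) :=
      fun i a => Bd_exists R k (n6_c_smooth i a)
    choose B hB0 hB using hB
    have hsum0 : ∀ i, 0 ≤ ∑ a, 2 ^ k * B i a := fun i =>
      Finset.sum_nonneg fun a _ => by have := hB0 i a; positivity
    have hS0 : 0 ≤ ∑ i, ∑ a, 2 ^ k * B i a := Finset.sum_nonneg fun i _ => hsum0 i
    refine ⟨1 + C * ∑ i, ∑ a, 2 ^ k * B i a, by positivity, ?_⟩
    intro v s hs hv hb w hwl x hx
    rcases List.eq_nil_or_concat w with hw | ⟨w', i, hw⟩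
    · subst hw
      have h1 : |v x| ≤ s := hb [] (Nat.zero_le _) x hx
      show |v x| ≤ _
      nlinarith [mul_nonneg (mul_nonneg hC hS0) hs]
    · rw [List.concat_eq_append] at hw
      subst hw
      have hwl' : w'.length ≤ k := by
        simp only [List.length_append, List.length_cons, List.length_nil] at hwl
        omega
      rw [n5_append, n6_Dw_congr w' n6_U_open (n6_pd i v) x (n6_mem hx)]
      have hZ : ∀ a, Bd R k s (Z a v) := fun a => Bd_Z hb a
      have hterm : ∀ a, Bd R k (2 ^ k * B i a * s) (fun x => n6_c i a x * Z a v x) := fun a =>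
        Bd_mul (hB0 i a) hs k (n6_c_smooth i a) (contDiff_Z a hv) (hB i a) (hZ a)
      have hcd : ∀ a, ContDiff ℝ ∞ (fun x => n6_c i a x * Z a v x) := fun a =>
        (n6_c_smooth i a).mul (contDiff_Z a hv)
      have h1 := Bd_add k (hcd 0) (hcd 1) (hterm 0) (hterm 1)
      have h2 := Bd_add k ((hcd 0).add (hcd 1)) (hcd 2) h1 (hterm 2)
      have h3 := Bd_add k (((hcd 0).add (hcd 1)).add (hcd 2)) (hcd 3) h2 (hterm 3)
      have hP : n6_P i v = (fun x => (((fun x => n6_c i 0 x * Z 0 v x) x +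
          (fun x => n6_c i 1 x * Z 1 v x) x) + (fun x => n6_c i 2 x * Z 2 v x) x) +
          (fun x => n6_c i 3 x * Z 3 v x) x) := by
        funext x
        unfold n6_P
        rw [Fin.sum_univ_four]
      have h4 : ∑ a, 2 ^ k * B i a =
          2 ^ k * B i 0 + 2 ^ k * B i 1 + 2 ^ k * B i 2 + 2 ^ k * B i 3 := Fin.sum_univ_four _
      have h5 : Bd R k ((∑ a, 2 ^ k * B i a) * s) (n6_P i v) := by
        rw [hP]
        refine Bd_mono le_rfl ?_ h3
        rw [h4]
        apply le_of_eq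
        ring
      have h6 := ih (n6_P i v) _ (mul_nonneg (hsum0 i) hs) (n6_P_smooth i hv) h5 w' hwl' x hx
      refine h6.trans ?_
      have h7 : ∑ a, 2 ^ k * B i a ≤ ∑ i, ∑ a, 2 ^ k * B i a :=
        Finset.single_le_sum (f := fun i => ∑ a, 2 ^ k * B i a) (fun i _ => hsum0 i)
          (Finset.mem_univ i)
      nlinarith [mul_le_mul_of_nonneg_left (mul_le_mul_of_nonneg_right h7 hs) hC]

theorem l2_Dw_le {R : ℝ} (hR : 1 < R) (k : ℕ) : ∃ C, 0 ≤ C ∧ ∀ v : E3 → ℝ, ContDiff ℝ ∞ v →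
    ∀ w : List (Fin 3), w.length ≤ k → l2 R (Dw w v) ≤ C * H R k v := by
  induction k with
  | zero =>
    refine ⟨1, zero_le_one, ?_⟩
    intro v hv w hwl
    have : w = [] := List.length_eq_zero_iff.mp (Nat.le_zero.mp hwl)
    subst this
    rw [one_mul]
    exact le_refl _
  | succ k ih =>
    obtain ⟨C, hC, ih⟩ := ih
    have hB : ∀ (i : Fin 3) (a : Fin 4), ∃ B, 0 ≤ B ∧ Bd R k B (n6_c i a) :=
      fun i a => Bd_exists R k (n6_c_smooth i a)
    choose B hB0 hB using hB
    have hsum0 : ∀ i, 0 ≤ ∑ a, 5 ^ k * B i a := fun i =>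
      Finset.sum_nonneg fun a _ => by have := hB0 i a; positivity
    have hS0 : 0 ≤ ∑ i, ∑ a, 5 ^ k * B i a := Finset.sum_nonneg fun i _ => hsum0 i
    refine ⟨1 + C * ∑ i, ∑ a, 5 ^ k * B i a, by positivity, ?_⟩
    intro v hv w hwl
    have hH0 : 0 ≤ H R (k + 1) v := H_nonneg R (k + 1) v
    rcases List.eq_nil_or_concat w with hw | ⟨w', i, hw⟩
    · subst hw
      have h1 : l2 R v ≤ H R (k + 1) v := H_mono R (Nat.zero_le (k + 1)) v
      show l2 R v ≤ _
      nlinarith [mul_nonneg (mul_nonneg hC hS0) hH0]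
    · rw [List.concat_eq_append] at hw
      subst hw
      have hwl' : w'.length ≤ k := by
        simp only [List.length_append, List.length_cons, List.length_nil] at hwl
        omega
      rw [n5_append]
      have h0 : l2 R (Dw w' (pd i v)) = l2 R (Dw w' (n6_P i v)) :=
        l2_congr fun x hx => n6_Dw_congr w' n6_U_open (n6_pd i v) x (n6_mem (Ann_subset R hx))
      rw [h0]
      refine (ih (n6_P i v) (n6_P_smooth i hv) w' hwl').trans ?_
      have h1 : H R k (n6_P i v) ≤ ∑ a, H R k (fun x => n6_c i a x * Z a v x) := by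
        have := H_sum (R := R) k Finset.univ (u := fun a => fun x => n6_c i a x * Z a v x)
          (fun a _ => (n6_c_smooth i a).mul (contDiff_Z a hv))
        exact this
      have h2 : ∀ a, H R k (fun x => n6_c i a x * Z a v x) ≤ 5 ^ k * B i a * H R (k + 1) v := by
        intro a
        refine (H_mul (hB0 i a) k (n6_c_smooth i a) (contDiff_Z a hv) (hB i a)).trans ?_
        refine mul_le_mul_of_nonneg_left (H_Z R k a v) ?_
        have := hB0 i a
        positivity
      have h3 : H R k (n6_P i v) ≤ (∑ a, 5 ^ k * B i a) * H R (k + 1) v := by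
        rw [Finset.sum_mul]
        exact h1.trans (Finset.sum_le_sum fun a _ => h2 a)
      have h7 : ∑ a, 5 ^ k * B i a ≤ ∑ i, ∑ a, 5 ^ k * B i a :=
        Finset.single_le_sum (f := fun i => ∑ a, 5 ^ k * B i a) (fun i _ => hsum0 i)
          (Finset.mem_univ i)
      nlinarith [mul_le_mul_of_nonneg_left (h3.trans (mul_le_mul_of_nonneg_right h7 hH0)) hC]

end UMB.Lin
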