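import Pool.Agent.Lib.UMB.Lin.S1b

/-! # UMB.Lin, chunk S1c: integration over a cone -/

open scoped ContDiff BigOperators
open Set MeasureTheory Pool.Agent.Lib.PenroseSph

namespace UMB.Lin

open scoped ENNReal in
/-- polar coordinates about `x` (copied from `Pool.Agent.Lib.H16RA.polar`) -/
theorem s1c_polar (x : E3) {G : E3 → ℝ≥0∞} (hG : Measurable G) :
    ∫⁻ y, G y = ∫⁻ n : Metric.sphere (0 : E3) 1, (∫⁻ t in Ioi (0 : ℝ),
      G (x + t • (n : E3)) * ENNReal.ofReal (t ^ 2)) ∂sig := by
  have h1 : ∫⁻ y, G y = ∫⁻ y, G (x + y) := (lintegral_add_left_eq_self G x).symm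
  have hfin : Module.finrank ℝ E3 = 3 := by simp
  rw [h1]
  calc ∫⁻ y, G (x + y)
      = ∫⁻ y : ({(0 : E3)}ᶜ : Set E3), G (x + y.1)
          ∂(Measure.comap Subtype.val (volume : Measure E3)) := by
        rw [lintegral_subtype_comap (measurableSet_singleton _).compl (fun y => G (x + y)),
          restrict_compl_singleton]
    _ = ∫⁻ q : Metric.sphere (0 : E3) 1 × Ioi (0 : ℝ), G (x + (q.2 : ℝ) • (q.1 : E3))
          ∂((volume : Measure E3).toSphere.prod
            (Measure.volumeIoiPow (Module.finrank ℝ E3 - 1))) := by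
        rw [← (Measure.measurePreserving_homeomorphUnitSphereProd
          (volume : Measure E3)).lintegral_comp_emb (Homeomorph.measurableEmbedding _)]
        refine lintegral_congr fun y => ?_
        have hy : (y : E3) ≠ 0 := y.2
        have hn : ‖(y : E3)‖ ≠ 0 := norm_ne_zero_iff.mpr hy
        congr 2
        simp [smul_smul, hn]
    _ = ∫⁻ n : Metric.sphere (0 : E3) 1, (∫⁻ t : Ioi (0 : ℝ), G (x + (t : ℝ) • (n : E3))
          ∂(Measure.volumeIoiPow (Module.finrank ℝ E3 - 1)))
          ∂((volume : Measure E3).toSphere) := by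
        refine lintegral_prod _ ?_
        refine Measurable.aemeasurable ?_
        fun_prop
    _ = _ := by
        refine lintegral_congr fun n => ?_
        rw [hfin, Measure.volumeIoiPow, lintegral_withDensity_eq_lintegral_mul _ (by fun_prop)
          (by fun_prop)]
        rw [← lintegral_subtype_comap measurableSet_Ioi (fun t : ℝ =>
          G (x + t • (n : E3)) * ENNReal.ofReal (t ^ 2))]
        refine lintegral_congr fun t => ?_
        simp only [Pi.mul_apply]
        exact mul_comm _ _

/-- Polar coordinates about `x` (`MeasureTheory.Measure.measurePreserving_homeomorphUnitSphereProd`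
for `y ↦ F (x + y)`), the cone is contained in the annulus. -/
theorem cone_int {R : ℝ} (hR : 1 < R) {F : E3 → ℝ} (hF : Continuous F) (h0 : ∀ y, 0 ≤ F y)
    {x e : E3}
    (hc : ∀ n ∈ Dir e, ∀ r : ℝ, 0 < r → r < dl R → x + r • (n : E3) ∈ Ann R) :
    ∫ n in Dir e, (∫ r in (0 : ℝ)..(dl R), r ^ 2 * F (x + r • (n : E3))) ∂sig
      ≤ ∫ y in Ann R, F y := by
  have hdl : 0 < dl R := lt_min (by linarith) (by norm_num)
  have hcont : Continuous fun n : Metric.sphere (0 : E3) 1 =>
      ∫ r in (0 : ℝ)..(dl R), r ^ 2 * F (x + r • (n : E3)) := by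
    apply intervalIntegral.continuous_parametric_intervalIntegral_of_continuous'
    have : Continuous fun q : Metric.sphere (0 : E3) 1 × ℝ =>
        q.2 ^ 2 * F (x + q.2 • (q.1 : E3)) := by fun_prop
    exact this
  have hg0 : ∀ n : Metric.sphere (0 : E3) 1,
      0 ≤ ∫ r in (0 : ℝ)..(dl R), r ^ 2 * F (x + r • (n : E3)) := fun n =>
    intervalIntegral.integral_nonneg hdl.le fun r _ => mul_nonneg (sq_nonneg r) (h0 _)
  have hDm : MeasurableSet (Dir e) := by
    have : Continuous fun n : Metric.sphere (0 : E3) 1 => inner ℝ (n : E3) e := by fun_prop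
    exact measurableSet_le measurable_const this.measurable
  have hAm : MeasurableSet (Ann R) := measurableSet_Ann R
  set G : E3 → ENNReal := (Ann R).indicator (fun y => ENNReal.ofReal (F y)) with hG
  have hGm : Measurable G :=
    (ENNReal.measurable_ofReal.comp hF.measurable).indicator hAm
  rw [integral_eq_lintegral_of_nonneg_ae (Filter.Eventually.of_forall hg0)
      hcont.aestronglyMeasurable,
    integral_eq_lintegral_of_nonneg_ae (Filter.Eventually.of_forall h0)
      hF.aestronglyMeasurable]
  have hfin : ∫⁻ y in Ann R, ENNReal.ofReal (F y) ≠ ⊤ := by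
    have h1 := (integrableOn_Ann (R := R) hF).hasFiniteIntegral
    rw [hasFiniteIntegral_iff_ofReal (Filter.Eventually.of_forall h0)] at h1
    exact h1.ne
  apply ENNReal.toReal_mono hfin
  have h2 : ∫⁻ y in Ann R, ENNReal.ofReal (F y) = ∫⁻ y, G y := by
    rw [hG, lintegral_indicator hAm]
  rw [h2, s1c_polar x hGm]
  calc ∫⁻ n in Dir e, ENNReal.ofReal (∫ r in (0 : ℝ)..(dl R), r ^ 2 * F (x + r • (n : E3))) ∂sig
      ≤ ∫⁻ n in Dir e, (∫⁻ t in Ioi (0 : ℝ), G (x + t • (n : E3)) * ENNReal.ofReal (t ^ 2)) ∂sig := by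
        apply setLIntegral_mono' hDm
        intro n hn
        have hci : Continuous fun r : ℝ => r ^ 2 * F (x + r • (n : E3)) := by fun_prop
        rw [intervalIntegral.integral_of_le hdl.le, integral_Ioc_eq_integral_Ioo]
        have hint : IntegrableOn (fun r : ℝ => r ^ 2 * F (x + r • (n : E3))) (Ioo 0 (dl R)) :=
          (hci.integrableOn_Icc (a := 0) (b := dl R)).mono_set Ioo_subset_Icc_self
        rw [ofReal_integral_eq_lintegral_ofReal hint
          (Filter.Eventually.of_forall fun r => mul_nonneg (sq_nonneg r) (h0 _))]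
        calc ∫⁻ r in Ioo 0 (dl R), ENNReal.ofReal (r ^ 2 * F (x + r • (n : E3)))
            = ∫⁻ r in Ioo 0 (dl R), G (x + r • (n : E3)) * ENNReal.ofReal (r ^ 2) := by
              apply setLIntegral_congr_fun measurableSet_Ioo
              intro r hr
              have hmem := hc n hn r hr.1 hr.2
              simp only [hG, indicator_of_mem hmem]
              rw [← ENNReal.ofReal_mul (h0 _), mul_comm]
          _ ≤ _ := lintegral_mono_set Ioo_subset_Ioi_self
    _ ≤ ∫⁻ n, (∫⁻ t in Ioi (0 : ℝ), G (x + t • (n : E3)) * ENNReal.ofReal (t ^ 2)) ∂sig :=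
        setLIntegral_le_lintegral _ _

end UMB.Lin
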