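import Pool.Agent.Lib.UMB.Lin.S1b

/-! # UMB.Lin, chunk S1e: measure of the cone of directions -/

open scoped ContDiff BigOperators Pointwise
open Set MeasureTheory Pool.Agent.Lib.PenroseSph

namespace UMB.Lin

theorem s1e_meas (e : E3) : MeasurableSet (Dir e) := by
  have : IsClosed (Dir e) := by
    unfold Dir
    exact isClosed_le continuous_const (continuous_subtype_val.inner continuous_const)
  exact this.measurableSet

theorem s1e_sub {e : E3} (he : ‖e‖ = 1) :
    Metric.ball ((1 / 2 : ℝ) • e) (1 / 8) ⊆ Ioo (0 : ℝ) 1 • ((↑) '' (Dir e) : Set E3) := by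
  intro x hx
  rw [Metric.mem_ball, dist_eq_norm] at hx
  set d : E3 := x - (1 / 2 : ℝ) • e with hd
  have hxe : x = (1 / 2 : ℝ) • e + d := by rw [hd]; abel
  have hin : (3 : ℝ) / 8 < inner ℝ x e := by
    rw [hxe, inner_add_left, inner_smul_left, real_inner_self_eq_norm_sq, he]
    have h1 := abs_real_inner_le_norm d e
    rw [he, mul_one] at h1
    have h2 := neg_abs_le (inner ℝ d e)
    simp only [conj_trivial]
    nlinarith
  have hup : ‖x‖ < 5 / 8 := by
    rw [hxe]
    have := norm_add_le ((1 / 2 : ℝ) • e) d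
    rw [norm_smul, he] at this
    norm_num at this
    linarith
  have hlow : 0 < ‖x‖ := by
    have h1 := abs_real_inner_le_norm x e
    rw [he, mul_one] at h1
    have h2 := le_abs_self (inner ℝ x e)
    linarith
  refine Set.mem_smul.2 ⟨‖x‖, ⟨hlow, by linarith⟩, ‖x‖⁻¹ • x, ?_, ?_⟩
  · have hn : ‖‖x‖⁻¹ • x‖ = 1 := by
      rw [norm_smul, norm_inv, norm_norm, inv_mul_cancel₀ hlow.ne']
    refine ⟨⟨‖x‖⁻¹ • x, by simpa using hn⟩, ?_, rfl⟩
    show (1 : ℝ) / 2 ≤ inner ℝ (‖x‖⁻¹ • x) e
    rw [inner_smul_left]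
    simp only [conj_trivial]
    rw [inv_mul_eq_div, le_div_iff₀ hlow]
    linarith
  · rw [smul_smul, mul_inv_cancel₀ hlow.ne', one_smul]

/-- the measure of the set of directions is bounded below: `toSphere` of `Dir e` is three times
the volume of the cone `{r n : 0 < r < 1, n ∈ Dir e}`, which contains the ball of radius `1/8`
about `e/2`. -/
theorem Dir_measure : ∃ c : ℝ, 0 < c ∧ ∀ e : E3, ‖e‖ = 1 → c ≤ (sig (Dir e)).toReal := by
  have hv : 0 < (volume (Metric.ball (0 : E3) (1 / 8))).toReal :=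
    ENNReal.toReal_pos (Metric.measure_ball_pos _ _ (by norm_num)).ne' measure_ball_lt_top.ne
  refine ⟨(volume (Metric.ball (0 : E3) (1 / 8))).toReal, hv, fun e he => ?_⟩
  have h1 : volume (Metric.ball (0 : E3) (1 / 8)) ≤ sig (Dir e) := by
    rw [sig, Measure.toSphere_apply' _ (s1e_meas e)]
    calc volume (Metric.ball (0 : E3) (1 / 8))
        = volume (Metric.ball ((1 / 2 : ℝ) • e) (1 / 8)) := by
          exact (Measure.addHaar_ball_center volume _ _).symm
      _ ≤ volume (Ioo (0 : ℝ) 1 • ((↑) '' (Dir e) : Set E3)) := measure_mono (s1e_sub he)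
      _ ≤ _ := by
          have : (1 : ENNReal) ≤ (Module.finrank ℝ E3 : ENNReal) := by
            simp
          calc volume (Ioo (0 : ℝ) 1 • ((↑) '' (Dir e) : Set E3))
              = 1 * volume (Ioo (0 : ℝ) 1 • ((↑) '' (Dir e) : Set E3)) := (one_mul _).symm
            _ ≤ _ := by gcongr
  exact ENNReal.toReal_mono (measure_lt_top _ _).ne h1

end UMB.Lin
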