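import Pool.Agent.Lib.UMB.Lin.Dw
import Pool.Agent.Lib.UMB.Lin.G4

/-! # UMB.Lin, chunk S1f: derivatives along a ray -/

open scoped ContDiff BigOperators
open Set MeasureTheory Pool.Agent.Lib.PenroseSph

namespace UMB.Lin

theorem s1f_fderiv (w : E3 → ℝ) (x n : E3) :
    fderiv ℝ w x n = ∑ i, n i * pd i w x := by
  have h1 : n = ∑ i, n i • (EuclideanSpace.single i (1 : ℝ) : E3) := by
    ext j
    fin_cases j <;> simp [Fin.sum_univ_three]
  conv_lhs => rw [h1]
  rw [map_sum]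
  refine Finset.sum_congr rfl (fun i _ => ?_)
  rw [map_smul, smul_eq_mul, pd]

theorem s1f_deriv {w : E3 → ℝ} (hw : ContDiff ℝ ∞ w) (x n : E3) (t : ℝ) :
    HasDerivAt (fun s : ℝ => w (x + s • n)) (∑ i, n i * pd i w (x + t • n)) t := by
  have h1 : HasDerivAt (fun s : ℝ => x + s • n) n t := by
    simpa using ((hasDerivAt_id t).smul_const n).const_add x
  have h2 : HasFDerivAt w (fderiv ℝ w (x + t • n)) (x + t • n) :=
    ((hw.differentiable (by simp)) (x + t • n)).hasFDerivAt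
  have h3 := h2.comp_hasDerivAt t h1
  rw [s1f_fderiv w (x + t • n) n] at h3
  exact h3

theorem s1f_coord (n : Metric.sphere (0 : E3) 1) (i : Fin 3) : |(n : E3) i| ≤ 1 := by
  have h1 : ‖(n : E3) i‖ ≤ ‖(n : E3)‖ := PiLp.norm_apply_le (n : E3) i
  rw [Real.norm_eq_abs] at h1
  have h2 : ‖(n : E3)‖ = 1 := by
    have := n.2
    rwa [mem_sphere_zero_iff_norm] at this
  rw [h2] at h1
  exact h1

theorem s1f_abs (n : Metric.sphere (0 : E3) 1) {a b : Fin 3 → ℝ} (h : ∀ i, |a i| ≤ b i) :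
    |∑ i, (n : E3) i * a i| ≤ ∑ i, b i := by
  refine (Finset.abs_sum_le_sum_abs _ _).trans (Finset.sum_le_sum (fun i _ => ?_))
  rw [abs_mul]
  calc |(n : E3) i| * |a i| ≤ 1 * |a i| :=
        mul_le_mul_of_nonneg_right (s1f_coord n i) (abs_nonneg _)
    _ ≤ b i := by rw [one_mul]; exact h i

/-- For `n` on the unit sphere and `f(r) = v (x + r n)`: `|f|, |f'|, |f''|, |f'''|` at `r` are at
most the sum over all words `w` in `pd` of length `≤ 3` of `|Dw w v (x + r n)|`. -/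
theorem radial_le (v : E3 → ℝ) (hv : ContDiff ℝ ∞ v) (x : E3) (n : Metric.sphere (0 : E3) 1) (r : ℝ) :
    let f : ℝ → ℝ := fun t => v (x + t • (n : E3))
    |f r| + |deriv f r| + |deriv (deriv f) r| + |deriv (deriv (deriv f)) r| ≤
      |v (x + r • (n : E3))| + ∑ i, |Dw [i] v (x + r • (n : E3))|
        + ∑ i, ∑ j, |Dw [i, j] v (x + r • (n : E3))|
        + ∑ i, ∑ j, ∑ k, |Dw [i, j, k] v (x + r • (n : E3))| := by
  intro f
  have c1 : ∀ i, ContDiff ℝ ∞ (pd i v) := fun i => contDiff_pd i hv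
  have c2 : ∀ i j, ContDiff ℝ ∞ (pd j (pd i v)) := fun i j => contDiff_pd j (c1 i)
  have d1 : deriv f = fun t => ∑ i, (n : E3) i * pd i v (x + t • (n : E3)) := by
    funext t
    exact (s1f_deriv hv x (n : E3) t).deriv
  have d2 : deriv (deriv f) = fun t => ∑ i, (n : E3) i *
      ∑ j, (n : E3) j * pd j (pd i v) (x + t • (n : E3)) := by
    rw [d1]
    funext t
    refine HasDerivAt.deriv ?_
    exact HasDerivAt.fun_sum (fun i _ => (s1f_deriv (c1 i) x (n : E3) t).const_mul _)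
  have d3 : deriv (deriv (deriv f)) = fun t => ∑ i, (n : E3) i *
      ∑ j, (n : E3) j * ∑ k, (n : E3) k * pd k (pd j (pd i v)) (x + t • (n : E3)) := by
    rw [d2]
    funext t
    refine HasDerivAt.deriv ?_
    exact HasDerivAt.fun_sum (fun i _ => HasDerivAt.const_mul _
      (HasDerivAt.fun_sum (fun j _ => (s1f_deriv (c2 i j) x (n : E3) t).const_mul _)))
  have b1 : |deriv f r| ≤ ∑ i, |Dw [i] v (x + r • (n : E3))| := by
    rw [d1]
    exact s1f_abs n (fun i => le_rfl)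
  have b2 : |deriv (deriv f) r| ≤ ∑ i, ∑ j, |Dw [i, j] v (x + r • (n : E3))| := by
    rw [d2, Finset.sum_comm]
    exact s1f_abs n (fun i => s1f_abs n (fun j => le_rfl))
  have b3 : |deriv (deriv (deriv f)) r|
      ≤ ∑ i, ∑ j, ∑ k, |Dw [i, j, k] v (x + r • (n : E3))| := by
    rw [d3]
    have e : ∑ i, ∑ j, ∑ k, |Dw [i, j, k] v (x + r • (n : E3))|
        = ∑ k, ∑ j, ∑ i, |Dw [i, j, k] v (x + r • (n : E3))| := by
      rw [Finset.sum_comm]
      rw [Finset.sum_congr rfl (fun j _ => Finset.sum_comm)]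
      rw [Finset.sum_comm]
    rw [e]
    exact s1f_abs n (fun i => s1f_abs n (fun j => s1f_abs n (fun k => le_rfl)))
  have b0 : |f r| = |v (x + r • (n : E3))| := rfl
  rw [b0]
  gcongr

end UMB.Lin
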