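import Pool.Agent.Lib.UMB.Lin.S1a
import Pool.Agent.Lib.UMB.Lin.S1c
import Pool.Agent.Lib.UMB.Lin.S1e
import Pool.Agent.Lib.UMB.Lin.S1f
import Pool.Agent.Lib.UMB.Lin.N6

/-! # UMB.Lin, chunk S1d: the Sobolev inequality up to the boundary -/

open scoped ContDiff BigOperators
open Set MeasureTheory Pool.Agent.Lib.PenroseSph

namespace UMB.Lin

/-- the integrand of the averaged inequality -/
noncomputable def s1d_S (v : E3 → ℝ) (y : E3) : ℝ :=
  |v y| + ∑ i, |Dw [i] v y| + ∑ i, ∑ j, |Dw [i, j] v y| + ∑ i, ∑ j, ∑ k, |Dw [i, j, k] v y|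

theorem s1d_cont {v : E3 → ℝ} (hv : ContDiff ℝ ∞ v) (w : List (Fin 3)) :
    Continuous fun y => |Dw w v y| := (contDiff_Dw w hv).continuous.abs

theorem s1d_S_cont {v : E3 → ℝ} (hv : ContDiff ℝ ∞ v) : Continuous (s1d_S v) := by
  unfold s1d_S
  refine ((Continuous.add (Continuous.add (Continuous.add ?_ ?_) ?_) ?_))
  · exact hv.continuous.abs
  · exact continuous_finsetSum _ fun i _ => s1d_cont hv _
  · exact continuous_finsetSum _ fun i _ => continuous_finsetSum _ fun j _ => s1d_cont hv _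
  · exact continuous_finsetSum _ fun i _ => continuous_finsetSum _ fun j _ =>
      continuous_finsetSum _ fun k _ => s1d_cont hv _

theorem s1d_S_nonneg (v : E3 → ℝ) (y : E3) : 0 ≤ s1d_S v y := by
  unfold s1d_S
  positivity

theorem s1d_int {R : ℝ} {v : E3 → ℝ} (hv : ContDiff ℝ ∞ v) {K : ℝ}
    (hK : ∀ w : List (Fin 3), w.length ≤ 3 → ∫ y in Ann R, |Dw w v y| ≤ K) :
    ∫ y in Ann R, s1d_S v y ≤ 40 * K := by
  have hI : ∀ w : List (Fin 3), IntegrableOn (fun y => |Dw w v y|) (Ann R) := fun w =>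
    integrableOn_Ann (s1d_cont hv w)
  have h0 : IntegrableOn (fun y => |v y|) (Ann R) := hI []
  have h1 : IntegrableOn (fun y => ∑ i, |Dw [i] v y|) (Ann R) :=
    integrable_finsetSum _ fun i _ => hI _
  have h2 : IntegrableOn (fun y => ∑ i, ∑ j, |Dw [i, j] v y|) (Ann R) :=
    integrable_finsetSum _ fun i _ => integrable_finsetSum _ fun j _ => hI _
  have h3 : IntegrableOn (fun y => ∑ i, ∑ j, ∑ k, |Dw [i, j, k] v y|) (Ann R) :=
    integrable_finsetSum _ fun i _ => integrable_finsetSum _ fun j _ =>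
      integrable_finsetSum _ fun k _ => hI _
  have h01 : IntegrableOn (fun y => |v y| + ∑ i, |Dw [i] v y|) (Ann R) := h0.add h1
  have h012 : IntegrableOn (fun y => |v y| + ∑ i, |Dw [i] v y| + ∑ i, ∑ j, |Dw [i, j] v y|)
      (Ann R) := h01.add h2
  have k0 : ∫ y in Ann R, |v y| ≤ K := hK [] (by simp)
  have k1 : ∫ y in Ann R, ∑ i, |Dw [i] v y| ≤ 3 * K := by
    rw [integral_finsetSum _ fun i _ => hI _]
    calc ∑ i : Fin 3, ∫ y in Ann R, |Dw [i] v y| ≤ ∑ i : Fin 3, K :=
          Finset.sum_le_sum fun i _ => hK _ (by simp)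
      _ = 3 * K := by simp
  have k2 : ∫ y in Ann R, ∑ i, ∑ j, |Dw [i, j] v y| ≤ 9 * K := by
    rw [integral_finsetSum _ fun i _ => integrable_finsetSum _ fun j _ => hI _]
    calc ∑ i : Fin 3, ∫ y in Ann R, ∑ j : Fin 3, |Dw [i, j] v y| ≤ ∑ i : Fin 3, 3 * K := by
          refine Finset.sum_le_sum fun i _ => ?_
          rw [integral_finsetSum _ fun j _ => hI _]
          calc ∑ j : Fin 3, ∫ y in Ann R, |Dw [i, j] v y| ≤ ∑ j : Fin 3, K :=
                Finset.sum_le_sum fun j _ => hK _ (by simp)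
            _ = 3 * K := by simp
      _ = 9 * K := by simp; ring
  have k3 : ∫ y in Ann R, ∑ i, ∑ j, ∑ k, |Dw [i, j, k] v y| ≤ 27 * K := by
    rw [integral_finsetSum _ fun i _ => integrable_finsetSum _ fun j _ =>
      integrable_finsetSum _ fun k _ => hI _]
    calc ∑ i : Fin 3, ∫ y in Ann R, ∑ j : Fin 3, ∑ k : Fin 3, |Dw [i, j, k] v y|
        ≤ ∑ i : Fin 3, 9 * K := by
          refine Finset.sum_le_sum fun i _ => ?_
          rw [integral_finsetSum _ fun j _ => integrable_finsetSum _ fun k _ => hI _]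
          calc ∑ j : Fin 3, ∫ y in Ann R, ∑ k : Fin 3, |Dw [i, j, k] v y| ≤ ∑ j : Fin 3, 3 * K := by
                refine Finset.sum_le_sum fun j _ => ?_
                rw [integral_finsetSum _ fun k _ => hI _]
                calc ∑ k : Fin 3, ∫ y in Ann R, |Dw [i, j, k] v y| ≤ ∑ k : Fin 3, K :=
                      Finset.sum_le_sum fun k _ => hK _ (by simp)
                  _ = 3 * K := by simp
            _ = 9 * K := by simp; ring
      _ = 27 * K := by simp; ring
  unfold s1d_S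
  rw [integral_add h012 h3, integral_add h01 h2, integral_add h0 h1]
  linarith

/-- Sobolev: average `one_dim_sob` (with `δ = dl R`) over the directions of the cone,
`cone_int`, `l1_le_l2`, `l2_Dw_le`. -/
theorem sobolev {R : ℝ} (hR : 1 < R) : ∃ C, 0 ≤ C ∧ ∀ v : E3 → ℝ, ContDiff ℝ ∞ v →
    ∀ x ∈ cAnn R, |v x| ≤ C * H R 3 v := by
  have hdl : 0 < dl R := lt_min (by linarith) (by norm_num)
  obtain ⟨C1, hC1, h1⟩ := one_dim_sob hdl
  obtain ⟨c, hc, hdir⟩ := Dir_measure
  obtain ⟨C2, hC2, h2⟩ := l2_Dw_le hR 3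
  set V := Real.sqrt (volume.real (Ann R)) with hV
  refine ⟨C1 / c * (40 * (V * C2)), by positivity, ?_⟩
  intro v hv x hx
  obtain ⟨e, he, hcone⟩ := cone_sub hR hx
  have hS := s1d_S_cont hv
  have hint : ∫ y in Ann R, s1d_S v y ≤ 40 * (V * (C2 * H R 3 v)) := by
    apply s1d_int hv
    intro w hw
    exact (l1_le_l2 (contDiff_Dw w hv).continuous).trans
      (mul_le_mul_of_nonneg_left (h2 v hv w hw) (Real.sqrt_nonneg _))
  have hgc : Continuous fun n : Metric.sphere (0 : E3) 1 =>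
      ∫ r in (0 : ℝ)..(dl R), r ^ 2 * s1d_S v (x + r • (n : E3)) := by
    apply intervalIntegral.continuous_parametric_intervalIntegral_of_continuous'
    have : Continuous fun q : Metric.sphere (0 : E3) 1 × ℝ =>
        q.2 ^ 2 * s1d_S v (x + q.2 • (q.1 : E3)) := by fun_prop
    exact this
  have hpt : ∀ n : Metric.sphere (0 : E3) 1,
      |v x| ≤ C1 * ∫ r in (0 : ℝ)..(dl R), r ^ 2 * s1d_S v (x + r • (n : E3)) := by
    intro n
    have hf : ContDiff ℝ ∞ fun t : ℝ => v (x + t • (n : E3)) := by fun_prop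
    have hf1 := (contDiff_infty_iff_deriv.1 hf).2
    have hf2 := (contDiff_infty_iff_deriv.1 hf1).2
    have hf3 := (contDiff_infty_iff_deriv.1 hf2).2
    have h3 := h1 (fun t : ℝ => v (x + t • (n : E3))) (contDiff_infty.mp hf 3)
    simp only [zero_smul, add_zero] at h3
    refine h3.trans (mul_le_mul_of_nonneg_left ?_ hC1)
    have hc0 := hf.continuous
    have hc1 := hf1.continuous
    have hc2 := hf2.continuous
    have hc3 := hf3.continuous
    apply intervalIntegral.integral_mono_on hdl.le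
    · apply Continuous.intervalIntegrable
      fun_prop
    · apply Continuous.intervalIntegrable
      fun_prop
    · intro r _
      exact mul_le_mul_of_nonneg_left (radial_le v hv x n r) (sq_nonneg r)
  have hfinite : IntegrableOn (fun n : Metric.sphere (0 : E3) 1 =>
      C1 * ∫ r in (0 : ℝ)..(dl R), r ^ 2 * s1d_S v (x + r • (n : E3))) (Dir e) sig := by
    have h4 : IntegrableOn (fun n : Metric.sphere (0 : E3) 1 =>
      C1 * ∫ r in (0 : ℝ)..(dl R), r ^ 2 * s1d_S v (x + r • (n : E3))) univ sig :=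
      (hgc.const_mul C1 |>.continuousOn).integrableOn_compact isCompact_univ
    exact h4.mono_set (subset_univ _)
  have hav : ∫ n in Dir e, |v x| ∂sig ≤ ∫ n in Dir e,
      (C1 * ∫ r in (0 : ℝ)..(dl R), r ^ 2 * s1d_S v (x + r • (n : E3))) ∂sig := by
    apply setIntegral_mono _ hfinite
    · intro n
      exact hpt n
    · exact integrableOn_const
  rw [setIntegral_const, smul_eq_mul, integral_const_mul] at hav
  have h5 := cone_int hR hS (s1d_S_nonneg v) hcone
  have h6 : c * |v x| ≤ C1 * (40 * (V * (C2 * H R 3 v))) :=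
    calc c * |v x| ≤ sig.real (Dir e) * |v x| :=
          mul_le_mul_of_nonneg_right (hdir e he) (abs_nonneg _)
      _ ≤ _ := hav
      _ ≤ _ := mul_le_mul_of_nonneg_left (h5.trans hint) hC1
  calc |v x| = c * |v x| / c := by field_simp
    _ ≤ C1 * (40 * (V * (C2 * H R 3 v))) / c := div_le_div_of_nonneg_right h6 hc.le
    _ = C1 / c * (40 * (V * C2)) * H R 3 v := by ring

/-- all words: apply `sobolev` to `Zw w v` -/
theorem sobolev_Bd {R : ℝ} (hR : 1 < R) (k : ℕ) : ∃ C, 0 ≤ C ∧ ∀ v : E3 → ℝ, ContDiff ℝ ∞ v →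
    Bd R k (C * H R (k + 3) v) v := by
  obtain ⟨C, hC, h⟩ := sobolev hR
  refine ⟨C, hC, fun v hv w hw x hx => ?_⟩
  refine (h (Zw w v) (contDiff_Zw w hv) x hx).trans (mul_le_mul_of_nonneg_left ?_ hC)
  exact (H_Zw R 3 w v).trans (H_mono R (by omega) v)

end UMB.Lin
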