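import Pool.Agent.Lib.UMB.Lin.M7
import Pool.Agent.Lib.UMB.Lin.M5
import Pool.Agent.Lib.UMB.Lin.A5
import Pool.Agent.Lib.UMB.Lin.S1d

/-! # UMB.Lin, chunk M8: the closed a priori estimate -/

open scoped ContDiff BigOperators Topology
open Set MeasureTheory Filter Pool.Agent.Lib.PenroseSph

namespace UMB.Lin

/-- maximum principle for operators in the frame: `ap_eq_Lc`, `ca_good`, `sup_bound` -/
theorem sup_ap {R lam B : ℝ} (hR : 1 < R) (hlam : 0 < lam) (hB : 0 ≤ B) :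
    ∃ C, 0 ≤ C ∧ ∀ L : Op, L.Good R lam B 1 → ∀ v : E3 → ℝ, ContDiff ℝ ∞ v → Bz R v →
      ∀ K : ℝ, 0 ≤ K → (∀ x ∈ Ann R, |L.ap v x| ≤ K) → ∀ x ∈ cAnn R, |v x| ≤ C * K := by
  obtain ⟨B', hB', hca⟩ := ca_good hR hlam hB
  obtain ⟨C, hC, hs⟩ := sup_bound hR hlam hB'
  refine ⟨C, hC, ?_⟩
  intro L hL v hv hz K hK hLv x hx
  have h1 := hs (caA L) (caB L) L.γ (hca L hL) v
    ⟨fun y _ => (hv.of_le (by norm_cast)).contDiffAt, hv.continuous.continuousOn⟩ 0 K le_rfl hK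
    (fun y hy => by
      rw [← ap_eq_Lc hL.toSmooth hv y]
      exact hLv y hy)
    (fun y hy => by rw [hz y hy, abs_zero]) x hx
  rwa [zero_add] at h1

/-- `H 0 v ≤ C sup |v| ≤ C sup |L v| ≤ C H 3 (L v) ≤ C H k (L v)` for `k ≥ 3`, and `apriori`. -/
theorem apriori_closed {R lam B : ℝ} (hR : 1 < R) (hlam : 0 < lam) (hB : 0 ≤ B) {k : ℕ}
    (hk : 3 ≤ k) :
    ∃ C, 0 ≤ C ∧ ∀ L : Op, L.Good R lam B (k + 2) → ∀ v : E3 → ℝ, ContDiff ℝ ∞ v → Bz R v →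
      H R (k + 2) v ≤ C * H R k (L.ap v) := by
  obtain ⟨C1, hC1, h1⟩ := apriori hR hlam hB k
  obtain ⟨C2, hC2, h2⟩ := sup_ap hR hlam hB
  obtain ⟨C3, hC3, h3⟩ := sobolev hR
  set V : ℝ := Real.sqrt (volume.real (Ann R)) with hV
  refine ⟨C1 * (1 + V * (C2 * C3)), by positivity, ?_⟩
  intro L hL v hv hz
  have hap : ContDiff ℝ ∞ (L.ap v) := contDiff_ap hL.toSmooth hv
  have hk3 : H R 3 (L.ap v) ≤ H R k (L.ap v) := H_mono R hk _
  have h3n : 0 ≤ H R 3 (L.ap v) := H_nonneg _ _ _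
  have hsup : ∀ x ∈ cAnn R, |v x| ≤ C2 * (C3 * H R 3 (L.ap v)) := by
    refine h2 L (hL.mono (by omega)) v hv hz _ (by positivity) ?_
    intro x hx
    exact h3 _ hap x (Ann_subset R hx)
  have hl2 : H R 0 v ≤ C2 * (C3 * H R 3 (L.ap v)) * V := by
    have := l2_le_sup (R := R) (s := C2 * (C3 * H R 3 (L.ap v))) (by positivity) hv.continuous
      (fun x hx => hsup x (Ann_subset R hx))
    rw [mul_comm] at this
    exact this
  have h4 := h1 L hL v hv hz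
  have hmul : C2 * (C3 * H R 3 (L.ap v)) * V ≤ C2 * (C3 * H R k (L.ap v)) * V := by
    gcongr
  calc H R (k + 2) v ≤ C1 * (H R k (L.ap v) + H R 0 v) := h4
    _ ≤ C1 * (H R k (L.ap v) + C2 * (C3 * H R k (L.ap v)) * V) :=
        mul_le_mul_of_nonneg_left (by linarith) hC1
    _ = _ := by ring

end UMB.Lin
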