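import Pool.Agent.Lib.UMB.Lin.D1
import Pool.Agent.Lib.UMB.Lin.D2
import Pool.Agent.Lib.UMB.Lin.M8

set_option autoImplicit false

/-! # UMB.Lin, chunk D3 (dense range) -/

open scoped ContDiff BigOperators
open Set MeasureTheory Pool.Agent.Lib.PenroseSph

namespace UMB.Lin

/-- The range of `L` on smooth functions vanishing on the spheres is dense in every norm. -/
def DenseR (R : ℝ) (L : Op) : Prop := ∀ (k : ℕ) (f : E3 → ℝ), ContDiff ℝ ∞ f → ∀ e : ℝ, 0 < e →
  ∃ v : E3 → ℝ, ContDiff ℝ ∞ v ∧ Bz R v ∧ H R k (fun x => L.ap v x - f x) < e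

/-- the smooth functions -/
def d3W : Submodule ℝ (E3 → ℝ) where
  carrier := {f | ContDiff ℝ ∞ f}
  add_mem' := by
    intro a b ha hb
    have h1 : ContDiff ℝ ∞ a := ha
    have h2 : ContDiff ℝ ∞ b := hb
    exact h1.add h2
  zero_mem' := (contDiff_const : ContDiff ℝ ∞ (fun _ : E3 => (0 : ℝ)))
  smul_mem' := by
    intro c f hf
    have h1 : ContDiff ℝ ∞ f := hf
    exact contDiff_const.smul h1

/-- the smooth functions vanishing on the spheres -/
def d3V (R : ℝ) : Submodule ℝ (E3 → ℝ) where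
  carrier := {f | ContDiff ℝ ∞ f ∧ Bz R f}
  add_mem' := by
    intro a b ha hb
    have h1 : ContDiff ℝ ∞ a := ha.1
    have h2 : ContDiff ℝ ∞ b := hb.1
    exact ⟨h1.add h2, fun x hx => by simp [Pi.add_apply, ha.2 x hx, hb.2 x hx]⟩
  zero_mem' := ⟨(contDiff_const : ContDiff ℝ ∞ (fun _ : E3 => (0 : ℝ))), fun _ _ => rfl⟩
  smul_mem' := by
    intro c f hf
    have h1 : ContDiff ℝ ∞ f := hf.1
    exact ⟨contDiff_const.smul h1, fun x hx => by simp [Pi.smul_apply, hf.2 x hx]⟩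

/-- the operator as a linear map -/
noncomputable def d3L (R : ℝ) (L : Op) (hL : L.Smooth) : d3V R →ₗ[ℝ] d3W where
  toFun := fun v => ⟨L.ap v.1, contDiff_ap hL v.2.1⟩
  map_add' := fun u v => by
    apply Subtype.ext
    funext x
    exact ap_add hL u.2.1 v.2.1 x
  map_smul' := fun c v => by
    apply Subtype.ext
    funext x
    exact d2_smul hL c v.2.1 x

/-- CHUNK D3 (M). Dense range is inherited along the path.
PROOF. By `H_mono` it is enough to treat `k >= 3`. `d1_dense` with `V` = submodule of `E3 → ℝ` of the smooth functions with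
`Bz R`, `W` = submodule of the smooth functions, `N f = H R k f`, `M v = H R (k+2) v`, `L0`, `L1` the linear maps
`v ↦ L0.ap v`, `v ↦ L.ap v` (`ap_add`, `d2_smul`, `contDiff_ap`); `hN` from `H_nonneg`, `H_add`, `H_const_mul`;
`h1` from `apriori_closed` for `pathOp` (`d2_good`, `d2_ap`; take the common constants `min lam0 lam`, `max B0 B` for the order
`k + 2`, `d2_mono`); `h2` from `ap_bound` for both operators. -/
theorem d3_dense {R lam0 lam : ℝ} (hR : 1 < R) (hlam0 : 0 < lam0) (hlam : 0 < lam) {L0 L : Op}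
    (h0 : ∀ m, ∃ B, 0 ≤ B ∧ L0.Good R lam0 B m) (hL : ∀ m, ∃ B, 0 ≤ B ∧ L.Good R lam B m)
    (hd : DenseR R L0) : DenseR R L := by
  intro k f hf e he
  set k' := max k 3 with hk'
  have hk3 : 3 ≤ k' := le_max_right _ _
  obtain ⟨B0, hB0, hg0⟩ := h0 (k' + 2)
  obtain ⟨B1, hB1, hg1⟩ := hL (k' + 2)
  have hB : 0 ≤ max B0 B1 := le_max_of_le_left hB0
  have hl : 0 < min lam0 lam := lt_min hlam0 hlam
  have hG0 : L0.Good R (min lam0 lam) (max B0 B1) (k' + 2) :=
    d2_mono hg0 (min_le_left _ _) (le_max_left _ _)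
  have hG1 : L.Good R (min lam0 lam) (max B0 B1) (k' + 2) :=
    d2_mono hg1 (min_le_right _ _) (le_max_right _ _)
  obtain ⟨C, hC, hap⟩ := apriori_closed hR hl hB hk3
  obtain ⟨C1, hC1, hbd⟩ := ap_bound R k' hB
  have hS0 := hG0.toSmooth
  have hS1 := hG1.toSmooth
  have main := d1_dense (V := d3V R) (W := d3W) (fun w => H R k' w.1) (fun v => H R (k' + 2) v.1)
    (d3L R L0 hS0) (d3L R L hS1)
    (fun w => H_nonneg R k' _)
    (fun w w' => H_add k' w.2 w'.2)
    (fun c w => H_const_mul k' c w.2)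
    C (C1 + C1) (add_nonneg hC1 hC1)
    (fun t ht0 ht1 v => by
      have h1 := hap (pathOp L0 L t) (d2_good hG0 hG1 ht0 ht1) v.1 v.2.1 v.2.2
      have h2 : (fun x => (pathOp L0 L t).ap v.1 x)
          = ((1 - t) • d3L R L0 hS0 v + t • d3L R L hS1 v : d3W).1 := by
        funext x
        rw [d2_ap hS0 hS1 t v.2.1 x]
        rfl
      have h3 : H R k' ((pathOp L0 L t).ap v.1)
          = H R k' ((1 - t) • d3L R L0 hS0 v + t • d3L R L hS1 v : d3W).1 := by
        rw [← h2]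
      rw [h3] at h1
      exact h1)
    (fun v => by
      have hb : ∀ (L' : Op), L'.Good R (min lam0 lam) (max B0 B1) (k' + 2) →
          H R k' (L'.ap v.1) ≤ C1 * H R (k' + 2) v.1 := fun L' hL' =>
        hbd L' hL'.toSmooth (fun a b => Bd_mono (by omega) le_rfl (hL'.bα a b))
          (fun a => Bd_mono (by omega) le_rfl (hL'.bβ a)) (Bd_mono (by omega) le_rfl hL'.bγ)
          v.1 v.2.1
      have h1 := hb L0 hG0
      have h2 := hb L hG1
      have h3 := H_sub (R := R) k' (contDiff_ap hS1 v.2.1) (contDiff_ap hS0 v.2.1)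
      have h4 : H R k' (d3L R L hS1 v - d3L R L0 hS0 v : d3W).1
          ≤ H R k' (L.ap v.1) + H R k' (L0.ap v.1) := h3
      calc H R k' (d3L R L hS1 v - d3L R L0 hS0 v : d3W).1
          ≤ H R k' (L.ap v.1) + H R k' (L0.ap v.1) := h4
        _ ≤ (C1 + C1) * H R (k' + 2) v.1 := by linarith)
    (fun w e' he' => by
      obtain ⟨v, hv, hz, hlt⟩ := hd k' w.1 w.2 e' he'
      exact ⟨⟨v, hv, hz⟩, hlt⟩)
  obtain ⟨v, hv⟩ := main ⟨f, hf⟩ e he
  refine ⟨v.1, v.2.1, v.2.2, lt_of_le_of_lt (H_mono R (le_max_left k 3) _) hv⟩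

end UMB.Lin
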