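import Pool.Agent.Lib.UMB.Lin.D3

set_option autoImplicit false

/-! # UMB.Lin, chunk D4 (diagonal sequence) -/

open scoped ContDiff BigOperators Topology
open Set MeasureTheory Filter Pool.Agent.Lib.PenroseSph

namespace UMB.Lin

/-- CHUNK D4 (S/M), first statement. Diagonal sequence: choose `w n` for the order `n` and the error `1/(n+1)`, `H_mono`. -/
theorem d4_seq {R : ℝ} {L : Op} (hd : DenseR R L) {f : E3 → ℝ} (hf : ContDiff ℝ ∞ f) :
    ∃ w : ℕ → E3 → ℝ, (∀ n, ContDiff ℝ ∞ (w n) ∧ Bz R (w n)) ∧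
      ∀ k, Tendsto (fun n => H R k (fun x => L.ap (w n) x - f x)) atTop (𝓝 0) := by
  have h1 : ∀ n : ℕ, ∃ v : E3 → ℝ, ContDiff ℝ ∞ v ∧ Bz R v ∧
      H R n (fun x => L.ap v x - f x) < 1 / ((n : ℝ) + 1) :=
    fun n => hd n f hf _ (by positivity)
  choose w hw1 hw2 hw3 using h1
  refine ⟨w, fun n => ⟨hw1 n, hw2 n⟩, fun k => ?_⟩
  refine squeeze_zero' (Eventually.of_forall fun n => H_nonneg R k _) ?_
    tendsto_one_div_add_atTop_nhds_zero_nat
  filter_upwards [eventually_ge_atTop k] with n hn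
  exact (H_mono R hn _).trans (hw3 n).le

/-- CHUNK D4 (S/M), second statement. Such a sequence is Cauchy in every norm: with `k' = max k 3`, `apriori_closed` for
`w m - w n`: `H (k'+2) (w m - w n) <= C H k' (L (w m) - L (w n)) <= C (H k' (L (w m) - f) + H k' (L (w n) - f))`
(`ap_sub`, `H_sub`, `H_congr`). -/
theorem d4_cauchy {R lam : ℝ} (hR : 1 < R) (hlam : 0 < lam) {L : Op} (hL : ∀ m, ∃ B, 0 ≤ B ∧ L.Good R lam B m)
    {f : E3 → ℝ} (hf : ContDiff ℝ ∞ f) {w : ℕ → E3 → ℝ} (hw : ∀ n, ContDiff ℝ ∞ (w n) ∧ Bz R (w n))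
    (h : ∀ k, Tendsto (fun n => H R k (fun x => L.ap (w n) x - f x)) atTop (𝓝 0)) :
    ∀ (k : ℕ) (e : ℝ), 0 < e → ∃ N : ℕ, ∀ m n, N ≤ m → N ≤ n → H R k (fun x => w m x - w n x) < e := by
  intro k e he
  obtain ⟨B, hB, hG⟩ := hL (max k 3 + 2)
  obtain ⟨C, hC, hA⟩ := apriori_closed hR hlam hB (k := max k 3) (le_max_right _ _)
  have h1 := (h (max k 3)).eventually (gt_mem_nhds (show (0 : ℝ) < e / (2 * (C + 1)) by positivity))
  obtain ⟨N, hN⟩ := eventually_atTop.1 h1
  refine ⟨N, fun m n hm hn => ?_⟩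
  have hs : ContDiff ℝ ∞ (fun x => w m x - w n x) := (hw m).1.sub (hw n).1
  have hb : Bz R (fun x => w m x - w n x) := fun x hx => by
    simp only [(hw m).2 x hx, (hw n).2 x hx, sub_self]
  have h2 := hA L hG _ hs hb
  have hLm : ContDiff ℝ ∞ (fun x => L.ap (w m) x - f x) := (contDiff_ap hG.toSmooth (hw m).1).sub hf
  have hLn : ContDiff ℝ ∞ (fun x => L.ap (w n) x - f x) := (contDiff_ap hG.toSmooth (hw n).1).sub hf
  have h3 : H R (max k 3) (L.ap (fun x => w m x - w n x))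
      ≤ H R (max k 3) (fun x => L.ap (w m) x - f x) + H R (max k 3) (fun x => L.ap (w n) x - f x) := by
    have e1 : H R (max k 3) (L.ap (fun x => w m x - w n x))
        = H R (max k 3) (fun x => (L.ap (w m) x - f x) - (L.ap (w n) x - f x)) := by
      refine H_congr _ fun x _ => ?_
      rw [ap_sub hG.toSmooth (hw m).1 (hw n).1]
      ring
    rw [e1]
    exact H_sub _ hLm hLn
  have h4 : H R k (fun x => w m x - w n x) ≤ H R (max k 3 + 2) (fun x => w m x - w n x) :=
    H_mono R ((le_max_left k 3).trans (Nat.le_add_right _ 2)) _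
  have h5 := hN m hm
  have h6 := hN n hn
  have h7 : C * (H R (max k 3) (fun x => L.ap (w m) x - f x)
      + H R (max k 3) (fun x => L.ap (w n) x - f x)) ≤ C * (e / (2 * (C + 1)) + e / (2 * (C + 1))) :=
    mul_le_mul_of_nonneg_left (add_le_add h5.le h6.le) hC
  have h8 : C * (e / (2 * (C + 1)) + e / (2 * (C + 1))) = e * (C / (C + 1)) := by
    field_simp
    ring
  have h9 : C / (C + 1) < 1 := by
    rw [div_lt_one (by linarith)]
    linarith
  have h10 : e * (C / (C + 1)) < e := by nlinarith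
  calc H R k (fun x => w m x - w n x) ≤ C * H R (max k 3) (L.ap (fun x => w m x - w n x)) :=
        h4.trans h2
    _ ≤ C * (H R (max k 3) (fun x => L.ap (w m) x - f x)
      + H R (max k 3) (fun x => L.ap (w n) x - f x)) := mul_le_mul_of_nonneg_left h3 hC
    _ ≤ e * (C / (C + 1)) := by rw [← h8]; exact h7
    _ < e := h10

end UMB.Lin
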