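import Mathlib
import Pool.Agent.Lib.PenroseSph.Defs

/-!
# UMB.Lin: the linear Dirichlet problem on the annulus, definitions

`E3 = EuclideanSpace ℝ (Fin 3)`, `pd k f x` is the partial derivative (PenroseSph.Defs).
The frame: `Z 0` is the Euler field `x . grad`, `Z 1, Z 2, Z 3` are the rotation fields
`X_i = (x cross grad)_i`. All functions are globally smooth on `E3`, the norms only look at the annulus.
-/

open scoped ContDiff BigOperators
open Set MeasureTheory Pool.Agent.Lib.PenroseSph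

namespace UMB.Lin

/-- open annulus -/
def Ann (R : ℝ) : Set E3 := {x | 1 < ‖x‖ ∧ ‖x‖ < R}

/-- closed annulus -/
def cAnn (R : ℝ) : Set E3 := {x | 1 ≤ ‖x‖ ∧ ‖x‖ ≤ R}

/-- the linear vector fields `x ↦ e_i × x` -/
noncomputable def rotL (i : Fin 3) : E3 →L[ℝ] E3 := LinearMap.toContinuousLinearMap
  (match i with
   | 0 => { toFun := fun x => !₂[0, -x 2, x 1]
            map_add' := by intro x y; ext j; fin_cases j <;> simp ; ring
            map_smul' := by intro c x; ext j; fin_cases j <;> simp }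
   | 1 => { toFun := fun x => !₂[x 2, 0, -x 0]
            map_add' := by intro x y; ext j; fin_cases j <;> simp ; ring
            map_smul' := by intro c x; ext j; fin_cases j <;> simp }
   | 2 => { toFun := fun x => !₂[-x 1, x 0, 0]
            map_add' := by intro x y; ext j; fin_cases j <;> simp ; ring
            map_smul' := by intro c x; ext j; fin_cases j <;> simp })

/-- the frame of linear vector fields: Euler field and the three rotations -/
noncomputable def Zm : Fin 4 → E3 →L[ℝ] E3 :=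
  ![ContinuousLinearMap.id ℝ E3, rotL 0, rotL 1, rotL 2]

/-- derivative along a field of the frame -/
noncomputable def Z (a : Fin 4) (v : E3 → ℝ) : E3 → ℝ := fun x => fderiv ℝ v x (Zm a x)

/-- iterated derivatives: `Zw [a1, ..., ak] v = Z a1 (... (Z ak v))` -/
noncomputable def Zw : List (Fin 4) → (E3 → ℝ) → E3 → ℝ
  | [], v => v
  | a :: w, v => Z a (Zw w v)

/-- the `L²` norm on the annulus -/
noncomputable def l2 (R : ℝ) (f : E3 → ℝ) : ℝ := Real.sqrt (∫ x in Ann R, f x ^ 2)

/-- Sobolev norm of order `k` (a sum over words in the frame) -/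
noncomputable def H (R : ℝ) : ℕ → (E3 → ℝ) → ℝ
  | 0, v => l2 R v
  | k + 1, v => H R k v + ∑ a, H R k (Z a v)

/-- all words of length at most `k` in the frame are bounded by `B` on the closed annulus -/
def Bd (R : ℝ) (k : ℕ) (B : ℝ) (v : E3 → ℝ) : Prop :=
  ∀ w : List (Fin 4), w.length ≤ k → ∀ x ∈ cAnn R, |Zw w v x| ≤ B

/-- zero on both boundary spheres -/
def Bz (R : ℝ) (v : E3 → ℝ) : Prop := ∀ x, (‖x‖ = 1 ∨ ‖x‖ = R) → v x = 0

/-- a second order operator in the frame, `v ↦ Z_a (α_ab Z_b v) + β_a Z_a v + γ v` -/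
structure Op where
  α : Fin 4 → Fin 4 → E3 → ℝ
  β : Fin 4 → E3 → ℝ
  γ : E3 → ℝ

/-- the operator applied to a function -/
noncomputable def Op.ap (L : Op) (v : E3 → ℝ) : E3 → ℝ := fun x =>
  (∑ a, ∑ b, Z a (fun y => L.α a b y * Z b v y) x) + (∑ a, L.β a x * Z a v x) + L.γ x * v x

/-- smooth coefficients, symmetric -/
structure Op.Smooth (L : Op) : Prop where
  α : ∀ a b, ContDiff ℝ ∞ (L.α a b)
  β : ∀ a, ContDiff ℝ ∞ (L.β a)
  γ : ContDiff ℝ ∞ L.γ
  symm : ∀ a b x, L.α a b x = L.α b a x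

/-- ellipticity constant `lam`, coefficients with `m` derivatives bounded by `B`, `γ ≤ 0` -/
structure Op.Good (R lam B : ℝ) (m : ℕ) (L : Op) : Prop extends L.Smooth where
  ell : ∀ x ∈ cAnn R, ∀ ξ : Fin 4 → ℝ, lam * ∑ a, ξ a ^ 2 ≤ ∑ a, ∑ b, L.α a b x * ξ a * ξ b
  bα : ∀ a b, Bd R m B (L.α a b)
  bβ : ∀ a, Bd R m B (L.β a)
  bγ : Bd R m B L.γ
  neg : ∀ x ∈ cAnn R, L.γ x ≤ 0

end UMB.Lin
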