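import Pool.Agent.Lib.UMB.Lin.FDefs
import Pool.Agent.Lib.UMB.Lin.C5

set_option autoImplicit false

/-! # UMB.Lin, chunk F0 (the linear theorem) -/

open scoped ContDiff BigOperators Topology
open Set MeasureTheory Filter Pool.Agent.Lib.PenroseSph

namespace UMB.Lin

/-- CHUNK F0 (S), first statement: `opc` is good for every order (`ofCart_good`, `Bd R m 0`-bounds of the zero function). -/
theorem f0_good {R lam : ℝ} (hR : 1 < R) (hlam : 0 < lam) (B : ℕ → ℝ) (m : ℕ) (hB : 0 ≤ B m) : ∃ B', 0 ≤ B' ∧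
    ∀ (a : Fin 3 → Fin 3 → E3 → ℝ) (b : Fin 3 → E3 → ℝ), CBd R lam B a b → (opc lam a b).Good R (lam / R ^ 2) B' m := by
  obtain ⟨B', hB', h⟩ := ofCart_good hR (lam := lam) (B := B m) hlam hB m
  refine ⟨B', hB', fun a b hab => ?_⟩
  refine h a b (fun _ => 0) hab.smA hab.smB contDiff_const hab.symm hab.ell (hab.bdA m) (hab.bdB m)
    ?_ (fun _ _ => le_rfl)
  intro w _ x _
  have h0 : ∀ w : List (Fin 4), Zw w (fun _ : E3 => (0 : ℝ)) = fun _ => 0 := by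
    intro w
    induction w with
    | nil => rfl
    | cons a w ih =>
      change Z a (Zw w _) = _
      rw [ih]
      funext y
      exact Z_const a 0 y
  rw [h0, abs_zero]
  exact hB

/-- CHUNK F0 (S/M), second statement: the linear Dirichlet problem. `d3_dense` (from `BaseOK`), `d4_seq`, `d4_cauchy`, `l1_slim`,
`l4_eq`. -/
theorem f0_lin {R lam : ℝ} (hR : 1 < R) (hlam : 0 < lam) (hb : BaseOK R) {B : ℕ → ℝ} {a : Fin 3 → Fin 3 → E3 → ℝ}
    {b : Fin 3 → E3 → ℝ} (h : CBd R lam B a b) {f : E3 → ℝ} (hf : ContDiff ℝ ∞ f) :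
    ∃ (w : ℕ → E3 → ℝ) (v : E3 → ℝ), SLim R w v ∧ (∀ n, Bz R (w n)) ∧
      (∀ k, Tendsto (fun n => H R k (fun x => (opc lam a b).ap (w n) x - f x)) atTop (𝓝 0)) ∧
        ∀ x ∈ Ann R, Lc a b (fun _ => 0) v x = f x := by
  obtain ⟨L0, lam0, hlam0, hL0, hd0⟩ := hb
  have hL : ∀ m, ∃ B', 0 ≤ B' ∧ (opc lam a b).Good R (lam / R ^ 2) B' m := by
    intro m
    obtain ⟨B', hB', hg⟩ := f0_good hR hlam B m (h.nn m)
    exact ⟨B', hB', hg a b h⟩
  have hlam' : 0 < lam / R ^ 2 := by positivity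
  have hd : DenseR R (opc lam a b) := d3_dense hR hlam0 hlam' hL0 hL hd0
  obtain ⟨w, hw, hlim⟩ := d4_seq hd hf
  obtain ⟨v, hv⟩ := l1_slim hR (fun n => (hw n).1) (d4_cauchy hR hlam' hL hf hw hlim)
  exact ⟨w, v, hv, fun n => (hw n).2, hlim, l4_eq hR h hf hv hlim⟩

end UMB.Lin
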