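import Pool.Agent.Lib.UMB.Lin.F1a
import Pool.Agent.Lib.UMB.Lin.C3

set_option autoImplicit false

/-! # UMB.Lin, chunk F1 (the Dirichlet problem with values 1 and 0, uniform C^2 bound) -/

open scoped ContDiff BigOperators Topology
open Set MeasureTheory Filter Pool.Agent.Lib.PenroseSph

namespace UMB.Lin

/-- A smooth function with the boundary values `1` and `0`. -/
noncomputable def v0 (R : ℝ) (x : E3) : ℝ := (R ^ 2 - ‖x‖ ^ 2) / (R ^ 2 - 1)

theorem v0_smooth (R : ℝ) : ContDiff ℝ ∞ (v0 R) := by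
  unfold v0
  exact (contDiff_const.sub (contDiff_norm_sq ℝ)).div_const _

/-- CHUNK F1 (M). The constant `K` depends only on `R, lam, B`.
PROOF. `f := - (opc lam a b).ap (v0 R)` (smooth, `contDiff_ap`; `H R 3 f <= S` with `S` independent of `a, b`: `ap_bound` with `k = 3`
and the bounds of `f0_good` for `m = 4`), `f0_lin` gives `u n -> u`, `w n := v0 R + u n`, `v := v0 R + u`. `SLim` for the sum (`w m - w n =
u m - u n`), `Lc a b 0 v = Lc a b 0 v0 + f = 0` on `Ann R` (`ofCart_ap`, `Lc_add_mul`). Bounds: `f1a_bound`, `Dw_of_Bd` (words of length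
`<= 2` of `w n` bounded by `K`), `l3_smooth` (limit). -/
theorem f1_sol {R lam : ℝ} (hR : 1 < R) (hlam : 0 < lam) (hb : BaseOK R) (B : ℕ → ℝ) (hB : ∀ m, 0 ≤ B m) :
    ∃ K : ℝ, 0 ≤ K ∧ ∀ (a : Fin 3 → Fin 3 → E3 → ℝ) (b : Fin 3 → E3 → ℝ), CBd R lam B a b →
      ∃ (w : ℕ → E3 → ℝ) (v : E3 → ℝ), DSol R a b w v ∧
        ∀ x ∈ Ann R, (∀ i, |pd i v x| ≤ K) ∧ ∀ i j, |pd i (pd j v) x| ≤ K := by
  obtain ⟨B', hB', hgood⟩ := f0_good (lam := lam) hR hlam B 4 (hB 4)
  obtain ⟨C1, hC1, hap⟩ := ap_bound R 3 hB'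
  have hv0 : ContDiff ℝ ∞ (v0 R) := v0_smooth R
  set S : ℝ := C1 * H R 5 (v0 R) with hS
  have hS0 : 0 ≤ S := mul_nonneg hC1 (H_nonneg R 5 _)
  obtain ⟨K0, hK0, hK0b⟩ := f1a_bound (lam := lam) hR hlam B hB S hS0
  obtain ⟨B0, hB0, hB0b⟩ := Bd_exists R 2 hv0
  obtain ⟨C2, hC2, hDw⟩ := Dw_of_Bd hR 2
  refine ⟨C2 * (B0 + K0), by positivity, ?_⟩
  intro a b hab
  have hG := hgood a b hab
  have hapv : ContDiff ℝ ∞ ((opc lam a b).ap (v0 R)) := contDiff_ap hG.toSmooth hv0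
  set f : E3 → ℝ := fun x => (-1) * (opc lam a b).ap (v0 R) x with hf
  have hfs : ContDiff ℝ ∞ f := contDiff_const.mul hapv
  have hfS : H R 3 f ≤ S := by
    rw [hf, H_const_mul 3 (-1) hapv]
    have h1 := hap (opc lam a b) hG.toSmooth (fun p q => hG.bα p q)
      (fun p => Bd_mono (by norm_num) le_rfl (hG.bβ p)) (Bd_mono (by norm_num) le_rfl hG.bγ)
      (v0 R) hv0
    simpa using h1
  obtain ⟨w', u, hsl, hbz, hH, hLu⟩ := f0_lin hR hlam hb hab hfs
  have hKn := hK0b a b hab f hfs hfS w' hsl.smooth hbz (hH 3)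
  have hsl' : SLim R (fun n x => v0 R x + w' n x) (fun x => v0 R x + u x) := by
    refine ⟨fun n => hv0.add (hsl.smooth n), ?_, ?_⟩
    · intro k e he
      obtain ⟨N, hN⟩ := hsl.cau k e he
      refine ⟨N, fun m n hm hn => ?_⟩
      have h1 : (fun x => (v0 R x + w' m x) - (v0 R x + w' n x)) = fun x => w' m x - w' n x := by
        funext x; ring
      rw [h1]
      exact hN m n hm hn
    · have h1 := hsl.lim
      rw [Metric.tendstoUniformlyOn_iff] at h1 ⊢
      intro e he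
      filter_upwards [h1 e he] with n hn x hx
      have h2 := hn x hx
      rw [Real.dist_eq] at h2 ⊢
      rwa [add_sub_add_left_eq_sub]
  have hR1 : R ^ 2 - 1 ≠ 0 := by nlinarith
  refine ⟨fun n x => v0 R x + w' n x, fun x => v0 R x + u x, ⟨hsl', ?_, ?_, ?_⟩, ?_⟩
  · intro n x hx
    show v0 R x + w' n x = 1
    rw [hbz n x (Or.inl hx)]
    unfold v0
    rw [hx, one_pow, add_zero, div_self hR1]
  · intro n x hx
    show v0 R x + w' n x = 0
    rw [hbz n x (Or.inr hx)]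
    unfold v0
    rw [hx, sub_self, zero_div, add_zero]
  · intro x hx
    have h1 : Lc a b (fun _ => 0) (fun y => 1 * v0 R y + 1 * u y) x =
        1 * Lc a b (fun _ => 0) (v0 R) x + 1 * Lc a b (fun _ => 0) u x :=
      Lc_add_mul (contDiff_infty.mp hv0 2).contDiffAt ((l3_C2c hR hsl).c2 x hx) 1 1
    simp only [one_mul] at h1
    rw [h1, hLu x hx]
    have h2 : (opc lam a b).ap (v0 R) x = Lc a b (fun _ => 0) (v0 R) x :=
      ofCart_ap hab.smA hv0 (by linarith [hx.1] : 1 / 2 < ‖x‖)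
    simp only [hf]
    rw [h2]
    ring
  · have hl := (l3_smooth hR hsl').2.2
    have hlim : ∀ l : List (Fin 3), l.length ≤ 2 → ∀ x ∈ Ann R,
        |Dw l (fun x => v0 R x + u x) x| ≤ C2 * (B0 + K0) := by
      intro l hl2 x hx
      have h1 := ((hl l).tendsto_at hx).abs
      refine le_of_tendsto h1 ?_
      filter_upwards [hKn] with n hn
      exact hDw _ (B0 + K0) (by positivity) (hv0.add (hsl.smooth n))
        (Bd_add 2 hv0 (hsl.smooth n) hB0b hn) l hl2 x (Ann_subset R hx)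
    intro x hx
    exact ⟨fun i => hlim [i] (by simp) x hx, fun i j => hlim [i, j] (by simp) x hx⟩

end UMB.Lin
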