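import Pool.Agent.Lib.UMB.Lin.F0

set_option autoImplicit false

/-! # UMB.Lin, chunk F1a (uniform bound of the approximating sequence) -/

open scoped ContDiff BigOperators Topology
open Set MeasureTheory Filter Pool.Agent.Lib.PenroseSph

namespace UMB.Lin

/-- CHUNK F1a (S/M). The constant `K` depends only on `R, lam, B, S`.
PROOF. `sobolev_Bd` with `k = 2`: `Bd R 2 (C H R 5 (w n)) (w n)`; `apriori_closed` with `k = 3` for `opc lam a b` (`f0_good`, order `5`,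
ellipticity `lam/R^2`): `H R 5 (w n) <= C' H R 3 (L.ap (w n)) <= C' (H R 3 (L.ap (w n) - f) + H R 3 f) <= C' (1 + S)` for large
`n` (`H_add`, `contDiff_ap`). `Bd_mono`. -/
theorem f1a_bound {R lam : ℝ} (hR : 1 < R) (hlam : 0 < lam) (B : ℕ → ℝ) (hB : ∀ m, 0 ≤ B m) (S : ℝ) (hS : 0 ≤ S) :
    ∃ K : ℝ, 0 ≤ K ∧ ∀ (a : Fin 3 → Fin 3 → E3 → ℝ) (b : Fin 3 → E3 → ℝ), CBd R lam B a b →
      ∀ f : E3 → ℝ, ContDiff ℝ ∞ f → H R 3 f ≤ S → ∀ w : ℕ → E3 → ℝ, (∀ n, ContDiff ℝ ∞ (w n)) → (∀ n, Bz R (w n)) →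
        Tendsto (fun n => H R 3 (fun x => (opc lam a b).ap (w n) x - f x)) atTop (𝓝 0) →
          ∀ᶠ n in atTop, Bd R 2 K (w n) := by
  obtain ⟨B', hB', hgood⟩ := f0_good hR hlam B 5 (hB 5)
  have hlamR : 0 < lam / R ^ 2 := by positivity
  obtain ⟨C1, hC1, h1⟩ := sobolev_Bd hR 2
  obtain ⟨C2, hC2, h2⟩ := apriori_closed hR hlamR hB' (k := 3) le_rfl
  refine ⟨C1 * (C2 * (1 + S)), by positivity, ?_⟩
  intro a b hab f hf hfS w hw hwz hlim
  have hg := hgood a b hab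
  have hev : ∀ᶠ n in atTop, H R 3 (fun x => (opc lam a b).ap (w n) x - f x) < 1 :=
    hlim.eventually (gt_mem_nhds one_pos)
  filter_upwards [hev] with n hn
  have hap : ContDiff ℝ ∞ ((opc lam a b).ap (w n)) := contDiff_ap hg.toSmooth (hw n)
  have hdf : ContDiff ℝ ∞ (fun x => (opc lam a b).ap (w n) x - f x) := hap.sub hf
  have h3 : H R 3 ((opc lam a b).ap (w n)) ≤ 1 + S := by
    have h4 := H_add (R := R) 3 hdf hf
    have h5 : (fun x => (fun x => (opc lam a b).ap (w n) x - f x) x + f x) = (opc lam a b).ap (w n) := by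
      funext x
      simp
    rw [h5] at h4
    linarith
  have h6 : H R 5 (w n) ≤ C2 * H R 3 ((opc lam a b).ap (w n)) := h2 _ hg _ (hw n) (hwz n)
  refine Bd_mono le_rfl ?_ (h1 _ (hw n))
  refine mul_le_mul_of_nonneg_left ?_ hC1
  exact h6.trans (mul_le_mul_of_nonneg_left h3 hC2)

end UMB.Lin
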