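import Pool.Agent.Lib.UMB.Lin.G2

/-! # UMB.Lin, chunks G5 (integration by parts on the annulus) -/

open scoped ContDiff BigOperators
open Set MeasureTheory Pool.Agent.Lib.PenroseSph

namespace UMB.Lin

/-- surface measure of the unit sphere -/
noncomputable abbrev sig : Measure (Metric.sphere (0 : E3) 1) := (volume : Measure E3).toSphere

/-- boundary functional `R^3 ∫ f(R ω) dω - ∫ f(ω) dω` -/
noncomputable def bS (R : ℝ) (f : E3 → ℝ) : ℝ :=
  R ^ 3 * (∫ n : Metric.sphere (0 : E3) 1, f (R • (n : E3)) ∂sig)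
    - ∫ n : Metric.sphere (0 : E3) 1, f (n : E3) ∂sig

end UMB.Lin
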