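import Pool.Agent.Lib.UMB.Lin.G5
import Pool.Agent.Lib.UMB.Lin.G1

/-! # UMB.Lin, chunk G5a: polar coordinates on the annulus -/

open scoped ContDiff BigOperators
open Set MeasureTheory Pool.Agent.Lib.PenroseSph

namespace UMB.Lin

theorem g5a_radial (g : ℝ → ℝ) :
    ∫ t : Ioi (0 : ℝ), g t ∂(Measure.volumeIoiPow 2) = ∫ t in Ioi (0 : ℝ), t ^ 2 * g t := by
  simp only [Measure.volumeIoiPow, ENNReal.ofReal]
  rw [integral_withDensity_eq_integral_smul,
    integral_subtype_comap measurableSet_Ioi fun a ↦ Real.toNNReal (a ^ 2) • g a,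
    setIntegral_congr_fun measurableSet_Ioi fun x hx ↦ ?_]
  · rw [NNReal.smul_def, Real.coe_toNNReal _ (pow_nonneg (le_of_lt hx) _)]
    rfl
  · exact (measurable_subtype_coe.pow_const _).real_toNNReal

/-- Polar coordinates: `MeasureTheory.Measure.measurePreserving_homeomorphUnitSphereProd` (the
radial measure is `volumeIoiPow 2`, density `r^2`), Fubini (the function is bounded on the annulus,
the measures are finite there). -/
theorem polar_Ann {R : ℝ} (hR : 1 < R) {f : E3 → ℝ} (hf : Continuous f) :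
    ∫ x in Ann R, f x =
      ∫ n : Metric.sphere (0 : E3) 1, (∫ r in (1 : ℝ)..R, r ^ 2 * f (r • (n : E3))) ∂sig := by
  have hfin : Module.finrank ℝ E3 - 1 = 2 := by simp
  set g : E3 → ℝ := (Ann R).indicator f with hg
  have hgint : Integrable g volume := (integrable_indicator_iff (measurableSet_Ann R)).mpr (integrableOn_Ann hf)
  have hmp := Measure.measurePreserving_homeomorphUnitSphereProd (volume : Measure E3)
  rw [hfin] at hmp
  set h : Metric.sphere (0 : E3) 1 × Ioi (0 : ℝ) → ℝ := fun q => g ((q.2 : ℝ) • (q.1 : E3)) with hh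
  have hcomp : ∀ y : ({(0 : E3)}ᶜ : Set E3), h (homeomorphUnitSphereProd E3 y) = g y.1 := by
    intro y
    have hy : (y : E3) ≠ 0 := y.2
    have hn : ‖(y : E3)‖ ≠ 0 := norm_ne_zero_iff.mpr hy
    simp [hh, smul_smul, hn]
  have e1 : ∫ x in Ann R, f x = ∫ x, g x := (integral_indicator (measurableSet_Ann R)).symm
  have e2 : ∫ x, g x = ∫ y : ({(0 : E3)}ᶜ : Set E3), g y.1 ∂(Measure.comap Subtype.val (volume : Measure E3)) := by
    rw [integral_subtype_comap (measurableSet_singleton _).compl (fun y => g y), restrict_compl_singleton]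
  have e3 : ∫ y : ({(0 : E3)}ᶜ : Set E3), g y.1 ∂(Measure.comap Subtype.val (volume : Measure E3))
      = ∫ q, h q ∂(sig.prod (Measure.volumeIoiPow 2)) := by
    rw [← hmp.integral_comp (Homeomorph.measurableEmbedding _)]
    exact integral_congr_ae (Filter.Eventually.of_forall fun y => (hcomp y).symm)
  have hhint : Integrable h (sig.prod (Measure.volumeIoiPow 2)) := by
    rw [← hmp.integrable_comp_emb (Homeomorph.measurableEmbedding _)]
    have h1 : (h ∘ (homeomorphUnitSphereProd E3)) = g ∘ (Subtype.val : ({(0 : E3)}ᶜ : Set E3) → E3) := by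
      funext y
      exact hcomp y
    rw [h1, ← integrableOn_iff_comap_subtypeVal (measurableSet_singleton _).compl]
    exact hgint.integrableOn
  have e4 : ∫ q, h q ∂(sig.prod (Measure.volumeIoiPow 2))
      = ∫ n : Metric.sphere (0 : E3) 1, (∫ t : Ioi (0 : ℝ), h (n, t) ∂(Measure.volumeIoiPow 2)) ∂sig :=
    integral_prod h hhint
  rw [e1, e2, e3, e4]
  refine integral_congr_ae (Filter.Eventually.of_forall fun n => ?_)
  show ∫ t : Ioi (0 : ℝ), g ((t : ℝ) • (n : E3)) ∂(Measure.volumeIoiPow 2)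
    = ∫ r in (1 : ℝ)..R, r ^ 2 * f (r • (n : E3))
  rw [g5a_radial fun t => g (t • (n : E3)), intervalIntegral.integral_of_le hR.le, integral_Ioc_eq_integral_Ioo]
  have hn : ‖(n : E3)‖ = 1 := by simp
  have h2 : ∀ t ∈ Ioi (0 : ℝ), t ^ 2 * g (t • (n : E3))
      = (Ioo 1 R).indicator (fun t => t ^ 2 * f (t • (n : E3))) t := by
    intro t ht
    have h3 : ‖t • (n : E3)‖ = t := by
      rw [norm_smul, hn, mul_one, Real.norm_of_nonneg (le_of_lt ht)]
    by_cases hmem : t ∈ Ioo 1 R
    · rw [indicator_of_mem hmem, hg, indicator_of_mem]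
      exact ⟨by rw [h3]; exact hmem.1, by rw [h3]; exact hmem.2⟩
    · rw [indicator_of_notMem hmem, hg, indicator_of_notMem, mul_zero]
      rintro ⟨h4, h5⟩
      rw [h3] at h4 h5
      exact hmem ⟨h4, h5⟩
  rw [setIntegral_congr_fun measurableSet_Ioi h2, setIntegral_indicator measurableSet_Ioo]
  congr 2
  ext t
  constructor
  · rintro ⟨_, h4⟩
    exact h4
  · intro h4
    exact ⟨lt_trans one_pos h4.1, h4⟩

end UMB.Lin
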