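import Pool.Agent.Lib.UMB.Lin.G5a

/-! # UMB.Lin, chunk G5b: integration of the fields of the frame -/

open scoped ContDiff BigOperators
open Set MeasureTheory Pool.Agent.Lib.PenroseSph

namespace UMB.Lin

/-- Euler field: `d/dr (r^3 f(r n)) = r^2 (Z_0 f + 3 f)(r n)`, `polar_Ann` and the fundamental
theorem of calculus. -/
theorem int_euler {R : ℝ} (hR : 1 < R) {f : E3 → ℝ} (hf : ContDiff ℝ 1 f) :
    ∫ x in Ann R, (Z 0 f x + 3 * f x) = bS R f := by
  have hcD : Continuous (fderiv ℝ f) := hf.continuous_fderiv (by norm_num)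
  have hZ : ∀ x, Z 0 f x = fderiv ℝ f x x := fun x => rfl
  have hcZ : Continuous fun x => Z 0 f x + 3 * f x := by
    simp only [hZ]
    exact (hcD.clm_apply continuous_id).add (continuous_const.mul hf.continuous)
  rw [polar_Ann hR hcZ]
  have hin : ∀ n : Metric.sphere (0 : E3) 1,
      ∫ r in (1 : ℝ)..R, r ^ 2 * (Z 0 f (r • (n : E3)) + 3 * f (r • (n : E3)))
        = R ^ 3 * f (R • (n : E3)) - f (n : E3) := by
    intro n
    have hder : ∀ t : ℝ, HasDerivAt (fun t : ℝ => t ^ 3 * f (t • (n : E3)))
        (t ^ 2 * (Z 0 f (t • (n : E3)) + 3 * f (t • (n : E3)))) t := by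
      intro t
      have h1 : HasDerivAt (fun t : ℝ => t • (n : E3)) (n : E3) t := by
        simpa using (hasDerivAt_id t).smul_const (n : E3)
      have h2 : HasDerivAt (fun t : ℝ => f (t • (n : E3))) (fderiv ℝ f (t • (n : E3)) (n : E3)) t :=
        ((hf.differentiable (by norm_num)) (t • (n : E3))).hasFDerivAt.comp_hasDerivAt t h1
      have h3 : HasDerivAt (fun t : ℝ => t ^ 3) (3 * t ^ 2) t := by
        simpa using hasDerivAt_pow 3 t
      have h4 := h3.mul h2
      have h5 : Z 0 f (t • (n : E3)) = t * fderiv ℝ f (t • (n : E3)) (n : E3) := by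
        rw [hZ, map_smul, smul_eq_mul]
      have h6 : t ^ 2 * (Z 0 f (t • (n : E3)) + 3 * f (t • (n : E3)))
          = 3 * t ^ 2 * f (t • (n : E3)) + t ^ 3 * fderiv ℝ f (t • (n : E3)) (n : E3) := by
        rw [h5]
        ring
      rw [h6]
      exact h4
    have hcont : Continuous fun t : ℝ => t ^ 2 * (Z 0 f (t • (n : E3)) + 3 * f (t • (n : E3))) :=
      (continuous_id.pow 2).mul (hcZ.comp (continuous_id.smul continuous_const))
    rw [intervalIntegral.integral_eq_sub_of_hasDerivAt (fun t _ => hder t) (hcont.intervalIntegrable _ _),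
      one_smul, one_pow, one_mul]
  simp only [hin]
  unfold bS
  have hc1 : Continuous fun n : Metric.sphere (0 : E3) 1 => f (R • (n : E3)) :=
    hf.continuous.comp (continuous_subtype_val.const_smul R)
  have hc2 : Continuous fun n : Metric.sphere (0 : E3) 1 => f (n : E3) :=
    hf.continuous.comp continuous_subtype_val
  have hi1 : Integrable (fun n : Metric.sphere (0 : E3) 1 => f (R • (n : E3))) sig :=
    hc1.integrable_of_hasCompactSupport (HasCompactSupport.of_compactSpace _)
  have hi2 : Integrable (fun n : Metric.sphere (0 : E3) 1 => f (n : E3)) sig :=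
    hc2.integrable_of_hasCompactSupport (HasCompactSupport.of_compactSpace _)
  rw [integral_sub (hi1.const_mul _) hi2, integral_const_mul]

end UMB.Lin
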