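import Pool.Agent.Lib.UMB.Lin.LDefs

set_option autoImplicit false

/-! # UMB.Lin, chunk L2 (one derivative of a uniform limit) -/

open scoped ContDiff BigOperators Topology
open Set MeasureTheory Filter Pool.Agent.Lib.PenroseSph

namespace UMB.Lin

theorem l2_fderiv_eq (f : E3 → ℝ) (x : E3) :
    fderiv ℝ f x = ∑ i, pd i f x • (EuclideanSpace.proj i : E3 →L[ℝ] ℝ) := by
  ext y
  have hy : y = ∑ i, y i • (EuclideanSpace.single i (1 : ℝ) : E3) := by
    ext j
    simp [Finset.sum_apply, Pi.single_apply]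
  have h1 : fderiv ℝ f x y = ∑ i, y i * pd i f x := by
    conv_lhs => rw [hy]
    rw [map_sum]
    refine Finset.sum_congr rfl fun i _ => ?_
    rw [map_smul]
    rfl
  rw [h1, Fin.sum_univ_three, Fin.sum_univ_three]
  change _ = pd 0 f x * y 0 + pd 1 f x * y 1 + pd 2 f x * y 2
  ring

/-- CHUNK L2 (M). If `f n -> g` pointwise on the open annulus and `pd i (f n) -> gi i` uniformly there for every `i`, then `g` is
differentiable with `pd i g = gi i`.
PROOF. `fderiv ℝ (f n) x = ∑ i, pd i (f n) x • (proj i)` (expand the vector in the standard basis) converges uniformly to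
`∑ i, gi i x • proj i`; `hasFDerivAt_of_tendstoUniformlyOn` (open set, `isOpen_Ann`). -/
theorem l2_step {R : ℝ} {f : ℕ → E3 → ℝ} (hf : ∀ n, ContDiff ℝ ∞ (f n)) {g : E3 → ℝ} {gi : Fin 3 → E3 → ℝ}
    (h : ∀ x ∈ Ann R, Tendsto (fun n => f n x) atTop (𝓝 (g x)))
    (hi : ∀ i, TendstoUniformlyOn (fun n => pd i (f n)) (gi i) atTop (Ann R)) :
    ∀ x ∈ Ann R, HasFDerivAt g (∑ i, gi i x • (EuclideanSpace.proj i : E3 →L[ℝ] ℝ)) x ∧ ∀ i, pd i g x = gi i x := by
  have hU : TendstoUniformlyOn (fun n x => ∑ i, pd i (f n) x • (EuclideanSpace.proj i : E3 →L[ℝ] ℝ))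
      (fun x => ∑ i, gi i x • (EuclideanSpace.proj i : E3 →L[ℝ] ℝ)) atTop (Ann R) := by
    rw [Metric.tendstoUniformlyOn_iff]
    intro ε hε
    let c : ℝ := ∑ i : Fin 3, ‖(EuclideanSpace.proj i : E3 →L[ℝ] ℝ)‖
    have hc : 0 ≤ c := Finset.sum_nonneg fun i _ => norm_nonneg _
    have hall : ∀ᶠ n in atTop, ∀ i : Fin 3, ∀ x ∈ Ann R, dist (gi i x) (pd i (f n) x) < ε / (c + 1) := by
      rw [eventually_all]
      intro i
      exact (Metric.tendstoUniformlyOn_iff.1 (hi i)) _ (by positivity)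
    filter_upwards [hall] with n hn x hx
    rw [dist_eq_norm, ← Finset.sum_sub_distrib]
    calc ‖∑ i, (gi i x • (EuclideanSpace.proj i : E3 →L[ℝ] ℝ) - pd i (f n) x • (EuclideanSpace.proj i : E3 →L[ℝ] ℝ))‖
        ≤ ∑ i, ‖gi i x • (EuclideanSpace.proj i : E3 →L[ℝ] ℝ) - pd i (f n) x • (EuclideanSpace.proj i : E3 →L[ℝ] ℝ)‖ :=
          norm_sum_le _ _
      _ ≤ ∑ i, ε / (c + 1) * ‖(EuclideanSpace.proj i : E3 →L[ℝ] ℝ)‖ := by
          refine Finset.sum_le_sum fun i _ => ?_
          rw [← sub_smul, norm_smul]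
          refine mul_le_mul_of_nonneg_right ?_ (norm_nonneg _)
          have := hn i x hx
          rw [Real.dist_eq] at this
          rw [Real.norm_eq_abs]
          exact this.le
      _ = ε / (c + 1) * c := by rw [← Finset.mul_sum]
      _ < ε := by
          rw [div_mul_eq_mul_div, div_lt_iff₀ (by positivity)]
          nlinarith
  intro x hx
  have hd : HasFDerivAt g (∑ i, gi i x • (EuclideanSpace.proj i : E3 →L[ℝ] ℝ)) x := by
    refine hasFDerivAt_of_tendstoUniformlyOn (isOpen_Ann R) hU ?_ h hx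
    intro n y _
    have := ((hf n).differentiable (by simp) y).hasFDerivAt
    rw [l2_fderiv_eq] at this
    exact this
  refine ⟨hd, fun i => ?_⟩
  rw [pd, hd.fderiv, Fin.sum_univ_three]
  change gi 0 x * (EuclideanSpace.single i (1 : ℝ) : E3) 0 + gi 1 x * (EuclideanSpace.single i (1 : ℝ) : E3) 1
    + gi 2 x * (EuclideanSpace.single i (1 : ℝ) : E3) 2 = gi i x
  fin_cases i <;> simp

end UMB.Lin
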