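import Pool.Agent.Lib.UMB.Lin.L2

set_option autoImplicit false

/-! # UMB.Lin, chunk L3 (all derivatives of a smooth limit) -/

open scoped ContDiff BigOperators Topology
open Set MeasureTheory Filter Pool.Agent.Lib.PenroseSph

namespace UMB.Lin

theorem l3_dw_sub (l : List (Fin 3)) {u v : E3 → ℝ} (hu : ContDiff ℝ ∞ u) (hv : ContDiff ℝ ∞ v) :
    Dw l (fun x => u x - v x) = fun x => Dw l u x - Dw l v x := by
  induction l with
  | nil => rfl
  | cons i l ih =>
    show pd i (Dw l (fun x => u x - v x)) = fun x => pd i (Dw l u) x - pd i (Dw l v) x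
    rw [ih]
    funext x
    unfold pd
    rw [fderiv_fun_sub (((contDiff_Dw l hu).differentiable (by simp)) x)
      (((contDiff_Dw l hv).differentiable (by simp)) x)]
    rfl

theorem l3_cauchy {R : ℝ} (hR : 1 < R) {w : ℕ → E3 → ℝ} {v : E3 → ℝ} (h : SLim R w v)
    (l : List (Fin 3)) : UniformCauchySeqOn (fun n => Dw l (w n)) atTop (cAnn R) := by
  rw [Metric.uniformCauchySeqOn_iff]
  intro e he
  obtain ⟨C, hC, hCb⟩ := Dw_of_Bd hR l.length
  have he' : 0 < e / (C + 1) := by positivity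
  obtain ⟨N, hN⟩ := h.cau l.length (e / (C + 1)) he'
  refine ⟨N, fun m hm n hn x hx => ?_⟩
  have h1 := hCb (fun x => w m x - w n x) (e / (C + 1)) he'.le ((h.smooth m).sub (h.smooth n))
    (hN m n hm hn) l le_rfl x hx
  rw [l3_dw_sub l (h.smooth m) (h.smooth n)] at h1
  rw [Real.dist_eq]
  refine lt_of_le_of_lt h1 ?_
  have h2 : e / (C + 1) * (C + 1) = e := div_mul_cancel₀ e (by positivity)
  nlinarith

/-- the limit of the words -/
noncomputable def l3_lim (w : ℕ → E3 → ℝ) (l : List (Fin 3)) (x : E3) : ℝ :=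
  limUnder atTop (fun n => Dw l (w n) x)

theorem l3_tend {R : ℝ} (hR : 1 < R) {w : ℕ → E3 → ℝ} {v : E3 → ℝ} (h : SLim R w v)
    (l : List (Fin 3)) {x : E3} (hx : x ∈ cAnn R) :
    Tendsto (fun n => Dw l (w n) x) atTop (𝓝 (l3_lim w l x)) :=
  ((l3_cauchy hR h l).cauchySeq hx).tendsto_limUnder

theorem l3_unif {R : ℝ} (hR : 1 < R) {w : ℕ → E3 → ℝ} {v : E3 → ℝ} (h : SLim R w v)
    (l : List (Fin 3)) : TendstoUniformlyOn (fun n => Dw l (w n)) (l3_lim w l) atTop (cAnn R) :=
  (l3_cauchy hR h l).tendstoUniformlyOn_of_tendsto fun _ hx => l3_tend hR h l hx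

theorem l3_step {R : ℝ} (hR : 1 < R) {w : ℕ → E3 → ℝ} {v : E3 → ℝ} (h : SLim R w v)
    (l : List (Fin 3)) {x : E3} (hx : x ∈ Ann R) :
    HasFDerivAt (l3_lim w l) (∑ i, l3_lim w (i :: l) x • (EuclideanSpace.proj i : E3 →L[ℝ] ℝ)) x ∧
      ∀ i, pd i (l3_lim w l) x = l3_lim w (i :: l) x :=
  l2_step (fun n => contDiff_Dw l (h.smooth n)) (gi := fun i => l3_lim w (i :: l))
    (fun _ hy => l3_tend hR h l (Ann_subset R hy))
    (fun i => (l3_unif hR h (i :: l)).mono (Ann_subset R)) x hx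

theorem l3_nil {R : ℝ} (hR : 1 < R) {w : ℕ → E3 → ℝ} {v : E3 → ℝ} (h : SLim R w v)
    {x : E3} (hx : x ∈ cAnn R) : v x = l3_lim w [] x :=
  tendsto_nhds_unique (h.lim.tendsto_at hx) (l3_tend hR h [] hx)

theorem l3_eq {R : ℝ} (hR : 1 < R) {w : ℕ → E3 → ℝ} {v : E3 → ℝ} (h : SLim R w v)
    (l : List (Fin 3)) : ∀ x ∈ Ann R, Dw l v x = l3_lim w l x := by
  induction l with
  | nil => exact fun x hx => l3_nil hR h (Ann_subset R hx)
  | cons i l ih =>
    intro x hx
    rw [← (l3_step hR h l hx).2 i]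
    have hev : Dw l v =ᶠ[𝓝 x] l3_lim w l := by
      filter_upwards [(isOpen_Ann R).mem_nhds hx] with y hy
      exact ih y hy
    show fderiv ℝ (Dw l v) x _ = fderiv ℝ (l3_lim w l) x _
    rw [hev.fderiv_eq]

theorem l3_smo {R : ℝ} (hR : 1 < R) {w : ℕ → E3 → ℝ} {v : E3 → ℝ} (h : SLim R w v) (m : ℕ) :
    ∀ l : List (Fin 3), ContDiffOn ℝ m (l3_lim w l) (Ann R) := by
  induction m with
  | zero =>
    intro l
    have h1 : ((0 : ℕ) : WithTop ℕ∞) = 0 := rfl
    rw [h1, contDiffOn_zero]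
    exact fun x hx => (l3_step hR h l hx).1.continuousAt.continuousWithinAt
  | succ m ih =>
    intro l
    have h1 : ((m + 1 : ℕ) : WithTop ℕ∞) = (m : WithTop ℕ∞) + 1 := by push_cast; rfl
    rw [h1, contDiffOn_succ_iff_fderiv_of_isOpen (isOpen_Ann R)]
    refine ⟨fun x hx => (l3_step hR h l hx).1.differentiableAt.differentiableWithinAt, ?_, ?_⟩
    · intro hm; exact absurd hm (by simp)
    · have h2 : ContDiffOn ℝ m (fun x => ∑ i, l3_lim w (i :: l) x •
          (EuclideanSpace.proj i : E3 →L[ℝ] ℝ)) (Ann R) :=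
        ContDiffOn.sum fun i _ => (ih (i :: l)).smul contDiffOn_const
      refine h2.congr fun x hx => ?_
      exact (l3_step hR h l hx).1.fderiv

/-- CHUNK L3 (M). For a smooth limit: `v` is continuous on the closed annulus, smooth inside, and all words in the partial
derivatives converge uniformly on the open annulus.
PROOF. For every word `l` in the partial derivatives `Dw l (w n)` is uniformly Cauchy on `cAnn R`: `Dw_of_Bd` applied to
`w m - w n` (`Dw` is linear on smooth functions: induction on `l`); let `h l` be the limit function, `h [] = v`.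
`l2_step` for `f n = Dw l (w n)`, `g = h l`, `gi i = h (i :: l)`: on `Ann R` `h l` is differentiable with `pd i (h l) = h (i :: l)`.
By induction on `l` (locality of `pd` on the open set `Ann R`) `Dw l v = h l` on `Ann R`. Smoothness: by induction on `m`, for all
`l`, `h l` is `C^m` on the open set (`contDiffOn_succ_iff_fderiv_of_isOpen`, derivative `∑ i, h (i :: l) x • proj i`). Continuity on
the closed annulus: uniform limit of continuous functions. -/
theorem l3_smooth {R : ℝ} (hR : 1 < R) {w : ℕ → E3 → ℝ} {v : E3 → ℝ} (h : SLim R w v) :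
    ContinuousOn v (cAnn R) ∧ ContDiffOn ℝ ∞ v (Ann R) ∧
      ∀ l : List (Fin 3), TendstoUniformlyOn (fun n => Dw l (w n)) (Dw l v) atTop (Ann R) := by
  refine ⟨?_, ?_, ?_⟩
  · exact h.lim.continuousOn (Frequently.of_forall fun n => (h.smooth n).continuous.continuousOn)
  · rw [contDiffOn_infty]
    intro m
    exact (l3_smo hR h m []).congr fun x hx => l3_nil hR h (Ann_subset R hx)
  · intro l
    exact ((l3_unif hR h l).mono (Ann_subset R)).congr_right fun x hx => (l3_eq hR h l x hx).symm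

/-- corollary -/
theorem l3_C2c {R : ℝ} (hR : 1 < R) {w : ℕ → E3 → ℝ} {v : E3 → ℝ} (h : SLim R w v) : C2c R v where
  c2 := fun x hx => (((l3_smooth hR h).2.1.contDiffAt ((isOpen_Ann R).mem_nhds hx)).of_le (by decide))
  cont := (l3_smooth hR h).1

end UMB.Lin
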