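import Pool.Agent.Lib.UMB.Lin.M8

set_option autoImplicit false

/-! # UMB.Lin: smooth limits (definition) -/

open scoped ContDiff BigOperators Topology
open Set MeasureTheory Filter Pool.Agent.Lib.PenroseSph

namespace UMB.Lin

/-- `w n` are globally smooth, all words in the frame converge uniformly on the closed annulus, `v` is the limit there. -/
structure SLim (R : ℝ) (w : ℕ → E3 → ℝ) (v : E3 → ℝ) : Prop where
  smooth : ∀ n, ContDiff ℝ ∞ (w n)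
  cau : ∀ (k : ℕ) (e : ℝ), 0 < e → ∃ N : ℕ, ∀ m n, N ≤ m → N ≤ n → Bd R k e (fun x => w m x - w n x)
  lim : TendstoUniformlyOn (fun (n : ℕ) (x : E3) => w n x) v atTop (cAnn R)

/-- Uniform bounds for all derivatives, symmetry and ellipticity of a Cartesian operator. -/
structure CBd (R lam : ℝ) (B : ℕ → ℝ) (a : Fin 3 → Fin 3 → E3 → ℝ) (b : Fin 3 → E3 → ℝ) : Prop where
  smA : ∀ i j, ContDiff ℝ ∞ (a i j)
  smB : ∀ i, ContDiff ℝ ∞ (b i)
  symm : ∀ i j x, a i j x = a j i x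
  ell : ∀ x ∈ cAnn R, ∀ ζ : Fin 3 → ℝ, lam * ∑ i, ζ i ^ 2 ≤ ∑ i, ∑ j, a i j x * ζ i * ζ j
  nn : ∀ m, 0 ≤ B m
  bdA : ∀ m i j, Bd R (m + 1) (B m) (a i j)
  bdB : ∀ m i, Bd R m (B m) (b i)

end UMB.Lin
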