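import Pool.Agent.Lib.UMB.Lin.MDefs

/-! # UMB.Lin, chunk M3: the radial barriers -/

open scoped ContDiff BigOperators Topology
open Set MeasureTheory Filter Pool.Agent.Lib.PenroseSph

namespace UMB.Lin

theorem kp_pos {R lam B : ℝ} (hR : 1 < R) (hlam : 0 < lam) (hB : 0 ≤ B) : 1 ≤ kp R lam B := by
  unfold kp
  have : 0 ≤ (6 * B * (1 + R)) / lam := by positivity
  linarith

theorem m3_contDiff (κ : ℝ) : ContDiff ℝ ∞ (fun x : E3 => Real.exp (κ * ‖x‖ ^ 2)) :=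
  (contDiff_const.mul (contDiff_norm_sq ℝ)).exp

theorem C2c_exp (R κ : ℝ) : C2c R (fun x => Real.exp (κ * ‖x‖ ^ 2)) where
  c2 := fun x _ => (contDiff_infty.mp (m3_contDiff κ) 2).contDiffAt
  cont := (m3_contDiff κ).continuous.continuousOn

theorem m3_hasFDerivAt (κ : ℝ) (x : E3) :
    HasFDerivAt (fun y : E3 => Real.exp (κ * ‖y‖ ^ 2))
      ((Real.exp (κ * ‖x‖ ^ 2)) • (κ • ((2 : ℝ) • innerSL ℝ x))) x := by
  have h1 : HasFDerivAt (fun y : E3 => ‖y‖ ^ 2) ((2 : ℝ) • innerSL ℝ x) x :=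
    (hasStrictFDerivAt_norm_sq x).hasFDerivAt.congr_fderiv (by
      ext y; simp [two_mul])
  exact (h1.const_mul κ).exp

theorem m3_inner (x : E3) (i : Fin 3) : inner ℝ x (EuclideanSpace.single i (1 : ℝ)) = x i := by
  simp [EuclideanSpace.inner_single_right]

/-- `∂_i e^{κ|x|²} = 2 κ x_i e^{κ|x|²}`, `∂_i ∂_j e^{κ|x|²} = (4 κ² x_i x_j + 2 κ δ_ij) e^{κ|x|²}`. -/
theorem exp_pd (κ : ℝ) (i : Fin 3) (x : E3) :
    pd i (fun y => Real.exp (κ * ‖y‖ ^ 2)) x = 2 * κ * x i * Real.exp (κ * ‖x‖ ^ 2) := by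
  unfold pd
  rw [(m3_hasFDerivAt κ x).fderiv]
  simp only [smul_apply, innerSL_apply_apply, m3_inner, smul_eq_mul]
  ring

theorem exp_pd2 (κ : ℝ) (i j : Fin 3) (x : E3) :
    pd i (pd j (fun y => Real.exp (κ * ‖y‖ ^ 2))) x =
      (4 * κ ^ 2 * x i * x j + (if i = j then 2 * κ else 0)) * Real.exp (κ * ‖x‖ ^ 2) := by
  have h0 : pd j (fun y : E3 => Real.exp (κ * ‖y‖ ^ 2)) =
      fun y : E3 => (2 * κ * y j) * Real.exp (κ * ‖y‖ ^ 2) := by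
    funext y; rw [exp_pd]
  rw [h0]
  have hj : HasFDerivAt (fun y : E3 => y j) (EuclideanSpace.proj j : E3 →L[ℝ] ℝ) x :=
    (EuclideanSpace.proj j : E3 →L[ℝ] ℝ).hasFDerivAt
  have h := (hj.const_mul (2 * κ)).mul (m3_hasFDerivAt κ x)
  unfold pd
  rw [show (fun y : E3 => (2 * κ * y j) * Real.exp (κ * ‖y‖ ^ 2)) =
    ((fun y : E3 => (2 * κ * y j)) * fun y : E3 => Real.exp (κ * ‖y‖ ^ 2)) from rfl, h.fderiv]
  have hproj : (EuclideanSpace.proj j : E3 →L[ℝ] ℝ) (EuclideanSpace.single i 1)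
      = if i = j then 1 else 0 := by
    by_cases hij : i = j
    · subst hij; simp
    · have hji : ¬ j = i := fun h => hij h.symm
      simp [hij, hji]
  simp only [smul_apply, innerSL_apply_apply, m3_inner,
    smul_eq_mul, add_apply, hproj]
  by_cases hij : i = j
  · subst hij
    simp only [if_true]
    ring
  · rw [if_neg hij, if_neg hij]
    ring

theorem m3_Lc (κ : ℝ) (a : Fin 3 → Fin 3 → E3 → ℝ) (b : Fin 3 → E3 → ℝ) (x : E3) :
    Lc a b (fun _ => 0) (fun y => Real.exp (κ * ‖y‖ ^ 2)) x =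
      (4 * κ ^ 2 * (∑ i, ∑ j, a i j x * x i * x j) + 2 * κ * (∑ i, a i i x)
        + 2 * κ * ∑ i, b i x * x i) * Real.exp (κ * ‖x‖ ^ 2) := by
  unfold Lc
  simp only [exp_pd2]
  simp only [exp_pd, Fin.sum_univ_three]
  simp
  ring

theorem m3_norm_sq (x : E3) : ‖x‖ ^ 2 = ∑ i, x i ^ 2 := by
  rw [EuclideanSpace.norm_sq_eq]
  simp

theorem m3_ell {R lam B : ℝ} (hlam : 0 < lam)
    {a : Fin 3 → Fin 3 → E3 → ℝ} {b : Fin 3 → E3 → ℝ} {c : E3 → ℝ} (h : CGood R lam B a b c)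
    {x : E3} (hx : x ∈ Ann R) : lam ≤ ∑ i, ∑ j, a i j x * x i * x j := by
  have h1 := h.ell x hx (fun i => x i)
  rw [← m3_norm_sq] at h1
  have h2 : 1 < ‖x‖ := hx.1
  have h3 : 1 ≤ ‖x‖ ^ 2 := by nlinarith
  nlinarith

theorem m3_diag {R lam B : ℝ} (hlam : 0 < lam)
    {a : Fin 3 → Fin 3 → E3 → ℝ} {b : Fin 3 → E3 → ℝ} {c : E3 → ℝ} (h : CGood R lam B a b c)
    {x : E3} (hx : x ∈ Ann R) (i : Fin 3) : 0 ≤ a i i x := by
  have h1 := h.ell x hx (fun k => if k = i then 1 else 0)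
  have h2 : ∑ p, ∑ q, a p q x * (if p = i then (1 : ℝ) else 0) * (if q = i then 1 else 0)
      = a i i x := by
    rw [Finset.sum_eq_single i]
    · rw [Finset.sum_eq_single i]
      · simp
      · intro q _ hq; simp [hq]
      · simp
    · intro p _ hp; simp [hp]
    · simp
  rw [h2] at h1
  have h3 : ∑ k, ((if k = i then (1 : ℝ) else 0)) ^ 2 = 1 := by simp
  rw [h3] at h1
  linarith

theorem m3_bx {R lam B : ℝ} (hB : 0 ≤ B)
    {a : Fin 3 → Fin 3 → E3 → ℝ} {b : Fin 3 → E3 → ℝ} {c : E3 → ℝ} (h : CGood R lam B a b c)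
    {x : E3} (hx : x ∈ Ann R) : |∑ i, b i x * x i| ≤ 3 * (B * R) := by
  have hxi : ∀ i, |x i| ≤ R := by
    intro i
    have h1 : ‖x i‖ ≤ ‖x‖ := PiLp.norm_apply_le x i
    rw [Real.norm_eq_abs] at h1
    exact h1.trans hx.2.le
  refine (Finset.abs_sum_le_sum_abs _ _).trans ?_
  have h2 : ∀ i ∈ Finset.univ, |b i x * x i| ≤ B * R := by
    intro i _
    rw [abs_mul]
    exact mul_le_mul (h.bdb i x hx) (hxi i) (abs_nonneg _) hB
  refine (Finset.sum_le_sum h2).trans ?_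
  simp

theorem m3_tr {R lam B : ℝ} {a : Fin 3 → Fin 3 → E3 → ℝ} {b : Fin 3 → E3 → ℝ} {c : E3 → ℝ}
    (h : CGood R lam B a b c) {x : E3} (hx : x ∈ Ann R) : ∑ i, a i i x ≤ 3 * B := by
  have h2 : ∀ i ∈ Finset.univ, a i i x ≤ B := fun i _ => (le_abs_self _).trans (h.bda i i x hx)
  refine (Finset.sum_le_sum h2).trans ?_
  simp

theorem m3_low {R lam B : ℝ} (hR : 1 < R) (hlam : 0 < lam) (hB : 0 ≤ B)
    {a : Fin 3 → Fin 3 → E3 → ℝ} {b : Fin 3 → E3 → ℝ} {c : E3 → ℝ} (h : CGood R lam B a b c)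
    {κ : ℝ} (hκ : kp R lam B ≤ κ) {x : E3} (hx : x ∈ Ann R) :
    lam ≤ 4 * κ ^ 2 * (∑ i, ∑ j, a i j x * x i * x j) + 2 * κ * (∑ i, a i i x)
        + 2 * κ * ∑ i, b i x * x i := by
  have k1 : 1 ≤ κ := (kp_pos hR hlam hB).trans hκ
  have k2 : lam + 6 * B * (1 + R) ≤ κ * lam := by
    have h1 : kp R lam B * lam ≤ κ * lam := mul_le_mul_of_nonneg_right hκ hlam.le
    unfold kp at h1
    rw [add_mul, div_mul_cancel₀ _ hlam.ne'] at h1
    linarith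
  have e1 := m3_ell hlam h hx
  have e2 : 0 ≤ ∑ i, a i i x := Finset.sum_nonneg fun i _ => m3_diag hlam h hx i
  have e3 := (abs_le.mp (m3_bx hB h hx)).1
  generalize (∑ i, ∑ j, a i j x * x i * x j) = A at *
  generalize (∑ i, a i i x) = T at *
  generalize (∑ i, b i x * x i) = b' at *
  have f1 : 4 * κ ^ 2 * lam ≤ 4 * κ ^ 2 * A := mul_le_mul_of_nonneg_left e1 (by positivity)
  have f2 : 0 ≤ 2 * κ * T := by positivity
  have f3 : 2 * κ * (-(3 * (B * R))) ≤ 2 * κ * b' := mul_le_mul_of_nonneg_left e3 (by positivity)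
  have hBR : 0 ≤ B * R := by positivity
  have f4 : κ * (lam + 6 * B * (1 + R)) ≤ κ * (κ * lam) :=
    mul_le_mul_of_nonneg_left k2 (by positivity)
  have f5 : 0 ≤ κ * (B * R) := by positivity
  have f6 : 0 ≤ κ * B := by positivity
  have f7 : lam ≤ κ * lam := le_mul_of_one_le_left hlam.le k1
  nlinarith

/-- For `κ ≥ kp`: `L₀ e^{κ|x|²} = (4κ² a(x,x) + 2κ tr a + 2κ b.x) e^{κ|x|²} ≥ κ e^{κ|x|²}`
(`a(x,x) ≥ lam`, `|b.x| ≤ 3 B R`, `tr a ≥ 0`). -/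
theorem exp_sub {R lam B : ℝ} (hR : 1 < R) (hlam : 0 < lam) (hB : 0 ≤ B)
    {a : Fin 3 → Fin 3 → E3 → ℝ} {b : Fin 3 → E3 → ℝ} {c : E3 → ℝ} (h : CGood R lam B a b c)
    {κ : ℝ} (hκ : kp R lam B ≤ κ) {x : E3} (hx : x ∈ Ann R) :
    0 < Lc a b (fun _ => 0) (fun y => Real.exp (κ * ‖y‖ ^ 2)) x := by
  rw [m3_Lc]
  exact mul_pos (hlam.trans_le (m3_low hR hlam hB h hκ hx)) (Real.exp_pos _)

/-- For `κ ≥ kp` also `L₀ e^{-κ|x|²} = (4κ² a(x,x) - 2κ tr a - 2κ b.x) e^{-κ|x|²} > 0`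
(`tr a ≤ 3 B`). -/
theorem exp_neg_sub {R lam B : ℝ} (hR : 1 < R) (hlam : 0 < lam) (hB : 0 ≤ B)
    {a : Fin 3 → Fin 3 → E3 → ℝ} {b : Fin 3 → E3 → ℝ} {c : E3 → ℝ} (h : CGood R lam B a b c)
    {κ : ℝ} (hκ : kp R lam B ≤ κ) {x : E3} (hx : x ∈ Ann R) :
    0 < Lc a b (fun _ => 0) (fun y => Real.exp (-κ * ‖y‖ ^ 2)) x := by
  rw [m3_Lc]
  refine mul_pos ?_ (Real.exp_pos _)
  have k1 : 1 ≤ κ := (kp_pos hR hlam hB).trans hκ
  have k2 : lam + 6 * B * (1 + R) ≤ κ * lam := by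
    have h1 : kp R lam B * lam ≤ κ * lam := mul_le_mul_of_nonneg_right hκ hlam.le
    unfold kp at h1
    rw [add_mul, div_mul_cancel₀ _ hlam.ne'] at h1
    linarith
  have e1 := m3_ell hlam h hx
  have e2 := m3_tr h hx
  have e3 := (abs_le.mp (m3_bx hB h hx)).2
  generalize (∑ i, ∑ j, a i j x * x i * x j) = A at *
  generalize (∑ i, a i i x) = T at *
  generalize (∑ i, b i x * x i) = b' at *
  have f1 : 4 * κ ^ 2 * lam ≤ 4 * κ ^ 2 * A := mul_le_mul_of_nonneg_left e1 (by positivity)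
  have f2 : 2 * κ * T ≤ 2 * κ * (3 * B) := mul_le_mul_of_nonneg_left e2 (by positivity)
  have f3 : 2 * κ * b' ≤ 2 * κ * (3 * (B * R)) := mul_le_mul_of_nonneg_left e3 (by positivity)
  have f4 : κ * (lam + 6 * B * (1 + R)) ≤ κ * (κ * lam) :=
    mul_le_mul_of_nonneg_left k2 (by positivity)
  have f5 : 0 ≤ κ * (B * R) := by positivity
  have f6 : 0 ≤ κ * B := by positivity
  have f7 : 0 < κ * lam := by positivity
  nlinarith

/-- a uniform lower bound: with `κ = kp`, `L₀ e^{κ|x|²} ≥ c0 > 0` on the annulus, `c0` depending only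
on `R, lam, B` -/
theorem exp_sub_unif {R lam B : ℝ} (hR : 1 < R) (hlam : 0 < lam) (hB : 0 ≤ B) :
    ∃ c0 : ℝ, 0 < c0 ∧ ∀ (a : Fin 3 → Fin 3 → E3 → ℝ) (b : Fin 3 → E3 → ℝ) (c : E3 → ℝ),
      CGood R lam B a b c → ∀ x ∈ Ann R,
        c0 ≤ Lc a b (fun _ => 0) (fun y => Real.exp (kp R lam B * ‖y‖ ^ 2)) x := by
  refine ⟨lam, hlam, fun a b c h x hx => ?_⟩
  rw [m3_Lc]
  have h1 := m3_low hR hlam hB h le_rfl hx
  refine h1.trans (le_mul_of_one_le_right (hlam.le.trans h1) ?_)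
  refine Real.one_le_exp ?_
  exact mul_nonneg (zero_le_one.trans (kp_pos hR hlam hB)) (sq_nonneg _)

end UMB.Lin
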