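import Pool.Agent.Lib.UMB.Lin.M1
import Pool.Agent.Lib.UMB.Lin.M2
import Pool.Agent.Lib.UMB.Lin.M3
import Pool.Agent.Lib.UMB.Lin.G1

/-! # UMB.Lin, chunk M4: the weak maximum principle -/

open scoped ContDiff BigOperators Topology
open Set MeasureTheory Filter Pool.Agent.Lib.PenroseSph

namespace UMB.Lin

theorem m4_pd_lin {u v : E3 → ℝ} {x : E3} (hu : DifferentiableAt ℝ u x)
    (hv : DifferentiableAt ℝ v x) (s t : ℝ) (j : Fin 3) :
    pd j (fun y => s * u y + t * v y) x = s * pd j u x + t * pd j v x := by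
  unfold pd
  have h1 : HasFDerivAt (fun y => s * u y + t * v y) (s • fderiv ℝ u x + t • fderiv ℝ v x) x :=
    (hu.hasFDerivAt.const_mul s).add (hv.hasFDerivAt.const_mul t)
  rw [h1.fderiv]
  rfl

theorem m4_ev {u : E3 → ℝ} {x : E3} (hu : ContDiffAt ℝ 2 u x) :
    ∀ᶠ y in 𝓝 x, DifferentiableAt ℝ u y := by
  have h1 : ∀ᶠ y in 𝓝 x, ContDiffAt ℝ 2 u y := hu.eventually (by simp)
  filter_upwards [h1] with y hy
  exact hy.differentiableAt (by simp)

theorem m4_pd_diff {u : E3 → ℝ} {x : E3} (hu : ContDiffAt ℝ 2 u x) (j : Fin 3) :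
    DifferentiableAt ℝ (pd j u) x := by
  have h1 : ContDiffAt ℝ 1 (fderiv ℝ u) x := hu.fderiv_right (m := 1) (by norm_num)
  have h2 : DifferentiableAt ℝ (fderiv ℝ u) x := h1.differentiableAt (by simp)
  exact h2.clm_apply (differentiableAt_const _)

theorem m4_pd2_lin {u v : E3 → ℝ} {x : E3} (hu : ContDiffAt ℝ 2 u x)
    (hv : ContDiffAt ℝ 2 v x) (s t : ℝ) (i j : Fin 3) :
    pd i (pd j (fun y => s * u y + t * v y)) x
      = s * pd i (pd j u) x + t * pd i (pd j v) x := by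
  have h1 : pd j (fun y => s * u y + t * v y) =ᶠ[𝓝 x] (fun y => s * pd j u y + t * pd j v y) := by
    filter_upwards [m4_ev hu, m4_ev hv] with y h1 h2
    exact m4_pd_lin h1 h2 s t j
  have h2 : pd i (pd j (fun y => s * u y + t * v y)) x
      = pd i (fun y => s * pd j u y + t * pd j v y) x := by
    unfold pd
    unfold pd at h1
    rw [h1.fderiv_eq]
  rw [h2]
  exact m4_pd_lin (m4_pd_diff hu j) (m4_pd_diff hv j) s t i

/-- linearity of `Lc` on functions which are `C²` at the point -/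
theorem Lc_add_mul {a : Fin 3 → Fin 3 → E3 → ℝ} {b : Fin 3 → E3 → ℝ} {c : E3 → ℝ} {u v : E3 → ℝ}
    {x : E3} (hu : ContDiffAt ℝ 2 u x) (hv : ContDiffAt ℝ 2 v x) (s t : ℝ) :
    Lc a b c (fun y => s * u y + t * v y) x = s * Lc a b c u x + t * Lc a b c v x := by
  unfold Lc
  have h1 : ∀ i j, pd i (pd j (fun y => s * u y + t * v y)) x
      = s * pd i (pd j u) x + t * pd i (pd j v) x := fun i j => m4_pd2_lin hu hv s t i j
  have h2 : ∀ i, pd i (fun y => s * u y + t * v y) x = s * pd i u x + t * pd i v x := fun i =>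
    m4_pd_lin (hu.differentiableAt (by simp)) (hv.differentiableAt (by simp)) s t i
  simp only [h1, h2, Fin.sum_univ_three]
  ring

theorem Lc_const {a : Fin 3 → Fin 3 → E3 → ℝ} {b : Fin 3 → E3 → ℝ} {c : E3 → ℝ} (s : ℝ) (x : E3) :
    Lc a b c (fun _ => s) x = c x * s := by
  unfold Lc
  have h1 : ∀ j, pd j (fun _ : E3 => s) = fun _ => 0 := by
    intro j
    funext y
    unfold pd
    simp
  have h2 : ∀ i, pd i (fun _ : E3 => (0 : ℝ)) x = 0 := by
    intro i
    unfold pd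
    simp
  simp only [h1, h2]
  simp

/-- Weak maximum principle. Suppose `v` is positive somewhere. For small `ε > 0` the function
`w = v + ε (e^{κ|x|²} - e^{κR²})`, `κ = kp R lam B`, is positive somewhere and `≤ 0` on the two
spheres; let `x` be a maximum point on the compact closed annulus: it is inside, `v x ≥ w x > 0`, so
`L₀ v x ≥ - c v ≥ 0` (`L₀` is the operator with `c = 0`), `L₀ w x > 0` by `exp_sub`; but
`L₀ w x ≤ 0` by `max_pd`, `max_hess`, `trace_nonpos`. -/
theorem weak_max {R lam B : ℝ} (hR : 1 < R) (hlam : 0 < lam) (hB : 0 ≤ B)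
    {a : Fin 3 → Fin 3 → E3 → ℝ} {b : Fin 3 → E3 → ℝ} {c : E3 → ℝ} (h : CGood R lam B a b c)
    {v : E3 → ℝ} (hv : C2c R v) (hL : ∀ x ∈ Ann R, 0 ≤ Lc a b c v x)
    (h0 : ∀ x, (‖x‖ = 1 ∨ ‖x‖ = R) → v x ≤ 0) : ∀ x ∈ cAnn R, v x ≤ 0 := by
  by_contra hcon
  push Not at hcon
  obtain ⟨x0, hx0, hv0⟩ := hcon
  set κ := kp R lam B with hκ
  have hκ1 : 1 ≤ κ := kp_pos hR hlam hB
  set E : ℝ := Real.exp (κ * R ^ 2) with hE
  have hEpos : 0 < E := Real.exp_pos _
  set ε : ℝ := v x0 / (2 * E) with hε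
  have hεpos : 0 < ε := by positivity
  set e : E3 → ℝ := fun x => Real.exp (κ * ‖x‖ ^ 2) with he
  set u : E3 → ℝ := fun x => 1 * v x + ε * e x with hu
  -- the function to be maximised
  have hec : C2c R e := C2c_exp R κ
  have huc : ContinuousOn u (cAnn R) :=
    ((continuousOn_const.mul hv.cont).add (continuousOn_const.mul hec.cont))
  have hne : (cAnn R).Nonempty := ⟨x0, hx0⟩
  obtain ⟨x, hx, hmax⟩ := (isCompact_cAnn R).exists_isMaxOn hne huc
  have hele : ∀ y ∈ cAnn R, e y ≤ E := by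
    intro y hy
    have h1 : ‖y‖ ≤ R := hy.2
    have h2 : 0 ≤ ‖y‖ := norm_nonneg y
    apply Real.exp_le_exp.mpr
    have h3 : ‖y‖ ^ 2 ≤ R ^ 2 := by gcongr
    nlinarith
  have hw0 : ε * E < u x := by
    have h1 : u x0 ≤ u x := hmax hx0
    have h2 : 0 < e x0 := Real.exp_pos _
    have h3 : ε * E = v x0 / 2 := by
      rw [hε]; field_simp
    have h4 : u x0 = v x0 + ε * e x0 := by rw [hu]; ring
    have h5 : 0 < ε * e x0 := by positivity
    linarith
  have hvx : 0 < v x := by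
    have h1 : u x = v x + ε * e x := by rw [hu]; ring
    have h2 : ε * e x ≤ ε * E := by
      have := hele x hx
      gcongr
    linarith
  have hxA : x ∈ Ann R := by
    have h1 : ‖x‖ ≠ 1 := fun h1 => absurd (h0 x (Or.inl h1)) (not_le.mpr hvx)
    have h2 : ‖x‖ ≠ R := fun h1 => absurd (h0 x (Or.inr h1)) (not_le.mpr hvx)
    exact ⟨lt_of_le_of_ne hx.1 (Ne.symm h1), lt_of_le_of_ne hx.2 h2⟩
  have hloc : IsLocalMax u x := by
    have h1 : cAnn R ∈ 𝓝 x := Filter.mem_of_superset ((isOpen_Ann R).mem_nhds hxA) (Ann_subset R)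
    exact hmax.isLocalMax h1
  have hvd : ContDiffAt ℝ 2 v x := hv.c2 x hxA
  have hed : ContDiffAt ℝ 2 e x := hec.c2 x hxA
  have hud : ContDiffAt ℝ 2 u x := (contDiffAt_const.mul hvd).add (contDiffAt_const.mul hed)
  -- the operator without zero order term
  have h1 : Lc a b (fun _ => 0) u x = 1 * Lc a b (fun _ => 0) v x + ε * Lc a b (fun _ => 0) e x :=
    Lc_add_mul hvd hed 1 ε
  have h2 : 0 < Lc a b (fun _ => 0) e x := exp_sub hR hlam hB h le_rfl hxA
  have h3 : 0 ≤ Lc a b (fun _ => 0) v x := by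
    have h4 := hL x hxA
    have h5 : Lc a b c v x = Lc a b (fun _ => 0) v x + c x * v x := by
      unfold Lc; ring
    have h6 : c x * v x ≤ 0 := mul_nonpos_of_nonpos_of_nonneg (h.neg x hxA) hvx.le
    linarith
  have h4 : 0 < Lc a b (fun _ => 0) u x := by
    have : 0 < ε * Lc a b (fun _ => 0) e x := mul_pos hεpos h2
    linarith
  have h5 : Lc a b (fun _ => 0) u x ≤ 0 := by
    have h6 : ∀ i, pd i u x = 0 := fun i => max_pd hloc i
    have h7 : ∑ i, ∑ j, a i j x * pd i (pd j u) x ≤ 0 := by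
      apply trace_nonpos (A := fun i j => a i j x) (M := fun i j => pd i (pd j u) x)
      · intro i j
        exact h.symm i j x hxA
      · intro ζ
        have h8 := h.ell x hxA ζ
        have h9 : 0 ≤ lam * ∑ i, ζ i ^ 2 := by positivity
        linarith
      · intro ζ
        exact max_hess hud hloc ζ
    unfold Lc
    simp only [h6]
    simpa using h7
  linarith

end UMB.Lin
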