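import Pool.Agent.Lib.UMB.Lin.MDefs
import Pool.Agent.Lib.UMB.Lin.G2
import Pool.Agent.Lib.UMB.Lin.G4

/-! # UMB.Lin, chunk M7: an operator in the frame is a Cartesian operator -/

open scoped ContDiff BigOperators Topology
open Set MeasureTheory Filter Pool.Agent.Lib.PenroseSph

namespace UMB.Lin

noncomputable def caA (L : Op) (i j : Fin 3) (x : E3) : ℝ :=
  ∑ p, ∑ q, L.α p q x * (Zm p x) i * (Zm q x) j

noncomputable def caB (L : Op) (j : Fin 3) (x : E3) : ℝ :=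
  (∑ p, ∑ q, (L.α p q x * (Zm q (Zm p x)) j + Z p (L.α p q) x * (Zm q x) j))
    + ∑ q, L.β q x * (Zm q x) j

theorem m7_comm4 (G : Fin 3 → Fin 3 → Fin 4 → Fin 4 → ℝ) :
    ∑ i, ∑ j, ∑ p, ∑ q, G i j p q = ∑ p, ∑ q, ∑ i, ∑ j, G i j p q := by
  calc ∑ i, ∑ j, ∑ p, ∑ q, G i j p q = ∑ i, ∑ p, ∑ j, ∑ q, G i j p q :=
        Finset.sum_congr rfl fun i _ => Finset.sum_comm
    _ = ∑ p, ∑ i, ∑ j, ∑ q, G i j p q := Finset.sum_comm
    _ = ∑ p, ∑ i, ∑ q, ∑ j, G i j p q :=
        Finset.sum_congr rfl fun p _ => Finset.sum_congr rfl fun i _ => Finset.sum_comm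
    _ = ∑ p, ∑ q, ∑ i, ∑ j, G i j p q :=
        Finset.sum_congr rfl fun p _ => Finset.sum_comm

theorem m7_comm3 (G : Fin 3 → Fin 4 → Fin 4 → ℝ) :
    ∑ j, ∑ p, ∑ q, G j p q = ∑ p, ∑ q, ∑ j, G j p q := by
  calc ∑ j, ∑ p, ∑ q, G j p q = ∑ p, ∑ j, ∑ q, G j p q := Finset.sum_comm
    _ = ∑ p, ∑ q, ∑ j, G j p q := Finset.sum_congr rfl fun p _ => Finset.sum_comm

theorem m7_lin_diff (q : Fin 4) (j : Fin 3) (x : E3) :
    DifferentiableAt ℝ (fun y => (Zm q y) j) x :=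
  ((EuclideanSpace.proj j : E3 →L[ℝ] ℝ).comp (Zm q)).differentiableAt

theorem m7_Z_lin (p q : Fin 4) (j : Fin 3) (x : E3) :
    Z p (fun y => (Zm q y) j) x = (Zm q (Zm p x)) j := by
  unfold Z
  have h1 : (fun y => (Zm q y) j) = ((EuclideanSpace.proj j : E3 →L[ℝ] ℝ).comp (Zm q) : E3 → ℝ) := by
    funext y
    rfl
  rw [h1, ContinuousLinearMap.fderiv]
  rfl

theorem m7_ZZ (p q : Fin 4) {v : E3 → ℝ} (hv : ContDiff ℝ ∞ v) (x : E3) :
    Z p (Z q v) x = ∑ j, ((Zm q x) j * ∑ i, (Zm p x) i * pd i (pd j v) x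
      + (Zm q (Zm p x)) j * pd j v x) := by
  have h1 : Z q v = fun y => ∑ j, (Zm q y) j * pd j v y := by
    funext y
    exact Z_eq_pd q v y
  have hd : ∀ j, DifferentiableAt ℝ (pd j v) x := fun j =>
    ((contDiff_pd j hv).differentiable (by simp)) x
  have hs : Z p (fun y => ∑ j, (Zm q y) j * pd j v y) x
      = ∑ j, Z p (fun y => (Zm q y) j * pd j v y) x :=
    Z_sum p Finset.univ (u := fun j y => (Zm q y) j * pd j v y)
      (fun j _ => (m7_lin_diff q j x).mul (hd j))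
  rw [h1, hs]
  apply Finset.sum_congr rfl
  intro j _
  rw [Z_mul p (m7_lin_diff q j x) (hd j), m7_Z_lin, Z_eq_pd p (pd j v) x]
  ring

/-- `Z_p (α_pq Z_q v) = α_pq (∑ (Zm p)_i (Zm q)_j ∂_i ∂_j v + ∑_j (Zm q (Zm p x))_j ∂_j v)
+ (Z_p α_pq) Z_q v`. -/
theorem ap_eq_Lc {L : Op} (hL : L.Smooth) {v : E3 → ℝ} (hv : ContDiff ℝ ∞ v) (x : E3) :
    L.ap v x = Lc (caA L) (caB L) L.γ v x := by
  unfold Op.ap Lc
  have h1 : ∀ p q, Z p (fun y => L.α p q y * Z q v y) x
      = (∑ i, ∑ j, (L.α p q x * (Zm p x) i * (Zm q x) j) * pd i (pd j v) x)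
        + ∑ j, (L.α p q x * (Zm q (Zm p x)) j + Z p (L.α p q) x * (Zm q x) j) * pd j v x := by
    intro p q
    have ha : DifferentiableAt ℝ (L.α p q) x := ((hL.α p q).differentiable (by simp)) x
    have hz : DifferentiableAt ℝ (Z q v) x := ((contDiff_Z q hv).differentiable (by simp)) x
    rw [Z_mul p ha hz, m7_ZZ p q hv x, Z_eq_pd q v x]
    have h2 : ∑ i, ∑ j, (L.α p q x * (Zm p x) i * (Zm q x) j) * pd i (pd j v) x
        = ∑ j, ∑ i, (L.α p q x * (Zm p x) i * (Zm q x) j) * pd i (pd j v) x := Finset.sum_comm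
    rw [h2, Finset.mul_sum, Finset.sum_mul, ← Finset.sum_add_distrib, ← Finset.sum_add_distrib]
    apply Finset.sum_congr rfl
    intro j _
    have h3 : ∑ i, (L.α p q x * (Zm p x) i * (Zm q x) j) * pd i (pd j v) x
        = L.α p q x * ((Zm q x) j * ∑ i, (Zm p x) i * pd i (pd j v) x) := by
      rw [Finset.mul_sum, Finset.mul_sum]
      apply Finset.sum_congr rfl
      intro i _
      ring
    rw [h3]
    ring
  have h4 : ∑ i, ∑ j, caA L i j x * pd i (pd j v) x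
      = ∑ p, ∑ q, ∑ i, ∑ j, (L.α p q x * (Zm p x) i * (Zm q x) j) * pd i (pd j v) x := by
    unfold caA
    rw [← m7_comm4]
    apply Finset.sum_congr rfl
    intro i _
    apply Finset.sum_congr rfl
    intro j _
    rw [Finset.sum_mul]
    apply Finset.sum_congr rfl
    intro p _
    rw [Finset.sum_mul]
  have h5 : ∑ j, caB L j x * pd j v x
      = (∑ p, ∑ q, ∑ j, (L.α p q x * (Zm q (Zm p x)) j + Z p (L.α p q) x * (Zm q x) j)
          * pd j v x) + ∑ q, L.β q x * Z q v x := by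
    unfold caB
    rw [← m7_comm3]
    have h6 : ∑ q, L.β q x * Z q v x = ∑ j, (∑ q, L.β q x * (Zm q x) j) * pd j v x := by
      have h7 : ∀ q, L.β q x * Z q v x = ∑ j, L.β q x * (Zm q x) j * pd j v x := by
        intro q
        rw [Z_eq_pd q v x, Finset.mul_sum]
        apply Finset.sum_congr rfl
        intro j _
        ring
      rw [Finset.sum_congr rfl (fun q _ => h7 q), Finset.sum_comm]
      apply Finset.sum_congr rfl
      intro j _
      rw [Finset.sum_mul]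
    rw [h6, ← Finset.sum_add_distrib]
    apply Finset.sum_congr rfl
    intro j _
    rw [add_mul, Finset.sum_mul]
    congr 1
    apply Finset.sum_congr rfl
    intro p _
    rw [Finset.sum_mul]
  rw [h4, h5]
  have h8 : ∑ p, ∑ q, Z p (fun y => L.α p q y * Z q v y) x
      = (∑ p, ∑ q, ∑ i, ∑ j, (L.α p q x * (Zm p x) i * (Zm q x) j) * pd i (pd j v) x)
        + ∑ p, ∑ q, ∑ j, (L.α p q x * (Zm q (Zm p x)) j + Z p (L.α p q) x * (Zm q x) j)
          * pd j v x := by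
    rw [← Finset.sum_add_distrib]
    apply Finset.sum_congr rfl
    intro p _
    rw [← Finset.sum_add_distrib]
    apply Finset.sum_congr rfl
    intro q _
    exact h1 p q
  rw [h8]
  ring

theorem m7_comp_le (p : Fin 4) (i : Fin 3) (x : E3) : |(Zm p x) i| ≤ ‖x‖ := by
  have h1 := frame_sum x i i
  rw [if_pos rfl] at h1
  have h2 : (Zm p x) i * (Zm p x) i ≤ ∑ a, (Zm a x) i * (Zm a x) i :=
    Finset.single_le_sum (f := fun a => (Zm a x) i * (Zm a x) i)
      (fun a _ => mul_self_nonneg _) (Finset.mem_univ p)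
  rw [h1] at h2
  refine abs_le_of_sq_le_sq ?_ (norm_nonneg x)
  nlinarith

theorem m7_norm_le (p : Fin 4) (x : E3) : ‖Zm p x‖ ≤ 2 * ‖x‖ := by
  have h1 : ‖Zm p x‖ ^ 2 = ∑ i, (Zm p x) i ^ 2 := by
    rw [EuclideanSpace.norm_sq_eq]
    simp
  have h2 : ∀ i, (Zm p x) i ^ 2 ≤ ‖x‖ ^ 2 := by
    intro i
    have h3 := m7_comp_le p i x
    have h4 : |(Zm p x) i| ^ 2 ≤ ‖x‖ ^ 2 := by gcongr
    rwa [sq_abs] at h4
  have h3 : ‖Zm p x‖ ^ 2 ≤ 3 * ‖x‖ ^ 2 := by
    rw [h1, Fin.sum_univ_three]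
    have := h2 0
    have := h2 1
    have := h2 2
    linarith
  nlinarith [norm_nonneg (Zm p x), norm_nonneg x]

/-- ellipticity: `a(ζ,ζ) = α(ξ,ξ)` with `ξ_p = ζ . Zm p x`, `|ξ|² = |x|² |ζ|² ≥ |ζ|²` (`frame_sum`);
the bounds depend only on `R, B` (`|(Zm p x) i| ≤ R`). -/
theorem ca_good {R : ℝ} (hR : 1 < R) {lam B : ℝ} (hlam : 0 < lam) (hB : 0 ≤ B) :
    ∃ B', 0 ≤ B' ∧ ∀ L : Op, L.Good R lam B 1 → CGood R lam B' (caA L) (caB L) L.γ := by
  refine ⟨16 * B * R ^ 2 + 52 * B * R, by positivity, ?_⟩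
  intro L hL
  have hR0 : 0 ≤ R := by linarith
  have hcomp : ∀ x ∈ Ann R, ∀ p i, |(Zm p x) i| ≤ R := fun x hx p i =>
    (m7_comp_le p i x).trans hx.2.le
  have hcomp2 : ∀ x ∈ Ann R, ∀ p q j, |(Zm q (Zm p x)) j| ≤ 2 * R := by
    intro x hx p q j
    have h1 := m7_comp_le q j (Zm p x)
    have h2 := m7_norm_le p x
    have h3 := hx.2
    linarith
  have ha : ∀ x ∈ Ann R, ∀ p q, |L.α p q x| ≤ B := fun x hx p q =>
    hL.bα p q [] (by simp) x (Ann_sub hx)
  have hza : ∀ x ∈ Ann R, ∀ p q, |Z p (L.α p q) x| ≤ B := fun x hx p q =>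
    hL.bα p q [p] (by simp) x (Ann_sub hx)
  have hb : ∀ x ∈ Ann R, ∀ q, |L.β q x| ≤ B := fun x hx q =>
    hL.bβ q [] (by simp) x (Ann_sub hx)
  refine ⟨?_, ?_, ?_, ?_, ?_⟩
  · intro i j x _
    unfold caA
    rw [Finset.sum_comm]
    apply Finset.sum_congr rfl
    intro p _
    apply Finset.sum_congr rfl
    intro q _
    rw [hL.symm q p x]
    ring
  · intro x hx ζ
    have hx1 : 1 ≤ ‖x‖ := hx.1.le
    set ξ : Fin 4 → ℝ := fun p => ∑ i, (Zm p x) i * ζ i with hξ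
    have h1 := hL.ell x (Ann_sub hx) ξ
    have h2 : ∑ i, ∑ j, caA L i j x * ζ i * ζ j = ∑ p, ∑ q, L.α p q x * ξ p * ξ q := by
      have h3 : ∀ p q, L.α p q x * ξ p * ξ q
          = ∑ i, ∑ j, L.α p q x * (Zm p x) i * (Zm q x) j * ζ i * ζ j := by
        intro p q
        simp only [hξ, Fin.sum_univ_three]
        ring
      rw [Finset.sum_congr rfl (fun p _ => Finset.sum_congr rfl (fun q _ => h3 p q)), ← m7_comm4]
      apply Finset.sum_congr rfl
      intro i _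
      apply Finset.sum_congr rfl
      intro j _
      unfold caA
      rw [Finset.sum_mul, Finset.sum_mul]
      apply Finset.sum_congr rfl
      intro p _
      rw [Finset.sum_mul, Finset.sum_mul]
    have h4 : ∑ p, ξ p ^ 2 = ‖x‖ ^ 2 * ∑ i, ζ i ^ 2 := by
      have h5 : ∀ p, ξ p ^ 2 = ∑ i, ∑ j, ((Zm p x) i * (Zm p x) j) * (ζ i * ζ j) := by
        intro p
        simp only [hξ, Fin.sum_univ_three]
        ring
      rw [Finset.sum_congr rfl (fun p _ => h5 p), Finset.sum_comm]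
      have h6 : ∀ i, ∑ p, ∑ j, ((Zm p x) i * (Zm p x) j) * (ζ i * ζ j) = ‖x‖ ^ 2 * ζ i ^ 2 := by
        intro i
        rw [Finset.sum_comm]
        have h7 : ∀ j, ∑ p, ((Zm p x) i * (Zm p x) j) * (ζ i * ζ j)
            = (if i = j then ‖x‖ ^ 2 else 0) * (ζ i * ζ j) := by
          intro j
          rw [← Finset.sum_mul, frame_sum]
        rw [Finset.sum_congr rfl (fun j _ => h7 j)]
        simp only [ite_mul, zero_mul, Finset.sum_ite_eq, Finset.mem_univ, if_true]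
        ring
      rw [Finset.sum_congr rfl (fun i _ => h6 i), Finset.mul_sum]
    rw [h2]
    have h8 : 0 ≤ ∑ i, ζ i ^ 2 := by positivity
    have h9 : ∑ i, ζ i ^ 2 ≤ ∑ p, ξ p ^ 2 := by
      rw [h4]
      exact le_mul_of_one_le_left h8 (one_le_pow₀ hx1)
    calc lam * ∑ i, ζ i ^ 2 ≤ lam * ∑ p, ξ p ^ 2 := by gcongr
      _ ≤ _ := h1
  · intro i j x hx
    unfold caA
    have h1 : |∑ p, ∑ q, L.α p q x * (Zm p x) i * (Zm q x) j| ≤ ∑ p : Fin 4, ∑ q : Fin 4, B * R * R := by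
      refine (Finset.abs_sum_le_sum_abs _ _).trans ?_
      apply Finset.sum_le_sum
      intro p _
      refine (Finset.abs_sum_le_sum_abs _ _).trans ?_
      apply Finset.sum_le_sum
      intro q _
      rw [abs_mul, abs_mul]
      have := ha x hx p q
      have := hcomp x hx p i
      have := hcomp x hx q j
      gcongr
    refine h1.trans ?_
    simp only [Finset.sum_const, Finset.card_univ, Fintype.card_fin, nsmul_eq_mul]
    have : 0 ≤ B * R := by positivity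
    push_cast
    nlinarith
  · intro j x hx
    unfold caB
    have h1 : |∑ p, ∑ q, (L.α p q x * (Zm q (Zm p x)) j + Z p (L.α p q) x * (Zm q x) j)|
        ≤ ∑ p : Fin 4, ∑ q : Fin 4, (B * (2 * R) + B * R) := by
      refine (Finset.abs_sum_le_sum_abs _ _).trans ?_
      apply Finset.sum_le_sum
      intro p _
      refine (Finset.abs_sum_le_sum_abs _ _).trans ?_
      apply Finset.sum_le_sum
      intro q _
      refine (abs_add_le _ _).trans ?_
      rw [abs_mul, abs_mul]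
      have := ha x hx p q
      have := hza x hx p q
      have := hcomp2 x hx p q j
      have := hcomp x hx q j
      gcongr
    have h2 : |∑ q, L.β q x * (Zm q x) j| ≤ ∑ q : Fin 4, B * R := by
      refine (Finset.abs_sum_le_sum_abs _ _).trans ?_
      apply Finset.sum_le_sum
      intro q _
      rw [abs_mul]
      have := hb x hx q
      have := hcomp x hx q j
      gcongr
    refine (abs_add_le _ _).trans ?_
    simp only [Finset.sum_const, Finset.card_univ, Fintype.card_fin, nsmul_eq_mul] at h1 h2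
    push_cast at h1 h2
    have : 0 ≤ B * R ^ 2 := by positivity
    nlinarith
  · intro x hx
    exact hL.neg x (Ann_sub hx)
where
  Ann_sub {R : ℝ} {x : E3} (hx : x ∈ Ann R) : x ∈ cAnn R := ⟨hx.1.le, hx.2.le⟩

end UMB.Lin
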