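import Pool.Agent.Lib.UMB.Lin.C1

/-! # UMB.Lin: Cartesian operators with bounded measurable coefficients, definitions -/

open scoped ContDiff BigOperators Topology
open Set MeasureTheory Filter Pool.Agent.Lib.PenroseSph

namespace UMB.Lin

/-- Pointwise assumptions on a Cartesian operator on the open annulus (no continuity):
symmetric, ellipticity constant `lam`, coefficients `a, b` bounded by `B`, `c ≤ 0`. -/
structure CGood (R lam B : ℝ) (a : Fin 3 → Fin 3 → E3 → ℝ) (b : Fin 3 → E3 → ℝ) (c : E3 → ℝ) :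
    Prop where
  symm : ∀ i j, ∀ x ∈ Ann R, a i j x = a j i x
  ell : ∀ x ∈ Ann R, ∀ ζ : Fin 3 → ℝ, lam * ∑ i, ζ i ^ 2 ≤ ∑ i, ∑ j, a i j x * ζ i * ζ j
  bda : ∀ i j, ∀ x ∈ Ann R, |a i j x| ≤ B
  bdb : ∀ i, ∀ x ∈ Ann R, |b i x| ≤ B
  neg : ∀ x ∈ Ann R, c x ≤ 0

/-- class of functions for the maximum principle: `C²` inside, continuous on the closed annulus -/
structure C2c (R : ℝ) (v : E3 → ℝ) : Prop where
  c2 : ∀ x ∈ Ann R, ContDiffAt ℝ 2 v x
  cont : ContinuousOn v (cAnn R)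

/-- exponent for the radial barriers -/
noncomputable def kp (R lam B : ℝ) : ℝ := 1 + (6 * B * (1 + R)) / lam

end UMB.Lin
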