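import Pool.Agent.Lib.UMB.Lin.G1

/-! # UMB.Lin, chunk N1: the L² norm on the annulus -/

open scoped ContDiff BigOperators
open Set MeasureTheory Pool.Agent.Lib.PenroseSph

namespace UMB.Lin

theorem l2_nonneg (R : ℝ) (f : E3 → ℝ) : 0 ≤ l2 R f := Real.sqrt_nonneg _

theorem n1_int_nonneg (R : ℝ) (f : E3 → ℝ) : 0 ≤ ∫ x in Ann R, f x ^ 2 :=
  integral_nonneg fun x => sq_nonneg (f x)

theorem l2_sq (R : ℝ) (f : E3 → ℝ) : l2 R f ^ 2 = ∫ x in Ann R, f x ^ 2 :=
  Real.sq_sqrt (n1_int_nonneg R f)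

theorem l2_congr {R : ℝ} {f g : E3 → ℝ} (h : ∀ x ∈ Ann R, f x = g x) : l2 R f = l2 R g := by
  unfold l2
  rw [setIntegral_congr_fun (measurableSet_Ann R) (g := fun x => g x ^ 2)
    (fun x hx => by simp only [h x hx])]

theorem n1_mono {R : ℝ} {f g : E3 → ℝ} (hf : Continuous f) (hg : Continuous g)
    (h : ∀ x ∈ Ann R, f x ≤ g x) : ∫ x in Ann R, f x ≤ ∫ x in Ann R, g x :=
  setIntegral_mono_on (integrableOn_Ann hf) (integrableOn_Ann hg) (measurableSet_Ann R) h

theorem l2_mono {R : ℝ} {f g : E3 → ℝ} (hf : Continuous f) (hg : Continuous g)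
    (h : ∀ x ∈ Ann R, |f x| ≤ |g x|) : l2 R f ≤ l2 R g := by
  refine Real.sqrt_le_sqrt (n1_mono (hf.pow 2) (hg.pow 2) fun x hx => ?_)
  exact sq_le_sq.2 (h x hx)

/-- Cauchy-Schwarz -/
theorem l2_cs {R : ℝ} {f g : E3 → ℝ} (hf : Continuous f) (hg : Continuous g) :
    |∫ x in Ann R, f x * g x| ≤ l2 R f * l2 R g := by
  have hff : IntegrableOn (fun x => f x ^ 2) (Ann R) := integrableOn_Ann (hf.pow 2)
  have hgg : IntegrableOn (fun x => g x ^ 2) (Ann R) := integrableOn_Ann (hg.pow 2)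
  have hfg : IntegrableOn (fun x => f x * g x) (Ann R) := integrableOn_Ann (hf.mul hg)
  have key : ∀ t : ℝ, 0 ≤ (∫ x in Ann R, g x ^ 2) * (t * t) + (2 * ∫ x in Ann R, f x * g x) * t
      + ∫ x in Ann R, f x ^ 2 := by
    intro t
    have e : (∫ x in Ann R, g x ^ 2) * (t * t) + (2 * ∫ x in Ann R, f x * g x) * t
        + ∫ x in Ann R, f x ^ 2 = ∫ x in Ann R, (f x + t * g x) ^ 2 := by
      have e1 : ∀ x, (f x + t * g x) ^ 2 = (t * t) * g x ^ 2 + (2 * t) * (f x * g x) + f x ^ 2 := by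
        intro x
        ring
      simp only [e1]
      have a1 : IntegrableOn (fun x => t * t * g x ^ 2) (Ann R) := hgg.const_mul _
      have a2 : IntegrableOn (fun x => 2 * t * (f x * g x)) (Ann R) := hfg.const_mul _
      have a3 : IntegrableOn (fun x => t * t * g x ^ 2 + 2 * t * (f x * g x)) (Ann R) := a1.add a2
      rw [integral_add a3 hff, integral_add a1 a2, integral_const_mul, integral_const_mul]
      ring
    rw [e]
    exact n1_int_nonneg R (fun x => f x + t * g x)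
  have hd := discrim_le_zero key
  unfold discrim at hd
  have h1 : (∫ x in Ann R, f x * g x) ^ 2 ≤ (l2 R f * l2 R g) ^ 2 := by
    rw [mul_pow, l2_sq, l2_sq]
    nlinarith [hd]
  exact abs_le_of_sq_le_sq h1 (mul_nonneg (l2_nonneg R f) (l2_nonneg R g))

theorem l2_add {R : ℝ} {f g : E3 → ℝ} (hf : Continuous f) (hg : Continuous g) :
    l2 R (fun x => f x + g x) ≤ l2 R f + l2 R g := by
  have hff : IntegrableOn (fun x => f x ^ 2) (Ann R) := integrableOn_Ann (hf.pow 2)
  have hgg : IntegrableOn (fun x => g x ^ 2) (Ann R) := integrableOn_Ann (hg.pow 2)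
  have hfg : IntegrableOn (fun x => f x * g x) (Ann R) := integrableOn_Ann (hf.mul hg)
  have e : l2 R (fun x => f x + g x) ^ 2 = l2 R f ^ 2 + 2 * (∫ x in Ann R, f x * g x) +
      l2 R g ^ 2 := by
    rw [l2_sq, l2_sq, l2_sq]
    have e1 : ∀ x, (f x + g x) ^ 2 = f x ^ 2 + 2 * (f x * g x) + g x ^ 2 := by
      intro x
      ring
    simp only [e1]
    have a2 : IntegrableOn (fun x => 2 * (f x * g x)) (Ann R) := hfg.const_mul _
    have a3 : IntegrableOn (fun x => f x ^ 2 + 2 * (f x * g x)) (Ann R) := hff.add a2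
    rw [integral_add a3 hgg, integral_add hff a2, integral_const_mul]
  have h1 := (le_abs_self _).trans (l2_cs (R := R) hf hg)
  refine le_of_sq_le_sq ?_ (add_nonneg (l2_nonneg R f) (l2_nonneg R g))
  rw [e]
  nlinarith [h1]

theorem l2_const_mul (R c : ℝ) (f : E3 → ℝ) : l2 R (fun x => c * f x) = |c| * l2 R f := by
  unfold l2
  have e1 : ∀ x, (c * f x) ^ 2 = c ^ 2 * f x ^ 2 := by
    intro x
    ring
  simp only [e1]
  rw [integral_const_mul, Real.sqrt_mul (sq_nonneg c), Real.sqrt_sq_eq_abs]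

theorem l2_mul_le {R B : ℝ} (hB : 0 ≤ B) {a f : E3 → ℝ} (hf : Continuous f) (ha : Continuous a)
    (h : ∀ x ∈ Ann R, |a x| ≤ B) : l2 R (fun x => a x * f x) ≤ B * l2 R f := by
  have h1 : l2 R (fun x => a x * f x) ≤ l2 R (fun x => B * f x) := by
    refine l2_mono (ha.mul hf) (continuous_const.mul hf) fun x hx => ?_
    rw [abs_mul, abs_mul, abs_of_nonneg hB]
    exact mul_le_mul_of_nonneg_right (h x hx) (abs_nonneg _)
  rw [l2_const_mul, abs_of_nonneg hB] at h1
  exact h1

theorem l2_sum {R : ℝ} {ι : Type*} (s : Finset ι) {f : ι → E3 → ℝ}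
    (hf : ∀ i ∈ s, Continuous (f i)) : l2 R (fun x => ∑ i ∈ s, f i x) ≤ ∑ i ∈ s, l2 R (f i) := by
  classical
  induction s using Finset.induction_on with
  | empty =>
    simp only [Finset.sum_empty]
    unfold l2
    simp
  | insert a s ha ih =>
    simp only [Finset.sum_insert ha]
    have h1 : Continuous (fun x => ∑ i ∈ s, f i x) :=
      continuous_finsetSum s fun i hi => hf i (Finset.mem_insert_of_mem hi)
    refine (l2_add (hf a (Finset.mem_insert_self a s)) h1).trans ?_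
    have h2 := ih fun i hi => hf i (Finset.mem_insert_of_mem hi)
    linarith

theorem l2_le_sup {R s : ℝ} (hs : 0 ≤ s) {f : E3 → ℝ} (hf : Continuous f)
    (h : ∀ x ∈ Ann R, |f x| ≤ s) : l2 R f ≤ Real.sqrt (volume.real (Ann R)) * s := by
  have h1 : ∫ x in Ann R, f x ^ 2 ≤ volume.real (Ann R) * s ^ 2 := by
    have h2 : ∫ x in Ann R, f x ^ 2 ≤ ∫ x in Ann R, s ^ 2 := by
      refine n1_mono (hf.pow 2) continuous_const fun x hx => ?_
      have := h x hx
      rw [← sq_abs]
      exact pow_le_pow_left₀ (abs_nonneg _) this 2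
    rw [setIntegral_const, smul_eq_mul] at h2
    exact h2
  unfold l2
  refine (Real.sqrt_le_sqrt h1).trans ?_
  rw [Real.sqrt_mul measureReal_nonneg, Real.sqrt_sq hs]

/-- the L¹ norm is bounded by the L² norm -/
theorem l1_le_l2 {R : ℝ} {f : E3 → ℝ} (hf : Continuous f) :
    ∫ x in Ann R, |f x| ≤ Real.sqrt (volume.real (Ann R)) * l2 R f := by
  have h1 := (le_abs_self _).trans (l2_cs (R := R) (f := fun _ => (1 : ℝ)) (g := fun x => |f x|)
    continuous_const hf.abs)
  simp only [one_mul] at h1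
  have h2 : l2 R (fun _ => (1 : ℝ)) = Real.sqrt (volume.real (Ann R)) := by
    unfold l2
    rw [setIntegral_const]
    simp
  have h3 : l2 R (fun x => |f x|) = l2 R f := by
    unfold l2
    simp only [sq_abs]
  rw [h2, h3] at h1
  exact h1

end UMB.Lin
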