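import Pool.Agent.Lib.UMB.Lin.N2

/-! # UMB.Lin, chunk N3: bounded coefficients -/

open scoped ContDiff BigOperators
open Set MeasureTheory Pool.Agent.Lib.PenroseSph

namespace UMB.Lin

theorem Bd_mono {R B B' : ℝ} {j k : ℕ} (h : j ≤ k) (hB : B ≤ B') {v : E3 → ℝ} (hv : Bd R k B v) :
    Bd R j B' v :=
  fun w hw x hx => (hv w (hw.trans h) x hx).trans hB

theorem Bd_succ_iff {R B : ℝ} {k : ℕ} {v : E3 → ℝ} :
    Bd R (k + 1) B v ↔ (∀ x ∈ cAnn R, |v x| ≤ B) ∧ ∀ a, Bd R k B (Z a v) := by
  constructor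
  · intro h
    refine ⟨fun x hx => h [] (by simp) x hx, fun a w hw x hx => ?_⟩
    have h1 := h (w ++ [a]) (by simp; omega) x hx
    rw [Zw_append] at h1
    exact h1
  · rintro ⟨h1, h2⟩ w hw x hx
    rcases List.eq_nil_or_concat w with h0 | ⟨w', a, rfl⟩
    · rw [h0]; exact h1 x hx
    · rw [List.concat_eq_append, Zw_append]
      refine h2 a w' ?_ x hx
      rw [List.concat_eq_append, List.length_append] at hw
      simp only [List.length_cons, List.length_nil] at hw
      omega

theorem Bd_Z {R B : ℝ} {k : ℕ} {v : E3 → ℝ} (hv : Bd R (k + 1) B v) (a : Fin 4) :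
    Bd R k B (Z a v) := (Bd_succ_iff.1 hv).2 a

theorem n3_zero {R B : ℝ} {v : E3 → ℝ} (h : ∀ x ∈ cAnn R, |v x| ≤ B) : Bd R 0 B v := by
  intro w hw x hx
  have : w = [] := List.length_eq_zero_iff.1 (by omega)
  rw [this]
  exact h x hx

theorem n3_val {R B : ℝ} {k : ℕ} {v : E3 → ℝ} (h : Bd R k B v) : ∀ x ∈ cAnn R, |v x| ≤ B :=
  fun x hx => h [] (Nat.zero_le _) x hx

theorem n3_compact (R : ℝ) : IsCompact (cAnn R) := by
  refine Metric.isCompact_of_isClosed_isBounded ?_ ?_
  · have h1 : IsClosed {x : E3 | 1 ≤ ‖x‖} := isClosed_le continuous_const continuous_norm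
    have h2 : IsClosed {x : E3 | ‖x‖ ≤ R} := isClosed_le continuous_norm continuous_const
    exact h1.inter h2
  · refine (Metric.isBounded_closedBall (x := (0 : E3)) (r := R)).subset ?_
    intro x hx
    rw [Metric.mem_closedBall, dist_zero_right]
    exact hx.2

/-- compactness of the closed annulus, finitely many words -/
theorem Bd_exists (R : ℝ) (k : ℕ) {v : E3 → ℝ} (hv : ContDiff ℝ ∞ v) :
    ∃ B, 0 ≤ B ∧ Bd R k B v := by
  induction k generalizing v with
  | zero =>
    obtain ⟨C, hC⟩ := (n3_compact R).exists_bound_of_continuousOn hv.continuous.continuousOn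
    refine ⟨max C 0, le_max_right _ _, n3_zero (fun x hx => ?_)⟩
    exact (hC x hx).trans (le_max_left _ _)
  | succ k ih =>
    obtain ⟨C, hC⟩ := (n3_compact R).exists_bound_of_continuousOn hv.continuous.continuousOn
    choose D hD0 hD using fun a : Fin 4 => ih (contDiff_Z a hv)
    refine ⟨max C 0 + ∑ a, D a, add_nonneg (le_max_right _ _)
      (Finset.sum_nonneg (fun a _ => hD0 a)), ?_⟩
    refine Bd_succ_iff.2 ⟨fun x hx => ?_, fun a => ?_⟩
    · have h1 : |v x| ≤ max C 0 := (hC x hx).trans (le_max_left _ _)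
      have h2 : 0 ≤ ∑ a, D a := Finset.sum_nonneg (fun a _ => hD0 a)
      linarith
    · refine Bd_mono le_rfl ?_ (hD a)
      have h1 : D a ≤ ∑ a, D a := Finset.single_le_sum (fun a _ => hD0 a) (Finset.mem_univ a)
      have h2 : 0 ≤ max C 0 := le_max_right _ _
      linarith

theorem Bd_add {R B B' : ℝ} (k : ℕ) {u v : E3 → ℝ} (hu : ContDiff ℝ ∞ u) (hv : ContDiff ℝ ∞ v)
    (hBu : Bd R k B u) (hBv : Bd R k B' v) : Bd R k (B + B') (fun x => u x + v x) := by
  induction k generalizing u v with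
  | zero =>
    refine n3_zero (fun x hx => ?_)
    exact (abs_add_le _ _).trans (add_le_add (n3_val hBu x hx) (n3_val hBv x hx))
  | succ k ih =>
    refine Bd_succ_iff.2 ⟨fun x hx => ?_, fun a => ?_⟩
    · exact (abs_add_le _ _).trans (add_le_add (n3_val hBu x hx) (n3_val hBv x hx))
    · have e : Z a (fun x => u x + v x) = fun x => Z a u x + Z a v x := by
        funext x
        exact Z_add a ((hu.differentiable (by simp)).differentiableAt)
          ((hv.differentiable (by simp)).differentiableAt)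
      rw [e]
      exact ih (contDiff_Z a hu) (contDiff_Z a hv) (Bd_Z hBu a) (Bd_Z hBv a)

theorem Bd_const_mul {R B : ℝ} (k : ℕ) (c : ℝ) {v : E3 → ℝ} (hv : ContDiff ℝ ∞ v)
    (hBv : Bd R k B v) : Bd R k (|c| * B) (fun x => c * v x) := by
  induction k generalizing v with
  | zero =>
    refine n3_zero (fun x hx => ?_)
    rw [abs_mul]
    exact mul_le_mul_of_nonneg_left (n3_val hBv x hx) (abs_nonneg c)
  | succ k ih =>
    refine Bd_succ_iff.2 ⟨fun x hx => ?_, fun a => ?_⟩
    · rw [abs_mul]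
      exact mul_le_mul_of_nonneg_left (n3_val hBv x hx) (abs_nonneg c)
    · have e : Z a (fun x => c * v x) = fun x => c * Z a v x := by
        funext x
        exact Z_const_mul a c ((hv.differentiable (by simp)).differentiableAt)
      rw [e]
      exact ih (contDiff_Z a hv) (Bd_Z hBv a)

/-- Leibniz rule, induction on `k` with `Bd_succ_iff` -/
theorem Bd_mul {R B B' : ℝ} (hB : 0 ≤ B) (hB' : 0 ≤ B') (k : ℕ) {u v : E3 → ℝ}
    (hu : ContDiff ℝ ∞ u) (hv : ContDiff ℝ ∞ v)
    (hBu : Bd R k B u) (hBv : Bd R k B' v) : Bd R k (2 ^ k * B * B') (fun x => u x * v x) := by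
  induction k generalizing u v B B' with
  | zero =>
    refine n3_zero (fun x hx => ?_)
    rw [abs_mul, pow_zero, one_mul]
    exact mul_le_mul (n3_val hBu x hx) (n3_val hBv x hx) (abs_nonneg _) hB
  | succ k ih =>
    have hp : (1 : ℝ) ≤ 2 ^ (k + 1) := one_le_pow₀ (by norm_num)
    refine Bd_succ_iff.2 ⟨fun x hx => ?_, fun a => ?_⟩
    · rw [abs_mul]
      calc |u x| * |v x| ≤ B * B' :=
            mul_le_mul (n3_val hBu x hx) (n3_val hBv x hx) (abs_nonneg _) hB
        _ = 1 * (B * B') := (one_mul _).symm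
        _ ≤ 2 ^ (k + 1) * (B * B') := mul_le_mul_of_nonneg_right hp (mul_nonneg hB hB')
        _ = 2 ^ (k + 1) * B * B' := by ring
    · have e : Z a (fun x => u x * v x) = fun x => u x * Z a v x + v x * Z a u x := by
        funext x
        exact Z_mul a ((hu.differentiable (by simp)).differentiableAt)
          ((hv.differentiable (by simp)).differentiableAt)
      rw [e]
      have h1 := ih hB hB' hu (contDiff_Z a hv) (Bd_mono (Nat.le_succ k) le_rfl hBu) (Bd_Z hBv a)
      have h2 := ih hB' hB hv (contDiff_Z a hu) (Bd_mono (Nat.le_succ k) le_rfl hBv) (Bd_Z hBu a)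
      have h3 := Bd_add k (hu.mul (contDiff_Z a hv)) (hv.mul (contDiff_Z a hu)) h1 h2
      refine Bd_mono le_rfl (le_of_eq ?_) h3
      rw [pow_succ]
      ring

theorem Op.Good.mono {R lam B : ℝ} {m m' : ℕ} (h : m' ≤ m) {L : Op} (hL : L.Good R lam B m) :
    L.Good R lam B m' where
  toSmooth := hL.toSmooth
  ell := hL.ell
  bα := fun a b => Bd_mono h le_rfl (hL.bα a b)
  bβ := fun a => Bd_mono h le_rfl (hL.bβ a)
  bγ := Bd_mono h le_rfl hL.bγ
  neg := hL.neg

end UMB.Lin
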