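import Pool.Agent.Lib.UMB.Lin.N5
import Pool.Agent.Lib.UMB.Lin.N3

set_option autoImplicit false

/-! # UMB.Lin, chunk P0 (families of smooth functions with uniform bounds) -/

open scoped ContDiff BigOperators Topology
open Set MeasureTheory Filter Pool.Agent.Lib.PenroseSph

namespace UMB.Lin

/-- A family of globally smooth functions with uniform bounds of all words on the closed annulus. -/
structure UBf {ι : Type*} (R : ℝ) (u : ι → E3 → ℝ) : Prop where
  smooth : ∀ i, ContDiff ℝ ∞ (u i)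
  bd : ∀ k : ℕ, ∃ B : ℝ, 0 ≤ B ∧ ∀ i, Bd R k B (u i)

/-- CHUNK P0 (S/M). Closure properties: `Bd_exists`, `Bd_add`, `Bd_mul`, `Bd_const_mul`, `Bd_mono`; sums by induction over the
finite set. -/
theorem ub_const {ι : Type*} (R : ℝ) {f : E3 → ℝ} (hf : ContDiff ℝ ∞ f) : UBf R (fun _ : ι => f) := by
  refine ⟨fun _ => hf, fun k => ?_⟩
  obtain ⟨B, hB, h⟩ := Bd_exists R k hf
  exact ⟨B, hB, fun _ => h⟩

theorem ub_add {ι : Type*} {R : ℝ} {u v : ι → E3 → ℝ} (hu : UBf R u) (hv : UBf R v) :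
    UBf R (fun i x => u i x + v i x) := by
  refine ⟨fun i => (hu.smooth i).add (hv.smooth i), fun k => ?_⟩
  obtain ⟨B, hB, h⟩ := hu.bd k
  obtain ⟨B', hB', h'⟩ := hv.bd k
  exact ⟨B + B', add_nonneg hB hB', fun i => Bd_add k (hu.smooth i) (hv.smooth i) (h i) (h' i)⟩

theorem ub_mul {ι : Type*} {R : ℝ} {u v : ι → E3 → ℝ} (hu : UBf R u) (hv : UBf R v) :
    UBf R (fun i x => u i x * v i x) := by
  refine ⟨fun i => (hu.smooth i).mul (hv.smooth i), fun k => ?_⟩
  obtain ⟨B, hB, h⟩ := hu.bd k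
  obtain ⟨B', hB', h'⟩ := hv.bd k
  exact ⟨2 ^ k * B * B', by positivity, fun i => Bd_mul hB hB' k (hu.smooth i) (hv.smooth i) (h i) (h' i)⟩

theorem ub_neg {ι : Type*} {R : ℝ} {u : ι → E3 → ℝ} (hu : UBf R u) : UBf R (fun i x => - u i x) := by
  refine ⟨fun i => (hu.smooth i).neg, fun k => ?_⟩
  obtain ⟨B, hB, h⟩ := hu.bd k
  refine ⟨B, hB, fun i => ?_⟩
  have h1 := Bd_const_mul k (-1) (hu.smooth i) (h i)
  rw [abs_neg, abs_one, one_mul] at h1
  have e : (fun x => - u i x) = fun x => (-1 : ℝ) * u i x := by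
    funext x
    ring
  rw [e]
  exact h1

theorem ub_sum {ι κ : Type*} {R : ℝ} (s : Finset κ) {u : κ → ι → E3 → ℝ} (hu : ∀ j ∈ s, UBf R (u j)) :
    UBf R (fun i x => ∑ j ∈ s, u j i x) := by
  classical
  induction s using Finset.induction_on with
  | empty =>
    have h := ub_const (ι := ι) R (f := fun _ : E3 => (0:ℝ)) contDiff_const
    simpa using h
  | insert a s ha ih =>
    have h1 := ub_add (hu a (Finset.mem_insert_self a s)) (ih fun j hj => hu j (Finset.mem_insert_of_mem hj))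
    have e : (fun (i : ι) (x : E3) => ∑ j ∈ insert a s, u j i x) = fun i x => u a i x + ∑ j ∈ s, u j i x := by
      funext i x
      rw [Finset.sum_insert ha]
    rw [e]
    exact h1

end UMB.Lin
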