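import Pool.Agent.Lib.UMB.Lin.P0

set_option autoImplicit false

/-! # UMB.Lin, chunk P0c (composition with a smooth function of one variable) -/

open scoped ContDiff BigOperators Topology
open Set MeasureTheory Filter Pool.Agent.Lib.PenroseSph

namespace UMB.Lin

theorem p0c_sup {ι : Type*} {R : ℝ} {u : ι → E3 → ℝ} (hu : UBf R u) {φ : ℝ → ℝ}
    (hφ : Continuous φ) : ∃ C : ℝ, 0 ≤ C ∧ ∀ i, ∀ x ∈ cAnn R, |φ (u i x)| ≤ C := by
  obtain ⟨B0, _, hB0⟩ := hu.bd 0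
  obtain ⟨C, hC⟩ := (isCompact_Icc (a := -B0) (b := B0)).exists_bound_of_continuousOn
    hφ.continuousOn
  refine ⟨max C 0, le_max_right _ _, fun i x hx => ?_⟩
  have h1 := abs_le.1 (n3_val (hB0 i) x hx)
  exact (hC (u i x) ⟨h1.1, h1.2⟩).trans (le_max_left _ _)

theorem p0c_Z {u : E3 → ℝ} (hu : ContDiff ℝ ∞ u) {φ : ℝ → ℝ} (hφ : ContDiff ℝ ∞ φ) (a : Fin 4) :
    Z a (fun x => φ (u x)) = fun x => deriv φ (u x) * Z a u x := by
  funext x
  have h1 : HasFDerivAt u (fderiv ℝ u x) x :=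
    ((hu.differentiable (by simp)) x).hasFDerivAt
  have h2 : HasDerivAt φ (deriv φ (u x)) (u x) :=
    ((hφ.differentiable (by simp)) (u x)).hasDerivAt
  have h3 : HasFDerivAt (fun y => φ (u y)) (deriv φ (u x) • fderiv ℝ u x) x :=
    h2.comp_hasFDerivAt x h1
  unfold Z
  rw [h3.fderiv]
  rfl

theorem p0c_bd {ι : Type*} {R : ℝ} {u : ι → E3 → ℝ} (hu : UBf R u) (k : ℕ) :
    ∀ {φ : ℝ → ℝ}, ContDiff ℝ ∞ φ →
      ∃ B : ℝ, 0 ≤ B ∧ ∀ i, Bd R k B (fun x => φ (u i x)) := by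
  induction k with
  | zero =>
    intro φ hφ
    obtain ⟨C, hC0, hC⟩ := p0c_sup hu hφ.continuous
    exact ⟨C, hC0, fun i => n3_zero (hC i)⟩
  | succ k ih =>
    intro φ hφ
    obtain ⟨C, hC0, hC⟩ := p0c_sup hu hφ.continuous
    have hφ' : ContDiff ℝ ∞ (deriv φ) := (contDiff_infty_iff_deriv.1 hφ).2
    obtain ⟨B1, hB10, hB1⟩ := ih hφ'
    obtain ⟨B2, hB20, hB2⟩ := hu.bd (k + 1)
    refine ⟨C + 2 ^ k * B1 * B2, by positivity, fun i => ?_⟩
    have hpos : 0 ≤ 2 ^ k * B1 * B2 := by positivity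
    refine Bd_succ_iff.2 ⟨fun x hx => (hC i x hx).trans (by linarith), fun a => ?_⟩
    rw [p0c_Z (hu.smooth i) hφ a]
    exact Bd_mono le_rfl (by linarith) (Bd_mul hB10 hB20 k (hφ'.comp (hu.smooth i))
      (contDiff_Z a (hu.smooth i)) (hB1 i) (Bd_Z (hB2 i) a))

/-- CHUNK P0c (M). Composition.
PROOF. The values `u i x`, `x ∈ cAnn R`, are in a compact interval `[-B, B]` (`bd 0`). By induction on `k`, for ALL smooth `φ`:
there is a bound for `Bd R k` of `φ ∘ u i`. `k = 0`: `φ` is bounded on `[-B, B]`. Step: `Bd_succ_iff` and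
`Z a (φ ∘ u) = (φ' ∘ u) * Z a u` (chain rule), `Bd_mul` with the induction hypothesis for `φ' = deriv φ` (smooth) and `Bd_Z`
(order `k` bound of `Z a u` from the order `k + 1` bound of `u`). -/
theorem ub_comp {ι : Type*} {R : ℝ} {u : ι → E3 → ℝ} (hu : UBf R u) {φ : ℝ → ℝ} (hφ : ContDiff ℝ ∞ φ) :
    UBf R (fun i x => φ (u i x)) where
  smooth := fun i => hφ.comp (hu.smooth i)
  bd := fun k => p0c_bd hu k hφ

end UMB.Lin
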