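import Pool.Agent.Lib.UMB.Op
import Pool.Agent.Lib.UMB.Lin.FDefs

set_option autoImplicit false

/-! # UMB.Lin, chunk P1 (mollification of the extended function) -/

open scoped ContDiff BigOperators Topology
open Set MeasureTheory Filter Pool.Agent.Lib.PenroseSph

namespace UMB.Lin

/-- The order interval `0 ≤ v ≤ 1`. -/
def K01 (R : ℝ) (v : E3 → ℝ) : Prop := KK R (fun _ => 0) (fun _ => 1) v

/-- Mollification of the extension of `v` by the boundary values. -/
noncomputable def FE (R : ℝ) (φ : E3 → ℝ) (v : E3 → ℝ) (x : E3) : ℝ := ∫ y, ext R v y * φ (x - y)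

/-- CHUNK P1 (M). `ext R v` is measurable (continuous on the closed annulus, constant on the two other pieces), `0 <= ext <= 1`,
zero for `R < |x|`. -/
theorem p1_ext {R : ℝ} (hR : 1 < R) {v : E3 → ℝ} (hv : K01 R v) : Measurable (ext R v) ∧ (∀ x, 0 ≤ ext R v x) ∧
    (∀ x, ext R v x ≤ 1) ∧ ∀ x : E3, R < ‖x‖ → ext R v x = 0 := by
  classical
  refine ⟨?_, ?_, ?_, ?_⟩
  · have h1 : Measurable ((cAnn R).piecewise v (fun _ => 0)) :=
      hv.1.measurable_piecewise continuousOn_const (isCompact_cAnn R).isClosed.measurableSet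
    have h2 : ext R v = fun x => if ‖x‖ < 1 then 1 else (cAnn R).piecewise v (fun _ => 0) x := by
      funext x
      unfold ext
      by_cases hx : ‖x‖ < 1
      · rw [if_pos hx, if_pos hx]
      · rw [if_neg hx, if_neg hx]
        by_cases hx2 : ‖x‖ ≤ R
        · rw [if_pos hx2, piecewise_eq_of_mem _ _ _ (show x ∈ cAnn R from ⟨not_lt.1 hx, hx2⟩)]
        · rw [if_neg hx2, piecewise_eq_of_notMem _ _ _ (fun h : x ∈ cAnn R => hx2 h.2)]
    rw [h2]
    exact Measurable.ite (measurableSet_lt measurable_norm measurable_const) measurable_const h1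
  · intro x
    unfold ext
    split_ifs with h1 h2
    · exact zero_le_one
    · exact (hv.2 x ⟨not_lt.1 h1, h2⟩).1
    · exact le_rfl
  · intro x
    unfold ext
    split_ifs with h1 h2
    · exact le_rfl
    · exact (hv.2 x ⟨not_lt.1 h1, h2⟩).2
    · exact zero_le_one
  · intro x hx
    unfold ext
    rw [if_neg (by linarith), if_neg (by linarith)]

theorem p1_locInt {R : ℝ} (hR : 1 < R) {v : E3 → ℝ} (hv : K01 R v) :
    LocallyIntegrable (ext R v) volume := by
  obtain ⟨h1, h2, h3, -⟩ := p1_ext hR hv
  refine (locallyIntegrable_const (1 : ℝ)).mono h1.aestronglyMeasurable ?_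
  refine Eventually.of_forall fun x => ?_
  rw [Real.norm_eq_abs, abs_of_nonneg (h2 x), norm_one]
  exact h3 x

/-- CHUNK P1 (M), second statement. The mollification is smooth, derivatives fall on the kernel.
PROOF. It is the convolution of the locally integrable function `ext R v` (`p1_ext`: bounded, measurable) with the smooth function
`φ` of compact support: `HasCompactSupport.contDiff_convolution_right`, `HasCompactSupport.hasFDerivAt_convolution_right`
(`MeasureTheory.convolution` with `ContinuousLinearMap.mul ℝ ℝ`; `pd i` is the evaluation of the derivative at a vector, it can be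
moved under the integral). -/
theorem p1_smooth {R : ℝ} (hR : 1 < R) {φ : E3 → ℝ} (hφ : ContDiff ℝ ∞ φ) (hc : HasCompactSupport φ) {v : E3 → ℝ}
    (hv : K01 R v) : ContDiff ℝ ∞ (FE R φ v) ∧ ∀ i x, pd i (FE R φ v) x = FE R (pd i φ) v x := by
  have hl := p1_locInt hR hv
  have hF : FE R φ v = MeasureTheory.convolution (ext R v) φ (ContinuousLinearMap.mul ℝ ℝ) volume := rfl
  refine ⟨?_, ?_⟩
  · rw [hF]
    exact hc.contDiff_convolution_right (ContinuousLinearMap.mul ℝ ℝ) hl hφ
  · intro i x
    have h1 := hc.hasFDerivAt_convolution_right (ContinuousLinearMap.mul ℝ ℝ) hl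
      (hφ.of_le (by norm_cast)) x
    rw [← hF] at h1
    unfold pd
    rw [h1.fderiv]
    exact MeasureTheory.convolution_precompR_apply (ContinuousLinearMap.mul ℝ ℝ) hl
      (hc.fderiv (𝕜 := ℝ)) (hφ.continuous_fderiv (by simp)) x _

end UMB.Lin
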