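import Pool.Agent.Lib.UMB.Lin.P1
import Pool.Agent.Lib.UMB.Lin.P0

set_option autoImplicit false

/-! # UMB.Lin, chunk P1b (bounds of the mollification) -/

open scoped ContDiff BigOperators Topology
open Set MeasureTheory Filter Pool.Agent.Lib.PenroseSph

namespace UMB.Lin

theorem p1b_int {φ : E3 → ℝ} (hφ : ContDiff ℝ ∞ φ) (hc : HasCompactSupport φ) (x : E3) :
    Integrable (fun y => φ (x - y)) :=
  (hφ.continuous.integrable_of_hasCompactSupport hc).comp_sub_left x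

theorem p1b_int2 {R : ℝ} (hR : 1 < R) {φ : E3 → ℝ} (hφ : ContDiff ℝ ∞ φ) (hc : HasCompactSupport φ)
    {v : E3 → ℝ} (hv : K01 R v) (x : E3) : Integrable (fun y => ext R v y * φ (x - y)) := by
  obtain ⟨h1, h2, h3, -⟩ := p1_ext hR hv
  refine (p1b_int hφ hc x).bdd_mul (c := 1) h1.aestronglyMeasurable ?_
  refine Eventually.of_forall fun y => ?_
  rw [Real.norm_eq_abs, abs_of_nonneg (h2 y)]
  exact h3 y

/-- CHUNK P1b (S/M), first statement: bound by the `L^1` norm of the kernel. -/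
theorem p1_bound {R : ℝ} (hR : 1 < R) {φ : E3 → ℝ} (hφ : ContDiff ℝ ∞ φ) (hc : HasCompactSupport φ) {v : E3 → ℝ}
    (hv : K01 R v) (x : E3) : |FE R φ v x| ≤ ∫ z, |φ z| := by
  obtain ⟨-, h2, h3, -⟩ := p1_ext hR hv
  have h4 : ∫ y, |φ (x - y)| = ∫ z, |φ z| := integral_sub_left_eq_self (fun z => |φ z|) volume x
  rw [← h4]
  have h5 := norm_integral_le_of_norm_le (f := fun y => ext R v y * φ (x - y))
    (p1b_int hφ hc x).abs (Eventually.of_forall fun y => by
      rw [Real.norm_eq_abs, abs_mul, abs_of_nonneg (h2 y)]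
      exact mul_le_of_le_one_left (abs_nonneg _) (h3 y))
  rw [Real.norm_eq_abs] at h5
  exact h5

/-- CHUNK P1b (S/M), second statement: Lipschitz in the sup norm (`ext R v - ext R v'` vanishes off the annulus). -/
theorem p1_lip {R : ℝ} (hR : 1 < R) {φ : E3 → ℝ} (hφ : ContDiff ℝ ∞ φ) (hc : HasCompactSupport φ) {v v' : E3 → ℝ}
    (hv : K01 R v) (hv' : K01 R v') {d : ℝ} (hd : 0 ≤ d) (h : ∀ x ∈ cAnn R, |v' x - v x| ≤ d) (x : E3) :
    |FE R φ v' x - FE R φ v x| ≤ d * ∫ z, |φ z| := by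
  have h1 : FE R φ v' x - FE R φ v x = ∫ y, (ext R v' y - ext R v y) * φ (x - y) := by
    unfold FE
    rw [← integral_sub (p1b_int2 hR hφ hc hv' x) (p1b_int2 hR hφ hc hv x)]
    congr 1
    funext y
    ring
  have h2 : ∀ y, |ext R v' y - ext R v y| ≤ d := by
    intro y
    unfold ext
    split_ifs with h3 h4
    · simpa using hd
    · exact h y ⟨not_lt.mp h3, h4⟩
    · simpa using hd
  have h4 : ∫ y, |φ (x - y)| = ∫ z, |φ z| := integral_sub_left_eq_self (fun z => |φ z|) volume x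
  rw [h1, ← h4, ← integral_const_mul]
  have h5 := norm_integral_le_of_norm_le (f := fun y => (ext R v' y - ext R v y) * φ (x - y))
    ((p1b_int hφ hc x).abs.const_mul d) (Eventually.of_forall fun y => by
      rw [Real.norm_eq_abs, abs_mul]
      exact mul_le_mul_of_nonneg_right (h2 y) (abs_nonneg _))
  rw [Real.norm_eq_abs] at h5
  exact h5

theorem p1b_pd_supp {φ : E3 → ℝ} (hc : HasCompactSupport φ) (i : Fin 3) : HasCompactSupport (pd i φ) :=
  (hc.fderiv (𝕜 := ℝ)).comp_left (g := fun L : E3 →L[ℝ] ℝ => L (EuclideanSpace.single i 1)) rfl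

theorem p1b_Dw {φ : E3 → ℝ} (hφ : ContDiff ℝ ∞ φ) (hc : HasCompactSupport φ) (w : List (Fin 3)) :
    ContDiff ℝ ∞ (Dw w φ) ∧ HasCompactSupport (Dw w φ) := by
  induction w with
  | nil => exact ⟨hφ, hc⟩
  | cons i w ih => exact ⟨contDiff_pd i ih.1, p1b_pd_supp ih.2 i⟩

theorem p1b_comm {R : ℝ} (hR : 1 < R) {φ : E3 → ℝ} (hφ : ContDiff ℝ ∞ φ) (hc : HasCompactSupport φ)
    {v : E3 → ℝ} (hv : K01 R v) (w : List (Fin 3)) : Dw w (FE R φ v) = FE R (Dw w φ) v := by
  induction w with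
  | nil => rfl
  | cons i w ih =>
    funext x
    change pd i (Dw w (FE R φ v)) x = FE R (pd i (Dw w φ)) v x
    rw [ih]
    exact (p1_smooth hR (p1b_Dw hφ hc w).1 (p1b_Dw hφ hc w).2 hv).2 i x

/-- CHUNK P1b (S/M), third statement: uniform bounds of all derivatives. `Dw l (FE R φ v) = FE R (Dw l φ) v` by induction on the word
(`p1_smooth`; `Dw l φ` is smooth with compact support), `p1_bound`, `Bd_of_Dw` (finitely many words of length `<= k`). -/
theorem p1_ub {R : ℝ} (hR : 1 < R) {φ : E3 → ℝ} (hφ : ContDiff ℝ ∞ φ) (hc : HasCompactSupport φ) :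
    UBf R (fun (v : {v : E3 → ℝ // K01 R v}) => FE R φ v.1) := by
  refine ⟨fun v => (p1_smooth hR hφ hc v.2).1, ?_⟩
  intro k
  obtain ⟨C, hC, hbd⟩ := Bd_of_Dw R k
  have hfin : {l : List (Fin 3) | l.length ≤ k}.Finite := List.finite_length_le (Fin 3) k
  set s : ℝ := ∑ w ∈ hfin.toFinset, ∫ z, |Dw w φ z| with hs
  have hnn : ∀ w : List (Fin 3), 0 ≤ ∫ z, |Dw w φ z| := fun w => integral_nonneg fun z => abs_nonneg _
  have hs0 : 0 ≤ s := Finset.sum_nonneg fun w _ => hnn w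
  refine ⟨C * s, mul_nonneg hC hs0, ?_⟩
  intro v
  refine hbd _ s hs0 (p1_smooth hR hφ hc v.2).1 ?_
  intro w hw x _
  rw [p1b_comm hR hφ hc v.2 w]
  refine (p1_bound hR (p1b_Dw hφ hc w).1 (p1b_Dw hφ hc w).2 v.2 x).trans ?_
  exact Finset.single_le_sum (f := fun w => ∫ z, |Dw w φ z|) (fun w _ => hnn w)
    (hfin.mem_toFinset.mpr hw)

end UMB.Lin
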