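import Pool.Agent.Lib.UMB.Lin.P1

set_option autoImplicit false

/-! # UMB.Lin, chunk P2 (the mollifier of `OpData`) -/

open scoped ContDiff BigOperators Topology
open Set MeasureTheory Filter Pool.Agent.Lib.PenroseSph

namespace UMB.Lin

/-- CHUNK P2 (S/M). The kernel at scale `d`: smooth, compact support, nonnegative, integral one
(`MeasureTheory.Measure.integral_comp_inv_smul` or `integral_comp_smul`, dimension three). -/
theorem p2_kernel {D : OpData} (hD : D.Ok) : ContDiff ℝ ∞ D.etad ∧ HasCompactSupport D.etad ∧ (∀ x, 0 ≤ D.etad x) ∧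
    ∫ x : E3, D.etad x = 1 := by
  have hd := hD.d_pos
  refine ⟨?_, ?_, ?_, ?_⟩
  · exact contDiff_const.mul (hD.eta_smooth.comp (contDiff_const_smul D.d⁻¹))
  · apply HasCompactSupport.intro (isCompact_closedBall (0 : E3) D.d)
    intro x hx
    have h1 : D.d < ‖x‖ := by
      by_contra hcon
      push Not at hcon
      exact hx (by simpa using hcon)
    have h2 : 1 ≤ ‖D.d⁻¹ • x‖ := by
      rw [norm_smul, Real.norm_eq_abs, abs_of_pos (inv_pos.mpr hd), inv_mul_eq_div, le_div_iff₀ hd]
      linarith
    unfold OpData.etad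
    rw [hD.eta_supp _ h2, mul_zero]
  · intro x
    exact mul_nonneg (by positivity) (hD.eta_nonneg _)
  · unfold OpData.etad
    rw [integral_const_mul, Measure.integral_comp_smul, hD.eta_int]
    have h3 : Module.finrank ℝ E3 = 3 := by simp
    rw [h3, smul_eq_mul, mul_one, inv_pow, inv_inv, abs_of_pos (by positivity)]
    field_simp

/-- The partial derivatives of the kernel are smooth with compact support (`HasCompactSupport.fderiv`, `contDiff_pd`). -/
theorem p2_pd {D : OpData} (hD : D.Ok) (i : Fin 3) : ContDiff ℝ ∞ (pd i D.etad) ∧ HasCompactSupport (pd i D.etad) := by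
  obtain ⟨h1, h2, -, -⟩ := p2_kernel hD
  refine ⟨contDiff_pd i h1, ?_⟩
  exact (h2.fderiv (𝕜 := ℝ)).comp_left (g := fun L : E3 →L[ℝ] ℝ => L (EuclideanSpace.single i 1)) rfl

/-- `v_d = FE etad v` takes values in `[0, 1]` (`p1_ext`, `p2_kernel`; the integral of `etad (x - y)` in `y` is one). -/
theorem p2_vd {D : OpData} (hD : D.Ok) {v : E3 → ℝ} (hv : K01 D.R v) (x : E3) : 0 ≤ D.vd v x ∧ D.vd v x ≤ 1 := by
  obtain ⟨h1, h2, h3, h4⟩ := p2_kernel hD
  obtain ⟨e1, e2, e3, -⟩ := p1_ext hD.one_lt_R hv
  have hint : Integrable (fun y => D.etad (x - y)) :=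
    (h1.continuous.integrable_of_hasCompactSupport h2).comp_sub_left x
  have hone : ∫ y, D.etad (x - y) = 1 := by
    rw [← h4]
    exact integral_sub_left_eq_self (fun z => D.etad z) volume x
  unfold OpData.vd
  constructor
  · exact integral_nonneg fun y => mul_nonneg (e2 y) (h3 _)
  · rw [← hone]
    have hint2 : Integrable (fun y => ext D.R v y * D.etad (x - y)) := by
      refine hint.bdd_mul (c := 1) e1.aestronglyMeasurable ?_
      refine Eventually.of_forall fun y => ?_
      rw [Real.norm_eq_abs, abs_of_nonneg (e2 y)]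
      exact e3 y
    exact integral_mono hint2 hint fun y => mul_le_of_le_one_left (h3 _) (e3 y)

end UMB.Lin
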