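import Pool.Agent.Lib.UMB.Op
import Pool.Agent.Lib.UMB.Lin.Defs

set_option autoImplicit false

/-! # UMB.Lin, chunk P3 (cut-off near the origin) -/

open scoped ContDiff BigOperators Topology
open Set MeasureTheory Filter Pool.Agent.Lib.PenroseSph

namespace UMB.Lin

/-- Smooth cut-off: `0` for `|x| ≤ (1+a)/2`, `1` for `|x| ≥ 1`. -/
noncomputable def cut (a : ℝ) (x : E3) : ℝ :=
  Real.smoothTransition ((‖x‖ ^ 2 - ((1 + a) / 2) ^ 2) / (1 - ((1 + a) / 2) ^ 2))

theorem p3_den {a : ℝ} (ha : 0 ≤ a) (ha1 : a < 1) : 0 < 1 - ((1 + a) / 2) ^ 2 := by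
  nlinarith

/-- CHUNK P3 (S/M), first statement. -/
theorem p3_cut {a : ℝ} (ha : 0 ≤ a) (ha1 : a < 1) : ContDiff ℝ ∞ (cut a) ∧ (∀ x : E3, 1 ≤ ‖x‖ → cut a x = 1) ∧
    (∀ x : E3, ‖x‖ ≤ (1 + a) / 2 → cut a x = 0) ∧ (∀ x, 0 ≤ cut a x) ∧ ∀ x, cut a x ≤ 1 := by
  have hden := p3_den ha ha1
  refine ⟨?_, ?_, ?_, ?_, ?_⟩
  · have h1 : ContDiff ℝ ∞ (fun x : E3 => (‖x‖ ^ 2 - ((1 + a) / 2) ^ 2) / (1 - ((1 + a) / 2) ^ 2)) :=
      ((contDiff_norm_sq ℝ).sub contDiff_const).div_const _
    exact Real.smoothTransition.contDiff.comp h1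
  · intro x hx
    apply Real.smoothTransition.one_of_one_le
    rw [le_div_iff₀ hden]
    nlinarith [norm_nonneg x]
  · intro x hx
    apply Real.smoothTransition.zero_of_nonpos
    apply div_nonpos_of_nonpos_of_nonneg _ hden.le
    have h1 : ‖x‖ ^ 2 ≤ ((1 + a) / 2) ^ 2 := by
      have := norm_nonneg x
      gcongr
    linarith
  · intro x
    exact Real.smoothTransition.nonneg _
  · intro x
    exact Real.smoothTransition.le_one _

/-- CHUNK P3 (S/M), second statement. Cutting off makes a function global: at `x` with `a < |x|` a product of functions smooth near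
`x` (open set), at `|x| < (1+a)/2` the product vanishes near `x`. -/
theorem p3_glob {a : ℝ} (ha : 0 ≤ a) (ha1 : a < 1) {f : E3 → ℝ} (hf : ContDiffOn ℝ ∞ f {x : E3 | a < ‖x‖}) :
    ContDiff ℝ ∞ (fun x => cut a x * f x) := by
  obtain ⟨h1, -, h3, -, -⟩ := p3_cut ha ha1
  rw [contDiff_iff_contDiffAt]
  intro x
  by_cases hx : a < ‖x‖
  · have h4 : IsOpen {x : E3 | a < ‖x‖} := isOpen_lt continuous_const continuous_norm
    exact h1.contDiffAt.mul (hf.contDiffAt (h4.mem_nhds hx))
  · push Not at hx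
    have h5 : ∀ᶠ y in 𝓝 x, ‖y‖ < (1 + a) / 2 :=
      (isOpen_lt continuous_norm continuous_const).mem_nhds
        (show ‖x‖ < (1 + a) / 2 by linarith)
    have h6 : (fun x => cut a x * f x) =ᶠ[𝓝 x] fun _ => 0 := by
      filter_upwards [h5] with y hy
      rw [h3 y hy.le, zero_mul]
    exact contDiffAt_const.congr_of_eventuallyEq h6

/-- The smooth function equal to `1/sqrt t` for `t ≥ s > 0`. -/
noncomputable def isq (s t : ℝ) : ℝ := Real.smoothTransition (2 * t / s - 1) / Real.sqrt t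

/-- CHUNK P3 (S/M), third statement. `isq s` vanishes for `t < s/2`, it is a quotient of smooth functions for `t > 0`. -/
theorem p3_isq {s : ℝ} (hs : 0 < s) : ContDiff ℝ ∞ (isq s) ∧ ∀ t, s ≤ t → isq s t = 1 / Real.sqrt t := by
  constructor
  · rw [contDiff_iff_contDiffAt]
    intro t
    by_cases ht : 0 < t
    · have h1 : ContDiff ℝ ∞ (fun t : ℝ => Real.smoothTransition (2 * t / s - 1)) :=
        Real.smoothTransition.contDiff.comp
          (((contDiff_const.mul contDiff_id).div_const s).sub contDiff_const)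
      have h2 : ContDiffAt ℝ ∞ Real.sqrt t := Real.contDiffAt_sqrt ht.ne'
      exact h1.contDiffAt.div h2 (Real.sqrt_pos.mpr ht).ne'
    · push Not at ht
      have h5 : ∀ᶠ y in 𝓝 t, y < s / 2 := Iio_mem_nhds (by linarith)
      have h6 : isq s =ᶠ[𝓝 t] fun _ => 0 := by
        filter_upwards [h5] with y hy
        unfold isq
        rw [Real.smoothTransition.zero_of_nonpos, zero_div]
        have h7 : 2 * y / s ≤ 1 := by
          rw [div_le_one hs]
          linarith
        linarith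
      exact contDiffAt_const.congr_of_eventuallyEq h6
  · intro t ht
    unfold isq
    rw [Real.smoothTransition.one_of_one_le]
    have h7 : 2 ≤ 2 * t / s := by
      rw [le_div_iff₀ hs]
      linarith
    linarith

end UMB.Lin
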