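import Pool.Agent.Lib.UMB.Lin.PDefs

set_option autoImplicit false

/-! # UMB.Lin, chunk P4 (the global coefficients agree with those of `OpData`) -/

open scoped ContDiff BigOperators Topology
open Set MeasureTheory Filter Pool.Agent.Lib.PenroseSph

namespace UMB.Lin

/-- CHUNK P4 (S), second statement: positivity and symmetry of the global metric, everywhere. -/
theorem p4_pos {D : OpData} (hD : D.Ok) : (∀ i j x, gG D i j x = gG D j i x) ∧
    (∀ (x : E3) (u : Fin 3 → ℝ), 0 ≤ ∑ i, ∑ j, gG D i j x * u i * u j) ∧ ∀ v x, D.eps ^ 2 ≤ gs D v x := by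
  obtain ⟨-, -, hc0, hcn, hc1⟩ := p3_cut hD.a_nonneg hD.a_lt
  have hsmall : ∀ x : E3, ¬ D.a < ‖x‖ → cut D.a x = 0 := by
    intro x hx
    refine hc0 x ?_
    have := hD.a_lt
    push Not at hx
    linarith
  have hsym : ∀ i j x, gG D i j x = gG D j i x := by
    intro i j x
    unfold gG
    by_cases hx : D.a < ‖x‖
    · have h1 : D.G x i j = D.G x j i := (hD.G_symm x hx).apply j i
      rw [h1]
      by_cases hij : i = j
      · rw [if_pos hij, if_pos hij.symm]
      · rw [if_neg hij, if_neg (Ne.symm hij)]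
    · rw [hsmall x hx]
      by_cases hij : i = j
      · rw [if_pos hij, if_pos hij.symm]
        ring
      · rw [if_neg hij, if_neg (Ne.symm hij)]
        ring
  have hpos : ∀ (x : E3) (u : Fin 3 → ℝ), 0 ≤ ∑ i, ∑ j, gG D i j x * u i * u j := by
    intro x u
    have h1 : ∑ i, ∑ j, gG D i j x * u i * u j
        = cut D.a x * q1 (D.G x) u + (1 - cut D.a x) * ∑ i, u i ^ 2 := by
      unfold q1
      rw [Finset.mul_sum, Finset.mul_sum, ← Finset.sum_add_distrib]
      refine Finset.sum_congr rfl fun i _ => ?_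
      have h2 : (1 - cut D.a x) * u i ^ 2
          = ∑ j, (1 - cut D.a x) * (if i = j then 1 else 0) * u i * u j := by
        simp [pow_two, mul_assoc]
      rw [h2, Finset.mul_sum, ← Finset.sum_add_distrib]
      refine Finset.sum_congr rfl fun j _ => ?_
      unfold gG
      ring
    rw [h1]
    have h3 : 0 ≤ (1 - cut D.a x) * ∑ i, u i ^ 2 :=
      mul_nonneg (by linarith [hc1 x]) (Finset.sum_nonneg fun i _ => sq_nonneg (u i))
    by_cases hx : D.a < ‖x‖
    · have h4 : 0 ≤ q1 (D.G x) u := by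
        by_cases hu : u = 0
        · subst hu
          simp [q1]
        · exact (hD.G_pos x hx u hu).le
      have h5 := mul_nonneg (hcn x) h4
      linarith
    · rw [hsmall x hx] at h3 ⊢
      linarith
  refine ⟨hsym, hpos, ?_⟩
  intro v x
  have h1 := hpos x (fun i => FE D.R (pd i D.etad) v x)
  unfold gs
  linarith

/-- CHUNK P4 (S/M). For `|x| ≥ 1` the cut-off is `1`; `gs >= eps^2` (`G_pos`, or zero), so `isq` is `1/sqrt`. -/
theorem p4_eq {D : OpData} (hD : D.Ok) (v : E3 → ℝ) {x : E3} (hx : 1 ≤ ‖x‖) :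
    (∀ i j, gG D i j x = D.G x i j) ∧ (∀ i j, ga D v i j x = D.aa v x i j) ∧ ∀ i, gb D v i x = D.bb v x i := by
  have hc : cut D.a x = 1 := (p3_cut hD.a_nonneg hD.a_lt).2.1 x hx
  have hG : ∀ i j, gG D i j x = D.G x i j := by
    intro i j
    unfold gG
    rw [hc]
    ring
  have he : 0 < D.eps ^ 2 := pow_pos hD.eps_pos 2
  have hgs : gs D v x = q1 (D.G x) (D.qd v x) + D.eps ^ 2 := by
    unfold gs q1
    simp only [hG]
    rfl
  have hn : ∀ i, gn D v i x = D.nn v x i := by
    intro i
    unfold gn OpData.nn OpData.Nd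
    rw [(p3_isq he).2 _ ((p4_pos hD).2.2 v x), ← hgs]
    simp only [hG]
    rw [mul_one_div]
    rfl
  have ha : ∀ i j, ga D v i j x = D.aa v x i j := by
    intro i j
    unfold ga OpData.aa
    rw [hG, hn, hn]
    rfl
  refine ⟨hG, ha, ?_⟩
  intro i
  unfold gb OpData.bb tr2 gGam gk
  simp only [ha, hn, hc, one_mul]

end UMB.Lin
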