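import Pool.Agent.Lib.UMB.Lin.P4

set_option autoImplicit false

/-! # UMB.Lin, chunk P5 (uniform bounds of the coefficients) -/

open scoped ContDiff BigOperators Topology
open Set MeasureTheory Filter Pool.Agent.Lib.PenroseSph

namespace UMB.Lin

theorem p5_gG {D : OpData} (hD : D.Ok) (i j : Fin 3) : ContDiff ℝ ∞ (gG D i j) := by
  have h1 := p3_glob hD.a_nonneg hD.a_lt (hD.G_smooth i j)
  have h2 : ContDiff ℝ ∞ (fun x : E3 => (1 - cut D.a x) * (if i = j then (1 : ℝ) else 0)) :=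
    (contDiff_const.sub (p3_cut hD.a_nonneg hD.a_lt).1).mul contDiff_const
  exact h1.add h2

theorem p5_gk {D : OpData} (hD : D.Ok) (i j : Fin 3) : ContDiff ℝ ∞ (gk D i j) :=
  p3_glob hD.a_nonneg hD.a_lt (hD.k_smooth i j)

theorem p5_gGam {D : OpData} (hD : D.Ok) (i k l : Fin 3) : ContDiff ℝ ∞ (gGam D i k l) :=
  p3_glob hD.a_nonneg hD.a_lt (hD.Gam_smooth i k l)

/-- CHUNK P5 (M). All coefficients are families with uniform bounds: `p3_glob`, `ub_const` for `gG, gk, gGam`; `p1_ub` with `p2_kernel`,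
`p2_pd` for the mollified functions; `ub_comp` with `isq` (`p3_isq`) and `p`; `ub_add`, `ub_mul`, `ub_neg`, `ub_sum`. -/
theorem p5_ub {D : OpData} (hD : D.Ok) :
    (∀ i j, UBf D.R (fun (v : {v : E3 → ℝ // K01 D.R v}) => ga D v.1 i j)) ∧
      ∀ i, UBf D.R (fun (v : {v : E3 → ℝ // K01 D.R v}) => gb D v.1 i) := by
  have hR := hD.one_lt_R
  have hv : UBf D.R (fun (v : {v : E3 → ℝ // K01 D.R v}) => FE D.R D.etad v.1) :=
    p1_ub hR (p2_kernel hD).1 (p2_kernel hD).2.1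
  have hq : ∀ i, UBf D.R (fun (v : {v : E3 → ℝ // K01 D.R v}) => FE D.R (pd i D.etad) v.1) :=
    fun i => p1_ub hR (p2_pd hD i).1 (p2_pd hD i).2
  have hG : ∀ i j, UBf D.R (fun (_ : {v : E3 → ℝ // K01 D.R v}) => gG D i j) :=
    fun i j => ub_const D.R (p5_gG hD i j)
  have hk : ∀ i j, UBf D.R (fun (_ : {v : E3 → ℝ // K01 D.R v}) => gk D i j) :=
    fun i j => ub_const D.R (p5_gk hD i j)
  have hGam : ∀ i k l, UBf D.R (fun (_ : {v : E3 → ℝ // K01 D.R v}) => gGam D i k l) :=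
    fun i k l => ub_const D.R (p5_gGam hD i k l)
  have he : 0 < D.eps ^ 2 := pow_pos hD.eps_pos 2
  have hs : UBf D.R (fun (v : {v : E3 → ℝ // K01 D.R v}) => gs D v.1) := by
    refine ub_add ?_ (ub_const D.R (contDiff_const (c := D.eps ^ 2)))
    exact ub_sum _ fun i _ => ub_sum _ fun j _ => ub_mul (ub_mul (hG i j) (hq i)) (hq j)
  have hi : UBf D.R (fun (v : {v : E3 → ℝ // K01 D.R v}) (x : E3) => isq (D.eps ^ 2) (gs D v.1 x)) :=
    ub_comp hs (p3_isq he).1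
  have hn : ∀ i, UBf D.R (fun (v : {v : E3 → ℝ // K01 D.R v}) => gn D v.1 i) := by
    intro i
    refine ub_mul ?_ hi
    exact ub_sum _ fun j _ => ub_mul (hG i j) (hq j)
  have hp : UBf D.R (fun (v : {v : E3 → ℝ // K01 D.R v}) (x : E3) =>
      D.p (FE D.R D.etad v.1 x) - 2) :=
    ub_comp (φ := fun t => D.p t - 2) hv (hD.p_smooth.sub contDiff_const)
  have ha : ∀ i j, UBf D.R (fun (v : {v : E3 → ℝ // K01 D.R v}) => ga D v.1 i j) := by
    intro i j
    exact ub_add (hG i j) (ub_mul (ub_mul hp (hn i)) (hn j))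
  refine ⟨ha, ?_⟩
  intro i
  refine ub_add (ub_neg ?_) (ub_mul ?_ (hn i))
  · exact ub_sum _ fun k _ => ub_sum _ fun l _ => ub_mul (ha k l) (hGam i k l)
  · exact ub_sum _ fun k _ => ub_sum _ fun l _ => ub_mul (ha k l) (hk k l)

end UMB.Lin
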