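import Pool.Agent.Lib.UMB.Lin.P1b
import Pool.Agent.Lib.UMB.Lin.P0c
import Pool.Agent.Lib.UMB.Lin.P2
import Pool.Agent.Lib.UMB.Lin.P3

set_option autoImplicit false

/-! # UMB.Lin: the coefficient map of `OpData`, made global by a cut-off (definitions) -/

open scoped ContDiff BigOperators Topology
open Set MeasureTheory Filter Pool.Agent.Lib.PenroseSph

namespace UMB.Lin

/-- Global version of `G`. -/
noncomputable def gG (D : OpData) (i j : Fin 3) (x : E3) : ℝ :=
  cut D.a x * D.G x i j + (1 - cut D.a x) * (if i = j then 1 else 0)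

/-- Global version of `k`. -/
noncomputable def gk (D : OpData) (i j : Fin 3) (x : E3) : ℝ := cut D.a x * D.k x i j

/-- Global version of `Gam`. -/
noncomputable def gGam (D : OpData) (i k l : Fin 3) (x : E3) : ℝ := cut D.a x * D.Gam i x k l

/-- `G(q,q) + eps²`. -/
noncomputable def gs (D : OpData) (v : E3 → ℝ) (x : E3) : ℝ :=
  (∑ i, ∑ j, gG D i j x * FE D.R (pd i D.etad) v x * FE D.R (pd j D.etad) v x) + D.eps ^ 2

/-- Global version of the vector `n`. -/
noncomputable def gn (D : OpData) (v : E3 → ℝ) (i : Fin 3) (x : E3) : ℝ :=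
  (∑ j, gG D i j x * FE D.R (pd j D.etad) v x) * isq (D.eps ^ 2) (gs D v x)

/-- Global version of the leading coefficients. -/
noncomputable def ga (D : OpData) (v : E3 → ℝ) (i j : Fin 3) (x : E3) : ℝ :=
  gG D i j x + (D.p (FE D.R D.etad v x) - 2) * gn D v i x * gn D v j x

/-- Global version of the drift. -/
noncomputable def gb (D : OpData) (v : E3 → ℝ) (i : Fin 3) (x : E3) : ℝ :=
  - (∑ k, ∑ l, ga D v k l x * gGam D i k l x) + (∑ k, ∑ l, ga D v k l x * gk D k l x) * gn D v i x

end UMB.Lin
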