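import Mathlib

/-! # UMB.Lin, chunk S1a: a one-dimensional inequality -/

open scoped ContDiff BigOperators
open Set MeasureTheory

namespace UMB.Lin

/-- With `φ(r) = (1 - r/δ)^3` and `h = φ f`:
`d/dr (r^2/2 h'' - r h' + h) = r^2/2 h'''`, all boundary terms at `δ` vanish (`φ = φ' = φ'' = 0`),
so `-f(0) = ∫_0^δ r^2/2 h'''`, and `|h'''| ≤ C (|f| + |f'| + |f''| + |f'''|)`, `C = C(δ)`. -/
theorem one_dim_sob {δ : ℝ} (hδ : 0 < δ) : ∃ C, 0 ≤ C ∧ ∀ f : ℝ → ℝ, ContDiff ℝ 3 f →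
    |f 0| ≤ C * ∫ r in (0 : ℝ)..δ, r ^ 2 * (|f r| + |deriv f r| + |deriv (deriv f) r|
      + |deriv (deriv (deriv f)) r|) := by
  have hδ' : 0 ≤ δ⁻¹ := inv_nonneg.mpr hδ.le
  refine ⟨1 + 9 * δ⁻¹ + 18 * δ⁻¹ ^ 2 + 6 * δ⁻¹ ^ 3, by positivity, ?_⟩
  intro f hf
  have hf1 : ContDiff ℝ 2 (deriv f) := by
    have h := (contDiff_succ_iff_deriv (n := 2) (f := f)).mp (by
      have h2 : ((2 : WithTop ℕ∞) + 1) = 3 := by norm_num
      rw [h2]; exact hf)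
    exact h.2.2
  have hf2 : ContDiff ℝ 1 (deriv (deriv f)) := by
    have h := (contDiff_succ_iff_deriv (n := 1) (f := deriv f)).mp (by
      have h2 : ((1 : WithTop ℕ∞) + 1) = 2 := by norm_num
      rw [h2]; exact hf1)
    exact h.2.2
  have hf3 : Continuous (deriv (deriv (deriv f))) := hf2.continuous_deriv le_rfl
  have d0 : ∀ r, HasDerivAt f (deriv f r) r := fun r =>
    ((hf.differentiable (by norm_num)) r).hasDerivAt
  have d1 : ∀ r, HasDerivAt (deriv f) (deriv (deriv f) r) r := fun r =>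
    ((hf1.differentiable (by norm_num)) r).hasDerivAt
  have d2 : ∀ r, HasDerivAt (deriv (deriv f)) (deriv (deriv (deriv f)) r) r := fun r =>
    ((hf2.differentiable (by norm_num)) r).hasDerivAt
  have c0 : Continuous f := hf.continuous
  have c1 : Continuous (deriv f) := hf1.continuous
  have c2 : Continuous (deriv (deriv f)) := hf2.continuous
  generalize deriv (deriv (deriv f)) = f3 at *
  generalize deriv (deriv f) = f2 at *
  generalize deriv f = f1 at *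
  -- the factor
  have dp : ∀ r, HasDerivAt (fun r : ℝ => 1 - r * δ⁻¹) (-δ⁻¹) r := by
    intro r
    have h := ((hasDerivAt_id r).mul_const δ⁻¹).const_sub 1
    simpa using h
  set h3 : ℝ → ℝ := fun r => (1 - r * δ⁻¹) ^ 3 * f3 r - 9 * δ⁻¹ * (1 - r * δ⁻¹) ^ 2 * f2 r
    + 18 * δ⁻¹ ^ 2 * (1 - r * δ⁻¹) * f1 r - 6 * δ⁻¹ ^ 3 * f r with hh3
  set G : ℝ → ℝ := fun r => r ^ 2 / 2 * ((1 - r * δ⁻¹) ^ 3 * f2 r
      - 6 * δ⁻¹ * ((1 - r * δ⁻¹) ^ 2 * f1 r) + 6 * δ⁻¹ ^ 2 * ((1 - r * δ⁻¹) * f r))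
    - r * ((1 - r * δ⁻¹) ^ 3 * f1 r - 3 * δ⁻¹ * ((1 - r * δ⁻¹) ^ 2 * f r))
    + (1 - r * δ⁻¹) ^ 3 * f r with hG
  have hGd : ∀ r, HasDerivAt G (r ^ 2 / 2 * h3 r) r := by
    intro r
    have hp := dp r
    have hp2 := hp.pow 2
    have hp3 := hp.pow 3
    have hr := hasDerivAt_id' r
    have hr2 := (hr.pow 2).div_const 2
    have A := ((hp3.mul (d2 r)).sub ((hp2.mul (d1 r)).const_mul (6 * δ⁻¹))).add
      ((hp.mul (d0 r)).const_mul (6 * δ⁻¹ ^ 2))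
    have B := (hp3.mul (d1 r)).sub ((hp2.mul (d0 r)).const_mul (3 * δ⁻¹))
    have D := ((hr2.mul A).sub (hr.mul B)).add (hp3.mul (d0 r))
    have D' := HasDerivAt.congr_deriv (f := G) D rfl
    refine HasDerivAt.congr_deriv D' ?_
    simp only [hh3, Pi.add_apply, Pi.sub_apply, Pi.mul_apply, Pi.pow_apply]
    push_cast
    ring
  have c3 : Continuous h3 := by
    rw [hh3]; fun_prop
  have hint : ∫ r in (0 : ℝ)..δ, r ^ 2 / 2 * h3 r = G δ - G 0 :=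
    intervalIntegral.integral_eq_sub_of_hasDerivAt (fun r _ => hGd r)
      ((by fun_prop : Continuous fun r : ℝ => r ^ 2 / 2 * h3 r).intervalIntegrable _ _)
  have hGδ : G δ = 0 := by
    have : (1 : ℝ) - δ * δ⁻¹ = 0 := by rw [mul_inv_cancel₀ hδ.ne']; ring
    simp only [hG, this]; ring
  have hG0 : G 0 = f 0 := by simp only [hG]; ring
  rw [hGδ, hG0] at hint
  have habs : |f 0| = |∫ r in (0 : ℝ)..δ, r ^ 2 / 2 * h3 r| := by
    rw [hint, zero_sub, abs_neg]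
  rw [habs, ← intervalIntegral.integral_const_mul]
  refine (intervalIntegral.abs_integral_le_integral_abs hδ.le).trans ?_
  refine intervalIntegral.integral_mono_on hδ.le
    ((by fun_prop : Continuous fun r : ℝ => |r ^ 2 / 2 * h3 r|).intervalIntegrable _ _)
    ((by fun_prop : Continuous fun r : ℝ => (1 + 9 * δ⁻¹ + 18 * δ⁻¹ ^ 2 + 6 * δ⁻¹ ^ 3) *
      (r ^ 2 * (|f r| + |f1 r| + |f2 r| + |f3 r|))).intervalIntegrable _ _) ?_
  intro r hr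
  have hp0 : 0 ≤ 1 - r * δ⁻¹ := by
    have : r * δ⁻¹ ≤ δ * δ⁻¹ := mul_le_mul_of_nonneg_right hr.2 hδ'
    rw [mul_inv_cancel₀ hδ.ne'] at this; linarith
  have hp1 : 1 - r * δ⁻¹ ≤ 1 := by
    have : 0 ≤ r * δ⁻¹ := mul_nonneg hr.1 hδ'
    linarith
  have hq2 : (1 - r * δ⁻¹) ^ 2 ≤ 1 := pow_le_one₀ hp0 hp1
  have hq3 : (1 - r * δ⁻¹) ^ 3 ≤ 1 := pow_le_one₀ hp0 hp1
  have hb : |h3 r| ≤ (1 + 9 * δ⁻¹ + 18 * δ⁻¹ ^ 2 + 6 * δ⁻¹ ^ 3) *
      (|f r| + |f1 r| + |f2 r| + |f3 r|) := by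
    have e3 : |(1 - r * δ⁻¹) ^ 3 * f3 r| ≤ |f3 r| := by
      rw [abs_mul, abs_of_nonneg (pow_nonneg hp0 3)]
      exact mul_le_of_le_one_left (abs_nonneg _) hq3
    have e2 : |9 * δ⁻¹ * (1 - r * δ⁻¹) ^ 2 * f2 r| ≤ 9 * δ⁻¹ * |f2 r| := by
      rw [abs_mul, abs_of_nonneg (by positivity : 0 ≤ 9 * δ⁻¹ * (1 - r * δ⁻¹) ^ 2)]
      refine mul_le_mul_of_nonneg_right ?_ (abs_nonneg _)
      exact mul_le_of_le_one_right (by positivity) hq2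
    have e1 : |18 * δ⁻¹ ^ 2 * (1 - r * δ⁻¹) * f1 r| ≤ 18 * δ⁻¹ ^ 2 * |f1 r| := by
      rw [abs_mul, abs_of_nonneg (mul_nonneg (by positivity) hp0)]
      refine mul_le_mul_of_nonneg_right ?_ (abs_nonneg _)
      exact mul_le_of_le_one_right (by positivity) hp1
    have e0 : |6 * δ⁻¹ ^ 3 * f r| ≤ 6 * δ⁻¹ ^ 3 * |f r| := by
      rw [abs_mul, abs_of_nonneg (by positivity : 0 ≤ 6 * δ⁻¹ ^ 3)]
    have ht : |h3 r| ≤ |(1 - r * δ⁻¹) ^ 3 * f3 r| + |9 * δ⁻¹ * (1 - r * δ⁻¹) ^ 2 * f2 r|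
        + |18 * δ⁻¹ ^ 2 * (1 - r * δ⁻¹) * f1 r| + |6 * δ⁻¹ ^ 3 * f r| := by
      simp only [hh3]
      refine (abs_sub _ _).trans ?_
      refine add_le_add ?_ le_rfl
      refine (abs_add_le _ _).trans ?_
      refine add_le_add ?_ le_rfl
      exact abs_sub _ _
    have p1 : 0 ≤ δ⁻¹ ^ 2 := by positivity
    have p2 : 0 ≤ δ⁻¹ ^ 3 := by positivity
    nlinarith [abs_nonneg (f r), abs_nonneg (f1 r), abs_nonneg (f2 r), abs_nonneg (f3 r),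
      mul_nonneg hδ' (abs_nonneg (f r)), mul_nonneg hδ' (abs_nonneg (f1 r)),
      mul_nonneg hδ' (abs_nonneg (f2 r)), mul_nonneg hδ' (abs_nonneg (f3 r)),
      mul_nonneg p1 (abs_nonneg (f r)), mul_nonneg p1 (abs_nonneg (f1 r)),
      mul_nonneg p1 (abs_nonneg (f2 r)), mul_nonneg p1 (abs_nonneg (f3 r)),
      mul_nonneg p2 (abs_nonneg (f r)), mul_nonneg p2 (abs_nonneg (f1 r)),
      mul_nonneg p2 (abs_nonneg (f2 r)), mul_nonneg p2 (abs_nonneg (f3 r))]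
  have hr2 : 0 ≤ r ^ 2 := sq_nonneg r
  calc |r ^ 2 / 2 * h3 r| = r ^ 2 / 2 * |h3 r| := by
        rw [abs_mul, abs_of_nonneg (by positivity)]
    _ ≤ r ^ 2 * |h3 r| := by
        refine mul_le_mul_of_nonneg_right (by linarith) (abs_nonneg _)
    _ ≤ r ^ 2 * ((1 + 9 * δ⁻¹ + 18 * δ⁻¹ ^ 2 + 6 * δ⁻¹ ^ 3) *
      (|f r| + |f1 r| + |f2 r| + |f3 r|)) := mul_le_mul_of_nonneg_left hb hr2
    _ = _ := by ring

end UMB.Lin
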