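import Pool.Agent.Lib.UMB.Lin.G5
import Pool.Agent.Lib.UMB.Lin.G1

/-! # UMB.Lin, chunk S1b: cones inside the annulus -/

open scoped ContDiff BigOperators
open Set MeasureTheory Pool.Agent.Lib.PenroseSph

namespace UMB.Lin

/-- the length of the cones -/
noncomputable def dl (R : ℝ) : ℝ := min ((R - 1) / 2) (1 / 2)

/-- directions of a cone -/
def Dir (e : E3) : Set (Metric.sphere (0 : E3) 1) := {n | 1 / 2 ≤ inner ℝ (n : E3) e}

/-- For `|x| ≤ (1+R)/2` take `e = x/|x|`, else `e = -x/|x|`; with `c = ⟨n, e⟩ ≥ 1/2`,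
`|x + r n|^2 = |x|^2 ± 2 r |x| c + r^2`. -/
theorem cone_sub {R : ℝ} (hR : 1 < R) {x : E3} (hx : x ∈ cAnn R) :
    ∃ e : E3, ‖e‖ = 1 ∧ ∀ n ∈ Dir e, ∀ r : ℝ, 0 < r → r < dl R → x + r • (n : E3) ∈ Ann R := by
  obtain ⟨hx1, hx2⟩ := hx
  have hx0 : 0 < ‖x‖ := by linarith
  have hnn : ∀ n : Metric.sphere (0 : E3) 1, ‖(n : E3)‖ = 1 := fun n => by
    have := n.2
    rwa [mem_sphere_zero_iff_norm] at this
  have hsq : ∀ (n : Metric.sphere (0 : E3) 1) (r : ℝ),
      ‖x + r • (n : E3)‖ ^ 2 = ‖x‖ ^ 2 + 2 * r * inner ℝ x (n : E3) + r ^ 2 := by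
    intro n r
    rw [norm_add_sq_real, inner_smul_right, norm_smul, hnn n, Real.norm_eq_abs, mul_one, sq_abs]
    ring
  have hdl1 : dl R ≤ (R - 1) / 2 := min_le_left _ _
  have hdl2 : dl R ≤ 1 / 2 := min_le_right _ _
  rcases le_or_gt ‖x‖ ((1 + R) / 2) with hle | hgt
  · refine ⟨(1 / ‖x‖) • x, ?_, ?_⟩
    · rw [norm_smul, norm_div, norm_one, norm_norm, one_div, inv_mul_cancel₀ hx0.ne']
    · intro n hn r hr0 hr
      have hn' : 1 / 2 ≤ inner ℝ (n : E3) ((1 / ‖x‖) • x) := hn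
      rw [inner_smul_right, real_inner_comm] at hn'
      have hin : ‖x‖ / 2 ≤ inner ℝ x (n : E3) := by
        have h1 := mul_le_mul_of_nonneg_left hn' hx0.le
        rw [← mul_assoc, mul_one_div_cancel hx0.ne', one_mul] at h1
        linarith
      constructor
      · have h1 : 1 < ‖x + r • (n : E3)‖ ^ 2 := by
          rw [hsq n r]
          nlinarith
        by_contra hcon
        push Not at hcon
        have h2 : ‖x + r • (n : E3)‖ ^ 2 ≤ 1 ^ 2 := pow_le_pow_left₀ (norm_nonneg _) hcon 2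
        linarith
      · calc ‖x + r • (n : E3)‖ ≤ ‖x‖ + ‖r • (n : E3)‖ := norm_add_le _ _
          _ = ‖x‖ + r := by rw [norm_smul, hnn n, mul_one, Real.norm_of_nonneg hr0.le]
          _ < R := by linarith
  · refine ⟨(-(1 / ‖x‖)) • x, ?_, ?_⟩
    · rw [norm_smul, norm_neg, norm_div, norm_one, norm_norm, one_div, inv_mul_cancel₀ hx0.ne']
    · intro n hn r hr0 hr
      have hn' : 1 / 2 ≤ inner ℝ (n : E3) ((-(1 / ‖x‖)) • x) := hn
      rw [inner_smul_right, real_inner_comm] at hn'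
      have hin : inner ℝ x (n : E3) ≤ -(‖x‖ / 2) := by
        have h1 := mul_le_mul_of_nonneg_left hn' hx0.le
        have h2 : ‖x‖ * (-(1 / ‖x‖) * inner ℝ x (n : E3)) = -inner ℝ x (n : E3) := by
          field_simp
        rw [h2] at h1
        linarith
      constructor
      · have h1 : ‖x‖ ≤ ‖x + r • (n : E3)‖ + ‖r • (n : E3)‖ := by
          calc ‖x‖ = ‖(x + r • (n : E3)) - r • (n : E3)‖ := by rw [add_sub_cancel_right]
            _ ≤ _ := norm_sub_le _ _
        rw [norm_smul, hnn n, mul_one, Real.norm_of_nonneg hr0.le] at h1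
        linarith
      · have h1 : ‖x + r • (n : E3)‖ ^ 2 < R ^ 2 := by
          rw [hsq n r]
          nlinarith
        exact lt_of_pow_lt_pow_left₀ 2 (by linarith) h1

end UMB.Lin
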