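import Mathlib

/-! # UMB.Lin, chunk X1: reflection coefficients -/

open scoped BigOperators

namespace UMB.Lin

/-- Vandermonde system with distinct nodes `-1/(j+1)` (`Matrix.det_vandermonde_ne_zero_iff`). -/
theorem refl_coef (m : ℕ) : ∃ c : Fin (m + 1) → ℝ, ∀ i ≤ m,
    ∑ j : Fin (m + 1), c j * (-(1 / ((j : ℝ) + 1))) ^ i = 1 := by
  let v : Fin (m + 1) → ℝ := fun j => -(1 / ((j : ℝ) + 1))
  have hinj : Function.Injective v := by
    intro a b hab
    have h1 : (1 : ℝ) / ((a : ℝ) + 1) = 1 / ((b : ℝ) + 1) := by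
      have := hab; simp only [v] at this; linarith
    have ha : (0 : ℝ) < (a : ℝ) + 1 := by positivity
    have hb : (0 : ℝ) < (b : ℝ) + 1 := by positivity
    rw [div_eq_div_iff ha.ne' hb.ne'] at h1
    have h2 : ((a : ℕ) : ℝ) = ((b : ℕ) : ℝ) := by linarith
    exact Fin.ext (by exact_mod_cast h2)
  have hdet : (Matrix.vandermonde v).det ≠ 0 := Matrix.det_vandermonde_ne_zero_iff.2 hinj
  have hu : IsUnit (Matrix.vandermonde v).det := isUnit_iff_ne_zero.2 hdet
  refine ⟨Matrix.vecMul (fun _ => 1) (Matrix.vandermonde v)⁻¹, fun i hi => ?_⟩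
  have h : Matrix.vecMul (Matrix.vecMul (fun _ => (1 : ℝ)) (Matrix.vandermonde v)⁻¹)
      (Matrix.vandermonde v) = fun _ => 1 := by
    rw [Matrix.vecMul_vecMul, Matrix.nonsing_inv_mul _ hu, Matrix.vecMul_one]
  have h2 := congrFun h ⟨i, Nat.lt_succ_of_le hi⟩
  simpa [Matrix.vecMul, dotProduct, Matrix.vandermonde_apply, v] using h2

end UMB.Lin
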