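import Pool.Agent.Lib.UMB.Lin.G4

/-! # UMB.Lin, chunk X2: the radial reflections -/

open scoped ContDiff BigOperators
open Set MeasureTheory Pool.Agent.Lib.PenroseSph

namespace UMB.Lin

/-- reflection in the sphere of radius `ρ`: `ρ e^s ω ↦ ρ e^{-lam s} ω` -/
noncomputable def rf (ρ lam : ℝ) (x : E3) : E3 := ((‖x‖ / ρ) ^ (-1 - lam)) • x

theorem norm_rf {ρ : ℝ} (hρ : 0 < ρ) (lam : ℝ) {x : E3} (hx : x ≠ 0) :
    ‖rf ρ lam x‖ = ρ * (‖x‖ / ρ) ^ (-lam) := by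
  have hx0 : 0 < ‖x‖ := norm_pos_iff.2 hx
  have ht : 0 < ‖x‖ / ρ := div_pos hx0 hρ
  unfold rf
  rw [norm_smul, Real.norm_eq_abs, abs_of_pos (Real.rpow_pos_of_pos ht _)]
  have h1 : ‖x‖ = ρ * (‖x‖ / ρ) := by field_simp
  have h2 : (‖x‖ / ρ) ^ (-lam) = (‖x‖ / ρ) ^ (-1 - lam) * (‖x‖ / ρ) := by
    rw [← Real.rpow_add_one ht.ne']
    ring_nf
  rw [h2]
  nth_rewrite 2 [h1]
  ring

theorem rf_sphere {ρ : ℝ} (hρ : 0 < ρ) (lam : ℝ) {x : E3} (hx : ‖x‖ = ρ) : rf ρ lam x = x := by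
  unfold rf
  rw [hx, div_self hρ.ne', Real.one_rpow, one_smul]

theorem x2_contDiffAt_factor {ρ : ℝ} (hρ : 0 < ρ) (lam : ℝ) {x : E3} (hx : x ≠ 0) :
    ContDiffAt ℝ ∞ (fun y : E3 => (‖y‖ / ρ) ^ (-1 - lam)) x := by
  have hx0 : 0 < ‖x‖ := norm_pos_iff.2 hx
  have h1 : ContDiffAt ℝ ∞ (fun y : E3 => ‖y‖ / ρ) x := (contDiffAt_norm ℝ hx).div_const ρ
  exact h1.rpow_const_of_ne (div_pos hx0 hρ).ne'

theorem contDiffAt_rf {ρ : ℝ} (hρ : 0 < ρ) (lam : ℝ) {x : E3} (hx : x ≠ 0) :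
    ContDiffAt ℝ ∞ (rf ρ lam) x := by
  exact (x2_contDiffAt_factor hρ lam hx).smul contDiffAt_id

theorem x2_rot_inner (i : Fin 3) (x : E3) : inner ℝ x (rotL i x) = 0 := by
  fin_cases i <;>
  · simp [rotL, PiLp.inner_apply, Fin.sum_univ_three]
    try ring

theorem x2_hasFDerivAt_rf {ρ : ℝ} (hρ : 0 < ρ) (lam : ℝ) {x : E3} (hx : x ≠ 0) :
    HasFDerivAt (rf ρ lam) (fderiv ℝ (rf ρ lam) x) x :=
  ((contDiffAt_rf hρ lam hx).differentiableAt (by simp)).hasFDerivAt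

theorem x2_fderiv_rf_self {ρ : ℝ} (hρ : 0 < ρ) (lam : ℝ) {x : E3} (hx : x ≠ 0) :
    fderiv ℝ (rf ρ lam) x x = -lam • rf ρ lam x := by
  have h1 : HasDerivAt (fun s : ℝ => s • x) x 1 := by
    have := (hasDerivAt_id (1 : ℝ)).smul_const x
    simpa using this
  have hA : HasFDerivAt (rf ρ lam) (fderiv ℝ (rf ρ lam) x) ((1 : ℝ) • x) := by
    rw [one_smul]
    exact x2_hasFDerivAt_rf hρ lam hx
  have h2 : HasDerivAt (fun s : ℝ => rf ρ lam (s • x)) (fderiv ℝ (rf ρ lam) x x) 1 := by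
    have := HasFDerivAt.comp_hasDerivAt (f := fun s : ℝ => s • x) (1 : ℝ) hA h1
    exact this
  have h3 : HasDerivAt (fun s : ℝ => (s ^ (-lam)) • rf ρ lam x) (-lam • rf ρ lam x) 1 := by
    have h4 : HasDerivAt (fun s : ℝ => s ^ (-lam)) (-lam * (1 : ℝ) ^ (-lam - 1)) 1 :=
      Real.hasDerivAt_rpow_const (Or.inl one_ne_zero)
    rw [Real.one_rpow, mul_one] at h4
    exact h4.smul_const (rf ρ lam x)
  have h5 : (fun s : ℝ => rf ρ lam (s • x)) =ᶠ[nhds 1] fun s : ℝ => (s ^ (-lam)) • rf ρ lam x := by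
    filter_upwards [isOpen_Ioi.mem_nhds (show (1 : ℝ) ∈ Ioi (0 : ℝ) from mem_Ioi.2 one_pos)] with s hs
    have hs0 : (0 : ℝ) < s := hs
    have hx0 : 0 < ‖x‖ := norm_pos_iff.2 hx
    unfold rf
    rw [norm_smul, Real.norm_eq_abs, abs_of_pos hs0, mul_div_assoc,
      Real.mul_rpow hs0.le (div_pos hx0 hρ).le, smul_smul, smul_smul]
    have h6 : s ^ (-lam) = s ^ (-1 - lam) * s := by
      rw [← Real.rpow_add_one hs0.ne']
      ring_nf
    rw [h6]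
    ring_nf
  exact (h2.congr_of_eventuallyEq h5.symm).unique h3

theorem x2_fderiv_rf_rot {ρ : ℝ} (hρ : 0 < ρ) (lam : ℝ) {x : E3} (hx : x ≠ 0) {w : E3}
    (hw : inner ℝ x w = 0) :
    fderiv ℝ (rf ρ lam) x w = ((‖x‖ / ρ) ^ (-1 - lam)) • w := by
  have hx0 : 0 < ‖x‖ := norm_pos_iff.2 hx
  have hf : DifferentiableAt ℝ (fun y : E3 => (‖y‖ / ρ) ^ (-1 - lam)) x :=
    (x2_contDiffAt_factor hρ lam hx).differentiableAt (by simp)
  have h1 : HasFDerivAt (rf ρ lam) _ x := hf.hasFDerivAt.smul (hasFDerivAt_id x)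
  have hz : fderiv ℝ (fun y : E3 => (‖y‖ / ρ) ^ (-1 - lam)) x w = 0 := by
    have h2 : HasFDerivAt (fun y : E3 => ‖y‖ ^ 2) (2 • innerSL ℝ x) x := by
      have := (hasStrictFDerivAt_norm_sq x).hasFDerivAt
      exact this
    have hpos : (0 : ℝ) < ‖x‖ ^ 2 := by positivity
    have h3 : DifferentiableAt ℝ (fun s : ℝ => (Real.sqrt s / ρ) ^ (-1 - lam)) (‖x‖ ^ 2) := by
      have h4 : DifferentiableAt ℝ (fun s : ℝ => Real.sqrt s / ρ) (‖x‖ ^ 2) :=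
        (Real.hasDerivAt_sqrt hpos.ne').differentiableAt.div_const ρ
      refine h4.rpow_const (Or.inl ?_)
      rw [Real.sqrt_sq hx0.le]
      exact (div_pos hx0 hρ).ne'
    have h5 := h3.hasFDerivAt.comp x h2
    have h6 : ((fun s : ℝ => (Real.sqrt s / ρ) ^ (-1 - lam)) ∘ fun y : E3 => ‖y‖ ^ 2)
        = fun y : E3 => (‖y‖ / ρ) ^ (-1 - lam) := by
      funext y
      simp only [Function.comp]
      rw [Real.sqrt_sq (norm_nonneg y)]
    rw [h6] at h5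
    rw [h5.fderiv]
    simp [hw]
  rw [h1.fderiv]
  simp [hz]

/-- `rf (t x) = t^{-lam} rf x` -/
theorem Z_rf_zero {ρ : ℝ} (hρ : 0 < ρ) (lam : ℝ) {x : E3} (hx : x ≠ 0) {v : E3 → ℝ}
    (hv : DifferentiableAt ℝ v (rf ρ lam x)) :
    Z 0 (fun y => v (rf ρ lam y)) x = -lam * Z 0 v (rf ρ lam x) := by
  have h1 : HasFDerivAt (fun y => v (rf ρ lam y)) _ x :=
    hv.hasFDerivAt.comp x (x2_hasFDerivAt_rf hρ lam hx)
  unfold Z
  rw [h1.fderiv]
  change fderiv ℝ v (rf ρ lam x) (fderiv ℝ (rf ρ lam) x x)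
    = -lam * fderiv ℝ v (rf ρ lam x) (rf ρ lam x)
  rw [x2_fderiv_rf_self hρ lam hx, map_smul, smul_eq_mul]

/-- the factor `(|x|/ρ)^{-1-lam}` has rotation derivative zero -/
theorem Z_rf_succ {ρ : ℝ} (hρ : 0 < ρ) (lam : ℝ) {x : E3} (hx : x ≠ 0) {v : E3 → ℝ}
    (hv : DifferentiableAt ℝ v (rf ρ lam x)) (i : Fin 3) :
    Z i.succ (fun y => v (rf ρ lam y)) x = Z i.succ v (rf ρ lam x) := by
  have h1 : HasFDerivAt (fun y => v (rf ρ lam y)) _ x :=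
    hv.hasFDerivAt.comp x (x2_hasFDerivAt_rf hρ lam hx)
  have hZ : ∀ y : E3, Zm i.succ y = rotL i y := by
    intro y
    fin_cases i <;> rfl
  unfold Z
  rw [h1.fderiv, hZ, hZ]
  change fderiv ℝ v (rf ρ lam x) (fderiv ℝ (rf ρ lam) x (rotL i x)) = _
  rw [x2_fderiv_rf_rot hρ lam hx (x2_rot_inner i x)]
  unfold rf
  rw [map_smul (rotL i)]

/-- all words, by induction (the set `x ≠ 0` is open, `Z_congr`) -/
theorem Zw_rf {ρ : ℝ} (hρ : 0 < ρ) (lam : ℝ) {v : E3 → ℝ} (hv : ContDiff ℝ ∞ v)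
    (w : List (Fin 4)) {x : E3} (hx : x ≠ 0) :
    Zw w (fun y => v (rf ρ lam y)) x = (-lam) ^ (w.count 0) * Zw w v (rf ρ lam x) := by
  induction w generalizing x with
  | nil => simp [Zw]
  | cons a w ih =>
    have hU : IsOpen {x : E3 | x ≠ 0} := isOpen_ne
    have h1 := Z_congr a hU (u := Zw w (fun y => v (rf ρ lam y)))
      (v := fun y => (-lam) ^ (w.count 0) * Zw w v (rf ρ lam y)) (fun y hy => ih hy) x hx
    change Z a (Zw w (fun y => v (rf ρ lam y))) x = _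
    rw [h1]
    have hd : DifferentiableAt ℝ (Zw w v) (rf ρ lam x) :=
      (contDiff_Zw w hv).differentiable (by simp) _
    have hd2 : DifferentiableAt ℝ (fun y => Zw w v (rf ρ lam y)) x :=
      hd.comp x (x2_hasFDerivAt_rf hρ lam hx).differentiableAt
    rw [Z_const_mul a _ hd2]
    change _ = _ * Z a (Zw w v) (rf ρ lam x)
    refine Fin.cases ?_ ?_ a
    · rw [Z_rf_zero hρ lam hx hd, List.count_cons_self, pow_succ]
      ring
    · intro i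
      rw [Z_rf_succ hρ lam hx hd i, List.count_cons_of_ne (Fin.succ_ne_zero i)]

end UMB.Lin
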