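import Pool.Agent.Lib.UMB.Lin.Defs

/-! # UMB.Lin, chunk X4: cutting a function along a sphere on which it vanishes to high order -/

open scoped ContDiff BigOperators
open Set MeasureTheory Pool.Agent.Lib.PenroseSph

namespace UMB.Lin

theorem x4_hasFDerivAt {F : Type*} [NormedAddCommGroup F] [NormedSpace ℝ F] {ρ : ℝ}
    {D : E3 → F} (hD : Differentiable ℝ D)
    (h0 : ∀ x, ‖x‖ = ρ → D x = 0) (h1 : ∀ x, ‖x‖ = ρ → fderiv ℝ D x = 0) (x : E3) :
    HasFDerivAt (Set.indicator {x | ρ ≤ ‖x‖} D)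
      (Set.indicator {x | ρ ≤ ‖x‖} (fderiv ℝ D) x) x := by
  rcases lt_trichotomy ‖x‖ ρ with hx | hx | hx
  · have hn : x ∉ {x : E3 | ρ ≤ ‖x‖} := by
      simp only [mem_setOf_eq, not_le]
      exact hx
    rw [indicator_of_notMem hn]
    have he : (Set.indicator {x : E3 | ρ ≤ ‖x‖} D) =ᶠ[nhds x] fun _ => (0 : F) := by
      filter_upwards [(isOpen_lt continuous_norm continuous_const).mem_nhds
        (show x ∈ {y : E3 | ‖y‖ < ρ} from hx)] with y hy
      rw [indicator_of_notMem]
      simp only [mem_setOf_eq, not_le]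
      exact hy
    exact (hasFDerivAt_const (0 : F) x).congr_of_eventuallyEq he
  · have hm : x ∈ {x : E3 | ρ ≤ ‖x‖} := hx.ge
    rw [indicator_of_mem hm, h1 x hx]
    have h2 : HasFDerivAt D (0 : E3 →L[ℝ] F) x := by
      have := (hD x).hasFDerivAt
      rw [h1 x hx] at this
      exact this
    rw [hasFDerivAt_iff_isLittleO] at h2 ⊢
    refine Asymptotics.IsBigO.trans_isLittleO ?_ h2
    refine Asymptotics.isBigO_of_le _ ?_
    intro y
    rw [indicator_of_mem hm, h0 x hx]
    simp only [sub_zero, ContinuousLinearMap.zero_apply]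
    exact norm_indicator_le_norm_self D y
  · have hm : x ∈ {x : E3 | ρ ≤ ‖x‖} := hx.le
    rw [indicator_of_mem hm]
    have he : (Set.indicator {x : E3 | ρ ≤ ‖x‖} D) =ᶠ[nhds x] D := by
      filter_upwards [(isOpen_lt continuous_const continuous_norm).mem_nhds
        (show x ∈ {y : E3 | ρ < ‖y‖} from hx)] with y hy
      rw [indicator_of_mem]
      exact (show ρ < ‖y‖ from hy).le
    exact (hD x).hasFDerivAt.congr_of_eventuallyEq he

theorem x4_main (m : ℕ) {ρ : ℝ} : ∀ {F : Type _} [NormedAddCommGroup F] [NormedSpace ℝ F]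
    {D : E3 → F} (_ : ContDiff ℝ ∞ D)
    (_ : ∀ j ≤ m, ∀ x, ‖x‖ = ρ → iteratedFDeriv ℝ j D x = 0),
    ContDiff ℝ m (Set.indicator {x | ρ ≤ ‖x‖} D) := by
  induction m with
  | zero =>
    intro F _ _ D hD h0
    rw [Nat.cast_zero, contDiff_zero]
    refine continuous_indicator ?_ hD.continuous.continuousOn
    intro a ha
    have h1 : ‖a‖ = ρ := by
      have h2 := frontier_le_subset_eq (continuous_const (y := ρ)) continuous_norm ha
      exact h2.symm
    have h2 := h0 0 le_rfl a h1
    have h3 : ‖iteratedFDeriv ℝ 0 D a‖ = 0 := by rw [h2, norm_zero]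
    rw [norm_iteratedFDeriv_zero] at h3
    exact norm_eq_zero.1 h3
  | succ m ih =>
    intro F _ _ D hD h0
    have hz : ∀ x, ‖x‖ = ρ → D x = 0 := by
      intro x hx
      have h2 := h0 0 (Nat.zero_le _) x hx
      have h3 : ‖iteratedFDeriv ℝ 0 D x‖ = 0 := by rw [h2, norm_zero]
      rw [norm_iteratedFDeriv_zero] at h3
      exact norm_eq_zero.1 h3
    have hz1 : ∀ x, ‖x‖ = ρ → fderiv ℝ D x = 0 := by
      intro x hx
      have h2 := h0 1 (by omega) x hx
      have h3 : ‖iteratedFDeriv ℝ 1 D x‖ = 0 := by rw [h2, norm_zero]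
      rw [norm_iteratedFDeriv_one] at h3
      exact norm_eq_zero.1 h3
    have hF := x4_hasFDerivAt (ρ := ρ) (hD.differentiable (by simp)) hz hz1
    have hE : fderiv ℝ (Set.indicator {x | ρ ≤ ‖x‖} D)
        = Set.indicator {x | ρ ≤ ‖x‖} (fderiv ℝ D) := by
      funext x
      exact (hF x).fderiv
    rw [Nat.cast_succ, contDiff_succ_iff_fderiv]
    refine ⟨fun x => (hF x).differentiableAt, by simp, ?_⟩
    rw [hE]
    refine ih (hD.fderiv_right (by simp)) ?_
    intro j hj x hx
    have h2 := h0 (j + 1) (by omega) x hx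
    have h3 := norm_iteratedFDeriv_fderiv (𝕜 := ℝ) (f := D) (n := j) (x := x)
    rw [h2, norm_zero] at h3
    exact norm_eq_zero.1 h3

/-- Induction on `m` for all `D` with values in any normed space: at a point of the sphere the
indicator function has derivative `0` (`D = o(|y - x|)` since `D` and `fderiv D` vanish at `x`; for
`m = 0` continuity), off the sphere it is locally `D` or `0`; so `fderiv (indicator D) = indicator (fderiv D)`
and `fderiv D` vanishes to order `m - 1`. -/
theorem contDiff_cut {F : Type*} [NormedAddCommGroup F] [NormedSpace ℝ F] (m : ℕ) {ρ : ℝ}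
    (hρ : 0 < ρ) {D : E3 → F} (hD : ContDiff ℝ ∞ D)
    (h0 : ∀ j ≤ m, ∀ x, ‖x‖ = ρ → iteratedFDeriv ℝ j D x = 0) :
    ContDiff ℝ m (Set.indicator {x | ρ ≤ ‖x‖} D) := by
  exact x4_main m hD h0

end UMB.Lin
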