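import Pool.Agent.Lib.UMB.Lin.N6

/-! # UMB.Lin, chunk X5: iterated derivatives from words in the frame, pointwise -/

open scoped ContDiff BigOperators
open Set MeasureTheory Pool.Agent.Lib.PenroseSph

namespace UMB.Lin

/-- derivatives of a smooth function are bounded on balls -/
theorem x5_bdd {G : Type*} [NormedAddCommGroup G] [NormedSpace ℝ G] (m : ℕ) (R1 : ℝ) {F : E3 → G}
    (hF : ContDiff ℝ ∞ F) :
    ∃ B, 0 ≤ B ∧ ∀ l ≤ m, ∀ x : E3, ‖x‖ ≤ R1 → ‖iteratedFDeriv ℝ l F x‖ ≤ B := by
  have h1 : ∀ l : ℕ, ∃ b : ℝ, ∀ x : E3, ‖x‖ ≤ R1 → ‖iteratedFDeriv ℝ l F x‖ ≤ b := by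
    intro l
    have hc : Continuous (iteratedFDeriv ℝ l F) :=
      hF.continuous_iteratedFDeriv (m := l) (by exact_mod_cast le_top)
    obtain ⟨b, hb⟩ := (isCompact_closedBall (0 : E3) R1).exists_bound_of_continuousOn
      hc.continuousOn
    exact ⟨b, fun x hx => hb x (by simpa using hx)⟩
  choose b hb using h1
  refine ⟨∑ l ∈ Finset.range (m + 1), |b l|, Finset.sum_nonneg fun _ _ => abs_nonneg _, ?_⟩
  intro l hl x hx
  calc ‖iteratedFDeriv ℝ l F x‖ ≤ b l := hb l x hx
    _ ≤ |b l| := le_abs_self _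
    _ ≤ _ := Finset.single_le_sum (f := fun l => |b l|) (fun _ _ => abs_nonneg _)
        (Finset.mem_range.mpr (by omega))

/-- a smooth function which is `1/t` for `t ≥ a` -/
theorem x5_inv {a : ℝ} (ha : 0 < a) : ∃ h : ℝ → ℝ, ContDiff ℝ ∞ h ∧ ∀ t, a ≤ t → h t = 1 / t := by
  refine ⟨fun t => Real.smoothTransition ((t - a / 2) / (a / 2)) / t, ?_, ?_⟩
  · rw [contDiff_iff_contDiffAt]
    intro t
    rcases lt_or_ge t (a / 2) with ht | ht
    · have hev : (fun t => Real.smoothTransition ((t - a / 2) / (a / 2)) / t) =ᶠ[nhds t] fun _ => 0 := by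
        filter_upwards [Iio_mem_nhds ht] with u hu
        rw [Real.smoothTransition.zero_of_nonpos, zero_div]
        apply div_nonpos_of_nonpos_of_nonneg
        · have : u < a / 2 := hu
          linarith
        · linarith
      exact contDiffAt_const.congr_of_eventuallyEq hev
    · apply ContDiffAt.div
      · have hs : ContDiff ℝ ∞ Real.smoothTransition := Real.smoothTransition.contDiff
        have hl : ContDiff ℝ ∞ fun t : ℝ => (t - a / 2) / (a / 2) := by fun_prop
        exact (hs.comp hl).contDiffAt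
      · exact contDiffAt_id
      · intro h0
        linarith
  · intro t ht
    show Real.smoothTransition ((t - a / 2) / (a / 2)) / t = 1 / t
    rw [Real.smoothTransition.one_of_one_le]
    rw [le_div_iff₀ (by linarith)]
    linarith

/-- the inclusion of multiples of the `i`-th coordinate -/
noncomputable def x5_L (i : Fin 3) : ℝ →L[ℝ] (E3 →L[ℝ] ℝ) :=
  ContinuousLinearMap.toSpanSingleton ℝ (EuclideanSpace.proj i : E3 →L[ℝ] ℝ)

theorem x5_fderiv (v : E3 → ℝ) : fderiv ℝ v = fun y => ∑ i, x5_L i (pd i v y) := by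
  funext y
  ext z
  have h1 : z = ∑ i, z i • (EuclideanSpace.single i (1 : ℝ) : E3) := by
    ext j
    simp [Finset.sum_apply, Pi.single_apply]
  conv_lhs => rw [h1]
  rw [map_sum, _root_.sum_apply]
  refine Finset.sum_congr rfl fun i _ => ?_
  rw [map_smul]
  simp [x5_L, pd, mul_comm]

theorem x5_step (j : ℕ) {v : E3 → ℝ} (hv : ContDiff ℝ ∞ v) (x : E3) :
    ‖iteratedFDeriv ℝ (j + 1) v x‖ ≤ ∑ i, ‖x5_L i‖ * ‖iteratedFDeriv ℝ j (pd i v) x‖ := by
  rw [← norm_iteratedFDeriv_fderiv, x5_fderiv v]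
  have hpd : ∀ i, ContDiff ℝ ∞ (pd i v) := fun i => contDiff_pd i hv
  have hL : ∀ i, ContDiff ℝ ∞ (fun y => x5_L i (pd i v y)) := fun i =>
    (x5_L i).contDiff.comp (hpd i)
  rw [iteratedFDeriv_fun_sum_apply (f := fun i y => x5_L i (pd i v y)) (fun i _ =>
    ((hL i).of_le (by exact_mod_cast le_top)).contDiffAt)]
  refine (norm_sum_le _ _).trans (Finset.sum_le_sum fun i _ => ?_)
  exact (x5_L i).norm_iteratedFDeriv_comp_left (hpd i).contDiffAt (by exact_mod_cast le_top)

/-- Pointwise bound: `iteratedFDeriv j v x` is determined by its values on basis vectors, which are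
`Dw w v x`, `|w| = j` (induction on `j`); and for `x ≠ 0`, `Dw w v x` is a combination of the words
`Zw w' v x`, `|w'| ≤ |w|`, with coefficients smooth off the origin (induction on `w`,
`∂_i = |x|^{-2} ∑ (Zm a x)_i Z_a`), hence bounded on `r0 ≤ |x| ≤ R1`. -/
theorem iter_le_of_words {r0 R1 : ℝ} (h0 : 0 < r0) (m : ℕ) :
    ∃ C, 0 ≤ C ∧ ∀ v : E3 → ℝ, ContDiff ℝ ∞ v → ∀ x : E3, r0 ≤ ‖x‖ → ‖x‖ ≤ R1 → ∀ s : ℝ,
      (∀ w : List (Fin 4), w.length ≤ m → |Zw w v x| ≤ s) →
      ∀ j ≤ m, ‖iteratedFDeriv ℝ j v x‖ ≤ C * s := by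
  have ha : 0 < r0 ^ 2 / 2 := by positivity
  obtain ⟨h, hh, hinv⟩ := x5_inv ha
  set c : Fin 3 → Fin 4 → E3 → ℝ := fun i a y => h (‖y‖ ^ 2) * (Zm a y) i with hc
  have hcs : ∀ i a, ContDiff ℝ ∞ (c i a) := by
    intro i a
    have h1 : ContDiff ℝ ∞ fun y : E3 => h (‖y‖ ^ 2) := hh.comp (contDiff_norm_sq ℝ)
    have h2 : ContDiff ℝ ∞ fun y : E3 => (Zm a y) i :=
      ((EuclideanSpace.proj i : E3 →L[ℝ] ℝ).comp (Zm a)).contDiff
    exact h1.mul h2
  have hB : ∃ B, 0 ≤ B ∧ ∀ i a, ∀ l ≤ m, ∀ x : E3, ‖x‖ ≤ R1 → ‖iteratedFDeriv ℝ l (c i a) x‖ ≤ B := by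
    choose B hB0 hB using fun i a => x5_bdd m R1 (hcs i a)
    refine ⟨∑ i, ∑ a, B i a, Finset.sum_nonneg fun i _ => Finset.sum_nonneg fun a _ => hB0 i a, ?_⟩
    intro i a l hl x hx
    calc _ ≤ B i a := hB i a l hl x hx
      _ ≤ ∑ a, B i a := Finset.single_le_sum (f := fun a => B i a) (fun a _ => hB0 i a)
          (Finset.mem_univ a)
      _ ≤ _ := Finset.single_le_sum (f := fun i => ∑ a, B i a)
          (fun i _ => Finset.sum_nonneg fun a _ => hB0 i a) (Finset.mem_univ i)
  obtain ⟨B, hB0, hB⟩ := hB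
  set K := ∑ i, ‖x5_L i‖ with hK
  have hK0 : 0 ≤ K := by rw [hK]; positivity
  have main : ∀ k ≤ m, ∃ C, 0 ≤ C ∧ ∀ v : E3 → ℝ, ContDiff ℝ ∞ v → ∀ x : E3, r0 ≤ ‖x‖ → ‖x‖ ≤ R1 →
      ∀ s : ℝ, (∀ w : List (Fin 4), w.length ≤ k → |Zw w v x| ≤ s) →
      ∀ j ≤ k, ‖iteratedFDeriv ℝ j v x‖ ≤ C * s := by
    intro k
    induction k with
    | zero =>
      intro _
      refine ⟨1, zero_le_one, fun v hv x _ _ s hw j hj => ?_⟩
      have hj0 : j = 0 := by omega
      subst hj0
      rw [norm_iteratedFDeriv_zero, one_mul]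
      exact hw [] (by simp)
    | succ k ih =>
      intro hk
      obtain ⟨C, hC, hCv⟩ := ih (by omega)
      refine ⟨C + K * (4 * (2 ^ k * B * C)), by positivity, fun v hv x hx0 hx1 s hw j hj => ?_⟩
      have hs : 0 ≤ s := (abs_nonneg _).trans (hw [] (by simp))
      rcases Nat.lt_or_ge j (k + 1) with hlt | hge
      · have h3 := hCv v hv x hx0 hx1 s (fun w hwl => hw w (by omega)) j (by omega)
        have h4 : 0 ≤ K * (4 * (2 ^ k * B * C)) * s := by positivity
        linarith
      · have hj' : j = k + 1 := by omega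
        subst hj'
        have hpd : ∀ i, ‖iteratedFDeriv ℝ k (pd i v) x‖ ≤ 4 * (2 ^ k * B * C) * s := by
          intro i
          have hev : pd i v =ᶠ[nhds x] fun y => ∑ a, c i a y * Z a v y := by
            have hopen : IsOpen {y : E3 | r0 ^ 2 / 2 < ‖y‖ ^ 2} :=
              isOpen_lt continuous_const (by fun_prop)
            have hmem : x ∈ {y : E3 | r0 ^ 2 / 2 < ‖y‖ ^ 2} := by
              have : r0 ^ 2 ≤ ‖x‖ ^ 2 := pow_le_pow_left₀ h0.le hx0 2
              show r0 ^ 2 / 2 < ‖x‖ ^ 2
              have : 0 < r0 ^ 2 := by positivity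
              linarith
            filter_upwards [hopen.mem_nhds hmem] with y hy
            have hy' : r0 ^ 2 / 2 < ‖y‖ ^ 2 := hy
            have hy0 : 0 < ‖y‖ ^ 2 := by linarith
            have h5 : ∑ a, c i a y * Z a v y = h (‖y‖ ^ 2) * ∑ a, (Zm a y) i * Z a v y := by
              rw [Finset.mul_sum]
              exact Finset.sum_congr rfl fun a _ => by rw [hc]; ring
            rw [h5, hinv _ hy'.le, ← pd_eq_Z, ← mul_assoc, one_div_mul_cancel hy0.ne', one_mul]
          rw [(hev.iteratedFDeriv ℝ k).eq_of_nhds,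
            iteratedFDeriv_fun_sum_apply (fun a _ =>
              (((hcs i a).mul (contDiff_Z a hv)).of_le (by exact_mod_cast le_top)).contDiffAt)]
          calc ‖∑ a, iteratedFDeriv ℝ k (fun y => c i a y * Z a v y) x‖
              ≤ ∑ a, ‖iteratedFDeriv ℝ k (fun y => c i a y * Z a v y) x‖ := norm_sum_le _ _
            _ ≤ ∑ _a : Fin 4, (2 ^ k * B * C) * s := by
                refine Finset.sum_le_sum fun a _ => ?_
                refine (norm_iteratedFDeriv_mul_le (hcs i a) (contDiff_Z a hv) x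
                  (by exact_mod_cast le_top)).trans ?_
                have hZ : ∀ l ≤ k, ‖iteratedFDeriv ℝ l (Z a v) x‖ ≤ C * s := by
                  apply hCv (Z a v) (contDiff_Z a hv) x hx0 hx1 s
                  intro w hwl
                  have h6 := hw (w ++ [a]) (by simp; omega)
                  rwa [Zw_append] at h6
                calc ∑ l ∈ Finset.range (k + 1), (k.choose l : ℝ) * ‖iteratedFDeriv ℝ l (c i a) x‖ *
                      ‖iteratedFDeriv ℝ (k - l) (Z a v) x‖
                    ≤ ∑ l ∈ Finset.range (k + 1), (k.choose l : ℝ) * (B * (C * s)) := by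
                      refine Finset.sum_le_sum fun l hl => ?_
                      rw [Finset.mem_range] at hl
                      rw [mul_assoc]
                      refine mul_le_mul_of_nonneg_left ?_ (Nat.cast_nonneg _)
                      exact mul_le_mul (hB i a l (by omega) x hx1) (hZ (k - l) (by omega))
                        (norm_nonneg _) hB0
                  _ = (2 ^ k * B * C) * s := by
                      rw [← Finset.sum_mul, ← Nat.cast_sum, Nat.sum_range_choose]
                      push_cast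
                      ring
            _ = 4 * (2 ^ k * B * C) * s := by
                rw [Finset.sum_const, Finset.card_univ, Fintype.card_fin, nsmul_eq_mul]
                push_cast
                ring
        calc ‖iteratedFDeriv ℝ (k + 1) v x‖ ≤ ∑ i, ‖x5_L i‖ * ‖iteratedFDeriv ℝ k (pd i v) x‖ :=
              x5_step k hv x
          _ ≤ ∑ i, ‖x5_L i‖ * (4 * (2 ^ k * B * C) * s) :=
              Finset.sum_le_sum fun i _ => mul_le_mul_of_nonneg_left (hpd i) (by positivity)
          _ = K * (4 * (2 ^ k * B * C)) * s := by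
              rw [← Finset.sum_mul, hK]
              ring
          _ ≤ (C + K * (4 * (2 ^ k * B * C))) * s := by
              have : 0 ≤ C * s := by positivity
              linarith
  exact main m le_rfl

theorem x5_cd (w : List (Fin 4)) : ∀ (k : ℕ) {v : E3 → ℝ}, ContDiff ℝ (k + w.length : ℕ) v →
    ContDiff ℝ (k : ℕ) (Zw w v) := by
  induction w with
  | nil => intro k v hv; exact hv
  | cons a w ih =>
    intro k v hv
    have h1 : ContDiff ℝ ((k + 1) + w.length : ℕ) v := by
      have : k + (a :: w).length = k + 1 + w.length := by simp; ring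
      rwa [this] at hv
    exact contDiff_Z_nat a (ih (k + 1) h1)

/-- the converse, on bounded sets -/
theorem words_le_of_iter (R1 : ℝ) (m : ℕ) :
    ∃ C, 0 ≤ C ∧ ∀ v : E3 → ℝ, ContDiff ℝ m v → ∀ x : E3, ‖x‖ ≤ R1 → ∀ s : ℝ,
      (∀ j ≤ m, ‖iteratedFDeriv ℝ j v x‖ ≤ s) →
      ∀ w : List (Fin 4), w.length ≤ m → |Zw w v x| ≤ C * s := by
  have hB : ∃ B, 0 ≤ B ∧ ∀ a, ∀ l ≤ m, ∀ x : E3, ‖x‖ ≤ R1 →
      ‖iteratedFDeriv ℝ l (fun y => Zm a y) x‖ ≤ B := by
    choose B hB0 hB using fun a => x5_bdd m R1 (F := fun y => Zm a y) (Zm a).contDiff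
    refine ⟨∑ a, B a, Finset.sum_nonneg fun a _ => hB0 a, ?_⟩
    intro a l hl x hx
    exact (hB a l hl x hx).trans (Finset.single_le_sum (f := fun a => B a) (fun a _ => hB0 a)
      (Finset.mem_univ a))
  obtain ⟨B, hB0, hB⟩ := hB
  have main : ∀ k ≤ m, ∃ C, 0 ≤ C ∧ ∀ v : E3 → ℝ, ContDiff ℝ m v → ∀ x : E3, ‖x‖ ≤ R1 → ∀ s : ℝ,
      (∀ j ≤ m, ‖iteratedFDeriv ℝ j v x‖ ≤ s) →
      ∀ w : List (Fin 4), w.length ≤ k → ∀ j, j + w.length ≤ m →
        ‖iteratedFDeriv ℝ j (Zw w v) x‖ ≤ C * s := by
    intro k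
    induction k with
    | zero =>
      intro _
      refine ⟨1, zero_le_one, fun v hv x _ s hj w hw j hjm => ?_⟩
      have hw0 : w = [] := List.length_eq_zero_iff.mp (by omega)
      subst hw0
      rw [one_mul]
      exact hj j (by simpa using hjm)
    | succ k ih =>
      intro hk
      obtain ⟨C, hC, hCv⟩ := ih (by omega)
      refine ⟨C + 2 ^ m * C * B, by positivity, fun v hv x hx s hj w hw j hjm => ?_⟩
      have hs : 0 ≤ s := (norm_nonneg _).trans (hj 0 (by omega))
      rcases Nat.lt_or_ge w.length (k + 1) with hlt | hge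
      · have h3 := hCv v hv x hx s hj w (by omega) j hjm
        have h4 : 0 ≤ 2 ^ m * C * B * s := by positivity
        linarith
      · rcases w with _ | ⟨a, w⟩
        · simp at hge
        · rw [List.length_cons] at hw hge hjm
          have hcd : ContDiff ℝ (j + 1 : ℕ) (Zw w v) :=
            x5_cd w (j + 1) (hv.of_le (by exact_mod_cast (by omega : j + 1 + w.length ≤ m)))
          have hfd : ContDiff ℝ (j : ℕ) (fderiv ℝ (Zw w v)) :=
            hcd.fderiv_right (by exact_mod_cast le_rfl)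
          have h5 := norm_iteratedFDeriv_clm_apply (n := j) hfd
            ((Zm a).contDiff (n := (j : ℕ))) x le_rfl
          have h6 : (fun y => (fderiv ℝ (Zw w v) y) (Zm a y)) = Zw (a :: w) v := rfl
          rw [h6] at h5
          refine h5.trans ?_
          calc ∑ l ∈ Finset.range (j + 1), (j.choose l : ℝ) *
                ‖iteratedFDeriv ℝ l (fderiv ℝ (Zw w v)) x‖ *
                  ‖iteratedFDeriv ℝ (j - l) (fun y => Zm a y) x‖
              ≤ ∑ l ∈ Finset.range (j + 1), (j.choose l : ℝ) * ((C * s) * B) := by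
                refine Finset.sum_le_sum fun l hl => ?_
                rw [Finset.mem_range] at hl
                rw [mul_assoc]
                refine mul_le_mul_of_nonneg_left ?_ (Nat.cast_nonneg _)
                refine mul_le_mul ?_ (hB a (j - l) (by omega) x hx) (norm_nonneg _)
                  (by positivity)
                rw [norm_iteratedFDeriv_fderiv]
                exact hCv v hv x hx s hj w (by omega) (l + 1) (by omega)
            _ = 2 ^ j * (C * s * B) := by
                rw [← Finset.sum_mul, ← Nat.cast_sum, Nat.sum_range_choose]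
                push_cast
                ring
            _ ≤ 2 ^ m * (C * s * B) := by
                apply mul_le_mul_of_nonneg_right _ (by positivity)
                exact pow_le_pow_right₀ (by norm_num) (by omega)
            _ ≤ (C + 2 ^ m * C * B) * s := by
                have : 0 ≤ C * s := by positivity
                nlinarith
  obtain ⟨C, hC, hCv⟩ := main m le_rfl
  refine ⟨C, hC, fun v hv x hx s hj w hw => ?_⟩
  have h1 := hCv v hv x hx s hj w hw 0 (by omega)
  rwa [norm_iteratedFDeriv_zero, Real.norm_eq_abs] at h1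

end UMB.Lin
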