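import Pool.Agent.Lib.UMB.Lin.X1
import Pool.Agent.Lib.UMB.Lin.X2
import Pool.Agent.Lib.UMB.Lin.X4
import Pool.Agent.Lib.UMB.Lin.X5

/-! # UMB.Lin, chunk X6: the extension theorem -/

open scoped ContDiff BigOperators
open Set MeasureTheory Pool.Agent.Lib.PenroseSph

namespace UMB.Lin

/-- a smooth radial cut-off -/
theorem x6_cut {a b : ℝ} (ha : 0 ≤ a) (hab : a < b) : ∃ κ : E3 → ℝ, ContDiff ℝ ∞ κ ∧
    (∀ x, b ≤ ‖x‖ → κ x = 1) ∧ (∀ x, ‖x‖ ≤ a → κ x = 0) := by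
  have hb : 0 < b := lt_of_le_of_lt ha hab
  have hd : 0 < b ^ 2 - a ^ 2 := by nlinarith
  refine ⟨fun x => Real.smoothTransition ((‖x‖ ^ 2 - a ^ 2) / (b ^ 2 - a ^ 2)), ?_, ?_, ?_⟩
  · have h1 : ContDiff ℝ ∞ (fun x : E3 => (‖x‖ ^ 2 - a ^ 2) / (b ^ 2 - a ^ 2)) :=
      ((contDiff_norm_sq ℝ).sub contDiff_const).div_const _
    exact Real.smoothTransition.contDiff.comp h1
  · intro x hx
    refine Real.smoothTransition.one_of_one_le ?_
    rw [le_div_iff₀ hd]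
    nlinarith
  · intro x hx
    refine Real.smoothTransition.zero_of_nonpos ?_
    refine div_nonpos_of_nonpos_of_nonneg ?_ hd.le
    nlinarith [norm_nonneg x]

/-- smooth radial cut-offs -/
theorem exists_cutoffs {R : ℝ} (hR : 1 < R) : ∃ χ1 χ2 : E3 → ℝ, ContDiff ℝ ∞ χ1 ∧ ContDiff ℝ ∞ χ2 ∧
    (∃ t : ℝ, t < 1 ∧ 1 / R < t ∧ (∀ x, t ≤ ‖x‖ → χ1 x = 1)) ∧
    (∀ x, ‖x‖ ≤ 1 / R → χ1 x = 0) ∧
    (∃ t : ℝ, R < t ∧ (∀ x, ‖x‖ ≤ t → χ2 x = 1)) ∧ (∀ x, R ^ 2 ≤ ‖x‖ → χ2 x = 0) := by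
  have hR0 : 0 < R := by linarith
  have h1R : 1 / R < 1 := by rw [div_lt_one hR0]; exact hR
  have hRR : R < R ^ 2 := by nlinarith
  obtain ⟨κ1, k1, k2, k3⟩ := x6_cut (a := 1 / R) (b := (1 / R + 1) / 2) (by positivity)
    (by linarith)
  obtain ⟨κ2, l1, l2, l3⟩ := x6_cut (a := (R + R ^ 2) / 2) (b := R ^ 2) (by positivity)
    (by linarith)
  refine ⟨κ1, fun x => 1 - κ2 x, k1, contDiff_const.sub l1, ⟨(1 / R + 1) / 2, by linarith,
    by linarith, k2⟩, k3, ⟨(R + R ^ 2) / 2, by linarith, fun x hx => ?_⟩, fun x hx => ?_⟩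
  · simp only [l3 x hx]; ring
  · simp only [l2 x hx]; ring

theorem x6_diff {v : E3 → ℝ} (hv : ContDiff ℝ ∞ v) (x : E3) : DifferentiableAt ℝ v x :=
  (hv.differentiable (by simp)).differentiableAt

theorem x6_Zw_congr {U : Set E3} (hU : IsOpen U) {u v : E3 → ℝ} (h : ∀ x ∈ U, u x = v x)
    (w : List (Fin 4)) : ∀ x ∈ U, Zw w u x = Zw w v x := by
  induction w with
  | nil => exact h
  | cons a w ih => exact Z_congr a hU ih

theorem x6_Zw_sub {u v : E3 → ℝ} (hu : ContDiff ℝ ∞ u) (hv : ContDiff ℝ ∞ v)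
    (w : List (Fin 4)) : Zw w (fun x => u x - v x) = fun x => Zw w u x - Zw w v x := by
  induction w with
  | nil => rfl
  | cons a w ih =>
    funext x
    show Z a (Zw w (fun x => u x - v x)) x = _
    rw [ih]
    exact Z_sub a (x6_diff (contDiff_Zw w hu) x) (x6_diff (contDiff_Zw w hv) x)

theorem x6_Zw_const_mul (c : ℝ) {v : E3 → ℝ} (hv : ContDiff ℝ ∞ v)
    (w : List (Fin 4)) : Zw w (fun x => c * v x) = fun x => c * Zw w v x := by
  induction w with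
  | nil => rfl
  | cons a w ih =>
    funext x
    show Z a (Zw w (fun x => c * v x)) x = _
    rw [ih]
    exact Z_const_mul a c (x6_diff (contDiff_Zw w hv) x)

theorem x6_Zw_sum {ι : Type*} (s : Finset ι) {u : ι → E3 → ℝ}
    (hu : ∀ i ∈ s, ContDiff ℝ ∞ (u i)) (w : List (Fin 4)) :
    Zw w (fun x => ∑ i ∈ s, u i x) = fun x => ∑ i ∈ s, Zw w (u i) x := by
  induction w with
  | nil => rfl
  | cons a w ih =>
    funext x
    show Z a (Zw w (fun x => ∑ i ∈ s, u i x)) x = _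
    rw [ih]
    exact Z_sum a s fun i hi => x6_diff (contDiff_Zw w (hu i hi)) x

/-- the localised reflection -/
noncomputable def x6F (κ v : E3 → ℝ) (ρ lam : ℝ) : E3 → ℝ := fun x => κ x * v (rf ρ lam x)

theorem x6F_contDiff {κ v : E3 → ℝ} {ρ a : ℝ} (lam : ℝ) (hρ : 0 < ρ) (ha : 0 < a)
    (hκ : ContDiff ℝ ∞ κ) (h0 : ∀ x, ‖x‖ ≤ a → κ x = 0) (hv : ContDiff ℝ ∞ v) :
    ContDiff ℝ ∞ (x6F κ v ρ lam) := by
  rw [contDiff_iff_contDiffAt]
  intro x
  by_cases hx : x = 0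
  · subst hx
    have h1 : x6F κ v ρ lam =ᶠ[nhds 0] fun _ => 0 := by
      filter_upwards [Metric.ball_mem_nhds (0 : E3) ha] with y hy
      rw [mem_ball_zero_iff] at hy
      simp [x6F, h0 y hy.le]
    exact contDiffAt_const.congr_of_eventuallyEq h1
  · exact hκ.contDiffAt.mul (hv.contDiffAt.comp x (contDiffAt_rf hρ lam hx))

theorem x6F_Zw {κ v : E3 → ℝ} {ρ b : ℝ} (lam : ℝ) (hρ : 0 < ρ) (hb : 0 ≤ b)
    (h1 : ∀ x, b ≤ ‖x‖ → κ x = 1) (hv : ContDiff ℝ ∞ v) (w : List (Fin 4)) {x : E3}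
    (hx : b < ‖x‖) :
    Zw w (x6F κ v ρ lam) x = (-lam) ^ (w.count 0) * Zw w v (rf ρ lam x) := by
  have hU : IsOpen {x : E3 | b < ‖x‖} := isOpen_lt continuous_const continuous_norm
  have h2 : ∀ y ∈ {x : E3 | b < ‖x‖}, x6F κ v ρ lam y = (fun y => v (rf ρ lam y)) y := by
    intro y hy
    simp only [mem_ofPred_eq] at hy
    simp [x6F, h1 y hy.le]
  rw [x6_Zw_congr hU h2 w x hx]
  refine Zw_rf hρ lam hv w ?_
  intro h
  rw [h, norm_zero] at hx
  linarith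

/-- the combination of reflections -/
noncomputable def x6G (κ v : E3 → ℝ) (ρ : ℝ) (m : ℕ) (c : Fin (m + 1) → ℝ) : E3 → ℝ :=
  fun x => ∑ j : Fin (m + 1), c j * x6F κ v ρ (1 / ((j : ℝ) + 1)) x

theorem x6G_contDiff {κ v : E3 → ℝ} {ρ a : ℝ} (m : ℕ) (c : Fin (m + 1) → ℝ) (hρ : 0 < ρ)
    (ha : 0 < a) (hκ : ContDiff ℝ ∞ κ) (h0 : ∀ x, ‖x‖ ≤ a → κ x = 0) (hv : ContDiff ℝ ∞ v) :
    ContDiff ℝ ∞ (x6G κ v ρ m c) :=
  ContDiff.sum fun _ _ => contDiff_const.mul (x6F_contDiff _ hρ ha hκ h0 hv)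

theorem x6G_Zw {κ v : E3 → ℝ} {ρ a b : ℝ} (m : ℕ) (c : Fin (m + 1) → ℝ) (hρ : 0 < ρ)
    (ha : 0 < a) (hb : 0 ≤ b) (hκ : ContDiff ℝ ∞ κ) (h0 : ∀ x, ‖x‖ ≤ a → κ x = 0)
    (h1 : ∀ x, b ≤ ‖x‖ → κ x = 1) (hv : ContDiff ℝ ∞ v) (w : List (Fin 4)) {x : E3}
    (hx : b < ‖x‖) :
    Zw w (x6G κ v ρ m c) x = ∑ j : Fin (m + 1), c j *
      ((-(1 / ((j : ℝ) + 1))) ^ (w.count 0) * Zw w v (rf ρ (1 / ((j : ℝ) + 1)) x)) := by
  unfold x6G
  rw [x6_Zw_sum Finset.univ (fun j _ => contDiff_const.mul (x6F_contDiff _ hρ ha hκ h0 hv)) w]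
  refine Finset.sum_congr rfl fun j _ => ?_
  rw [x6_Zw_const_mul (c j) (x6F_contDiff _ hρ ha hκ h0 hv) w]
  simp only
  rw [x6F_Zw _ hρ hb h1 hv w hx]

/-- on the sphere the words agree -/
theorem x6G_sphere {κ v : E3 → ℝ} {ρ a b : ℝ} (m : ℕ) {c : Fin (m + 1) → ℝ} (hρ : 0 < ρ)
    (hc : ∀ i ≤ m, ∑ j : Fin (m + 1), c j * (-(1 / ((j : ℝ) + 1))) ^ i = 1)
    (ha : 0 < a) (hb : 0 ≤ b) (hκ : ContDiff ℝ ∞ κ) (h0 : ∀ x, ‖x‖ ≤ a → κ x = 0)
    (h1 : ∀ x, b ≤ ‖x‖ → κ x = 1) (hv : ContDiff ℝ ∞ v) (w : List (Fin 4)) (hw : w.length ≤ m)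
    {x : E3} (hx : ‖x‖ = ρ) (hbρ : b < ρ) :
    Zw w (x6G κ v ρ m c) x = Zw w v x := by
  rw [x6G_Zw m c hρ ha hb hκ h0 h1 hv w (by rw [hx]; exact hbρ)]
  have h2 : ∀ j : Fin (m + 1), c j *
      ((-(1 / ((j : ℝ) + 1))) ^ (w.count 0) * Zw w v (rf ρ (1 / ((j : ℝ) + 1)) x))
      = (c j * (-(1 / ((j : ℝ) + 1))) ^ (w.count 0)) * Zw w v x := by
    intro j
    rw [rf_sphere hρ _ hx]
    ring
  rw [Finset.sum_congr rfl fun j _ => h2 j, ← Finset.sum_mul,
    hc _ (List.count_le_length.trans hw), one_mul]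

theorem x6_lam (m : ℕ) (j : Fin (m + 1)) :
    0 < 1 / ((j : ℝ) + 1) ∧ 1 / ((j : ℝ) + 1) ≤ 1 := by
  have hj : (0 : ℝ) ≤ j := Nat.cast_nonneg _
  refine ⟨by positivity, ?_⟩
  rw [div_le_one (by positivity)]
  linarith

/-- bound of the combination where the reflected points are in the annulus -/
theorem x6G_words {κ v : E3 → ℝ} {R ρ a b s : ℝ} (m : ℕ) (c : Fin (m + 1) → ℝ) (hρ : 0 < ρ)
    (ha : 0 < a) (hb : 0 ≤ b) (hκ : ContDiff ℝ ∞ κ) (h0 : ∀ x, ‖x‖ ≤ a → κ x = 0)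
    (h1 : ∀ x, b ≤ ‖x‖ → κ x = 1) (hv : ContDiff ℝ ∞ v) (hBd : Bd R m s v) (hs : 0 ≤ s)
    {x : E3} (hx : b < ‖x‖) (hin : ∀ j : Fin (m + 1), rf ρ (1 / ((j : ℝ) + 1)) x ∈ cAnn R)
    (w : List (Fin 4)) (hw : w.length ≤ m) :
    |Zw w (x6G κ v ρ m c) x| ≤ (∑ j, |c j|) * s := by
  rw [x6G_Zw m c hρ ha hb hκ h0 h1 hv w hx, Finset.sum_mul]
  refine (Finset.abs_sum_le_sum_abs _ _).trans (Finset.sum_le_sum fun j _ => ?_)
  rw [abs_mul]
  refine mul_le_mul_of_nonneg_left ?_ (abs_nonneg _)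
  rw [abs_mul, abs_pow, abs_neg, abs_of_pos (x6_lam m j).1]
  have h2 := hBd w hw _ (hin j)
  have h3 : (1 / ((j : ℝ) + 1)) ^ (w.count 0) ≤ 1 :=
    pow_le_one₀ (x6_lam m j).1.le (x6_lam m j).2
  calc (1 / ((j : ℝ) + 1)) ^ (w.count 0) * |Zw w v (rf ρ (1 / ((j : ℝ) + 1)) x)|
      ≤ 1 * s := mul_le_mul h3 h2 (abs_nonneg _) zero_le_one
    _ = s := one_mul s

theorem x6_in_one {R lam : ℝ} (hR : 1 < R) (hl0 : 0 < lam) (hl1 : lam ≤ 1) {x : E3}
    (hx1 : 1 / R ≤ ‖x‖) (hx2 : ‖x‖ ≤ 1) : rf 1 lam x ∈ cAnn R := by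
  have hR0 : 0 < R := by linarith
  have hx0 : 0 < ‖x‖ := lt_of_lt_of_le (by positivity) hx1
  have hxne : x ≠ 0 := norm_pos_iff.1 hx0
  have hn := norm_rf one_pos lam hxne
  rw [one_mul, div_one] at hn
  refine ⟨?_, ?_⟩
  · rw [hn]
    exact Real.one_le_rpow_of_pos_of_le_one_of_nonpos hx0 hx2 (by linarith)
  · rw [hn]
    calc ‖x‖ ^ (-lam) ≤ (1 / R) ^ (-lam) :=
          Real.rpow_le_rpow_of_nonpos (by positivity) hx1 (by linarith)
      _ = R ^ lam := by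
          rw [one_div, Real.inv_rpow hR0.le, ← Real.rpow_neg hR0.le, neg_neg]
      _ ≤ R ^ (1 : ℝ) := Real.rpow_le_rpow_of_exponent_le hR.le hl1
      _ = R := Real.rpow_one R

theorem x6_in_R {R lam : ℝ} (hR : 1 < R) (hl0 : 0 < lam) (hl1 : lam ≤ 1) {x : E3}
    (hx1 : R ≤ ‖x‖) (hx2 : ‖x‖ ≤ R ^ 2) : rf R lam x ∈ cAnn R := by
  have hR0 : 0 < R := by linarith
  have hx0 : 0 < ‖x‖ := by linarith
  have hxne : x ≠ 0 := norm_pos_iff.1 hx0
  have hn := norm_rf hR0 lam hxne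
  have hy1 : 1 ≤ ‖x‖ / R := by rw [le_div_iff₀ hR0]; linarith
  have hy2 : ‖x‖ / R ≤ R := by rw [div_le_iff₀ hR0]; nlinarith
  have hy0 : 0 < ‖x‖ / R := by positivity
  refine ⟨?_, ?_⟩
  · rw [hn]
    have h1 : R⁻¹ ≤ (‖x‖ / R) ^ (-lam) := by
      calc R⁻¹ = R ^ (-1 : ℝ) := (Real.rpow_neg_one R).symm
        _ ≤ R ^ (-lam) := Real.rpow_le_rpow_of_exponent_le hR.le (by linarith)
        _ ≤ (‖x‖ / R) ^ (-lam) := Real.rpow_le_rpow_of_nonpos hy0 hy2 (by linarith)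
    calc (1 : ℝ) = R * R⁻¹ := (mul_inv_cancel₀ hR0.ne').symm
      _ ≤ R * (‖x‖ / R) ^ (-lam) := mul_le_mul_of_nonneg_left h1 hR0.le
  · rw [hn]
    have h1 : (‖x‖ / R) ^ (-lam) ≤ 1 := Real.rpow_le_one_of_one_le_of_nonpos hy1 (by linarith)
    calc R * (‖x‖ / R) ^ (-lam) ≤ R * 1 := mul_le_mul_of_nonneg_left h1 hR0.le
      _ = R := mul_one R

/-- derivatives of a smooth function are bounded on balls -/
theorem x6_bdd {χ : E3 → ℝ} (hχ : ContDiff ℝ ∞ χ) (m : ℕ) (r : ℝ) :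
    ∃ K, 0 ≤ K ∧ ∀ i ≤ m, ∀ x : E3, ‖x‖ ≤ r → ‖iteratedFDeriv ℝ i χ x‖ ≤ K := by
  have h : ∀ i : ℕ, ∃ K, 0 ≤ K ∧ ∀ x : E3, ‖x‖ ≤ r → ‖iteratedFDeriv ℝ i χ x‖ ≤ K := by
    intro i
    have hc : Continuous fun x => iteratedFDeriv ℝ i χ x :=
      ContDiff.continuous_iteratedFDeriv (by exact_mod_cast le_top) hχ
    obtain ⟨K, hK⟩ := (isCompact_closedBall (0 : E3) r).exists_bound_of_continuousOn
      hc.continuousOn
    refine ⟨max K 0, le_max_right _ _, fun x hx => (hK x ?_).trans (le_max_left _ _)⟩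
    rw [mem_closedBall_zero_iff]
    exact hx
  choose K hK0 hK using h
  refine ⟨∑ i ∈ Finset.range (m + 1), K i, Finset.sum_nonneg fun i _ => hK0 i,
    fun i hi x hx => (hK i x hx).trans ?_⟩
  exact Finset.single_le_sum (f := K) (fun i _ => hK0 i)
    (Finset.mem_range.2 (Nat.lt_succ_of_le hi))

/-- product bound -/
theorem x6_mul {χ G : E3 → ℝ} (hχ : ContDiff ℝ ∞ χ) (hG : ContDiff ℝ ∞ G) {m : ℕ} {x : E3}
    {K M : ℝ} (hK : 0 ≤ K) (h1 : ∀ i ≤ m, ‖iteratedFDeriv ℝ i χ x‖ ≤ K)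
    (h2 : ∀ i ≤ m, ‖iteratedFDeriv ℝ i G x‖ ≤ M) (j : ℕ) (hj : j ≤ m) :
    ‖iteratedFDeriv ℝ j (fun y => χ y * G y) x‖ ≤ 2 ^ m * (K * M) := by
  have hM : 0 ≤ M := (norm_nonneg _).trans (h2 0 (Nat.zero_le _))
  refine (norm_iteratedFDeriv_mul_le hχ hG x (n := j) (by exact_mod_cast le_top)).trans ?_
  calc ∑ i ∈ Finset.range (j + 1), ((j.choose i : ℕ) : ℝ) * ‖iteratedFDeriv ℝ i χ x‖
        * ‖iteratedFDeriv ℝ (j - i) G x‖
      ≤ ∑ i ∈ Finset.range (j + 1), ((j.choose i : ℕ) : ℝ) * (K * M) := by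
        refine Finset.sum_le_sum fun i hi => ?_
        rw [mul_assoc]
        refine mul_le_mul_of_nonneg_left ?_ (Nat.cast_nonneg _)
        have hi' : i ≤ j := Nat.lt_succ_iff.1 (Finset.mem_range.1 hi)
        exact mul_le_mul (h1 i (hi'.trans hj)) (h2 (j - i) ((Nat.sub_le j i).trans hj))
          (norm_nonneg _) hK
    _ = 2 ^ j * (K * M) := by
        rw [← Finset.sum_mul, ← Nat.cast_sum, Nat.sum_range_choose]
        push_cast
        ring
    _ ≤ 2 ^ m * (K * M) := by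
        refine mul_le_mul_of_nonneg_right ?_ (mul_nonneg hK hM)
        exact pow_le_pow_right₀ (by norm_num) hj

theorem x6_dense (R : ℝ) : Dense {x : E3 | ‖x‖ ≠ 1 ∧ ‖x‖ ≠ R} := by
  refine Measure.dense_of_ae (μ := (volume : Measure E3)) ?_
  have h : ∀ r : ℝ, ∀ᵐ x : E3, ‖x‖ ≠ r := by
    intro r
    have h1 : volume (Metric.sphere (0 : E3) r) = 0 := Measure.addHaar_sphere volume 0 r
    rw [ae_iff]
    refine measure_mono_null ?_ h1
    intro x hx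
    simp only [ne_eq, not_not, mem_ofPred_eq] at hx
    rw [mem_sphere_zero_iff_norm]
    exact hx
  filter_upwards [h 1, h R] with x h1 h2 using ⟨h1, h2⟩

/-- Extension. Let `c` be as in `refl_coef`, `lam_j = 1/(j+1)`,
`g1 = χ1 ∑ c_j v ∘ rf 1 lam_j`, `g2 = χ2 ∑ c_j v ∘ rf R lam_j` (smooth: the cut-off `χ1` vanishes near
the origin; multiply `g2` by a further cut-off which is `1` for `|x| ≥ 1` and `0` near the origin).
`u = g1 + 1_{|x| ≥ 1} (v - g1) + 1_{|x| ≥ R} (g2 - v)`. On `|x| = 1` all words of length `≤ m` of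
`v - g1` vanish (`Zw_rf`, `rf_sphere`, `refl_coef`), so `iter_le_of_words` with `s = 0` and
`contDiff_cut` apply; the same on `|x| = R`. Values: `u = g1, v, g2` on the three regions. Bounds: on
the region `|x| < 1` the points `rf 1 lam_j x` are in the closed annulus where `χ1 ≠ 0` (`norm_rf`),
similarly for `|x| > R`; `u` is locally equal to `g1, v, g2` off the spheres, the bounds on the
spheres follow by continuity. Take `k = m`. -/
theorem extend {R : ℝ} (hR : 1 < R) (m : ℕ) : ∃ C, 0 ≤ C ∧ ∀ v : E3 → ℝ, ContDiff ℝ ∞ v →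
    ∀ s : ℝ, 0 ≤ s → Bd R m s v → ∃ u : E3 → ℝ, ContDiff ℝ m u ∧ (∀ x ∈ cAnn R, u x = v x) ∧
      ∀ j ≤ m, ∀ x, ‖iteratedFDeriv ℝ j u x‖ ≤ C * s := by
  have hR0 : 0 < R := by linarith
  have hR2 : R ≤ R ^ 2 := by nlinarith
  have h1R : 1 / R < 1 := by rw [div_lt_one hR0]; exact hR
  obtain ⟨χ1, χ2, c1, c2, ⟨t1, ht1, ht1', e1⟩, z1, ⟨t2, ht2, e2⟩, z2⟩ := exists_cutoffs hR
  obtain ⟨c, hc⟩ := refl_coef m
  obtain ⟨κ, k1, k2, k3⟩ := x6_cut (a := 1 / (4 * R)) (b := 1 / (2 * R)) (by positivity) (by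
    rw [div_lt_div_iff₀ (by positivity) (by positivity)]; linarith)
  have ha : 0 < 1 / (4 * R) := by positivity
  have hb : 0 ≤ 1 / (2 * R) := by positivity
  have hbR : 1 / (2 * R) < 1 / R := by
    rw [div_lt_div_iff₀ (by positivity) (by positivity)]; linarith
  obtain ⟨C5, hC5, H5⟩ := iter_le_of_words (r0 := 1 / R) (R1 := R ^ 2) (by positivity) m
  obtain ⟨K1, hK1, hb1⟩ := x6_bdd c1 m (R ^ 2)
  obtain ⟨K2, hK2, hb2⟩ := x6_bdd c2 m (R ^ 2)
  set A : ℝ := ∑ j, |c j| with hA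
  have hA0 : 0 ≤ A := Finset.sum_nonneg fun j _ => abs_nonneg _
  refine ⟨C5 + 2 ^ m * (K1 * (C5 * A)) + 2 ^ m * (K2 * (C5 * A)), by positivity, ?_⟩
  intro v hv s hs hBd
  have T1 : 0 ≤ C5 * s := by positivity
  have T2 : 0 ≤ 2 ^ m * (K1 * (C5 * A)) * s := by positivity
  have T3 : 0 ≤ 2 ^ m * (K2 * (C5 * A)) * s := by positivity
  set G1 : E3 → ℝ := x6G κ v 1 m c with hG1
  set G2 : E3 → ℝ := x6G κ v R m c with hG2
  have sG1 : ContDiff ℝ ∞ G1 := x6G_contDiff m c one_pos ha k1 k3 hv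
  have sG2 : ContDiff ℝ ∞ G2 := x6G_contDiff m c hR0 ha k1 k3 hv
  set g1 : E3 → ℝ := fun x => χ1 x * G1 x with hg1
  set g2 : E3 → ℝ := fun x => χ2 x * G2 x with hg2
  have sg1 : ContDiff ℝ ∞ g1 := c1.mul sG1
  have sg2 : ContDiff ℝ ∞ g2 := c2.mul sG2
  -- vanishing on the spheres
  have v1 : ∀ j ≤ m, ∀ x : E3, ‖x‖ = 1 → iteratedFDeriv ℝ j (fun y => v y - g1 y) x = 0 := by
    intro j hj x hx
    have hw : ∀ w : List (Fin 4), w.length ≤ m → |Zw w (fun y => v y - g1 y) x| ≤ 0 := by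
      intro w hw
      rw [x6_Zw_sub hv sg1 w]
      simp only
      have hU : IsOpen {x : E3 | t1 < ‖x‖} := isOpen_lt continuous_const continuous_norm
      have h2 : ∀ y ∈ {x : E3 | t1 < ‖x‖}, g1 y = G1 y := by
        intro y hy
        simp only [mem_ofPred_eq] at hy
        simp [hg1, e1 y hy.le]
      have hxU : x ∈ {x : E3 | t1 < ‖x‖} := by
        simp only [mem_ofPred_eq]; rw [hx]; exact ht1
      rw [x6_Zw_congr hU h2 w x hxU, hG1,
        x6G_sphere m one_pos hc ha hb k1 k3 k2 hv w hw hx (by linarith)]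
      simp
    have h3 := H5 (fun y => v y - g1 y) (hv.sub sg1) x (by rw [hx]; exact h1R.le)
      (by rw [hx]; nlinarith) 0 hw j hj
    rw [mul_zero] at h3
    exact norm_le_zero_iff.1 h3
  have v2 : ∀ j ≤ m, ∀ x : E3, ‖x‖ = R → iteratedFDeriv ℝ j (fun y => g2 y - v y) x = 0 := by
    intro j hj x hx
    have hw : ∀ w : List (Fin 4), w.length ≤ m → |Zw w (fun y => g2 y - v y) x| ≤ 0 := by
      intro w hw
      rw [x6_Zw_sub sg2 hv w]
      simp only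
      have hU : IsOpen {x : E3 | ‖x‖ < t2} := isOpen_lt continuous_norm continuous_const
      have h2 : ∀ y ∈ {x : E3 | ‖x‖ < t2}, g2 y = G2 y := by
        intro y hy
        simp only [mem_ofPred_eq] at hy
        simp [hg2, e2 y hy.le]
      have hxU : x ∈ {x : E3 | ‖x‖ < t2} := by
        simp only [mem_ofPred_eq]; rw [hx]; exact ht2
      rw [x6_Zw_congr hU h2 w x hxU, hG2,
        x6G_sphere m hR0 hc ha hb k1 k3 k2 hv w hw hx (by linarith)]
      simp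
    have h3 := H5 (fun y => g2 y - v y) (sg2.sub hv) x (by rw [hx]; linarith)
      (by rw [hx]; exact hR2) 0 hw j hj
    rw [mul_zero] at h3
    exact norm_le_zero_iff.1 h3
  have i1 := contDiff_cut m one_pos (hv.sub sg1) v1
  have i2 := contDiff_cut m hR0 (sg2.sub hv) v2
  set u : E3 → ℝ := fun x => g1 x + Set.indicator {x | 1 ≤ ‖x‖} (fun y => v y - g1 y) x
    + Set.indicator {x | R ≤ ‖x‖} (fun y => g2 y - v y) x with hu
  have su : ContDiff ℝ m u :=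
    ((sg1.of_le (by exact_mod_cast le_top)).add i1).add i2
  -- values
  have val1 : ∀ x : E3, ‖x‖ < 1 → u x = g1 x := by
    intro x hx
    have h1 : x ∉ {x : E3 | 1 ≤ ‖x‖} := by
      simp only [mem_ofPred_eq]; exact not_le.2 hx
    have h2 : x ∉ {x : E3 | R ≤ ‖x‖} := by
      simp only [mem_ofPred_eq]; exact not_le.2 (by linarith)
    simp only [hu]
    rw [Set.indicator_of_notMem h1, Set.indicator_of_notMem h2]
    ring
  have val2 : ∀ x : E3, 1 ≤ ‖x‖ → ‖x‖ < R → u x = v x := by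
    intro x hx hx2
    have h1 : x ∈ {x : E3 | 1 ≤ ‖x‖} := hx
    have h2 : x ∉ {x : E3 | R ≤ ‖x‖} := by
      simp only [mem_ofPred_eq]; exact not_le.2 hx2
    simp only [hu]
    rw [Set.indicator_of_mem h1, Set.indicator_of_notMem h2]
    ring
  have val3 : ∀ x : E3, R ≤ ‖x‖ → u x = g2 x := by
    intro x hx
    have h1 : x ∈ {x : E3 | 1 ≤ ‖x‖} := by
      simp only [mem_ofPred_eq]; linarith
    have h2 : x ∈ {x : E3 | R ≤ ‖x‖} := hx
    simp only [hu]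
    rw [Set.indicator_of_mem h1, Set.indicator_of_mem h2]
    ring
  refine ⟨u, su, ?_, ?_⟩
  · intro x hx
    rcases lt_or_eq_of_le hx.2 with h | h
    · exact val2 x hx.1 h
    · rw [val3 x h.ge]
      have h3 : iteratedFDeriv ℝ 0 (fun y => g2 y - v y) x = 0 := v2 0 (Nat.zero_le _) x h
      have h4 : ‖iteratedFDeriv ℝ 0 (fun y => g2 y - v y) x‖ = ‖g2 x - v x‖ :=
        norm_iteratedFDeriv_zero
      rw [h3, norm_zero] at h4
      have h5 := norm_eq_zero.1 h4.symm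
      linarith
  · intro j hj
    have hcl : IsClosed {x : E3 | ‖iteratedFDeriv ℝ j u x‖
        ≤ (C5 + 2 ^ m * (K1 * (C5 * A)) + 2 ^ m * (K2 * (C5 * A))) * s} := by
      refine isClosed_le ?_ continuous_const
      exact (ContDiff.continuous_iteratedFDeriv (by exact_mod_cast hj) su).norm
    have hsub : {x : E3 | ‖x‖ ≠ 1 ∧ ‖x‖ ≠ R} ⊆ {x : E3 | ‖iteratedFDeriv ℝ j u x‖
        ≤ (C5 + 2 ^ m * (K1 * (C5 * A)) + 2 ^ m * (K2 * (C5 * A))) * s} := by
      intro x hx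
      simp only [mem_ofPred_eq] at hx ⊢
      obtain ⟨hx1, hxR⟩ := hx
      rcases lt_or_gt_of_ne hx1 with hlt | hgt
      · -- inside the unit ball
        have hev : u =ᶠ[nhds x] g1 := by
          filter_upwards [(isOpen_lt continuous_norm continuous_const).mem_nhds hlt] with y hy
          exact val1 y hy
        rw [(hev.iteratedFDeriv ℝ j).eq_of_nhds]
        rcases lt_or_ge ‖x‖ (1 / R) with h | h
        · have hev2 : g1 =ᶠ[nhds x] fun _ => 0 := by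
            filter_upwards [(isOpen_lt continuous_norm continuous_const).mem_nhds h] with y hy
            simp [hg1, z1 y (le_of_lt hy)]
          rw [(hev2.iteratedFDeriv ℝ j).eq_of_nhds]
          have h6 : ‖iteratedFDeriv ℝ j (fun _ : E3 => (0 : ℝ)) x‖ = 0 := by
            rw [iteratedFDeriv_fun_zero]
            simp
          rw [h6]
          nlinarith
        · have hG : ∀ i ≤ m, ‖iteratedFDeriv ℝ i G1 x‖ ≤ C5 * (A * s) :=
            H5 G1 sG1 x h (by nlinarith) (A * s) fun w hw =>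
              x6G_words m c one_pos ha hb k1 k3 k2 hv hBd hs (lt_of_lt_of_le hbR h)
                (fun j => x6_in_one hR (x6_lam m j).1 (x6_lam m j).2 h hlt.le) w hw
          have h7 := x6_mul c1 sG1 hK1 (fun i hi => hb1 i hi x (by nlinarith)) hG j hj
          refine h7.trans ?_
          have h8 : 2 ^ m * (K1 * (C5 * (A * s))) = 2 ^ m * (K1 * (C5 * A)) * s := by ring
          rw [h8]
          nlinarith
      · rcases lt_or_gt_of_ne hxR with hlt | hgt2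
        · -- in the annulus
          have hev : u =ᶠ[nhds x] v := by
            filter_upwards [(isOpen_lt continuous_norm continuous_const).mem_nhds hlt,
              (isOpen_lt continuous_const continuous_norm).mem_nhds hgt] with y hy hy2
            exact val2 y (le_of_lt hy2) hy
          rw [(hev.iteratedFDeriv ℝ j).eq_of_nhds]
          have h7 := H5 v hv x (by linarith) (by nlinarith) s
            (fun w hw => hBd w hw x ⟨hgt.le, hlt.le⟩) j hj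
          refine h7.trans ?_
          nlinarith
        · -- outside
          have hev : u =ᶠ[nhds x] g2 := by
            filter_upwards [(isOpen_lt continuous_const continuous_norm).mem_nhds hgt2] with y hy
            exact val3 y (le_of_lt hy)
          rw [(hev.iteratedFDeriv ℝ j).eq_of_nhds]
          rcases lt_or_ge (R ^ 2) ‖x‖ with h | h
          · have hev2 : g2 =ᶠ[nhds x] fun _ => 0 := by
              filter_upwards [(isOpen_lt continuous_const continuous_norm).mem_nhds h] with y hy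
              simp [hg2, z2 y (le_of_lt hy)]
            rw [(hev2.iteratedFDeriv ℝ j).eq_of_nhds]
            have h6 : ‖iteratedFDeriv ℝ j (fun _ : E3 => (0 : ℝ)) x‖ = 0 := by
              rw [iteratedFDeriv_fun_zero]
              simp
            rw [h6]
            nlinarith
          · have hG : ∀ i ≤ m, ‖iteratedFDeriv ℝ i G2 x‖ ≤ C5 * (A * s) :=
              H5 G2 sG2 x (by linarith) h (A * s) fun w hw =>
                x6G_words m c hR0 ha hb k1 k3 k2 hv hBd hs (by linarith)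
                  (fun j => x6_in_R hR (x6_lam m j).1 (x6_lam m j).2 hgt2.le h) w hw
            have h7 := x6_mul c2 sG2 hK2 (fun i hi => hb2 i hi x h) hG j hj
            refine h7.trans ?_
            have h8 : 2 ^ m * (K2 * (C5 * (A * s))) = 2 ^ m * (K2 * (C5 * A)) * s := by ring
            rw [h8]
            nlinarith
    have hcl2 := hcl.closure_subset_iff.2 hsub
    rw [(x6_dense R).closure_eq] at hcl2
    intro x
    exact hcl2 (mem_univ x)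

end UMB.Lin
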